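import Pool.Agent.AF21.Defs

/-!
# [AF21-FREE] Free homotopies

`free_null`: a loop freely homotopic to a null-homotopic loop is null-homotopic. Proof: let `δ s = L (s, 0) = L (s, 1)`, a path
from `x0` to `x1`. The map `L` gives `γ0 ≃ δ · γ1 · δ⁻¹` (for instance by
`h(u, t)` = the path `L(3 t u, 0)`, `L(u, 3 t - 1)`, `L(u (3 - 3 t), 0)` on the three thirds of `[0,1]`; or use the simply connected
square: `[0,1]²` is contractible, so in it the path `(0,0) → (0,1)` is homotopic to
`(0,0) → (1,0) → (1,1) → (0,1)`, `SimplyConnectedSpace.paths_homotopic`, and apply `L`: `Path.Homotopic.map`). As `γ1` is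
null-homotopic this is `δ · δ⁻¹ ≃ refl`.
`seg_free`: the loop of `H` along an arbitrary path from `y` to `y + m` is null-homotopic iff `segLoop H m` is; here in the
form needed: `H` periodic, `γ` a path in `ℝ^n` from `y` to `y + m`, `h : [0,1] × ℝ^n → Y` continuous, each `h s` periodic,
`h 0 = H`, and the loop `h 1 ∘ γ` null-homotopic; then `segLoop H m` is null-homotopic. Proof: `free_null` for the map
`L(s,t)` = for `s ∈ [0,1/3]`: `H (3 s y + t m)`; for `s ∈ [1/3, 2/3]`: `H ((2-3s)(y + t m) + (3s-1) γ t)`; for `s ∈ [2/3, 1]`: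
`h (3 s - 2) (γ t)` (or three applications of `free_null`, which is easier: no gluing).
-/

set_option autoImplicit false

open Set Topology

namespace AF21
variable {Y : Type} [TopologicalSpace Y]

theorem free_null {x0 x1 : Y} (γ0 : Path x0 x0) (γ1 : Path x1 x1) (L : unitInterval × unitInterval → Y)
    (hL : Continuous L) (h0 : ∀ t, L (0, t) = γ0 t) (h1 : ∀ t, L (1, t) = γ1 t)
    (he : ∀ s, L (s, 0) = L (s, 1)) (hn : γ1.Homotopic (Path.refl x1)) : γ0.Homotopic (Path.refl x0) := by
  have e0 : x0 = L (0, 0) := by rw [h0 0]; exact γ0.source.symm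
  have e1 : x1 = L (1, 0) := by rw [h1 0]; exact γ1.source.symm
  subst e0
  subst e1
  let Lc : C(unitInterval × unitInterval, Y) := ⟨L, hL⟩
  let P0 : Path ((0, 0) : unitInterval × unitInterval) (0, 1) := ⟨⟨fun t => (0, t), by fun_prop⟩, rfl, rfl⟩
  let P1 : Path ((1, 0) : unitInterval × unitInterval) (1, 1) := ⟨⟨fun t => (1, t), by fun_prop⟩, rfl, rfl⟩
  let Q0 : Path ((0, 0) : unitInterval × unitInterval) (1, 0) := ⟨⟨fun t => (t, 0), by fun_prop⟩, rfl, rfl⟩
  let Q1 : Path ((0, 1) : unitInterval × unitInterval) (1, 1) := ⟨⟨fun t => (t, 1), by fun_prop⟩, rfl, rfl⟩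
  have : ContractibleSpace unitInterval := (convex_Icc (0 : ℝ) 1).contractibleSpace ⟨0, by simp⟩
  have hh : P0.Homotopic (Q0.trans (P1.trans Q1.symm)) := SimplyConnectedSpace.paths_homotopic _ _
  have hm := (hh.map Lc).pathCast (rfl : L (0, 0) = L (0, 0)) (he 0)
  have hA : (P0.map Lc.continuous).cast (rfl : L (0, 0) = L (0, 0)) (he 0) = γ0 := by
    ext t
    exact h0 t
  let δ : Path (L (0, 0)) (L (1, 0)) := Q0.map Lc.continuous
  have hB : ((Q0.trans (P1.trans Q1.symm)).map Lc.continuous).cast (rfl : L (0, 0) = L (0, 0)) (he 0)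
      = δ.trans (γ1.trans δ.symm) := by
    ext t
    simp only [Path.cast_coe, Path.map_coe, Function.comp, Path.trans_apply, δ]
    split_ifs with h2 h3
    · rfl
    · exact h1 _
    · exact (he _).symm
  rw [hA, hB] at hm
  have h3 : (δ.trans (γ1.trans δ.symm)).Homotopic (δ.trans ((Path.refl _).trans δ.symm)) :=
    (Path.Homotopic.refl δ).hcomp (hn.hcomp (Path.Homotopic.refl _))
  have h4 : (δ.trans ((Path.refl _).trans δ.symm)).Homotopic (δ.trans δ.symm) :=
    (Path.Homotopic.refl δ).hcomp ⟨Path.Homotopy.reflTrans _⟩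
  have h5 : (δ.trans δ.symm).Homotopic (Path.refl _) := ⟨(Path.Homotopy.reflTransSymm δ).symm⟩
  exact hm.trans (h3.trans (h4.trans h5))

theorem seg_free {n : ℕ} (H : C(Fin n → ℝ, Y)) (hH : Per H) (m : Fin n → ℤ) (y : Fin n → ℝ)
    (γ : Path y (fun j => y j + m j)) (h : unitInterval × (Fin n → ℝ) → Y) (hh : Continuous h)
    (hper : ∀ s, Per (fun z => h (s, z))) (h0 : ∀ z, h (0, z) = H z) {x1 : Y} (γ1 : Path x1 x1)
    (h1 : ∀ t, h (1, γ t) = γ1 t) (hn : γ1.Homotopic (Path.refl x1)) :
    (segLoop H hH m).Homotopic (Path.refl _) := by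
  have hz : ∀ z : Fin n → ℝ, H (fun j => z j + m j) = H z := fun z => hH z m
  -- the loop of `H` along `γ`
  have e3 : h (0, y) = H y := h0 y
  let γ3 : Path (H y) (H y) :=
    (γ.map H.continuous).cast rfl (hz y).symm
  have n3 : γ3.Homotopic (Path.refl _) := by
    refine free_null γ3 γ1 (fun q => h (q.1, γ q.2)) (by fun_prop) (fun t => h0 _) h1 (fun s => ?_) hn
    have := hper s y m
    simp only [Path.source, Path.target]
    exact this.symm
  let γ2 : Path (H y) (H y) :=
    { toFun := fun t => H (fun j => y j + (t : ℝ) * m j)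
      continuous_toFun := by fun_prop
      source' := by simp
      target' := by simpa using hz y }
  have n2 : γ2.Homotopic (Path.refl _) := by
    refine free_null γ2 γ3 (fun q => H (fun j => (1 - (q.1 : ℝ)) * (y j + (q.2 : ℝ) * m j) + (q.1 : ℝ) * γ q.2 j))
      (by fun_prop) (fun t => ?_) (fun t => ?_) (fun s => ?_) n3
    · simp [γ2]
    · simp [γ3]
    · simp only [Path.source, Path.target, Set.Icc.coe_zero, Set.Icc.coe_one]
      rw [← hz]
      congr 1
      funext j
      ring
  refine free_null (segLoop H hH m) γ2 (fun q => H (fun j => (q.1 : ℝ) * y j + (q.2 : ℝ) * m j))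
      (by fun_prop) (fun t => ?_) (fun t => ?_) (fun s => ?_) n2
  · simp [segLoop]
  · simp [γ2]
  · simp only [Set.Icc.coe_zero, Set.Icc.coe_one]
    rw [← hz]
    congr 1
    funext j
    ring

end AF21
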