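import Pool.Agent.AF21.Defs

/-!
# [AF21-GRIDM] A generic grid misses a null set in codimension `l + 1`

Proof. For a finset `J ⊆ Fin D` with `l + 1` elements let `π_J : V → (J → ℝ)`, `y ↦ (⟪b j, y⟫)_{j ∈ J}`, `1`-Lipschitz for
the sup norm. So `μH[l+1] (π_J '' E) = 0` (`LipschitzWith.hausdorffMeasure_image_le`), and on `J → ℝ` (with
`Fintype.card J = l + 1`) `μH[card J] = volume` (`MeasureTheory.hausdorffMeasure_pi_real`), so `volume (π_J '' E) = 0`. The set
`B_J = {σ : J → ℝ | ∃ y ∈ E, ∃ m : J → ℤ, ∀ j, σ j = ⟪b j, y⟫ - δ m j}` is the union over the countable set of `m` of translates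
of `π_J '' E`, a null set. The set `{τ : Fin D → ℝ | τ|J ∈ B_J}` is null: the restriction `(Fin D → ℝ) → (J → ℝ)` pulls null
sets back to null sets (`MeasureTheory.measurePreserving_piEquivPiSubtypeProd` / `volume_preserving_piEquivPiSubtypeProd`, or
quasi-measure-preserving `Measure.pi`; take a measurable null superset first). So the union over the finitely many `J` is
null and there is `τ` outside (`volume univ ≠ 0` on `Fin D → ℝ`). If `y ∈ E` had more than `l` coordinates on the grid, choose
`J ⊆ onGrid b δ τ y` with `l + 1` elements; `gd b δ τ j y = 0` means `⟪b j, y⟫ - τ j = δ * round(..)`, so `τ|J ∈ B_J`.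
-/

set_option autoImplicit false

open Set Topology MeasureTheory
open scoped ContDiff InnerProductSpace

namespace AF21
variable {V : Type} [NormedAddCommGroup V] [InnerProductSpace ℝ V] [FiniteDimensional ℝ V]

/-- the coordinate projection of a null set of dimension `l + 1` to `l + 1` coordinates is a Lebesgue null set -/
theorem gridM_proj [MeasurableSpace V] [BorelSpace V] {D l : ℕ} (b : OrthonormalBasis (Fin D) ℝ V)
    {E : Set V} (hE : Measure.hausdorffMeasure ((l : ℝ) + 1) E = 0) (J : Finset (Fin D)) (hJ : J.card = l + 1) :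
    volume ((fun y : V => fun j : {x // x ∈ J} => ⟪b j, y⟫_ℝ) '' E) = 0 := by
  have hL : LipschitzWith 1 (fun y : V => fun j : {x // x ∈ J} => ⟪b j, y⟫_ℝ) := by
    apply LipschitzWith.of_dist_le_mul
    intro x y
    rw [NNReal.coe_one, one_mul]
    refine (dist_pi_le_iff dist_nonneg).2 fun j => ?_
    rw [Real.dist_eq, ← inner_sub_right, dist_eq_norm]
    refine (abs_real_inner_le_norm _ _).trans ?_
    rw [b.orthonormal.1 j, one_mul]
  have h1 := hL.hausdorffMeasure_image_le (d := (l:ℝ)+1) (by positivity) E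
  rw [hE, mul_zero] at h1
  have h2 : (Fintype.card {x // x ∈ J} : ℝ) = (l:ℝ) + 1 := by
    rw [Fintype.card_coe, hJ]; push_cast; rfl
  rw [← h2, hausdorffMeasure_pi_real] at h1
  exact le_antisymm h1 bot_le

/-- restriction to a set of coordinates pulls null sets back to null sets -/
theorem gridM_restrict {D : ℕ} (J : Finset (Fin D)) {B : Set ({x // x ∈ J} → ℝ)} (hB : volume B = 0) :
    volume {τ : Fin D → ℝ | (fun j : {x // x ∈ J} => τ j) ∈ B} = 0 := by
  classical
  have hmp := volume_preserving_piEquivPiSubtypeProd (fun _ : Fin D => ℝ) (fun x => x ∈ J)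
  have hB' : (@volume ({x // x ∈ J} → ℝ) (@MeasureSpace.pi {x // x ∈ J} (Subtype.fintype fun x => x ∈ J)
      (fun _ => ℝ) fun _ => Real.measureSpace)) B = 0 := by
    have hI : (Subtype.fintype fun x => x ∈ J) = (inferInstance : Fintype {x // x ∈ J}) :=
      Subsingleton.elim _ _
    rw [hI]
    exact hB
  have h2 := (Measure.quasiMeasurePreserving_fst
    (μ := (@volume ({x // x ∈ J} → ℝ) (@MeasureSpace.pi {x // x ∈ J} (Subtype.fintype fun x => x ∈ J)
      (fun _ => ℝ) fun _ => Real.measureSpace)))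
    (ν := (volume : Measure ({x // ¬ x ∈ J} → ℝ)))).preimage_null hB'
  exact hmp.quasiMeasurePreserving.preimage_null h2

theorem grid_generic [MeasurableSpace V] [BorelSpace V] {D l : ℕ} (b : OrthonormalBasis (Fin D) ℝ V)
    {E : Set V} (hE : Measure.hausdorffMeasure ((l : ℝ) + 1) E = 0) {δ : ℝ} (hδ : 0 < δ) :
    ∃ τ : Fin D → ℝ, ∀ y ∈ E, (onGrid b δ τ y).card ≤ l := by
  classical
  -- the bad set of a finset of coordinates
  set B : (J : Finset (Fin D)) → Set ({x // x ∈ J} → ℝ) := fun J =>
    ⋃ m : {x // x ∈ J} → ℤ, (fun σ : {x // x ∈ J} → ℝ => (fun j => δ * (m j : ℝ)) + σ) ⁻¹'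
      ((fun y : V => fun j : {x // x ∈ J} => ⟪b j, y⟫_ℝ) '' E) with hBdef
  have hB : ∀ J : Finset (Fin D), J.card = l + 1 → volume (B J) = 0 := by
    intro J hJ
    refine measure_iUnion_null fun m => ?_
    rw [measure_preimage_add]
    exact gridM_proj b hE J hJ
  have hN : volume (⋃ J ∈ (Finset.univ.filter (fun J : Finset (Fin D) => J.card = l + 1)),
      {τ : Fin D → ℝ | (fun j : {x // x ∈ J} => τ j) ∈ B J}) = 0 := by
    refine (measure_biUnion_null_iff (Finset.countable_toSet _)).2 fun J hJ => ?_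
    have hJ' : J.card = l + 1 := by simpa using hJ
    exact gridM_restrict J (hB J hJ')
  obtain ⟨τ, hτ⟩ : ∃ τ : Fin D → ℝ, τ ∉ (⋃ J ∈ (Finset.univ.filter (fun J : Finset (Fin D) => J.card = l + 1)),
      {τ : Fin D → ℝ | (fun j : {x // x ∈ J} => τ j) ∈ B J}) := by
    by_contra hcon
    push Not at hcon
    have hu : (⋃ J ∈ (Finset.univ.filter (fun J : Finset (Fin D) => J.card = l + 1)),
      {τ : Fin D → ℝ | (fun j : {x // x ∈ J} => τ j) ∈ B J}) = univ := eq_univ_of_forall hcon
    rw [hu] at hN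
    exact (NeZero.ne (volume : Measure (Fin D → ℝ))) (Measure.measure_univ_eq_zero.1 hN)
  refine ⟨τ, fun y hy => ?_⟩
  by_contra hcard
  push Not at hcard
  obtain ⟨J, hJsub, hJ⟩ := Finset.exists_subset_card_eq (Nat.succ_le_of_lt hcard)
  apply hτ
  refine mem_biUnion (x := J) (by simpa using hJ) ?_
  show (fun j : {x // x ∈ J} => τ j) ∈ B J
  rw [hBdef]
  refine mem_iUnion.2 ⟨fun j => round ((⟪b j, y⟫_ℝ - τ j) / δ), y, hy, ?_⟩
  funext j
  have hj := hJsub j.2
  have hg : gd b δ τ j y = 0 := by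
    have := hj
    unfold onGrid at this
    simpa using this
  unfold gd at hg
  have h0 := abs_eq_zero.1 hg
  simp only [Pi.add_apply]
  linarith

end AF21
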