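import Pool.Agent.AF21.Defs

/-!
# [AF21-GRIDT] The open sets of the grid

`gd_continuous`: `gd = δ * |z - round z|` with `z = (⟪b j, y⟫ - τ j)/δ`, and `z ↦ |z - round z|` is continuous (it is the
distance to `ℤ`, `1`-Lipschitz; e.g. `|z - round z| ≤ |z - m|` for all integers `m`, `round_le`, so
`|z - round z| ≤ |z' - round z'| + |z - z'|`). `0 ≤ gd ≤ δ/2` (`abs_sub_round`).
`UI_open`: a finite union of finite intersections of sets defined by strict inequalities.
`UI_cover`: `J = onGrid b δ τ y`. `onGrid_open`: the complement is the union over the finitely many `J` with `l + 1` elements of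
the closed sets `{y | ∀ j ∈ J, gd j y = 0}`.
`UI_path`: (a) if `y ∈ VJ J ∩ VJ J'`, `J.card = J'.card`, then `J = J'` (otherwise there are `a ∈ J \ J'`, `a' ∈ J' \ J`, and
`gd a < gd a' < gd a`). So the unit interval is the disjoint union of the open sets `{t | γ t ∈ VJ J}`, `J.card = i`, and it is
connected: there is one `J` with `γ t ∈ VJ J` for all `t`. (b) for `j ∉ J`, `0 < gd j (γ t)` for all `t`: the
continuous function `t ↦ (⟪b j, γ t⟫ - τ j)/δ` never is an integer, so its floor is constant (intermediate value theorem) and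
`|⟪b j, γ s⟫ - ⟪b j, γ t⟫| ≤ δ`. (c) for `j ∈ J` there is `j' ∉ J` (as `i < D`; if `i = 0` then `J` is empty), and
`gd j < gd j' ≤ δ/2`: the continuous function never is a half integer, so again it varies by at most `1`.
So all coordinates of `γ s - γ t` are at most `δ` in absolute value and `‖γ s - γ t‖ ≤ ∑_j |⟪b j, γ s - γ t⟫| ≤ D δ`
(`OrthonormalBasis.sum_repr`, `norm_sum_le`).
-/

set_option autoImplicit false

open Set Topology
open scoped ContDiff InnerProductSpace

namespace AF21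
variable {V : Type} [NormedAddCommGroup V] [InnerProductSpace ℝ V] {D : ℕ}

/-- the scaled coordinate -/
theorem gridt_gd_eq (b : OrthonormalBasis (Fin D) ℝ V) {δ : ℝ} (hδ : 0 < δ) (τ : Fin D → ℝ)
    (j : Fin D) (y : V) : gd b δ τ j y =
      δ * |(⟪b j, y⟫_ℝ - τ j) / δ - round ((⟪b j, y⟫_ℝ - τ j) / δ)| := by
  unfold gd
  rw [← abs_of_pos hδ, ← abs_mul, abs_of_pos hδ, mul_sub, mul_div_cancel₀ _ hδ.ne']

theorem gridt_gd_nonneg (b : OrthonormalBasis (Fin D) ℝ V) (δ : ℝ) (τ : Fin D → ℝ)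
    (j : Fin D) (y : V) : 0 ≤ gd b δ τ j y := abs_nonneg _

theorem gridt_round_cont : Continuous (fun z : ℝ => |z - round z|) := by
  have h : ∀ z z' : ℝ, |z - round z| ≤ |z' - round z'| + |z - z'| := by
    intro z z'
    have h1 := round_le z (round z')
    have h2 : |z - round z'| ≤ |z - z'| + |z' - round z'| := abs_sub_le _ _ _
    linarith
  refine (LipschitzWith.of_dist_le_mul (K := 1) fun z z' => ?_).continuous
  rw [Real.dist_eq, Real.dist_eq, NNReal.coe_one, one_mul, abs_sub_le_iff]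
  have h1 := h z z'
  have h2 := h z' z
  rw [abs_sub_comm z' z] at h2
  constructor <;> linarith

theorem gridt_coord_cont (b : OrthonormalBasis (Fin D) ℝ V) (δ : ℝ) (τ : Fin D → ℝ)
    (j : Fin D) : Continuous (fun y : V => (⟪b j, y⟫_ℝ - τ j) / δ) := by
  fun_prop

theorem gd_continuous (b : OrthonormalBasis (Fin D) ℝ V) {δ : ℝ} (hδ : 0 < δ) (τ : Fin D → ℝ) (j : Fin D) :
    Continuous (gd b δ τ j) := by
  have h : gd b δ τ j = fun y => δ * |(⟪b j, y⟫_ℝ - τ j) / δ -
      round ((⟪b j, y⟫_ℝ - τ j) / δ)| := funext fun y => gridt_gd_eq b hδ τ j y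
  rw [h]
  exact continuous_const.mul (gridt_round_cont.comp (gridt_coord_cont b δ τ j))

theorem gridt_VJ_open (b : OrthonormalBasis (Fin D) ℝ V) {δ : ℝ} (hδ : 0 < δ) (τ : Fin D → ℝ)
    (J : Finset (Fin D)) : IsOpen (VJ b δ τ J) := by
  have h : VJ b δ τ J = (⋂ i, ⋂ (_ : i ∈ J), ⋂ j, ⋂ (_ : j ∉ J), {y | gd b δ τ i y < gd b δ τ j y}) ∩
      (⋂ j, ⋂ (_ : j ∉ J), {y | 0 < gd b δ τ j y}) := by
    ext y
    simp only [VJ, mem_ofPred_eq, mem_inter_iff, mem_iInter]
  rw [h]
  refine IsOpen.inter ?_ ?_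
  · refine isOpen_iInter_of_finite fun i => isOpen_iInter_of_finite fun _ =>
      isOpen_iInter_of_finite fun j => isOpen_iInter_of_finite fun _ => ?_
    exact isOpen_lt (gd_continuous b hδ τ i) (gd_continuous b hδ τ j)
  · refine isOpen_iInter_of_finite fun j => isOpen_iInter_of_finite fun _ => ?_
    exact isOpen_lt continuous_const (gd_continuous b hδ τ j)

theorem UI_open (b : OrthonormalBasis (Fin D) ℝ V) {δ : ℝ} (hδ : 0 < δ) (τ : Fin D → ℝ) (i : ℕ) :
    IsOpen (UI b δ τ i) := by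
  have h : UI b δ τ i = ⋃ J : Finset (Fin D), ⋃ (_ : J.card = i), VJ b δ τ J := by
    ext y
    simp only [UI, mem_ofPred_eq, mem_iUnion, exists_prop]
  rw [h]
  exact isOpen_iUnion fun J => isOpen_iUnion fun _ => gridt_VJ_open b hδ τ J

theorem UI_cover (b : OrthonormalBasis (Fin D) ℝ V) (δ : ℝ) (τ : Fin D → ℝ) {y : V} {l : ℕ}
    (h : (onGrid b δ τ y).card ≤ l) : ∃ i ≤ l, y ∈ UI b δ τ i := by
  classical
  refine ⟨_, h, onGrid b δ τ y, rfl, ?_⟩
  have hmem : ∀ j, j ∈ onGrid b δ τ y ↔ gd b δ τ j y = 0 := by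
    intro j
    unfold onGrid
    simp
  have hpos : ∀ j, j ∉ onGrid b δ τ y → 0 < gd b δ τ j y := by
    intro j hj
    rw [hmem] at hj
    exact lt_of_le_of_ne (gridt_gd_nonneg b δ τ j y) (Ne.symm hj)
  refine ⟨fun i hi j hj => ?_, hpos⟩
  rw [(hmem i).1 hi]
  exact hpos j hj

theorem onGrid_open (b : OrthonormalBasis (Fin D) ℝ V) {δ : ℝ} (hδ : 0 < δ) (τ : Fin D → ℝ) (l : ℕ) :
    IsOpen {y | (onGrid b δ τ y).card ≤ l} := by
  classical
  rw [isOpen_iff_mem_nhds]
  intro y hy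
  have hmem : ∀ (x : V) (j : Fin D), j ∈ onGrid b δ τ x ↔ gd b δ τ j x = 0 := by
    intro x j
    unfold onGrid
    simp
  have h : ∀ᶠ x in 𝓝 y, ∀ j, gd b δ τ j y ≠ 0 → gd b δ τ j x ≠ 0 := by
    rw [Filter.eventually_all]
    intro j
    by_cases hj : gd b δ τ j y = 0
    · exact Filter.Eventually.of_forall fun x h0 => absurd hj h0
    · filter_upwards [(gd_continuous b hδ τ j).continuousAt.eventually_ne hj] with x hx _
      exact hx
  filter_upwards [h] with x hx
  refine le_trans (Finset.card_le_card fun j hj => ?_) hy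
  rw [hmem] at hj ⊢
  by_contra h0
  exact hx j h0 hj

theorem gridt_VJ_unique (b : OrthonormalBasis (Fin D) ℝ V) (δ : ℝ) (τ : Fin D → ℝ) {y : V}
    {J J' : Finset (Fin D)} (h : y ∈ VJ b δ τ J) (h' : y ∈ VJ b δ τ J') (hc : J.card = J'.card) :
    J = J' := by
  classical
  by_contra hne
  have h1 : ¬ J ⊆ J' := fun hs => hne (Finset.eq_of_subset_of_card_le hs hc.ge)
  have h2 : ¬ J' ⊆ J := fun hs => hne (Finset.eq_of_subset_of_card_le hs hc.le).symm
  rw [Finset.not_subset] at h1 h2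
  obtain ⟨a, ha, ha'⟩ := h1
  obtain ⟨c, hc1, hc2⟩ := h2
  exact lt_asymm (h.1 a ha c hc2) (h'.1 c hc1 a ha')

/-- a continuous function on the interval avoiding `c + ℤ` varies by at most one -/
theorem gridt_avoid {g : unitInterval → ℝ} (hg : Continuous g) (c : ℝ)
    (h : ∀ t, ∀ m : ℤ, g t ≠ m + c) (s t : unitInterval) : |g s - g t| ≤ 1 := by
  have key : ∀ s t : unitInterval, g s - g t ≤ 1 := by
    intro s t
    by_contra hlt
    push Not at hlt
    have h1 : g t - c ≤ ⌈g t - c⌉ := Int.le_ceil _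
    have h2 : (⌈g t - c⌉ : ℝ) < g t - c + 1 := Int.ceil_lt_add_one _
    obtain ⟨x, hx⟩ := mem_range_of_exists_le_of_exists_ge hg
      (c := (⌈g t - c⌉ : ℝ) + c) ⟨t, by linarith⟩ ⟨s, by linarith⟩
    exact h x _ hx
  rw [abs_sub_le_iff]
  exact ⟨key s t, key t s⟩

theorem UI_path (b : OrthonormalBasis (Fin D) ℝ V) {δ : ℝ} (hδ : 0 < δ) (τ : Fin D → ℝ) {i : ℕ}
    (hi : i < D ∨ i = 0) (γ : unitInterval → V) (hγ : Continuous γ) (h : ∀ t, γ t ∈ UI b δ τ i) :
    ∀ s t, ‖γ s - γ t‖ ≤ D * δ := by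
  classical
  choose J hJc hJ using h
  have hloc : IsLocallyConstant J := by
    rw [IsLocallyConstant.iff_eventually_eq]
    intro t
    have h1 : ∀ᶠ s in 𝓝 t, γ s ∈ VJ b δ τ (J t) :=
      hγ.continuousAt.eventually_mem ((gridt_VJ_open b hδ τ (J t)).mem_nhds (hJ t))
    filter_upwards [h1] with s hs
    exact gridt_VJ_unique b δ τ (hJ s) hs (by rw [hJc s, hJc t])
  have hconst : ∀ s t, J s = J t := fun s t => hloc.apply_eq_of_preconnectedSpace s t
  have hcoord : ∀ (j : Fin D) (s t : unitInterval),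
      |(⟪b j, γ s⟫_ℝ - τ j) / δ - (⟪b j, γ t⟫_ℝ - τ j) / δ| ≤ 1 := by
    intro j s t
    have hg : Continuous (fun t : unitInterval => (⟪b j, γ t⟫_ℝ - τ j) / δ) :=
      (gridt_coord_cont b δ τ j).comp hγ
    by_cases hj : j ∈ J s
    · -- the function avoids the half integers
      have hex : ∃ j', j' ∉ J s := by
        by_contra hno
        push Not at hno
        have hu : J s = Finset.univ := Finset.eq_univ_iff_forall.2 hno
        have hcard : (J s).card = D := by rw [hu, Finset.card_univ, Fintype.card_fin]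
        rw [hJc s] at hcard
        rcases hi with hi | hi
        · omega
        · have : (J s).card = 0 := by rw [hJc s, hi]
          rw [Finset.card_eq_zero] at this
          rw [this] at hj
          exact absurd hj (Finset.notMem_empty _)
      obtain ⟨j', hj'⟩ := hex
      refine gridt_avoid hg (1 / 2) (fun x m hx => ?_) s t
      have h1 := (hJ x).1 j (by rw [hconst x s]; exact hj) j' (by rw [hconst x s]; exact hj')
      rw [gridt_gd_eq b hδ, gridt_gd_eq b hδ, mul_lt_mul_iff_right₀ hδ] at h1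
      have h2 := abs_sub_round ((⟪b j', γ x⟫_ℝ - τ j') / δ)
      have h3 : |(⟪b j, γ x⟫_ℝ - τ j) / δ - round ((⟪b j, γ x⟫_ℝ - τ j) / δ)| < 1 / 2 :=
        lt_of_lt_of_le h1 h2
      set r : ℤ := round ((⟪b j, γ x⟫_ℝ - τ j) / δ) with hr
      rw [hx, abs_lt] at h3
      have h4 : ((m - r : ℤ) : ℝ) < 0 := by push_cast; linarith [h3.2]
      have h5 : (-1 : ℝ) < ((m - r : ℤ) : ℝ) := by push_cast; linarith [h3.1]
      have h6 : m - r < 0 := by exact_mod_cast h4
      have h7 : -1 < m - r := by exact_mod_cast h5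
      omega
    · -- the function avoids the integers
      refine gridt_avoid hg 0 (fun x m hx => ?_) s t
      have h1 := (hJ x).2 j (by rw [hconst x s]; exact hj)
      rw [gridt_gd_eq b hδ, hx, add_zero, round_intCast, sub_self, abs_zero, mul_zero] at h1
      exact lt_irrefl _ h1
  intro s t
  have hin : ∀ j, |⟪b j, γ s - γ t⟫_ℝ| ≤ δ := by
    intro j
    have h1 := hcoord j s t
    rw [← sub_div, abs_div, abs_of_pos hδ, div_le_one hδ] at h1
    rw [inner_sub_right]
    have h2 : ⟪b j, γ s⟫_ℝ - τ j - (⟪b j, γ t⟫_ℝ - τ j) = ⟪b j, γ s⟫_ℝ - ⟪b j, γ t⟫_ℝ := by ring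
    rwa [h2] at h1
  calc ‖γ s - γ t‖ = ‖∑ j, ⟪b j, γ s - γ t⟫_ℝ • b j‖ := by rw [b.sum_repr']
    _ ≤ ∑ j, ‖⟪b j, γ s - γ t⟫_ℝ • b j‖ := norm_sum_le _ _
    _ ≤ ∑ _j : Fin D, δ := by
        refine Finset.sum_le_sum fun j _ => ?_
        rw [norm_smul, Real.norm_eq_abs, b.orthonormal.1 j, mul_one]
        exact hin j
    _ = D * δ := by rw [Finset.sum_const, Finset.card_univ, Fintype.card_fin, nsmul_eq_mul]

end AF21
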