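import Pool.Agent.AF21.Defs

/-!
# [AF21-LAGR] Lagrange multipliers at nearest points

Proof. `P y = 0` since `y ∈ X ∩ W`. The function `φ z = ‖u - z‖²` has a local minimum at `y` on the set
`{z | P z = P y}` (near `y` this set is inside `X`, `W` is a neighbourhood of `y`):
`IsLocalExtrOn φ {z | P z = P y} y`. `IsLocalExtrOn.exists_linear_map_of_hasStrictFDerivAt` (Mathlib,
`Analysis/Calculus/LagrangeMultipliers`) gives `Λ : Module.Dual ℝ F`, `Λ₀ : ℝ`, `(Λ, Λ₀) ≠ 0`, with
`Λ (fderiv P y v) + Λ₀ • φ' v = 0`, where `φ' v = -2 ⟪u - y, v⟫`. If `Λ₀ = 0` then `Λ = 0` on the range of `fderiv P y`, which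
is everything, a contradiction. So `⟪u - y, v⟫ = (1 / (2 Λ₀)) Λ (fderiv P y v)`; represent `Λ / (2 Λ₀)` by a vector
`μ` (`InnerProductSpace.toDual`, `LinearMap.toContinuousLinearMap`; finite-dimensional, so complete:
`FiniteDimensional.complete ℝ F`).
-/

set_option autoImplicit false

open Set Topology
open scoped ContDiff InnerProductSpace

namespace AF21
variable {V F : Type} [NormedAddCommGroup V] [InnerProductSpace ℝ V] [FiniteDimensional ℝ V]
  [NormedAddCommGroup F] [InnerProductSpace ℝ F] [FiniteDimensional ℝ F]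

theorem lagr {X : Set V} {P : V → F} {W : Set V} (h : LocEq X P W) {y u : V} (hy : y ∈ W)
    (hn : IsNear X u y) : ∃ μ : F, ∀ v : V, ⟪u - y, v⟫_ℝ = ⟪μ, fderiv ℝ P y v⟫_ℝ := by
  have : CompleteSpace F := FiniteDimensional.complete ℝ F
  have : CompleteSpace V := FiniteDimensional.complete ℝ V
  have hPy : P y = 0 := (h.iff y hy).mp hn.1
  have hf' : HasStrictFDerivAt P (fderiv ℝ P y) y :=
    (h.smooth.contDiffAt (x := y)).hasStrictFDerivAt (by simp)
  have hφ : HasStrictFDerivAt (fun z => ‖u - z‖ ^ 2) ((2 : ℝ) • (innerSL ℝ (u - y)).comp (-ContinuousLinearMap.id ℝ V)) y := by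
    have h1 : HasStrictFDerivAt (fun z : V => u - z) (-ContinuousLinearMap.id ℝ V) y :=
      (hasStrictFDerivAt_id y).const_sub u
    have h2 := (hasStrictFDerivAt_norm_sq (u - y)).comp y h1
    have h3 : (2 • innerSL ℝ (u - y)).comp (-ContinuousLinearMap.id ℝ V)
        = (2 : ℝ) • (innerSL ℝ (u - y)).comp (-ContinuousLinearMap.id ℝ V) := by
      ext v
      simp
      ring
    rw [← h3]
    exact h2
  have hmin : IsLocalExtrOn (fun z => ‖u - z‖ ^ 2) {x | P x = P y} y := by
    left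
    show ∀ᶠ z in 𝓝[{x | P x = P y}] y, ‖u - y‖ ^ 2 ≤ ‖u - z‖ ^ 2
    rw [eventually_nhdsWithin_iff]
    filter_upwards [h.isOpen.mem_nhds hy] with z hzW hz
    have hz' : P z = 0 := by rw [← hPy]; exact hz
    have h3 := hn.2 z ((h.iff z hzW).mpr hz')
    gcongr
  obtain ⟨Λ, Λ₀, hne, hΛ⟩ := hmin.exists_linear_map_of_hasStrictFDerivAt hf' hφ
  have hΛ₀ : Λ₀ ≠ 0 := by
    intro h0
    apply hne
    rw [h0]
    have : Λ = 0 := by
      ext w
      obtain ⟨v, rfl⟩ := h.surj y hy w
      have := hΛ v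
      rw [h0, zero_smul, add_zero] at this
      rw [this]
      rfl
    rw [this]
    rfl
  let Λc : F →L[ℝ] ℝ := LinearMap.toContinuousLinearMap Λ
  refine ⟨(1 / (2 * Λ₀)) • (InnerProductSpace.toDual ℝ F).symm Λc, fun v => ?_⟩
  rw [inner_smul_left, InnerProductSpace.toDual_symm_apply]
  have h1 := hΛ v
  have h2 : Λc (fderiv ℝ P y v) = Λ (fderiv ℝ P y v) := rfl
  rw [h2]
  simp only [_root_.smul_apply, ContinuousLinearMap.comp_apply, innerSL_apply_apply,
    _root_.neg_apply, ContinuousLinearMap.id_apply, inner_neg_right, smul_eq_mul] at h1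
  simp only [conj_trivial]
  field_simp
  linarith

end AF21
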