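import Pool.Agent.AF21.SardLoc
import Pool.Agent.AF21.Lagr

/-!
# [AF21-SARD] For generic `p` the fixed points of proximal steps are isolated

Proof. `borelize V`. For every `c ∈ X` choose `(P, W)` from `hX.loc` and `(W', Z)` from `sard_loc`. `X` is a Lindelöf
space (subset of a second countable space): countably many of the sets `W'` cover `X`
(`TopologicalSpace.countable_cover_nhds`, `isOpen_sUnion_countable`, or `IsLindelof`/`HereditarilyLindelofSpace`).
The union of the corresponding `Z` is a null set, so its complement is not empty (`volume univ ≠ 0`, `volume` is open-positive;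
`V` may be zero-dimensional, then `volume univ = 1`): take `p` outside. Let `c ∈ X` be such that
`IsNear X (c + e (p - c)) c`; `c` is in one of the chosen `W'`, by `lagr` (in the chart `(P, W)` of this `W'`, `c ∈ W' ⊆ W`)
`⟪e (p - c), ·⟫ = ⟪μ, fderiv P c ·⟫`, divide by `e`. `sard_loc` gives `ε`; shrink `ε` so that the ball about `c` is inside `W`. If
`y ∈ X`, `‖y - c‖ < ε`, `IsNear X (y + e (p - y)) y`, then again `lagr` gives a multiplier at `y`, so `y = c`.
-/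

set_option autoImplicit false

open Set Topology
open scoped ContDiff InnerProductSpace

namespace AF21
variable {V F : Type} [NormedAddCommGroup V] [InnerProductSpace ℝ V] [FiniteDimensional ℝ V]
  [NormedAddCommGroup F] [InnerProductSpace ℝ F] [FiniteDimensional ℝ F]

/-- multiplier at a fixed point of a proximal step -/
theorem mult_of_near {X : Set V} {P : V → F} {W : Set V} (h : LocEq X P W) {p y : V} (hy : y ∈ W)
    {e : ℝ} (he : 0 < e) (hn : IsNear X (y + e • (p - y)) y) :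
    ∃ μ : F, ∀ v : V, ⟪p - y, v⟫_ℝ = ⟪μ, fderiv ℝ P y v⟫_ℝ := by
  obtain ⟨μ, hμ⟩ := lagr h hy hn
  refine ⟨e⁻¹ • μ, fun v => ?_⟩
  have h1 := hμ v
  rw [add_sub_cancel_left, real_inner_smul_left] at h1
  rw [real_inner_smul_left, ← h1, ← mul_assoc, inv_mul_cancel₀ he.ne', one_mul]

theorem sard {X : Set V} {l : ℕ} (hX : Nice X F l) : ∃ p : V, ∀ e : ℝ, 0 < e → IsoFix X p e := by
  borelize V
  have hch : ∀ c : X, ∃ (P : V → F) (W W' Z : Set V), LocEq X P W ∧ IsOpen W' ∧ (c : V) ∈ W' ∧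
      W' ⊆ W ∧ MeasureTheory.volume Z = 0 ∧
      ∀ p ∉ Z, ∀ y ∈ X, y ∈ W' → (∃ μ : F, ∀ v : V, ⟪p - y, v⟫_ℝ = ⟪μ, fderiv ℝ P y v⟫_ℝ) →
        ∃ ε > 0, ∀ z ∈ X, (∃ μ : F, ∀ v : V, ⟪p - z, v⟫_ℝ = ⟪μ, fderiv ℝ P z v⟫_ℝ) →
          ‖z - y‖ < ε → z = y := by
    rintro ⟨c, hc⟩
    obtain ⟨P, W, hcW, hP, -⟩ := hX.loc c hc
    obtain ⟨W', h1, h2, h3, Z, h4, h5⟩ := sard_loc hP hcW hc
    exact ⟨P, W, W', Z, hP, h1, h2, h3, h4, h5⟩
  choose P W W' Z hP hW'o hcW' hW'W hZ hmain using hch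
  have hL : IsLindelof X := HereditarilyLindelofSpace.isLindelof X
  obtain ⟨t, htc, hcov⟩ := hL.elim_nhds_subcover'
    (fun x hx => W' ⟨x, hx⟩) (fun x hx => (hW'o _).mem_nhds (hcW' ⟨x, hx⟩))
  have hN : MeasureTheory.volume (⋃ x ∈ t, Z x) = 0 :=
    (MeasureTheory.measure_biUnion_null_iff htc).2 fun x _ => hZ x
  obtain ⟨p, hp⟩ : ∃ p : V, p ∉ ⋃ x ∈ t, Z x := by
    by_contra hcon
    push Not at hcon
    have h1 : (⋃ x ∈ t, Z x) = univ := eq_univ_of_forall hcon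
    rw [h1] at hN
    exact (isOpen_univ.measure_ne_zero MeasureTheory.volume ⟨(0 : V), mem_univ _⟩) hN
  refine ⟨p, fun e he c hc hcn => ?_⟩
  obtain ⟨x, hxt, hcx⟩ := mem_iUnion₂.1 (hcov hc)
  have hcx' : c ∈ W' x := hcx
  have hpx : p ∉ Z x := fun h => hp (mem_iUnion₂.2 ⟨x, hxt, h⟩)
  obtain ⟨ε, hε, hmin⟩ := hmain x p hpx c hc hcx' (mult_of_near (hP x) (hW'W x hcx') he hcn)
  obtain ⟨δ, hδ, hball⟩ := Metric.mem_nhds_iff.1 ((hP x).isOpen.mem_nhds (hW'W x hcx'))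
  refine ⟨min ε δ, lt_min hε hδ, fun y hy hyn hyc => ?_⟩
  have hyW : y ∈ W x := hball (by
    rw [Metric.mem_ball, dist_eq_norm]
    exact hyc.trans_le (min_le_right _ _))
  exact hmin y hy (mult_of_near (hP x) hyW he hyn) (hyc.trans_le (min_le_left _ _))

end AF21
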