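import Pool.Agent.AF21.Tube

/-!
# [AF21-SMALL] Small loops are null-homotopic

Proof. Take `ρ, q` from `tube` for `K`. Let `γ` be a loop at `x ∈ K` inside the ball of radius `ρ` about `x`. For
`(s, t)` the point `u = (1-s) γ(t) + s x` has `‖u - x‖ < ρ`, so it is in `thickening ρ K`, `q u ∈ X`, and `(s,t) ↦ q u` is
continuous (`q` is Lipschitz on the thickening). For `s = 0`: `u = γ(t) ∈ X`, `q u = u` (`IsNear X u (q u)`, compare with
`z = u`). For `s = 1`: `u = x`, `q x = x`. For `t ∈ {0, 1}`: `u = x`. So it is a homotopy of paths from `γ` to the constant path.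
-/

set_option autoImplicit false

open Set Topology
open scoped ContDiff InnerProductSpace

namespace AF21
variable {V F : Type} [NormedAddCommGroup V] [InnerProductSpace ℝ V] [FiniteDimensional ℝ V]
  [NormedAddCommGroup F] [InnerProductSpace ℝ F] [FiniteDimensional ℝ F]

theorem small_loops {X : Set V} {l : ℕ} (hX : Nice X F l) {K : Set V} (hK : IsCompact K) (hKX : K ⊆ X) :
    ∃ ρ > 0, ∀ (x : ↥X) (γ : Path x x), (x : V) ∈ K → (∀ t, ‖((γ t : ↥X) : V) - x‖ < ρ) →
      γ.Homotopic (Path.refl x) := by
  obtain ⟨ρ, hρ, q, hq1, hq2⟩ := tube hX hK hKX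
  refine ⟨ρ, hρ, fun x γ hx hγ => ?_⟩
  have hcont : ContinuousOn q (Metric.thickening ρ K) := by
    intro z hz
    rw [Metric.continuousWithinAt_iff]
    intro ε hε
    refine ⟨ε / 2, by positivity, fun {w} hw hd => ?_⟩
    have h := hq2 w hw z hz
    rw [dist_eq_norm] at hd ⊢
    linarith
  have hfix : ∀ y ∈ X, y ∈ Metric.thickening ρ K → q y = y := by
    intro y hy hy2
    have h := (hq1 y hy2).2 y hy
    rw [sub_self, norm_zero] at h
    exact (sub_eq_zero.mp (norm_eq_zero.mp (le_antisymm h (norm_nonneg _)))).symm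
  let U : unitInterval × unitInterval → V := fun z =>
    (1 - (z.1 : ℝ)) • ((γ z.2 : ↥X) : V) + (z.1 : ℝ) • (x : V)
  have hU : Continuous U := by fun_prop
  have hmem : ∀ z, U z ∈ Metric.thickening ρ K := by
    intro z
    rw [Metric.mem_thickening_iff]
    refine ⟨x, hx, ?_⟩
    have e1 : U z - x = (1 - (z.1 : ℝ)) • (((γ z.2 : ↥X) : V) - x) := by
      simp only [U]
      module
    rw [dist_eq_norm, e1, norm_smul, Real.norm_eq_abs, abs_of_nonneg (by linarith [z.1.2.2])]
    have h1 := hγ z.2
    have h2 := z.1.2.1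
    have h3 := norm_nonneg (((γ z.2 : ↥X) : V) - x)
    nlinarith
  have hc : Continuous (fun z => q (U z)) := hcont.comp_continuous hU hmem
  refine ⟨{ toFun := fun z => ⟨q (U z), (hq1 _ (hmem z)).1⟩
            continuous_toFun := hc.subtype_mk _
            map_zero_left := fun t => ?_
            map_one_left := fun t => ?_
            prop' := fun s t ht => ?_ }⟩
  · apply Subtype.ext
    have e1 : U (0, t) = ((γ t : ↥X) : V) := by simp [U]
    have e2 := hfix _ (γ t).2 (e1 ▸ hmem (0, t))
    show q (U (0, t)) = _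
    rw [e1, e2]
    rfl
  · apply Subtype.ext
    have e1 : U (1, t) = (x : V) := by simp [U]
    have e2 := hfix _ x.2 (e1 ▸ hmem (1, t))
    show q (U (1, t)) = _
    rw [e1, e2]
    rfl
  · apply Subtype.ext
    have e0 : ((γ t : ↥X) : V) = x := by
      rcases ht with h | h
      · rw [h, γ.source]
      · rw [Set.mem_singleton_iff.mp h, γ.target]
    have e1 : U (s, t) = (x : V) := by
      simp only [U, e0]
      module
    have e2 := hfix _ x.2 (e1 ▸ hmem (s, t))
    show q (U (s, t)) = _
    rw [e1, e2, ← e0]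
    rfl

end AF21
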