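import Pool.Agent.AF21.TorComb

/-!
# [AF21-TCOVER] Covering `ℝ^n` by `n` periodic open sets

Proof (by contradiction). Assume that for all `i, y, m` with `JoinedIn (O i) y (y + m)` all `m j` are divisible by
`p`. Translations by `m ∈ ℤ^n` map `O i` to itself (use `hper` for `m` and `-m`), and map paths to paths, so
`JoinedIn (O i) y y' ↔ JoinedIn (O i) (y+m) (y'+m)`.
Labels: on `O i` let `y ≈ y'` iff there is `m` with `JoinedIn (O i) y (y' + m)`; an equivalence relation. Choose a
representative `r y` of the class of `y` and `m` with `JoinedIn (O i) (r y + m) y`; `lam i y := (m i : ZMod p)`.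
It does not depend on the choice of `m`: if `JoinedIn (r + m) y` and `JoinedIn (r + m') y`, then
`JoinedIn r (r + (m' - m))`, so `p ∣ m' i - m i`. Hence `lam i y = lam i y'` if `JoinedIn (O i) y y'`, and
`lam i (y + m) = lam i y + m i`.
Lebesgue number: there is `N > 0` such that each cube `∏ [u_a / N, (u_a + 1)/N]`, `u ∈ ℤ^n`, lies in some `O i`
(`lebesgue_number_lemma` for the compact cube `[0,1]^n`, or `[0,2]^n`, and periodicity; sup norm on `Fin n → ℝ`,
so the cube has diameter `≤ 1/N`).
`G j u := lam j (u / N)` if `u/N ∈ O j`, and `((u j / N : ℤ) : ZMod p)` (floor division) otherwise. It satisfies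
`G j (u + N m) = G j u + m j`. For every simplex `(v, π)` with `v` in the box, all vertices `vtx π v j / N`, `j ≤ n`, lie in
the cube of `v`, which lies in some `O i`; the cube is convex, hence all these points are joined in `O i`, so
`G i (v_{i+1}) - G i (v_i) = 0` and the product is `0`. So `Sg n N ... = 0`. But it is `1` by `Sg_eq_one`, in
`ZMod p`, a contradiction as `p` is prime (`ZMod p` is nontrivial). For `n = 0` the hypothesis `hcov` is absurd.
-/

set_option autoImplicit false

namespace AF21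

section aux

variable {n : ℕ} {p : ℕ} {O : Fin n → Set (Fin n → ℝ)}

/-- translation of joined points -/
theorem tc_shift (hper : ∀ (i : Fin n) (y : Fin n → ℝ) (m : Fin n → ℤ), y ∈ O i →
    (fun j => y j + m j) ∈ O i) {i : Fin n} {y y' : Fin n → ℝ} (m : Fin n → ℤ)
    (h : JoinedIn (O i) y y') :
    JoinedIn (O i) (fun j => y j + m j) (fun j => y' j + m j) := by
  have hf : Continuous (fun (z : Fin n → ℝ) (j : Fin n) => z j + (m j : ℝ)) := by fun_prop
  refine (h.map_continuousOn hf.continuousOn).mono ?_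
  rintro _ ⟨z, hz, rfl⟩
  exact hper i z m hz

/-- the setoid of points of `O i` which are joined up to translation -/
def tcSetoid (hper : ∀ (i : Fin n) (y : Fin n → ℝ) (m : Fin n → ℤ), y ∈ O i →
    (fun j => y j + m j) ∈ O i) (i : Fin n) : Setoid (O i) where
  r a b := ∃ m : Fin n → ℤ, JoinedIn (O i) a.1 (fun j => b.1 j + m j)
  iseqv := by
    refine ⟨fun a => ⟨0, ?_⟩, ?_, ?_⟩
    · have h : (fun j => a.1 j + ((0 : Fin n → ℤ) j : ℝ)) = a.1 := by
        funext j
        simp
      rw [h]
      exact JoinedIn.refl a.2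
    · rintro a b ⟨m, h⟩
      refine ⟨-m, ?_⟩
      have h1 := tc_shift hper (-m) h.symm
      have h2 : (fun j => (fun j => b.1 j + (m j : ℝ)) j + ((-m) j : ℝ)) = b.1 := by
        funext j
        simp
      rw [h2] at h1
      exact h1
    · rintro a b c ⟨m, h⟩ ⟨m', h'⟩
      refine ⟨m' + m, ?_⟩
      have h1 := h.trans (tc_shift hper m h')
      have h2 : (fun j => (fun j => c.1 j + (m' j : ℝ)) j + (m j : ℝ)) =
          fun j => c.1 j + ((m' + m) j : ℝ) := by
        funext j
        simp
        ring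
      rw [h2] at h1
      exact h1

/-- the representative is joined to a translate of the point -/
theorem tc_rep (hper : ∀ (i : Fin n) (y : Fin n → ℝ) (m : Fin n → ℤ), y ∈ O i →
    (fun j => y j + m j) ∈ O i) (i : Fin n) (a : O i) : ∃ m : Fin n → ℤ,
    JoinedIn (O i) (Quotient.out (Quotient.mk (tcSetoid hper i) a)).1
      (fun j => a.1 j + m j) :=
  Quotient.exact (Quotient.out_eq (Quotient.mk (tcSetoid hper i) a))

open Classical in
/-- the label -/
noncomputable def tcLam (p : ℕ) (hper : ∀ (i : Fin n) (y : Fin n → ℝ) (m : Fin n → ℤ), y ∈ O i →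
    (fun j => y j + m j) ∈ O i) (i : Fin n) (y : Fin n → ℝ) : ZMod p :=
  if h : y ∈ O i then -(((tc_rep hper i ⟨y, h⟩).choose i : ℤ) : ZMod p) else 0

theorem tc_lam (hper : ∀ (i : Fin n) (y : Fin n → ℝ) (m : Fin n → ℤ), y ∈ O i →
    (fun j => y j + m j) ∈ O i)
    (hcon : ∀ (i : Fin n) (y : Fin n → ℝ) (m : Fin n → ℤ),
      JoinedIn (O i) y (fun j => y j + m j) → ∀ j, (p : ℤ) ∣ m j)
    (i : Fin n) {a b : Fin n → ℝ} (ha : a ∈ O i) (hb : b ∈ O i) (k : Fin n → ℤ)
    (h : JoinedIn (O i) a (fun j => b j + k j)) :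
    tcLam p hper i a = tcLam p hper i b + (k i : ZMod p) := by
  rw [tcLam, tcLam, dif_pos ha, dif_pos hb]
  have hs : Quotient.mk (tcSetoid hper i) ⟨a, ha⟩ = Quotient.mk (tcSetoid hper i) ⟨b, hb⟩ :=
    Quotient.sound ⟨k, h⟩
  have h1 := (tc_rep hper i ⟨a, ha⟩).choose_spec
  have h2 := (tc_rep hper i ⟨b, hb⟩).choose_spec
  set m := (tc_rep hper i ⟨a, ha⟩).choose
  set m' := (tc_rep hper i ⟨b, hb⟩).choose
  rw [hs] at h1
  have h3 : JoinedIn (O i) (fun j => b j + (m' j : ℝ)) (fun j => a j + (m j : ℝ)) :=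
    h2.symm.trans h1
  have h4 := h3.trans (tc_shift hper m h)
  have h5 := tc_shift hper (-m') h4
  have e1 : (fun j => (fun j => b j + (m' j : ℝ)) j + ((-m') j : ℝ)) = b := by
    funext j
    simp
  have e2 : (fun j => (fun j => (fun j => b j + (k j : ℝ)) j + (m j : ℝ)) j + ((-m') j : ℝ)) =
      fun j => b j + ((k + m - m') j : ℝ) := by
    funext j
    simp
    ring
  rw [e1, e2] at h5
  have h6 := hcon i b _ h5 i
  have h7 : (((k i + m i - m' i : ℤ)) : ZMod p) = 0 :=
    (ZMod.intCast_zmod_eq_zero_iff_dvd _ p).2 h6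
  push_cast at h7
  linear_combination -h7

end aux

theorem torus_cover {n : ℕ} (p : ℕ) (hp : p.Prime) (O : Fin n → Set (Fin n → ℝ)) (hO : ∀ i, IsOpen (O i))
    (hper : ∀ (i : Fin n) (y : Fin n → ℝ) (m : Fin n → ℤ), y ∈ O i → (fun j => y j + m j) ∈ O i)
    (hcov : ∀ y, ∃ i, y ∈ O i) :
    ∃ (i : Fin n) (y : Fin n → ℝ) (m : Fin n → ℤ), (¬ ∀ j, (p : ℤ) ∣ m j) ∧
      JoinedIn (O i) y (fun j => y j + m j) := by
  classical
  by_contra hneg
  have hcon : ∀ (i : Fin n) (y : Fin n → ℝ) (m : Fin n → ℤ),
      JoinedIn (O i) y (fun j => y j + m j) → ∀ j, (p : ℤ) ∣ m j := by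
    intro i y m h
    by_contra h1
    exact hneg ⟨i, y, m, h1, h⟩
  -- Lebesgue number
  obtain ⟨δ, hδ, hball⟩ := lebesgue_number_lemma_of_metric
    (isCompact_Icc (a := (0 : Fin n → ℝ)) (b := 1)) hO
    (fun y _ => Set.mem_iUnion.2 (hcov y))
  obtain ⟨N₀, hN₀⟩ := exists_nat_gt (1 / δ)
  set N : ℕ := N₀ + 1 with hNdef
  have hN : 0 < N := by omega
  have hNR : (0 : ℝ) < N := by exact_mod_cast hN
  have hNδ : 1 / (N : ℝ) < δ := by
    rw [div_lt_comm₀ hNR hδ]
    refine hN₀.trans ?_
    rw [hNdef]
    push_cast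
    linarith
  -- the points of the grid
  set pt : (Fin n → ℤ) → Fin n → ℝ := fun u a => (u a : ℝ) / N with hpt
  have hptm : ∀ (u m : Fin n → ℤ), pt (fun a => u a + N * m a) = fun a => pt u a + m a := by
    intro u m
    funext a
    simp only [hpt]
    push_cast
    field_simp
  set G : Fin n → (Fin n → ℤ) → ZMod p := fun j u =>
    if pt u ∈ O j then tcLam p hper j (pt u) else ((u j / (N : ℤ) : ℤ) : ZMod p) with hG
  have hGper : ∀ (j : Fin n) (u m : Fin n → ℤ),
      G j (fun a => u a + N * m a) = G j u + (m j : ZMod p) := by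
    intro j u m
    simp only [hG]
    by_cases h : pt u ∈ O j
    · have h' : pt (fun a => u a + N * m a) ∈ O j := by
        rw [hptm]
        exact hper j _ m h
      rw [if_pos h', if_pos h]
      refine tc_lam hper hcon j h' h m ?_
      rw [hptm]
      refine JoinedIn.refl ?_
      rw [← hptm]
      exact h'
    · have h' : pt (fun a => u a + N * m a) ∉ O j := by
        intro h1
        apply h
        have h2 := hper j _ (-m) h1
        rw [hptm] at h2
        have h3 : (fun a => (fun a => pt u a + (m a : ℝ)) a + ((-m) a : ℝ)) = pt u := by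
          funext a
          simp
        rw [h3] at h2
        exact h2
      rw [if_neg h', if_neg h, Int.add_mul_ediv_left _ _ (by exact_mod_cast hN.ne')]
      push_cast
      rfl
  have hone := Sg_eq_one hN G hGper
  have hzero : Sg n N (fun w => ∏ j : Fin n, (G j (w (j + 1)) - G j (w j))) = 0 := by
    unfold Sg
    refine Finset.sum_eq_zero fun v hv => Finset.sum_eq_zero fun π _ => ?_
    have hv' : ∀ a, 0 ≤ v a ∧ v a < N := by
      intro a
      have := Fintype.mem_piFinset.1 hv a
      rwa [Finset.mem_Ico] at this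
    have hmem : pt v ∈ Set.Icc (0 : Fin n → ℝ) 1 := by
      refine ⟨fun a => ?_, fun a => ?_⟩
      · have : (0 : ℝ) ≤ v a := by exact_mod_cast (hv' a).1
        simp only [hpt, Pi.zero_apply]
        positivity
      · have : (v a : ℝ) < N := by exact_mod_cast (hv' a).2
        simp only [hpt, Pi.one_apply]
        rw [div_le_one hNR]
        exact this.le
    obtain ⟨i, hi⟩ := hball _ hmem
    have hvtx : ∀ j : ℕ, pt (vtx π v j) ∈ Metric.ball (pt v) δ := by
      intro j
      rw [Metric.mem_ball]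
      refine lt_of_le_of_lt ?_ hNδ
      rw [dist_pi_le_iff (by positivity)]
      intro a
      rw [Real.dist_eq]
      simp only [hpt, vtx]
      push_cast
      have h1 : ((v a : ℝ) + if ((π.symm a : Fin n) : ℕ) < j then (1 : ℝ) else 0) / N -
          (v a : ℝ) / N = (if ((π.symm a : Fin n) : ℕ) < j then (1 : ℝ) else 0) / N := by
        ring
      rw [h1]
      split_ifs
      · rw [abs_of_nonneg (by positivity)]
      · rw [zero_div, abs_zero]
        positivity
    have hfac : G i (vtx π v (i + 1)) - G i (vtx π v i) = 0 := by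
      simp only [hG]
      have ha := hi (hvtx (i + 1))
      have hb := hi (hvtx i)
      rw [if_pos ha, if_pos hb]
      have hJ : JoinedIn (O i) (pt (vtx π v (i + 1))) (pt (vtx π v i)) := by
        have hpc := (convex_ball (pt v) δ).isPathConnected ⟨pt v, Metric.mem_ball_self hδ⟩
        exact (hpc.joinedIn _ (hvtx (i + 1)) _ (hvtx i)).mono hi
      have h0 : (fun j => pt (vtx π v i) j + ((0 : Fin n → ℤ) j : ℝ)) = pt (vtx π v i) := by
        funext j
        simp
      have h1 := tc_lam hper hcon i ha hb 0 (by rw [h0]; exact hJ)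
      rw [h1]
      simp
    have hprod : ∏ j : Fin n, (G j (vtx π v (j + 1)) - G j (vtx π v j)) = 0 :=
      Finset.prod_eq_zero (Finset.mem_univ i) hfac
    exact mul_eq_zero_of_right _ hprod
  rw [hzero] at hone
  have : Fact p.Prime := ⟨hp⟩
  exact zero_ne_one hone

end AF21
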