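import Pool.Agent.AF21.Att
import Pool.Agent.AF21.Sard
import Pool.Agent.AF21.Small
import Pool.Agent.AF21.GridM
import Pool.Agent.AF21.GridT
import Pool.Agent.AF21.Free
import Pool.Agent.AF21.TorCover

/-!
# [AF21-AFMAIN] The torus property of `Nice` spaces

Proof. Let `H : ℝ^(l+1) → X` be periodic, `p` a prime. `borelize V`; `p0` from `sard hX`; the image of `H` is compact
(it is the image of the cube `[0,1]^(l+1)`, by periodicity), so there is `R` with `‖H y - p0‖ ≤ R` for all `y`; `D` from
`step_exists hX p0 R`; `IsoFix X p0 D.e`. `K = K0 X p0 R` compact. `ρ` from `small_loops hX` for `K`. Let `n = finrank ℝ V`,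
`b = stdOrthonormalBasis ℝ V`, `δ = ρ / (n + 1)`; so `n δ < ρ`. `E = attr D` has `μH[l+1] E = 0` (`attr_null`); `τ` from
`grid_generic`. The set `O = {y | (onGrid b δ τ y).card ≤ l}` is open (`onGrid_open`) and contains `E = ⋂ Ψ^j K`, a decreasing
intersection of compact sets, so `Ψ^j K ⊆ O` for some `j` (`IsCompact.elim_directed_family_closed_of_isCompact`,
`exists_subset_nhds_of_isCompact'`...).
Put `Hj = Ψ^j ∘ H : ℝ^(l+1) → X` (continuous, periodic) and `O_i = Hj ⁻¹ (UI b δ τ i)` for `i : Fin (l+1)`: open (`UI_open`),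
periodic, they cover (`UI_cover`). `torus_cover` gives `i, y, m` and a path `γ` in `O_i` from `y` to `y + m`. The loop
`Hj ∘ γ` of `X` stays in `UI b δ τ i`, so by `UI_path` (`i < n ∨ i = 0`: from `hdim`, if `l < n` then `i ≤ l < n`, if `l = 0` then
`i = 0`) it stays within `n δ < ρ` of its base point, which is in `K`; so it is null-homotopic in `X` by `small_loops`.
The homotopy from `H` to `Hj`: by induction on `j` one gets, for every `j`, a continuous
`h : [0,1] × ℝ^(l+1) → X`, periodic in the second variable, with values in `K`, `h 0 = H`, `h 1 = Ψ^j ∘ H`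
(glue `h` for `j` and `D.Ψt s (Ψ^j (H z))`, `s ∈ [0,1]`, `step_cont`, `step_zero`, `step_mem`); or directly
`h (s, z) = D.Ψt (frac part)...`; easiest: apply the following claim by induction on `j`, for `h s z = D.Ψt s (G z)`,
`G = Ψ^i ∘ H`: if `segLoop (Ψ ∘ G) m` is null-homotopic then `segLoop G m` is (`seg_free` with the straight path). And
`seg_free` once with constant homotopy and the path `γ` for `Hj`.
-/

set_option autoImplicit false

open Set Topology MeasureTheory
open scoped ContDiff InnerProductSpace

namespace AF21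
variable {V F : Type} [NormedAddCommGroup V] [InnerProductSpace ℝ V] [FiniteDimensional ℝ V]
  [NormedAddCommGroup F] [InnerProductSpace ℝ F] [FiniteDimensional ℝ F]

theorem iter_mem {X : Set V} {p0 : V} {R : ℝ} (D : StepData X p0 R) (j : ℕ) {x : V}
    (hx : x ∈ K0 X p0 R) : D.Ψ^[j] x ∈ K0 X p0 R := by
  induction j with
  | zero => exact hx
  | succ j ih =>
    rw [Function.iterate_succ_apply']
    exact step_maps D ih

theorem iter_cont {X : Set V} {p0 : V} {R : ℝ} (D : StepData X p0 R) (j : ℕ) :
    ContinuousOn (D.Ψ^[j]) (K0 X p0 R) := by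
  induction j with
  | zero => exact continuousOn_id
  | succ j ih =>
    rw [Function.iterate_succ']
    exact (step_lip D).continuousOn.comp ih fun x hx => iter_mem D j hx

theorem torusProp_of_nice {X : Set V} {l : ℕ} (hX : Nice X F l) (hdim : l < Module.finrank ℝ V ∨ l = 0) :
    TorusProp ↥X (l + 1) := by
  classical
  intro H hH p hp
  borelize V
  obtain ⟨p0, hp0⟩ := sard hX
  -- the bound
  have hcontH : Continuous fun y : Fin (l + 1) → ℝ => ((H y : ↥X) : V) :=
    continuous_subtype_val.comp H.continuous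
  obtain ⟨R, hR⟩ : ∃ R : ℝ, ∀ y, ‖((H y : ↥X) : V) - p0‖ ≤ R := by
    obtain ⟨R, hR⟩ := (isCompact_Icc (a := (0 : Fin (l + 1) → ℝ)) (b := 1)).exists_bound_of_continuousOn
      (f := fun y => ((H y : ↥X) : V) - p0) (hcontH.sub continuous_const).continuousOn
    refine ⟨R, fun y => ?_⟩
    have h1 := hH y (fun j => -⌊y j⌋)
    rw [← h1]
    apply hR
    constructor
    · intro j
      change (0 : ℝ) ≤ y j + ((-⌊y j⌋ : ℤ) : ℝ)
      push_cast
      have := Int.floor_le (y j)
      linarith
    · intro j
      change y j + ((-⌊y j⌋ : ℤ) : ℝ) ≤ (1 : ℝ)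
      push_cast
      have := Int.lt_floor_add_one (y j)
      linarith
  obtain ⟨D⟩ := step_exists hX p0 R
  have hK : IsCompact (K0 X p0 R) := K0_compact hX.closed p0 R
  have hHK : ∀ y, ((H y : ↥X) : V) ∈ K0 X p0 R := fun y => ⟨(H y).2, hR y⟩
  obtain ⟨ρ, hρ, hsmall⟩ := small_loops hX hK (fun x hx => hx.1)
  set n := Module.finrank ℝ V with hn
  set b : OrthonormalBasis (Fin n) ℝ V := stdOrthonormalBasis ℝ V with hb
  set δ : ℝ := ρ / (n + 1) with hδdef
  have hn1 : (0 : ℝ) < (n : ℝ) + 1 := by positivity
  have hδ : 0 < δ := div_pos hρ hn1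
  have hnδ : (n : ℝ) * δ < ρ := by
    have h1 : ((n : ℝ) + 1) * δ = ρ := by
      rw [hδdef]
      field_simp
    nlinarith
  have hE := attr_null hX D (hp0 D.e D.e_pos)
  obtain ⟨τ, hτ⟩ := grid_generic b hE hδ
  -- some iterate of the compact set misses the bad part of the grid
  obtain ⟨j, hj⟩ : ∃ j : ℕ, D.Ψ^[j] '' K0 X p0 R ⊆ {y | (onGrid b δ τ y).card ≤ l} := by
    have hcpt : ∀ j : ℕ, IsCompact (D.Ψ^[j] '' K0 X p0 R) := fun j =>
      hK.image_of_continuousOn (iter_cont D j)
    have hanti : Antitone fun j : ℕ => D.Ψ^[j] '' K0 X p0 R := by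
      apply antitone_nat_of_succ_le
      intro j
      rintro _ ⟨x, hx, rfl⟩
      rw [Function.iterate_succ_apply]
      exact ⟨D.Ψ x, step_maps D hx, rfl⟩
    refine exists_subset_nhds_of_isCompact' (directed_of_isDirected_le hanti) hcpt
      (fun j => (hcpt j).isClosed) ?_
    intro x hx
    exact (onGrid_open b hδ τ l).mem_nhds (hτ x hx)
  -- the torus covering
  set g : (Fin (l + 1) → ℝ) → V := fun y => D.Ψ^[j] ((H y : ↥X) : V) with hg
  have hgc : Continuous g := (iter_cont D j).comp_continuous hcontH hHK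
  have hgper : ∀ (y : Fin (l + 1) → ℝ) (m : Fin (l + 1) → ℤ), g (fun k => y k + m k) = g y := by
    intro y m
    simp only [hg]
    rw [hH y m]
  obtain ⟨i, y, m, hm, hjoin⟩ := torus_cover p hp (fun i : Fin (l + 1) => g ⁻¹' UI b δ τ (i : ℕ))
    (fun i => (UI_open b hδ τ i).preimage hgc)
    (fun i y m hy => by
      change g (fun k => y k + m k) ∈ UI b δ τ (i : ℕ)
      rw [hgper]
      exact hy)
    (fun y => by
      obtain ⟨i, hi, hyi⟩ := UI_cover b δ τ (hj ⟨_, hHK y, rfl⟩)
      exact ⟨⟨i, by omega⟩, hyi⟩)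
  obtain ⟨γ, hγ⟩ := hjoin
  refine ⟨m, hm, ?_⟩
  -- the claim for iterates, by decreasing induction
  have key : ∀ k i : ℕ, i + k = j → ∀ (Hi : C(Fin (l + 1) → ℝ, ↥X)) (hHi : Per Hi),
      (∀ y, ((Hi y : ↥X) : V) = D.Ψ^[i] ((H y : ↥X) : V)) →
      (segLoop Hi hHi m).Homotopic (Path.refl _) := by
    intro k
    induction k with
    | zero =>
      intro i' hi' Hi hHi hval
      have hij : i' = j := by omega
      subst hij
      set γ1 : Path (Hi y) (Hi y) := (γ.map Hi.continuous).cast rfl (hHi y m).symm with hγ1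
      have hγ1v : ∀ t, ((γ1 t : ↥X) : V) = g (γ t) := fun t => hval (γ t)
      apply seg_free Hi hHi m y γ (fun q => Hi q.2) (Hi.continuous.comp continuous_snd)
        (fun s => hHi) (fun z => rfl) γ1 (fun t => rfl)
      apply hsmall
      · rw [hval]
        exact iter_mem D i' (hHK y)
      · intro t
        have h1 := UI_path b hδ τ (i := (i : ℕ)) (by
            rcases hdim with h | h
            · left
              have := i.2
              omega
            · right
              have := i.2
              omega) (fun t => g (γ t)) (hgc.comp γ.continuous) (fun t => hγ t) t 0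
        have h2 : ((Hi y : ↥X) : V) = g (γ 0) := by
          rw [γ.source]
          exact hval y
        rw [hγ1v, h2]
        exact lt_of_le_of_lt h1 hnδ
    | succ k ih =>
      intro i' hi' Hi hHi hval
      have hHiK : ∀ z, ((Hi z : ↥X) : V) ∈ K0 X p0 R := fun z => by
        rw [hval]
        exact iter_mem D i' (hHK z)
      have hmem : ∀ q : unitInterval × (Fin (l + 1) → ℝ),
          D.Ψt (q.1 : ℝ) ((Hi q.2 : ↥X) : V) ∈ K0 X p0 R := fun q =>
        step_mem D (hHiK q.2) q.1.2
      set h : unitInterval × (Fin (l + 1) → ℝ) → ↥X := fun q =>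
        ⟨D.Ψt (q.1 : ℝ) ((Hi q.2 : ↥X) : V), (hmem q).1⟩ with hh
      have hhc : Continuous h := by
        refine Continuous.subtype_mk ?_ _
        have h1 : Continuous fun q : unitInterval × (Fin (l + 1) → ℝ) =>
            ((q.1 : ℝ), ((Hi q.2 : ↥X) : V)) :=
          (continuous_subtype_val.comp continuous_fst).prodMk
            (continuous_subtype_val.comp (Hi.continuous.comp continuous_snd))
        exact (step_cont D).comp_continuous h1 fun q => ⟨q.1.2, hHiK q.2⟩
      have hper : ∀ s, Per (fun z => h (s, z)) := by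
        intro s z m'
        simp only [hh]
        apply Subtype.ext
        change D.Ψt (s : ℝ) ((Hi (fun k => z k + m' k) : ↥X) : V) = D.Ψt (s : ℝ) ((Hi z : ↥X) : V)
        rw [hHi z m']
      set Hs : C(Fin (l + 1) → ℝ, ↥X) := ⟨fun z => h (1, z),
        hhc.comp (continuous_const.prodMk continuous_id)⟩ with hHs
      have hHsper : Per Hs := hper 1
      have hHsval : ∀ z, ((Hs z : ↥X) : V) = D.Ψ^[i' + 1] ((H z : ↥X) : V) := by
        intro z
        rw [Function.iterate_succ_apply', ← hval z]
        rfl
      have hnull := ih (i' + 1) (by omega) Hs hHsper hHsval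
      set γ0 : Path (0 : Fin (l + 1) → ℝ) (fun k => (0 : Fin (l + 1) → ℝ) k + m k) :=
        { toFun := fun t k => (t : ℝ) * m k
          continuous_toFun := by fun_prop
          source' := by
            funext k
            simp
          target' := by
            funext k
            simp } with hγ0
      refine seg_free Hi hHi m 0 γ0 h hhc hper ?_ (segLoop Hs hHsper m) (fun t => rfl) hnull
      intro z
      apply Subtype.ext
      exact step_zero D (hHiK z)
  exact key j 0 (by omega) H hH (fun y => rfl)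

end AF21
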