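import Pool.Agent.AF21.Defs

/-!
# [AF21-AIDEAL] The ideal of `X`: equations, generators, bordered minors

Notation: `I = {f | f = 0 on X}` (`MvPolynomial.vanishingIdeal`-like; define it as an `Ideal` by hand), `M = N - l`.

Proof. The set of gradients `{jac f x0 | f ∈ I}` has span of dimension `M` (`hr x0 hx0`; the functions
`fun i => eval x0 (pderiv i f)` are `jac f x0`), so there are `M` elements of this set which are linearly independent
(`exists_linearIndependent'`/`Submodule.exists_fun_fin_finrank_span_eq`, or `exists_linearIndependent` plus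
finite cardinality): `Q : Fin M → I`.
Generators: `I` is finitely generated (`MvPolynomial` over a field in finitely many variables is Noetherian), so
`I = span (range g)` with `g : Fin r → _` (`Ideal.FG`, `Finset` to `Fin r` by `Finset.equivFin`; or
`Submodule.fg_iff_exists_fin_generating_family`). The elements of the set `S` defining `X` lie in `I`, hence
`X = {y | ∀ q, eval y (g q) = 0}`.
Bordered minors: fix `q, J, j`. The matrix of polynomials with the blocks `pderiv (J s) (Q i)`, `pderiv j (Q i)`,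
`pderiv (J s) (g q)`, `pderiv j (g q)` has a determinant `d ∈ MvPolynomial` and `eval y d` is the determinant of the
evaluated matrix (`RingHom.map_det`, `Matrix.fromBlocks_map`). For `y ∈ X` it is `0`: the `M + 1` rows
`jac (Q i) y, jac (g q) y` lie in a space of dimension `M` (`hr y`), so they are linearly dependent, and so are the rows
of the matrix (same coefficients) (`Matrix.exists_vecMul_eq_zero_iff` for `fromBlocks`, indexed by `Fin M ⊕ Unit`).
So `d ∈ I = span (range g)`, i.e. `d = ∑ c s * g s` (`Ideal.mem_span_range_iff_exists_fun`).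
-/

set_option autoImplicit false

open Set Topology

namespace AF21

/-- the ideal of `X` -/
noncomputable def AlgIdeal.I {N : ℕ} (X : Set (Fin N → ℂ)) : Ideal (MvPolynomial (Fin N) ℂ) where
  carrier := {f | ∀ y ∈ X, MvPolynomial.eval y f = 0}
  add_mem' := by
    intro a b ha hb y hy
    rw [map_add, ha y hy, hb y hy, add_zero]
  zero_mem' := fun y _ => map_zero _
  smul_mem' := by
    intro c f hf y hy
    rw [smul_eq_mul, map_mul, hf y hy, mul_zero]

theorem AlgIdeal.mem_I {N : ℕ} {X : Set (Fin N → ℂ)} {f : MvPolynomial (Fin N) ℂ} :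
    f ∈ AlgIdeal.I X ↔ ∀ y ∈ X, MvPolynomial.eval y f = 0 := Iff.rfl

/-- the bordered minors vanish on `X` -/
theorem AlgIdeal.minor {N M : ℕ} {X : Set (Fin N → ℂ)} {y : Fin N → ℂ}
    (hr : Module.finrank ℂ
      (Submodule.span ℂ {v : Fin N → ℂ | ∃ f : MvPolynomial (Fin N) ℂ,
      (∀ y ∈ X, MvPolynomial.eval y f = 0) ∧
        v = fun i => MvPolynomial.eval y (MvPolynomial.pderiv i f)}) = M)
    {Q : Fin M → MvPolynomial (Fin N) ℂ} (hQ : ∀ i, Q i ∈ AlgIdeal.I X)
    {g : MvPolynomial (Fin N) ℂ} (hg : g ∈ AlgIdeal.I X) (J : Fin M → Fin N) (j : Fin N) :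
    (Matrix.fromBlocks (Matrix.of fun i s => jac (Q i) y (J s))
              (Matrix.of fun i (_ : Unit) => jac (Q i) y j)
              (Matrix.of fun (_ : Unit) s => jac g y (J s))
              (Matrix.of fun (_ : Unit) (_ : Unit) => jac g y j)).det = 0 := by
  set W := Submodule.span ℂ {v : Fin N → ℂ | ∃ f : MvPolynomial (Fin N) ℂ,
      (∀ y ∈ X, MvPolynomial.eval y f = 0) ∧
        v = fun i => MvPolynomial.eval y (MvPolynomial.pderiv i f)} with hW
  let rows : Fin M ⊕ Unit → Fin N → ℂ := Sum.elim (fun i => jac (Q i) y) (fun _ => jac g y)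
  have hrows : ∀ a, rows a ∈ W := by
    rintro (i | u)
    · exact Submodule.subset_span ⟨Q i, hQ i, rfl⟩
    · exact Submodule.subset_span ⟨g, hg, rfl⟩
  have hnot : ¬ LinearIndependent ℂ (fun a => (⟨rows a, hrows a⟩ : W)) := by
    intro h
    have h1 := h.fintype_card_le_finrank
    rw [hr, Fintype.card_sum, Fintype.card_fin, Fintype.card_unit] at h1
    omega
  obtain ⟨c, hc, a, ha⟩ := Fintype.not_linearIndependent_iff.1 hnot
  have hc' : ∀ k, ∑ b, c b * rows b k = 0 := by
    intro k
    have h1 := congrArg (fun w : W => (w : Fin N → ℂ) k) hc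
    simpa using h1
  rw [← Matrix.exists_vecMul_eq_zero_iff]
  refine ⟨c, fun h => ha (by rw [h]; rfl), ?_⟩
  funext t
  rcases t with s | u
  · have h1 := hc' (J s)
    rw [Fintype.sum_sum_type] at h1
    simp only [Matrix.vecMul, dotProduct, Fintype.sum_sum_type, Matrix.fromBlocks_apply₁₁,
      Matrix.fromBlocks_apply₂₁, Matrix.of_apply, Pi.zero_apply]
    exact h1
  · have h1 := hc' j
    rw [Fintype.sum_sum_type] at h1
    simp only [Matrix.vecMul, dotProduct, Fintype.sum_sum_type, Matrix.fromBlocks_apply₁₂,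
      Matrix.fromBlocks_apply₂₂, Matrix.of_apply, Pi.zero_apply]
    exact h1

theorem alg_ideal {N l : ℕ} (hl : l ≤ N) {X : Set (Fin N → ℂ)}
    (hS : ∃ S : Set (MvPolynomial (Fin N) ℂ), X = {x | ∀ f ∈ S, MvPolynomial.eval x f = 0})
    (hr : RankHyp l X) {x0 : Fin N → ℂ} (hx0 : x0 ∈ X) :
    ∃ Q : Fin (N - l) → MvPolynomial (Fin N) ℂ, (∀ i, ∀ y ∈ X, MvPolynomial.eval y (Q i) = 0) ∧
      LinearIndependent ℂ (fun i => jac (Q i) x0) ∧
      ∃ (r : ℕ) (g : Fin r → MvPolynomial (Fin N) ℂ), (∀ q, ∀ y ∈ X, MvPolynomial.eval y (g q) = 0) ∧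
        (∀ y, (∀ q, MvPolynomial.eval y (g q) = 0) → y ∈ X) ∧
        ∀ (q : Fin r) (J : Fin (N - l) → Fin N) (j : Fin N), ∃ c : Fin r → MvPolynomial (Fin N) ℂ,
          ∀ y, (Matrix.fromBlocks (Matrix.of fun i s => jac (Q i) y (J s))
              (Matrix.of fun i (_ : Unit) => jac (Q i) y j)
              (Matrix.of fun (_ : Unit) s => jac (g q) y (J s))
              (Matrix.of fun (_ : Unit) (_ : Unit) => jac (g q) y j)).det
            = ∑ s, MvPolynomial.eval y (c s) * MvPolynomial.eval y (g s) := by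
  -- the equations
  have h1 : ∃ v : Fin (N - l) → Fin N → ℂ, (∀ i, v i ∈ {v : Fin N → ℂ |
      ∃ f : MvPolynomial (Fin N) ℂ, (∀ y ∈ X, MvPolynomial.eval y f = 0) ∧
        v = fun i => MvPolynomial.eval x0 (MvPolynomial.pderiv i f)}) ∧
      LinearIndependent ℂ v := by
    have h2 := hr x0 hx0
    obtain ⟨v, hv1, _, hv3⟩ := Submodule.exists_fun_fin_finrank_span_eq ℂ
      {v : Fin N → ℂ | ∃ f : MvPolynomial (Fin N) ℂ, (∀ y ∈ X, MvPolynomial.eval y f = 0) ∧
        v = fun i => MvPolynomial.eval x0 (MvPolynomial.pderiv i f)}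
    rw [← h2]
    exact ⟨v, hv1, hv3⟩
  obtain ⟨v, hv1, hv2⟩ := h1
  choose Q hQ1 hQ2 using hv1
  have hQv : (fun i => jac (Q i) x0) = v := by
    funext i
    exact (hQ2 i).symm
  -- the generators
  obtain ⟨r, g, hg⟩ := Submodule.fg_iff_exists_fin_generating_family.1
    (IsNoetherian.noetherian (AlgIdeal.I X))
  have hgI : ∀ q, g q ∈ AlgIdeal.I X := by
    intro q
    rw [← hg]
    exact Submodule.subset_span ⟨q, rfl⟩
  refine ⟨Q, hQ1, by rw [hQv]; exact hv2, r, g, hgI, ?_, ?_⟩
  · intro y hy
    obtain ⟨S, hS⟩ := hS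
    rw [hS]
    intro f hf
    have hfI : f ∈ AlgIdeal.I X := by
      intro z hz
      rw [hS] at hz
      exact hz f hf
    have h2 : AlgIdeal.I X ≤ RingHom.ker (MvPolynomial.eval y) := by
      rw [← hg]
      refine Submodule.span_le.2 ?_
      rintro _ ⟨q, rfl⟩
      exact hy q
    exact h2 hfI
  · intro q J j
    set D : Matrix (Fin (N - l) ⊕ Unit) (Fin (N - l) ⊕ Unit) (MvPolynomial (Fin N) ℂ) :=
      Matrix.fromBlocks (Matrix.of fun i s => MvPolynomial.pderiv (J s) (Q i))
              (Matrix.of fun i (_ : Unit) => MvPolynomial.pderiv j (Q i))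
              (Matrix.of fun (_ : Unit) s => MvPolynomial.pderiv (J s) (g q))
              (Matrix.of fun (_ : Unit) (_ : Unit) => MvPolynomial.pderiv j (g q)) with hD
    have hdet : ∀ y, MvPolynomial.eval y D.det =
        (Matrix.fromBlocks (Matrix.of fun i s => jac (Q i) y (J s))
              (Matrix.of fun i (_ : Unit) => jac (Q i) y j)
              (Matrix.of fun (_ : Unit) s => jac (g q) y (J s))
              (Matrix.of fun (_ : Unit) (_ : Unit) => jac (g q) y j)).det := by
      intro y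
      rw [RingHom.map_det, hD]
      congr 1
      rw [RingHom.mapMatrix_apply, Matrix.fromBlocks_map]
      rfl
    have hDI : D.det ∈ AlgIdeal.I X := by
      intro y hy
      rw [hdet y]
      exact AlgIdeal.minor (hr y hy) hQ1 (hgI q) J j
    rw [← hg] at hDI
    obtain ⟨c, hc⟩ := Ideal.mem_span_range_iff_exists_fun.1 hDI
    refine ⟨c, fun y => ?_⟩
    rw [← hdet y, ← hc, map_sum]
    refine Finset.sum_congr rfl fun s _ => ?_
    rw [map_mul]

end AF21
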