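import Pool.Agent.AF21.AlgMin

/-!
# [AF21-ALOC] Near each point, `X` is defined by `N - l` equations with independent gradients

Proof. Take `Q, r, g, W0, C` from `alg_minors`. Let `E = Fin N → ℂ`, `q(y) = (eval y (Q i))_i : E → (Fin M → ℂ)`, a
polynomial map (`ContDiff ℂ ⊤`), derivative `Dq(y) v = (∑ j, jac (Q i) y j * v j)_i` (derivative of
`MvPolynomial.eval`: if it is not in Mathlib prove `HasStrictFDerivAt` by induction on polynomials,
`MvPolynomial.induction_on`). `Dq(x0)` is surjective, as the gradients are independent at `x0`. By the implicit function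
theorem (`HasStrictFDerivAt.implicitToOpenPartialHomeomorph` or `implicitFunction`, or by hand: the map
`Φ(y) = (q y, π y)`, `π` a linear projection to `ker Dq(x0)`, is a local diffeomorphism at `x0`,
`ContDiffAt.toOpenPartialHomeomorph`, inverse `ContDiffAt` by `ContDiffAt.to_localInverse`/`contDiffAt_symm`) there are an
open `W ∋ x0` inside `W0`, on which the gradients are independent (open condition), and for every `y ∈ W` with
`q y = 0` a differentiable path `γ : [0,1] → W0`, `γ 0 = x0`, `γ 1 = y`, `q(γ t) = 0` (the preimage under `Φ` of the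
segment from `Φ x0 = (0, π x0)` to `Φ y = (0, π y)`; choose `W` = preimage of a ball contained in the target).
If `y ∈ W` and `y ∈ X` then `q y = 0`. Conversely let `q y = 0` and `γ` as above; put
`G(t) = (eval (γ t) (g s))_s ∈ Fin r → ℂ`, `G 0 = 0` as `x0 ∈ X`. Then
`G_s'(t) = ∑ j, jac (g s) (γ t) j * γ'(t) j = ∑ j (jac (g s) - ∑ i a i jac (Q i)) j γ'(t) j` because
`∑ j, jac (Q i) (γ t) j * γ'(t) j = d/dt q_i(γ t) = 0`. So `‖G'(t)‖ ≤ K ‖G(t)‖` with a constant `K` (`γ'` bounded on
`[0,1]`; it is continuous, or bounded by the Lipschitz constant of the inverse of `Φ`). By Gronwall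
(`eq_zero_of_abs_deriv_le_mul_abs_self_of_eq_zero_right` or `norm_le_gronwallBound_of_norm_deriv_right_le`) `G = 0`, so
`eval y (g s) = 0` for all `s`, i.e. `y ∈ X`.
-/

set_option autoImplicit false

open Set Topology

namespace AF21

/-- derivative of a polynomial -/
theorem algLoc_hasFDerivAt {N : ℕ} (f : MvPolynomial (Fin N) ℂ) (y : Fin N → ℂ) :
    HasFDerivAt (fun z : Fin N → ℂ => MvPolynomial.eval z f)
      (∑ j, jac f y j • (ContinuousLinearMap.proj j : (Fin N → ℂ) →L[ℂ] ℂ)) y := by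
  induction f using MvPolynomial.induction_on with
  | C a =>
    have h1 : (fun z : Fin N → ℂ => MvPolynomial.eval z (MvPolynomial.C a)) = fun _ => a := by
      funext z
      simp
    have h2 : (∑ j, jac (MvPolynomial.C a) y j •
        (ContinuousLinearMap.proj j : (Fin N → ℂ) →L[ℂ] ℂ)) = 0 := by
      apply Finset.sum_eq_zero
      intro j _
      ext v
      simp [jac]
    rw [h1, h2]
    exact hasFDerivAt_const a y
  | add p q hp hq =>
    have h1 : (fun z : Fin N → ℂ => MvPolynomial.eval z (p + q)) =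
        fun z => MvPolynomial.eval z p + MvPolynomial.eval z q := by
      funext z
      simp
    have h2 : (∑ j, jac (p + q) y j • (ContinuousLinearMap.proj j : (Fin N → ℂ) →L[ℂ] ℂ)) =
        (∑ j, jac p y j • (ContinuousLinearMap.proj j : (Fin N → ℂ) →L[ℂ] ℂ)) +
        ∑ j, jac q y j • (ContinuousLinearMap.proj j : (Fin N → ℂ) →L[ℂ] ℂ) := by
      rw [← Finset.sum_add_distrib]
      apply Finset.sum_congr rfl
      intro j _
      ext v
      simp [jac, add_mul]
    rw [h1, h2]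
    exact hp.add hq
  | mul_X p i hp =>
    have h1 : (fun z : Fin N → ℂ => MvPolynomial.eval z (p * MvPolynomial.X i)) =
        fun z => MvPolynomial.eval z p * z i := by
      funext z
      simp
    have h3 : HasFDerivAt (fun z : Fin N → ℂ => z i)
        (ContinuousLinearMap.proj i : (Fin N → ℂ) →L[ℂ] ℂ) y :=
      (ContinuousLinearMap.proj i : (Fin N → ℂ) →L[ℂ] ℂ).hasFDerivAt
    rw [h1]
    refine (hp.mul h3).congr_fderiv ?_
    ext v
    simp only [_root_.add_apply, _root_.smul_apply,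
      _root_.sum_apply, ContinuousLinearMap.proj_apply, smul_eq_mul]
    have h4 : ∀ j, jac (p * MvPolynomial.X i) y j * v j =
        (if j = i then MvPolynomial.eval y p * v i else 0) + y i * (jac p y j * v j) := by
      intro j
      simp only [jac, Derivation.leibniz, map_add, smul_eq_mul, map_mul, MvPolynomial.eval_X,
        MvPolynomial.pderiv_X]
      by_cases hj : j = i
      · subst hj
        simp
        ring
      · rw [if_neg hj, Pi.single_eq_of_ne (Ne.symm hj)]
        simp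
        ring
    rw [Finset.sum_congr rfl fun j _ => h4 j, Finset.sum_add_distrib, Finset.sum_ite_eq' Finset.univ i,
      if_pos (Finset.mem_univ _), Finset.mul_sum]

theorem algLoc_contDiff {N : ℕ} (f : MvPolynomial (Fin N) ℂ) :
    ContDiff ℂ 1 (fun z : Fin N → ℂ => MvPolynomial.eval z f) := by
  induction f using MvPolynomial.induction_on with
  | C a =>
    have h1 : (fun z : Fin N → ℂ => MvPolynomial.eval z (MvPolynomial.C a)) = fun _ => a := by
      funext z
      simp
    rw [h1]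
    exact contDiff_const
  | add p q hp hq =>
    have h1 : (fun z : Fin N → ℂ => MvPolynomial.eval z (p + q)) =
        fun z => MvPolynomial.eval z p + MvPolynomial.eval z q := by
      funext z
      simp
    rw [h1]
    exact hp.add hq
  | mul_X p i hp =>
    have h1 : (fun z : Fin N → ℂ => MvPolynomial.eval z (p * MvPolynomial.X i)) =
        fun z => MvPolynomial.eval z p * z i := by
      funext z
      simp
    rw [h1]
    exact hp.mul (contDiff_apply ℂ ℂ i)

/-- the derivative of a system of polynomials -/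
noncomputable def algLocD {N M : ℕ} (Q : Fin M → MvPolynomial (Fin N) ℂ) (y : Fin N → ℂ) :
    (Fin N → ℂ) →L[ℂ] (Fin M → ℂ) :=
  ContinuousLinearMap.pi fun i =>
    ∑ j, jac (Q i) y j • (ContinuousLinearMap.proj j : (Fin N → ℂ) →L[ℂ] ℂ)

theorem algLocD_apply {N M : ℕ} (Q : Fin M → MvPolynomial (Fin N) ℂ) (y v : Fin N → ℂ) (i : Fin M) :
    algLocD Q y v i = ∑ j, jac (Q i) y j * v j := by
  simp [algLocD]

theorem algLocD_hasFDerivAt {N M : ℕ} (Q : Fin M → MvPolynomial (Fin N) ℂ) (y : Fin N → ℂ) :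
    HasFDerivAt (fun (z : Fin N → ℂ) (i : Fin M) => MvPolynomial.eval z (Q i)) (algLocD Q y) y := by
  rw [hasFDerivAt_pi']
  intro i
  exact (algLoc_hasFDerivAt (Q i) y)

theorem algLocD_surj {N M : ℕ} {Q : Fin M → MvPolynomial (Fin N) ℂ} {y : Fin N → ℂ}
    (hli : LinearIndependent ℂ (fun i => jac (Q i) y)) : Function.Surjective (algLocD Q y) := by
  set A : Matrix (Fin M) (Fin N) ℂ := Matrix.of fun i j => jac (Q i) y j with hA
  have h1 : A.rank = Fintype.card (Fin M) := LinearIndependent.rank_matrix hli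
  have h2 : LinearMap.range A.mulVecLin = ⊤ := by
    apply Submodule.eq_top_of_finrank_eq
    rw [Module.finrank_pi]
    exact h1
  intro u
  obtain ⟨v, hv⟩ := LinearMap.range_eq_top.mp h2 u
  refine ⟨v, ?_⟩
  rw [← hv]
  funext i
  rw [algLocD_apply]
  rfl

/-- local coordinates -/
theorem algLoc_sec {N M : ℕ} {Q : Fin M → MvPolynomial (Fin N) ℂ} {x0 : Fin N → ℂ}
    (hli : LinearIndependent ℂ (fun i => jac (Q i) x0)) :
    ∃ (V : Submodule ℂ (Fin N → ℂ)) (π : (Fin N → ℂ) →L[ℂ] V)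
      (e : OpenPartialHomeomorph (Fin N → ℂ) ((Fin M → ℂ) × V)),
      (∀ y, e y = (fun i => MvPolynomial.eval y (Q i), π y)) ∧ x0 ∈ e.source ∧
        ContDiffAt ℂ 1 e.symm (e x0) := by
  set V : Submodule ℂ (Fin N → ℂ) := LinearMap.ker (algLocD Q x0).toLinearMap with hV
  obtain ⟨π₀, hπ₀⟩ := LinearMap.exists_leftInverse_of_injective V.subtype (Submodule.ker_subtype V)
  set π : (Fin N → ℂ) →L[ℂ] V := LinearMap.toContinuousLinearMap π₀ with hπ
  have hπV : ∀ v : V, π v = v := fun v => LinearMap.congr_fun hπ₀ v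
  set L : (Fin N → ℂ) →L[ℂ] (Fin M → ℂ) × V := (algLocD Q x0).prod π with hL
  have hinj : Function.Injective L := by
    rw [injective_iff_map_eq_zero]
    intro v hv
    have h1 : algLocD Q x0 v = 0 := congrArg Prod.fst hv
    have h2 : π v = 0 := congrArg Prod.snd hv
    have h3 := hπV ⟨v, h1⟩
    have h4 : (⟨v, h1⟩ : V) = 0 := by
      rw [← h3]
      exact h2
    exact congrArg Subtype.val h4
  have hsurj : Function.Surjective L := by
    rintro ⟨u, v⟩
    obtain ⟨y, hy⟩ := algLocD_surj hli u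
    refine ⟨y - (π y : Fin N → ℂ) + v, ?_⟩
    have h1 : algLocD Q x0 (π y : Fin N → ℂ) = 0 := (π y).2
    have h2 : algLocD Q x0 (v : Fin N → ℂ) = 0 := v.2
    apply Prod.ext
    · change algLocD Q x0 (y - (π y : Fin N → ℂ) + v) = u
      rw [map_add, map_sub, h1, h2, hy, sub_zero, add_zero]
    · change π (y - (π y : Fin N → ℂ) + v) = v
      rw [map_add, map_sub, hπV, hπV, sub_self, zero_add]
  let L' : (Fin N → ℂ) ≃L[ℂ] (Fin M → ℂ) × V :=
    (LinearEquiv.ofBijective L.toLinearMap ⟨hinj, hsurj⟩).toContinuousLinearEquiv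
  have hΦ : ContDiffAt ℂ 1
      (fun y : Fin N → ℂ => ((fun i => MvPolynomial.eval y (Q i)), π y)) x0 := by
    apply ContDiffAt.prodMk
    · exact (contDiff_pi.mpr fun i => algLoc_contDiff (Q i)).contDiffAt
    · exact π.contDiff.contDiffAt
  have hΦ' : HasFDerivAt (fun y : Fin N → ℂ => ((fun i => MvPolynomial.eval y (Q i)), π y))
      (L' : (Fin N → ℂ) →L[ℂ] (Fin M → ℂ) × V) x0 :=
    (algLocD_hasFDerivAt Q x0).prodMk π.hasFDerivAt
  refine ⟨V, π, hΦ.toOpenPartialHomeomorph _ hΦ' one_ne_zero, fun y => rfl,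
    hΦ.mem_toOpenPartialHomeomorph_source hΦ' one_ne_zero,
    hΦ.to_localInverse hΦ' one_ne_zero⟩

theorem alg_loc {N l : ℕ} (hl : l ≤ N) {X : Set (Fin N → ℂ)}
    (hS : ∃ S : Set (MvPolynomial (Fin N) ℂ), X = {x | ∀ f ∈ S, MvPolynomial.eval x f = 0})
    (hr : RankHyp l X) {x0 : Fin N → ℂ} (hx0 : x0 ∈ X) :
    ∃ Q : Fin (N - l) → MvPolynomial (Fin N) ℂ, ∃ W : Set (Fin N → ℂ), IsOpen W ∧ x0 ∈ W ∧
      (∀ y ∈ W, LinearIndependent ℂ (fun i => jac (Q i) y)) ∧
      ∀ y ∈ W, (y ∈ X ↔ ∀ i, MvPolynomial.eval y (Q i) = 0) := by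
  obtain ⟨Q, hQ, hli, r, g, hg, hgX, W0, hW0, C, hC⟩ := alg_minors hl hS hr hx0
  obtain ⟨V, π, e, he, hx0s, hΨ⟩ := algLoc_sec hli
  obtain ⟨σ, hσdef⟩ : ∃ σ : V → (Fin N → ℂ), σ = fun v => e.symm (0, v) := ⟨_, rfl⟩
  have hex0 : e x0 = (0, π x0) := by
    rw [he]
    congr 1
    funext i
    exact hQ i x0 hx0
  have hσ0 : σ (π x0) = x0 := by
    rw [hσdef]
    simp only
    rw [← hex0, e.left_inv hx0s]
  have hσ : ContDiffAt ℂ 1 σ (π x0) := by
    rw [hσdef]
    rw [hex0] at hΨ
    exact hΨ.comp (π x0) (contDiffAt_const.prodMk contDiffAt_id)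
  obtain ⟨K₁, hK₁⟩ : ∃ K₁, K₁ = ‖fderiv ℂ σ (π x0)‖ + 1 := ⟨_, rfl⟩
  have hK₁0 : 0 ≤ K₁ := by rw [hK₁]; positivity
  have hev : ∀ᶠ v in 𝓝 (π x0), ((0 : Fin (N - l) → ℂ), v) ∈ e.target ∧ σ v ∈ W0 ∧
      ContDiffAt ℂ 1 σ v ∧ ‖fderiv ℂ σ v‖ ≤ K₁ := by
    have h1 : ∀ᶠ v in 𝓝 (π x0), ((0 : Fin (N - l) → ℂ), v) ∈ e.target := by
      have h2 : Continuous (fun v : V => ((0 : Fin (N - l) → ℂ), v)) :=
        continuous_const.prodMk continuous_id
      apply h2.continuousAt.eventually_mem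
      rw [← hex0]
      exact e.open_target.mem_nhds (e.map_source hx0s)
    have h2 : ∀ᶠ v in 𝓝 (π x0), σ v ∈ W0 := by
      apply hσ.continuousAt.eventually_mem
      rw [hσ0]
      exact hW0
    have h3 : ∀ᶠ v in 𝓝 (π x0), ContDiffAt ℂ 1 σ v := hσ.eventually (by simp)
    have h4 : ∀ᶠ v in 𝓝 (π x0), ‖fderiv ℂ σ v‖ ≤ K₁ := by
      have h5 := (hσ.fderiv_right (m := 0) (by simp)).continuousAt
      have h7 := h5.norm
      have h6 : ∀ᶠ v in 𝓝 (π x0), ‖fderiv ℂ σ v‖ < K₁ :=
        h7.eventually_lt_const (by rw [hK₁]; linarith)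
      exact h6.mono fun v hv => hv.le
    filter_upwards [h1, h2, h3, h4] with v a1 a2 a3 a4
    exact ⟨a1, a2, a3, a4⟩
  obtain ⟨ρ₀, hρ₀, hball⟩ := Metric.eventually_nhds_iff_ball.mp hev
  obtain ⟨K, hK⟩ : ∃ K, K = N * (|C| * r) * K₁ := ⟨_, rfl⟩
  have hK0 : 0 ≤ K := by rw [hK]; positivity
  obtain ⟨ρ, hρdef⟩ : ∃ ρ, ρ = min (ρ₀ / 2) (1 / (2 * (K + 1))) := ⟨_, rfl⟩
  have hρ0 : 0 < ρ := by
    rw [hρdef]
    exact lt_min (by linarith) (by positivity)
  have hρρ₀ : ρ < ρ₀ := by
    have : ρ ≤ ρ₀ / 2 := by rw [hρdef]; exact min_le_left _ _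
    linarith
  have hKρ : K * ρ < 1 := by
    have h1 : ρ ≤ 1 / (2 * (K + 1)) := by rw [hρdef]; exact min_le_right _ _
    have h2 : K * ρ ≤ K * (1 / (2 * (K + 1))) := mul_le_mul_of_nonneg_left h1 hK0
    have h3 : K * (1 / (2 * (K + 1))) < 1 := by
      rw [mul_one_div, div_lt_one (by positivity)]
      linarith
    linarith
  -- the equations vanish along `σ`
  have hqσ : ∀ v ∈ Metric.ball (π x0) ρ₀, ∀ i, MvPolynomial.eval (σ v) (Q i) = 0 := by
    intro v hv i
    have h1 := e.right_inv (hball v hv).1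
    rw [he] at h1
    have h2 := congrFun (congrArg Prod.fst h1) i
    rw [hσdef]
    exact h2
  -- the functions `g` along `σ`
  obtain ⟨H, hH⟩ : ∃ H : V → (Fin r → ℂ), H = fun v s => MvPolynomial.eval (σ v) (g s) := ⟨_, rfl⟩
  have hdH : ∀ v ∈ Metric.ball (π x0) ρ₀,
      HasFDerivAt H ((algLocD g (σ v)).comp (fderiv ℂ σ v)) v := by
    intro v hv
    rw [hH]
    have h1 := (hball v hv).2.2.1.differentiableAt one_ne_zero
    exact (algLocD_hasFDerivAt g (σ v)).comp v h1.hasFDerivAt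
  have hbd : ∀ v ∈ Metric.ball (π x0) ρ₀,
      ‖(algLocD g (σ v)).comp (fderiv ℂ σ v)‖ ≤ K * ‖H v‖ := by
    intro v hv
    apply ContinuousLinearMap.opNorm_le_bound _ (by positivity)
    intro u
    obtain ⟨w, hw⟩ : ∃ w, w = fderiv ℂ σ v u := ⟨_, rfl⟩
    have hwn : ‖w‖ ≤ K₁ * ‖u‖ := by
      rw [hw]
      exact (ContinuousLinearMap.le_opNorm _ _).trans
        (mul_le_mul_of_nonneg_right (hball v hv).2.2.2 (norm_nonneg _))
    have hker : ∀ i, ∑ j, jac (Q i) (σ v) j * w j = 0 := by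
      intro i
      have h1 := (hball v hv).2.2.1.differentiableAt one_ne_zero
      have h2 := (algLocD_hasFDerivAt Q (σ v)).comp v h1.hasFDerivAt
      have h3 : (fun (z : Fin N → ℂ) (i : Fin (N - l)) => MvPolynomial.eval z (Q i)) ∘ σ
          =ᶠ[𝓝 v] fun _ => 0 := by
        filter_upwards [Metric.isOpen_ball.mem_nhds hv] with v' hv'
        funext i
        exact hqσ v' hv' i
      have h4 := h2.congr_of_eventuallyEq h3.symm
      have h5 := h4.unique (hasFDerivAt_const (0 : Fin (N - l) → ℂ) v)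
      have h6 := congrFun (congrArg (fun A => A u) h5) i
      simp only [ContinuousLinearMap.comp_apply] at h6
      rw [← hw, algLocD_apply] at h6
      exact h6
    change ‖algLocD g (σ v) (fderiv ℂ σ v u)‖ ≤ _
    rw [← hw, pi_norm_le_iff_of_nonneg (by positivity)]
    intro s
    rw [algLocD_apply]
    obtain ⟨a, ha⟩ := hC (σ v) (hball v hv).2.1 s
    have h1 : ∑ j, jac (g s) (σ v) j * w j =
        ∑ j, (jac (g s) (σ v) j - ∑ i, a i * jac (Q i) (σ v) j) * w j := by
      simp only [sub_mul, Finset.sum_sub_distrib, Finset.sum_mul]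
      rw [Finset.sum_comm (f := fun j i => a i * jac (Q i) (σ v) j * w j)]
      have h2 : ∀ i, ∑ j, a i * jac (Q i) (σ v) j * w j = 0 := by
        intro i
        simp only [mul_assoc]
        rw [← Finset.mul_sum, hker i, mul_zero]
      simp only [h2]
      simp
    have h3 : ∑ s, ‖MvPolynomial.eval (σ v) (g s)‖ ≤ r * ‖H v‖ := by
      calc ∑ s, ‖MvPolynomial.eval (σ v) (g s)‖ ≤ ∑ _s : Fin r, ‖H v‖ := by
            apply Finset.sum_le_sum
            intro s _
            rw [hH]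
            exact norm_le_pi_norm (fun s => MvPolynomial.eval (σ v) (g s)) s
        _ = r * ‖H v‖ := by simp
    rw [h1]
    calc ‖∑ j, (jac (g s) (σ v) j - ∑ i, a i * jac (Q i) (σ v) j) * w j‖
        ≤ ∑ j, ‖(jac (g s) (σ v) j - ∑ i, a i * jac (Q i) (σ v) j) * w j‖ := norm_sum_le _ _
      _ ≤ ∑ _j : Fin N, (|C| * (r * ‖H v‖)) * (K₁ * ‖u‖) := by
          apply Finset.sum_le_sum
          intro j _
          rw [norm_mul]
          apply mul_le_mul _ ((norm_le_pi_norm w j).trans hwn) (norm_nonneg _) (by positivity)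
          refine (ha j).trans ?_
          calc C * ∑ s, ‖MvPolynomial.eval (σ v) (g s)‖
              ≤ |C| * ∑ s, ‖MvPolynomial.eval (σ v) (g s)‖ :=
                mul_le_mul_of_nonneg_right (le_abs_self C)
                  (Finset.sum_nonneg fun _ _ => norm_nonneg _)
            _ ≤ _ := mul_le_mul_of_nonneg_left h3 (abs_nonneg C)
      _ = K * ‖H v‖ * ‖u‖ := by
          rw [Finset.sum_const, Finset.card_univ, Fintype.card_fin, nsmul_eq_mul, hK]
          ring
  have hHzero : ∀ v ∈ Metric.closedBall (π x0) ρ, H v = 0 := by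
    have hsub : Metric.closedBall (π x0) ρ ⊆ Metric.ball (π x0) ρ₀ :=
      Metric.closedBall_subset_ball hρρ₀
    have hcont : ContinuousOn H (Metric.closedBall (π x0) ρ) := fun v hv =>
      (hdH v (hsub hv)).continuousAt.continuousWithinAt
    have hprop : ProperSpace V := FiniteDimensional.proper ℂ V
    obtain ⟨v', hv', hmax⟩ := (isCompact_closedBall (π x0) ρ).exists_isMaxOn
      ⟨π x0, Metric.mem_closedBall_self hρ0.le⟩ hcont.norm
    have hmv := (convex_closedBall (π x0) ρ).norm_image_sub_le_of_norm_hasFDerivWithin_le (𝕜 := ℂ)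
      (f := H) (C := K * ‖H v'‖) (fun v hv => (hdH v (hsub hv)).hasFDerivWithinAt)
      (fun v hv => (hbd v (hsub hv)).trans (mul_le_mul_of_nonneg_left (hmax hv) hK0))
      (Metric.mem_closedBall_self hρ0.le) hv'
    have hH0 : H (π x0) = 0 := by
      rw [hH]
      funext s
      simp only
      rw [hσ0]
      exact hg s x0 hx0
    rw [hH0, sub_zero] at hmv
    have hd : ‖v' - π x0‖ ≤ ρ := by
      rw [← dist_eq_norm]
      exact hv'
    have h1 : ‖H v'‖ ≤ K * ρ * ‖H v'‖ := by
      refine hmv.trans ?_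
      calc K * ‖H v'‖ * ‖v' - π x0‖ ≤ K * ‖H v'‖ * ρ :=
            mul_le_mul_of_nonneg_left hd (by positivity)
        _ = _ := by ring
    have h2 : ‖H v'‖ = 0 := by
      by_contra hne
      have h3 : 0 < ‖H v'‖ := lt_of_le_of_ne (norm_nonneg _) (Ne.symm hne)
      have h4 : K * ρ * ‖H v'‖ < 1 * ‖H v'‖ := mul_lt_mul_of_pos_right hKρ h3
      linarith
    intro v hv
    have h3 : ‖H v‖ ≤ ‖H v'‖ := hmax hv
    rw [h2] at h3
    exact norm_le_zero_iff.mp h3
  -- the neighbourhood
  have hopen : IsOpen {y : Fin N → ℂ | LinearIndependent ℂ (fun i => jac (Q i) y)} := by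
    have h1 : Continuous (fun (y : Fin N → ℂ) (i : Fin (N - l)) => jac (Q i) y) := by
      refine continuous_pi fun i => continuous_pi fun j => ?_
      exact (algLoc_contDiff (MvPolynomial.pderiv j (Q i))).continuous
    exact (isOpen_setOfPred_linearIndependent (𝕜 := ℂ) (E := Fin N → ℂ)
      (ι := Fin (N - l))).preimage h1
  refine ⟨Q, {y | LinearIndependent ℂ (fun i => jac (Q i) y)} ∩
    (e.source ∩ π ⁻¹' Metric.ball (π x0) ρ), ?_, ?_, fun y hy => hy.1, ?_⟩
  · exact hopen.inter (e.open_source.inter (Metric.isOpen_ball.preimage π.continuous))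
  · exact ⟨hli, hx0s, Metric.mem_ball_self hρ0⟩
  · rintro y ⟨-, hys, hyb⟩
    refine ⟨fun hy i => hQ i y hy, fun hy => ?_⟩
    have h1 : e y = (0, π y) := by
      rw [he]
      congr 1
      funext i
      exact hy i
    have h2 : σ (π y) = y := by
      rw [hσdef]
      simp only
      rw [← h1, e.left_inv hys]
    apply hgX
    intro q
    have h3 := congrFun (hHzero (π y) (Metric.ball_subset_closedBall hyb)) q
    rw [hH] at h3
    simp only at h3
    rw [h2] at h3
    exact h3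

end AF21
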