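import Pool.Agent.AF21.AlgIdeal

/-!
# [AF21-AMIN] Gradients of the generators modulo the gradients of the equations

Proof. Take `Q, r, g` from `alg_ideal`. The matrix `jac (Q i) x0 a` (`Fin M × Fin N`) has rank `M`, so there is
`J : Fin M → Fin N` with `det (jac (Q i) x0 (J s)) ≠ 0` (for instance: the columns span `ℂ^M` because the rows are
independent, choose `M` independent columns; `Matrix.rank`, `exists_linearIndependent`...).
Put `A(y) = (jac (Q i) y (J s))`; `det A(y)` is continuous in `y`, so there are a neighbourhood `W` of `x0` and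
`c0 > 0` with `‖det A(y)‖ ≥ c0` on `W`; shrink `W` to be bounded (inside a compact ball), so that all the finitely many
continuous functions `eval y (c s)` (for all `q, j`) are bounded by some `C1` on `W`.
Schur complement (`Matrix.det_fromBlocks₁₁`, with `A(y)` invertible):
`det (fromBlocks A B C D) = det A * (D - C A⁻¹ B)`. Put `a = C(y) A(y)⁻¹ : Fin M → ℂ` (row vector; it does not depend on
`j`); then `(D - C A⁻¹ B) = jac (g q) y j - ∑ i, a i * jac (Q i) y j`. So its norm is
`‖∑ s, eval y (c s) * eval y (g s)‖ / ‖det A‖ ≤ (C1 / c0) ∑ s ‖eval y (g s)‖`.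
-/

set_option autoImplicit false

open Set Topology

namespace AF21

/-- a nonvanishing maximal minor -/
theorem algMin_minor {M N : ℕ} (v : Fin M → Fin N → ℂ) (hv : LinearIndependent ℂ v) :
    ∃ J : Fin M → Fin N, (Matrix.of fun i s => v i (J s)).det ≠ 0 := by
  have h1 : (Matrix.of v).rank = M := by
    have := LinearIndependent.rank_matrix (M := Matrix.of v) hv
    simpa using this
  rw [Matrix.rank_eq_finrank_span_cols] at h1
  obtain ⟨κ, a, _, hsp, hli⟩ := exists_linearIndependent' ℂ (Matrix.of v).col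
  have h2 : Submodule.span ℂ (Set.range (Matrix.of v).col) = ⊤ := by
    apply Submodule.eq_top_of_finrank_eq
    rw [h1]
    simp
  rw [h2] at hsp
  let b : Module.Basis κ ℂ (Fin M → ℂ) := Module.Basis.mk hli hsp.ge
  have e : Fin M ≃ κ := by
    have : Fintype κ := FiniteDimensional.fintypeBasisIndex b
    refine Fintype.equivOfCardEq ?_
    have h3 := Module.finrank_eq_card_basis b
    rw [Module.finrank_fin_fun] at h3
    rw [Fintype.card_fin]
    exact h3
  refine ⟨fun s => a (e s), ?_⟩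
  have h4 : LinearIndependent ℂ (Matrix.of fun i s => v i (a (e s))).col := by
    have h5 := hli.comp e e.injective
    exact h5
  rw [Matrix.linearIndependent_cols_iff_isUnit, Matrix.isUnit_iff_isUnit_det] at h4
  exact h4.ne_zero

theorem algMin_jac_cont {N : ℕ} (f : MvPolynomial (Fin N) ℂ) (j : Fin N) :
    Continuous fun y => jac f y j := MvPolynomial.continuous_eval _

/-- the Schur complement -/
theorem algMin_schur {M : ℕ} (A : Matrix (Fin M) (Fin M) ℂ) (B : Matrix (Fin M) Unit ℂ)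
    (C : Matrix Unit (Fin M) ℂ) (D : Matrix Unit Unit ℂ) (hA : A.det ≠ 0) :
    (Matrix.fromBlocks A B C D).det
      = A.det * (D () () - ∑ i, (C * A⁻¹) () i * B i ()) := by
  have := Matrix.invertibleOfIsUnitDet A (isUnit_iff_ne_zero.2 hA)
  rw [Matrix.det_fromBlocks₁₁, Matrix.det_unique (n := Unit), Matrix.invOf_eq_nonsing_inv]
  rfl

theorem alg_minors {N l : ℕ} (hl : l ≤ N) {X : Set (Fin N → ℂ)}
    (hS : ∃ S : Set (MvPolynomial (Fin N) ℂ), X = {x | ∀ f ∈ S, MvPolynomial.eval x f = 0})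
    (hr : RankHyp l X) {x0 : Fin N → ℂ} (hx0 : x0 ∈ X) :
    ∃ Q : Fin (N - l) → MvPolynomial (Fin N) ℂ, (∀ i, ∀ y ∈ X, MvPolynomial.eval y (Q i) = 0) ∧
      LinearIndependent ℂ (fun i => jac (Q i) x0) ∧
      ∃ (r : ℕ) (g : Fin r → MvPolynomial (Fin N) ℂ), (∀ q, ∀ y ∈ X, MvPolynomial.eval y (g q) = 0) ∧
        (∀ y, (∀ q, MvPolynomial.eval y (g q) = 0) → y ∈ X) ∧
        ∃ W ∈ 𝓝 x0, ∃ C : ℝ, ∀ y ∈ W, ∀ q, ∃ a : Fin (N - l) → ℂ, ∀ j,
          ‖jac (g q) y j - ∑ i, a i * jac (Q i) y j‖ ≤ C * ∑ s, ‖MvPolynomial.eval y (g s)‖ := by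
  obtain ⟨Q, hQ, hli, r, g, hg, hgX, hm⟩ := alg_ideal hl hS hr hx0
  refine ⟨Q, hQ, hli, r, g, hg, hgX, ?_⟩
  obtain ⟨J, hJ⟩ := algMin_minor _ hli
  choose c hc using hm
  have hcd : Continuous fun y => (Matrix.of fun i s => jac (Q i) y (J s)).det := by
    apply Continuous.matrix_det
    apply continuous_matrix
    intro i s
    exact algMin_jac_cont _ _
  have hcF : Continuous fun y => ∑ q, ∑ j, ∑ s, ‖MvPolynomial.eval y (c q J j s)‖ := by
    refine continuous_finsetSum _ fun q _ => continuous_finsetSum _ fun j _ =>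
      continuous_finsetSum _ fun s _ => (MvPolynomial.continuous_eval _).norm
  set d0 := ‖(Matrix.of fun i s => jac (Q i) x0 (J s)).det‖ with hd0
  have hd0' : 0 < d0 := norm_pos_iff.2 hJ
  set F0 := ∑ q, ∑ j, ∑ s, ‖MvPolynomial.eval x0 (c q J j s)‖ with hF0
  have hF0' : 0 ≤ F0 := by positivity
  refine ⟨{y | d0 / 2 < ‖(Matrix.of fun i s => jac (Q i) y (J s)).det‖} ∩
    {y | ∑ q, ∑ j, ∑ s, ‖MvPolynomial.eval y (c q J j s)‖ < F0 + 1}, ?_,
    (F0 + 1) / (d0 / 2), ?_⟩
  · apply Filter.inter_mem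
    · exact (isOpen_lt continuous_const hcd.norm).mem_nhds (by
        change d0 / 2 < d0
        linarith)
    · exact (isOpen_lt hcF continuous_const).mem_nhds (by
        change F0 < F0 + 1
        linarith)
  · rintro y ⟨hy1, hy2⟩ q
    have hy1' : d0 / 2 < ‖(Matrix.of fun i s => jac (Q i) y (J s)).det‖ := hy1
    have hy2' : ∑ q, ∑ j, ∑ s, ‖MvPolynomial.eval y (c q J j s)‖ < F0 + 1 := hy2
    have hdet : (Matrix.of fun i s => jac (Q i) y (J s)).det ≠ 0 := by
      intro h0
      rw [h0, norm_zero] at hy1'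
      linarith
    refine ⟨fun i => ((Matrix.of fun (_ : Unit) s => jac (g q) y (J s)) *
      (Matrix.of fun i s => jac (Q i) y (J s))⁻¹) () i, fun j => ?_⟩
    have h1 := hc q J j y
    rw [algMin_schur _ _ _ _ hdet] at h1
    simp only [Matrix.of_apply] at h1
    have h2 := congrArg norm h1
    rw [norm_mul] at h2
    have h3 : ‖∑ s, MvPolynomial.eval y (c q J j s) * MvPolynomial.eval y (g s)‖
        ≤ (F0 + 1) * ∑ s, ‖MvPolynomial.eval y (g s)‖ := by
      refine (norm_sum_le _ _).trans ?_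
      rw [Finset.mul_sum]
      refine Finset.sum_le_sum fun s _ => ?_
      rw [norm_mul]
      refine mul_le_mul_of_nonneg_right ?_ (norm_nonneg _)
      have h4 : ‖MvPolynomial.eval y (c q J j s)‖
          ≤ ∑ s, ‖MvPolynomial.eval y (c q J j s)‖ :=
        Finset.single_le_sum (f := fun s => ‖MvPolynomial.eval y (c q J j s)‖)
          (fun _ _ => norm_nonneg _) (Finset.mem_univ s)
      have h5 : ∑ s, ‖MvPolynomial.eval y (c q J j s)‖
          ≤ ∑ j, ∑ s, ‖MvPolynomial.eval y (c q J j s)‖ :=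
        Finset.single_le_sum (f := fun j => ∑ s, ‖MvPolynomial.eval y (c q J j s)‖)
          (fun _ _ => Finset.sum_nonneg fun _ _ => norm_nonneg _) (Finset.mem_univ j)
      have h6 : ∑ j, ∑ s, ‖MvPolynomial.eval y (c q J j s)‖
          ≤ ∑ q, ∑ j, ∑ s, ‖MvPolynomial.eval y (c q J j s)‖ :=
        Finset.single_le_sum (f := fun q => ∑ j, ∑ s, ‖MvPolynomial.eval y (c q J j s)‖)
          (fun _ _ => Finset.sum_nonneg fun _ _ => Finset.sum_nonneg fun _ _ => norm_nonneg _)
          (Finset.mem_univ q)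
      linarith
    rw [div_mul_eq_mul_div, le_div_iff₀ (by positivity)]
    rw [← h2] at h3
    refine le_trans ?_ h3
    rw [mul_comm]
    exact mul_le_mul_of_nonneg_right hy1'.le (norm_nonneg _)

end AF21
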