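import Pool.Agent.AF21.Defs

/-!
# [AF21-MULTB] Uniform estimates near a point where the derivative is surjective

Let `L = fderiv ℝ P c`, surjective, and let `R : F →L[ℝ] V` be a right inverse, `L (R μ) = μ` (finite dimension;
`ContinuousLinearMap.exists_right_inverse...`, or `LinearMap.exists_rightInverse_of_surjective` and
`LinearMap.toContinuousLinearMap`).

`mult_bound`. For `y` near `c`, `‖(fderiv P y - L) ∘ R‖ ≤ 1/2` (continuity of `fderiv ℝ P`). If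
`⟪n, v⟫ = ⟪μ, fderiv P y v⟫` for all `v`, take `v = R μ`: `⟪n, R μ⟫ = ⟪μ, μ⟫ + ⟪μ, (fderiv P y - L) (R μ)⟫ ≥ ‖μ‖²/2`, so
`‖μ‖²/2 ≤ ‖n‖ ‖R‖ ‖μ‖`. `C = 2 ‖R‖ + 1`.

`tangency`. `P` is strictly differentiable at `c`: for `y, y'` near `c`, `‖P y - P y' - L (y - y')‖ ≤ η' ‖y - y'‖`, i.e.
`‖L w‖ ≤ η' ‖w‖` for `w = y - y'`. Let `n = w - Π w`, `Π` the projection to `ker L`; `n ∈ (ker L)ᗮ` and `L n = L w`. As
`n - R (L n) ∈ ker L`, `‖n‖² = ⟪n, R (L n)⟫ ≤ ‖n‖ ‖R‖ ‖L w‖ ≤ ‖n‖ ‖R‖ η' ‖w‖`. Take `η' = η / (‖R‖ + 1)`.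

`taylor_two`. On the closed ball of radius `1` about `c` (compact, convex) `‖fderiv ℝ (fderiv ℝ P) x‖ ≤ C`, so
`fderiv ℝ P` is `C`-Lipschitz there, and the mean value inequality for `x ↦ P x - fderiv ℝ P y x` on the segment from `y`
to `z` (derivative of norm `≤ C ‖z - y‖`) gives `‖P z - P y - fderiv ℝ P y (z - y)‖ ≤ C ‖z - y‖²`
(`Convex.norm_image_sub_le_of_norm_fderiv_le`, `Convex.norm_image_sub_le_of_norm_hasFDerivWithin_le`).

`fderiv_lip`: the same Lipschitz bound for `fderiv ℝ P`. `fderiv_strict`: `fderiv ℝ P` is smooth, hence strictly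
differentiable at `c`.
-/

set_option autoImplicit false

open Set Topology
open scoped ContDiff InnerProductSpace

namespace AF21
variable {V F : Type} [NormedAddCommGroup V] [InnerProductSpace ℝ V] [FiniteDimensional ℝ V]
  [NormedAddCommGroup F] [InnerProductSpace ℝ F] [FiniteDimensional ℝ F]

theorem exists_right_inv {L : V →L[ℝ] F} (hs : Function.Surjective L) :
    ∃ R : F →L[ℝ] V, ∀ μ, L (R μ) = μ := by
  obtain ⟨g, hg⟩ := (L : V →ₗ[ℝ] F).exists_rightInverse_of_surjective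
    (LinearMap.range_eq_top.2 hs)
  refine ⟨LinearMap.toContinuousLinearMap g, fun μ => ?_⟩
  have := LinearMap.congr_fun hg μ
  simpa using this

theorem mult_bound {P : V → F} {c : V} (hP : ContDiff ℝ ∞ P) (hs : Function.Surjective (fderiv ℝ P c)) :
    ∃ ρ > 0, ∃ C > 0, ∀ y, ‖y - c‖ < ρ → ∀ (μ : F) (n : V),
      (∀ v : V, ⟪n, v⟫_ℝ = ⟪μ, fderiv ℝ P y v⟫_ℝ) → ‖μ‖ ≤ C * ‖n‖ := by
  obtain ⟨R, hR⟩ := exists_right_inv hs
  have hc : Continuous (fderiv ℝ P) := hP.continuous_fderiv (by simp)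
  have hδ : 0 < 1 / (2 * (‖R‖ + 1)) := by positivity
  obtain ⟨ρ, hρ, h⟩ := Metric.continuousAt_iff.1 hc.continuousAt _ hδ
  refine ⟨ρ, hρ, 2 * ‖R‖ + 1, by positivity, fun y hy μ n hn => ?_⟩
  have h1 : ‖fderiv ℝ P y - fderiv ℝ P c‖ < 1 / (2 * (‖R‖ + 1)) := by
    rw [← dist_eq_norm]
    exact h (by rw [dist_eq_norm]; exact hy)
  have h2 := hn (R μ)
  have h3 : fderiv ℝ P y (R μ) = μ + (fderiv ℝ P y - fderiv ℝ P c) (R μ) := by
    rw [ContinuousLinearMap.sub_apply, hR]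
    abel
  rw [h3, inner_add_right, real_inner_self_eq_norm_sq] at h2
  have h4 : ⟪n, R μ⟫_ℝ ≤ ‖n‖ * (‖R‖ * ‖μ‖) :=
    (real_inner_le_norm _ _).trans (mul_le_mul_of_nonneg_left (R.le_opNorm μ) (norm_nonneg _))
  have h5 : |⟪μ, (fderiv ℝ P y - fderiv ℝ P c) (R μ)⟫_ℝ| ≤ ‖μ‖ * (1 / 2 * ‖μ‖) := by
    refine (abs_real_inner_le_norm _ _).trans (mul_le_mul_of_nonneg_left ?_ (norm_nonneg _))
    refine ((fderiv ℝ P y - fderiv ℝ P c).le_opNorm _).trans ?_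
    have h6 : ‖R μ‖ ≤ ‖R‖ * ‖μ‖ := R.le_opNorm μ
    calc ‖fderiv ℝ P y - fderiv ℝ P c‖ * ‖R μ‖
        ≤ (1 / (2 * (‖R‖ + 1))) * (‖R‖ * ‖μ‖) :=
          mul_le_mul h1.le h6 (norm_nonneg _) hδ.le
      _ = (‖R‖ / (‖R‖ + 1)) * (1 / 2 * ‖μ‖) := by field_simp
      _ ≤ 1 * (1 / 2 * ‖μ‖) := by
          refine mul_le_mul_of_nonneg_right ?_ (by positivity)
          rw [div_le_one (by positivity)]
          linarith
      _ = 1 / 2 * ‖μ‖ := one_mul _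
  have h7 := neg_abs_le ⟪μ, (fderiv ℝ P y - fderiv ℝ P c) (R μ)⟫_ℝ
  have h8 : ‖μ‖ * ‖μ‖ ≤ (2 * ‖R‖ * ‖n‖) * ‖μ‖ := by nlinarith
  rcases (norm_nonneg μ).eq_or_lt with h9 | h9
  · rw [← h9]
    positivity
  · have h10 := le_of_mul_le_mul_right h8 h9
    have h11 := norm_nonneg n
    linarith

theorem tangency {P : V → F} {c : V} (hP : ContDiff ℝ ∞ P) (hs : Function.Surjective (fderiv ℝ P c))
    {η : ℝ} (hη : 0 < η) :
    ∃ ρ > 0, ∀ y y', ‖y - c‖ < ρ → ‖y' - c‖ < ρ → P y = 0 → P y' = 0 →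
      ‖(y - y') - (LinearMap.ker (fderiv ℝ P c : V →ₗ[ℝ] F)).starProjection (y - y')‖ ≤ η * ‖y - y'‖ := by
  obtain ⟨R, hR⟩ := exists_right_inv hs
  have hδ : 0 < η / (‖R‖ + 1) := by positivity
  have hst : HasStrictFDerivAt P (fderiv ℝ P c) c := hP.contDiffAt.hasStrictFDerivAt (by simp)
  have hev := hst.isLittleO.def hδ
  obtain ⟨ρ, hρ, h⟩ := Metric.eventually_nhds_iff.1 hev
  refine ⟨ρ, hρ, fun y y' hy hy' h0 h0' => ?_⟩
  have h1 : ‖P y - P y' - fderiv ℝ P c (y - y')‖ ≤ η / (‖R‖ + 1) * ‖y - y'‖ := by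
    refine @h (y, y') ?_
    rw [Prod.dist_eq]
    refine max_lt ?_ ?_
    · rw [dist_eq_norm]; exact hy
    · rw [dist_eq_norm]; exact hy'
  rw [h0, h0', sub_self, zero_sub, norm_neg] at h1
  set K : Submodule ℝ V := LinearMap.ker (fderiv ℝ P c : V →ₗ[ℝ] F) with hK
  set w : V := y - y' with hw
  set n : V := w - K.starProjection w with hn
  have hnK : n ∈ Kᗮ := K.sub_starProjection_mem_orthogonal w
  have hpK : K.starProjection w ∈ K := K.starProjection_apply_mem w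
  have hL : fderiv ℝ P c n = fderiv ℝ P c w := by
    have h2 : fderiv ℝ P c (K.starProjection w) = 0 := by
      have := LinearMap.mem_ker.1 hpK
      simpa using this
    rw [hn, map_sub, h2, sub_zero]
  have h3 : n - R (fderiv ℝ P c n) ∈ K := by
    rw [hK, LinearMap.mem_ker]
    show fderiv ℝ P c (n - R (fderiv ℝ P c n)) = 0
    rw [map_sub, hR, sub_self]
  have h4 : ⟪n - R (fderiv ℝ P c n), n⟫_ℝ = 0 := (Submodule.mem_orthogonal K n).1 hnK _ h3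
  rw [inner_sub_left, sub_eq_zero, real_inner_self_eq_norm_sq] at h4
  have h5 : ⟪R (fderiv ℝ P c n), n⟫_ℝ ≤ ‖R‖ * (η / (‖R‖ + 1) * ‖w‖) * ‖n‖ := by
    refine (real_inner_le_norm _ _).trans (mul_le_mul_of_nonneg_right ?_ (norm_nonneg _))
    rw [hL]
    exact (R.le_opNorm _).trans (mul_le_mul_of_nonneg_left h1 (norm_nonneg _))
  have h6 : ‖R‖ * (η / (‖R‖ + 1) * ‖w‖) ≤ η * ‖w‖ := by
    have e : ‖R‖ * (η / (‖R‖ + 1) * ‖w‖) = (‖R‖ / (‖R‖ + 1)) * (η * ‖w‖) := by field_simp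
    rw [e]
    have h7 : ‖R‖ / (‖R‖ + 1) ≤ 1 := by
      rw [div_le_one (by positivity)]
      linarith
    calc _ ≤ 1 * (η * ‖w‖) := mul_le_mul_of_nonneg_right h7 (by positivity)
      _ = _ := one_mul _
  have h8 : ‖n‖ * ‖n‖ ≤ (η * ‖w‖) * ‖n‖ := by
    have h9 := mul_le_mul_of_nonneg_right h6 (norm_nonneg n)
    nlinarith
  rcases (norm_nonneg n).eq_or_lt with h9 | h9
  · rw [← h9]
    positivity
  · exact le_of_mul_le_mul_right h8 h9

theorem fderiv_lip {P : V → F} (c : V) (hP : ContDiff ℝ ∞ P) :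
    ∃ ρ > 0, ∃ C > 0, ∀ y z, ‖y - c‖ < ρ → ‖z - c‖ < ρ →
      ‖fderiv ℝ P z - fderiv ℝ P y‖ ≤ C * ‖z - y‖ := by
  have h1 : ContDiff ℝ 1 (fderiv ℝ P) := hP.fderiv_right (m := 1) (WithTop.coe_le_coe.2 le_top)
  obtain ⟨K, t, ht, hK⟩ := h1.contDiffAt.exists_lipschitzOnWith (x := c)
  obtain ⟨ρ, hρ, hb⟩ := Metric.mem_nhds_iff.1 ht
  refine ⟨ρ, hρ, K + 1, by positivity, fun y z hy hz => ?_⟩
  have hy' : y ∈ t := hb (by rw [Metric.mem_ball, dist_eq_norm]; exact hy)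
  have hz' : z ∈ t := hb (by rw [Metric.mem_ball, dist_eq_norm]; exact hz)
  have h2 := hK.dist_le_mul z hz' y hy'
  rw [dist_eq_norm, dist_eq_norm] at h2
  have h3 := norm_nonneg (z - y)
  nlinarith

theorem taylor_two {P : V → F} (c : V) (hP : ContDiff ℝ ∞ P) :
    ∃ ρ > 0, ∃ C > 0, ∀ y z, ‖y - c‖ < ρ → ‖z - c‖ < ρ →
      ‖P z - P y - fderiv ℝ P y (z - y)‖ ≤ C * ‖z - y‖ ^ 2 := by
  obtain ⟨ρ, hρ, C, hC, h⟩ := fderiv_lip c hP
  refine ⟨ρ, hρ, C, hC, fun y z hy hz => ?_⟩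
  have hd : Differentiable ℝ P := hP.differentiable (by simp)
  have hseg : ∀ x ∈ segment ℝ y z, ‖x - c‖ < ρ := by
    intro x hx
    have h1 : segment ℝ y z ⊆ Metric.ball c ρ :=
      (convex_ball c ρ).segment_subset (by rw [Metric.mem_ball, dist_eq_norm]; exact hy)
        (by rw [Metric.mem_ball, dist_eq_norm]; exact hz)
    have h2 := h1 hx
    rw [Metric.mem_ball, dist_eq_norm] at h2
    exact h2
  have h1 := (convex_segment (𝕜 := ℝ) y z).norm_image_sub_le_of_norm_hasFDerivWithin_le'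
    (f := P) (f' := fderiv ℝ P) (φ := fderiv ℝ P y) (C := C * ‖z - y‖)
    (fun x _ => (hd x).hasFDerivAt.hasFDerivWithinAt) (fun x hx => ?_)
    (left_mem_segment ℝ y z) (right_mem_segment ℝ y z)
  · calc _ ≤ C * ‖z - y‖ * ‖z - y‖ := h1
      _ = C * ‖z - y‖ ^ 2 := by ring
  · refine (h y x hy (hseg x hx)).trans (mul_le_mul_of_nonneg_left ?_ hC.le)
    obtain ⟨a, b, ha, hb, hab, rfl⟩ := hx
    have e : a • y + b • z - y = b • (z - y) := by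
      have : a = 1 - b := by linarith
      rw [this]
      module
    rw [e, norm_smul, Real.norm_of_nonneg hb]
    have h2 : b ≤ 1 := by linarith
    have h3 := norm_nonneg (z - y)
    nlinarith

theorem fderiv_strict {P : V → F} (c : V) (hP : ContDiff ℝ ∞ P) {η : ℝ} (hη : 0 < η) :
    ∃ ρ > 0, ∀ y z, ‖y - c‖ < ρ → ‖z - c‖ < ρ →
      ‖fderiv ℝ P z - fderiv ℝ P y - fderiv ℝ (fderiv ℝ P) c (z - y)‖ ≤ η * ‖z - y‖ := by
  have h1 : ContDiff ℝ 1 (fderiv ℝ P) := hP.fderiv_right (m := 1) (WithTop.coe_le_coe.2 le_top)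
  have hst : HasStrictFDerivAt (fderiv ℝ P) (fderiv ℝ (fderiv ℝ P) c) c :=
    h1.contDiffAt.hasStrictFDerivAt (by simp)
  have hev := hst.isLittleO.def hη
  obtain ⟨ρ, hρ, h⟩ := Metric.eventually_nhds_iff.1 hev
  refine ⟨ρ, hρ, fun y z hy hz => ?_⟩
  refine @h (z, y) ?_
  rw [Prod.dist_eq]
  refine max_lt ?_ ?_
  · rw [dist_eq_norm]; exact hz
  · rw [dist_eq_norm]; exact hy

end AF21
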