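import Pool.Agent.AF21.Lagr
import Pool.Agent.AF21.MultB

/-!
# [AF21-CONEEST] Linearization of the proximal step at a fixed point

Proof. Notation `u = x + e (p - x)`, `u' = x' + e (p - x')`, `L(y) = fderiv ℝ P y`, `D² = fderiv ℝ (fderiv ℝ P) c`.
For `y, y'` near `c` (in `W`) `lagr` gives `λ, λ'` with `⟪u - y, v⟫ = ⟪λ, L(y) v⟫`, `⟪u' - y', v⟫ = ⟪λ', L(y') v⟫` for all `v`.
At `c`: `⟪e (p - c), v⟫ = ⟪e μ, L(c) v⟫`.
(1) `‖λ' - e μ‖` is small: the vector `n = (u' - y') - e (p - c) - (L(y') - L(c))†(e μ)` satisfies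
  `⟪n, v⟫ = ⟪λ' - e μ, L(y') v⟫`, so `‖λ' - e μ‖ ≤ C ‖n‖` (`mult_bound`), and `‖n‖ → 0` as `x', y' → c`
  (`u' - y' - e (p - c) = (1 - e)(x' - c) - (y' - c)`). In particular `‖λ'‖ ≤ e ‖μ‖ + 1 =: C3`.
(2) `‖λ - λ'‖ ≤ C4 (‖x - x'‖ + ‖y - y'‖)`: the vector `n = (u - y) - (u' - y') - (L(y) - L(y'))† λ'` satisfies
  `⟪n, v⟫ = ⟪λ - λ', L(y) v⟫`; use `fderiv_lip`.
(3) for `v ∈ ker L(c)`:
  `(1-e) ⟪x - x', v⟫ - ⟪y - y', v⟫ = ⟪(u - y) - (u' - y'), v⟫ = ⟪λ - λ', (L(y) - L(c)) v⟫ + ⟪λ' - e μ, (L(y) - L(y')) v⟫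
   + e ⟪μ, (L(y) - L(y') - D²(y - y')) v⟫ + e ⟪μ, D² (y - y') v⟫`.
  The first term is `≤ C4 (‖x-x'‖ + ‖y-y'‖) ‖L(y) - L(c)‖ ‖v‖`, the second `≤ ‖λ' - e μ‖ C ‖y - y'‖ ‖v‖`, the third
  `≤ e ‖μ‖ η' ‖y - y'‖ ‖v‖` (`fderiv_strict`). All small for `r` small.
(The adjoint may be avoided: for a continuous linear `M : V → F` and `λ : F` the functional `v ↦ ⟪λ, M v⟫` is `⟪m, ·⟫` with
`‖m‖ ≤ ‖M‖ ‖λ‖`; `ContinuousLinearMap.adjoint` is fine too with `FiniteDimensional.complete`.)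
-/

set_option autoImplicit false

open Set Topology
open scoped ContDiff InnerProductSpace

namespace AF21
variable {V F : Type} [NormedAddCommGroup V] [InnerProductSpace ℝ V] [FiniteDimensional ℝ V]
  [NormedAddCommGroup F] [InnerProductSpace ℝ F] [FiniteDimensional ℝ F]

theorem cone_est {X : Set V} {P : V → F} {W : Set V} (h : LocEq X P W) {c p : V} {e : ℝ} (he : 0 < e)
    (he1 : e < 1) (hc : c ∈ W) (μ : F) (hμ : ∀ v, ⟪p - c, v⟫_ℝ = ⟪μ, fderiv ℝ P c v⟫_ℝ)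
    {η : ℝ} (hη : 0 < η) :
    ∃ r > 0, ∀ x x' y y' : V, ‖x - c‖ < r → ‖x' - c‖ < r → ‖y - c‖ < r → ‖y' - c‖ < r →
      IsNear X (x + e • (p - x)) y → IsNear X (x' + e • (p - x')) y' →
      ∀ v : V, fderiv ℝ P c v = 0 →
        |(1 - e) * ⟪x - x', v⟫_ℝ - ⟪y - y', v⟫_ℝ - e * ⟪μ, fderiv ℝ (fderiv ℝ P) c (y - y') v⟫_ℝ|
          ≤ η * (‖x - x'‖ + ‖y - y'‖) * ‖v‖ := by
  haveI : CompleteSpace V := FiniteDimensional.complete ℝ V
  haveI : CompleteSpace F := FiniteDimensional.complete ℝ F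
  obtain ⟨ρ1, hρ1, C1, hC1, hm⟩ := mult_bound h.smooth (h.surj c hc)
  obtain ⟨ρ2, hρ2, C2, hC2, hlip⟩ := fderiv_lip c h.smooth
  have hM : 0 ≤ ‖μ‖ := norm_nonneg μ
  obtain ⟨ρ3, hρ3, hst⟩ := fderiv_strict c h.smooth (η := η / (3 * (‖μ‖ + 1))) (by positivity)
  obtain ⟨ρ4, hρ4, hW⟩ := Metric.isOpen_iff.1 h.isOpen c hc
  obtain ⟨k1, hk1⟩ : ∃ k1, k1 = C1 * (2 + C2 * ‖μ‖) := ⟨_, rfl⟩
  obtain ⟨k2, hk2⟩ : ∃ k2, k2 = C1 * (1 + C2 * (‖μ‖ + 1)) := ⟨_, rfl⟩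
  have hk1p : 0 < k1 := by rw [hk1]; positivity
  have hk2p : 0 < k2 := by rw [hk2]; positivity
  obtain ⟨r, hr0, r1, r2, r3, r4, r5, r6, r7⟩ : ∃ r > 0, r ≤ ρ1 ∧ r ≤ ρ2 ∧ r ≤ ρ3 ∧ r ≤ ρ4 ∧ r ≤ 1 / k1 ∧
      r ≤ η / (3 * (k1 * C2)) ∧ r ≤ η / (3 * (k2 * C2)) := by
    refine ⟨min (min (min ρ1 ρ2) (min ρ3 ρ4)) (min (1 / k1) (min (η / (3 * (k1 * C2))) (η / (3 * (k2 * C2))))),
      by positivity, ?_, ?_, ?_, ?_, ?_, ?_, ?_⟩
    · exact (min_le_left _ _).trans ((min_le_left _ _).trans (min_le_left _ _))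
    · exact (min_le_left _ _).trans ((min_le_left _ _).trans (min_le_right _ _))
    · exact (min_le_left _ _).trans ((min_le_right _ _).trans (min_le_left _ _))
    · exact (min_le_left _ _).trans ((min_le_right _ _).trans (min_le_right _ _))
    · exact (min_le_right _ _).trans (min_le_left _ _)
    · exact (min_le_right _ _).trans ((min_le_right _ _).trans (min_le_left _ _))
    · exact (min_le_right _ _).trans ((min_le_right _ _).trans (min_le_right _ _))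
  refine ⟨r, hr0, ?_⟩
  intro x x' y y' hx hx' hy hy' hn hn' v hv
  have hyW : y ∈ W := hW (by rw [Metric.mem_ball, dist_eq_norm]; linarith)
  have hy'W : y' ∈ W := hW (by rw [Metric.mem_ball, dist_eq_norm]; linarith)
  obtain ⟨l, hl⟩ := lagr h hyW hn
  obtain ⟨l', hl'⟩ := lagr h hy'W hn'
  have hcc : ‖c - c‖ < ρ2 := by simpa using hρ2
  -- (1)
  have e1 : ‖l' - e • μ‖ ≤ k1 * r := by
    have h1 : ∀ v : V, ⟪(x' + e • (p - x') - y') - e • (p - c)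
        - ContinuousLinearMap.adjoint (fderiv ℝ P y' - fderiv ℝ P c) (e • μ), v⟫_ℝ
        = ⟪l' - e • μ, fderiv ℝ P y' v⟫_ℝ := by
      intro v
      rw [inner_sub_left, inner_sub_left, ContinuousLinearMap.adjoint_inner_left, hl', inner_smul_left,
        hμ v, ContinuousLinearMap.sub_apply, inner_sub_right, inner_sub_left, inner_smul_left, inner_smul_left]
      simp only [conj_trivial]
      ring
    have h2 := hm y' (by linarith) _ _ h1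
    refine h2.trans ?_
    have h3 : ‖(x' + e • (p - x') - y') - e • (p - c)
        - ContinuousLinearMap.adjoint (fderiv ℝ P y' - fderiv ℝ P c) (e • μ)‖ ≤ (2 + C2 * ‖μ‖) * r := by
      have h4 : (x' + e • (p - x') - y') - e • (p - c) = (1 - e) • (x' - c) - (y' - c) := by
        simp only [smul_sub, sub_smul, one_smul]
        abel
      rw [h4]
      have h5 : ‖(1 - e) • (x' - c)‖ ≤ r := by
        rw [norm_smul, Real.norm_of_nonneg (by linarith)]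
        nlinarith [norm_nonneg (x' - c)]
      have h6 : ‖ContinuousLinearMap.adjoint (fderiv ℝ P y' - fderiv ℝ P c) (e • μ)‖ ≤ C2 * ‖μ‖ * r := by
        refine (ContinuousLinearMap.le_opNorm _ _).trans ?_
        rw [LinearIsometryEquiv.norm_map, norm_smul, Real.norm_of_nonneg he.le]
        have h7 := hlip c y' hcc (by linarith)
        have h8 : ‖fderiv ℝ P y' - fderiv ℝ P c‖ ≤ C2 * r := h7.trans (by gcongr)
        have h9 : e * ‖μ‖ ≤ ‖μ‖ := by nlinarith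
        calc ‖fderiv ℝ P y' - fderiv ℝ P c‖ * (e * ‖μ‖) ≤ (C2 * r) * ‖μ‖ := by gcongr
          _ = C2 * ‖μ‖ * r := by ring
      calc ‖(1 - e) • (x' - c) - (y' - c)
            - ContinuousLinearMap.adjoint (fderiv ℝ P y' - fderiv ℝ P c) (e • μ)‖
          ≤ ‖(1 - e) • (x' - c) - (y' - c)‖
            + ‖ContinuousLinearMap.adjoint (fderiv ℝ P y' - fderiv ℝ P c) (e • μ)‖ := norm_sub_le _ _
        _ ≤ (‖(1 - e) • (x' - c)‖ + ‖y' - c‖) + C2 * ‖μ‖ * r := by gcongr; exact norm_sub_le _ _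
        _ ≤ (r + r) + C2 * ‖μ‖ * r := by gcongr
        _ = (2 + C2 * ‖μ‖) * r := by ring
    calc C1 * ‖(x' + e • (p - x') - y') - e • (p - c)
        - ContinuousLinearMap.adjoint (fderiv ℝ P y' - fderiv ℝ P c) (e • μ)‖
        ≤ C1 * ((2 + C2 * ‖μ‖) * r) := by gcongr
      _ = k1 * r := by rw [hk1]; ring
  have e1' : ‖l'‖ ≤ ‖μ‖ + 1 := by
    have h1 : k1 * r ≤ 1 := by
      calc k1 * r ≤ k1 * (1 / k1) := by gcongr
        _ = 1 := by field_simp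
    have h2 : ‖l'‖ ≤ ‖l' - e • μ‖ + ‖e • μ‖ := by
      simpa using norm_add_le (l' - e • μ) (e • μ)
    have h3 : ‖e • μ‖ ≤ ‖μ‖ := by
      rw [norm_smul, Real.norm_of_nonneg he.le]; nlinarith
    linarith
  -- (2)
  have hS : 0 ≤ ‖x - x'‖ + ‖y - y'‖ := by positivity
  have e2 : ‖l - l'‖ ≤ k2 * (‖x - x'‖ + ‖y - y'‖) := by
    have h1 : ∀ v : V, ⟪(x + e • (p - x) - y) - (x' + e • (p - x') - y')
        - ContinuousLinearMap.adjoint (fderiv ℝ P y - fderiv ℝ P y') l', v⟫_ℝ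
        = ⟪l - l', fderiv ℝ P y v⟫_ℝ := by
      intro v
      rw [inner_sub_left, inner_sub_left, ContinuousLinearMap.adjoint_inner_left, hl, hl',
        ContinuousLinearMap.sub_apply, inner_sub_right, inner_sub_left]
      ring
    have h2 := hm y (by linarith) _ _ h1
    refine h2.trans ?_
    have h3 : ‖(x + e • (p - x) - y) - (x' + e • (p - x') - y')
        - ContinuousLinearMap.adjoint (fderiv ℝ P y - fderiv ℝ P y') l'‖
        ≤ (1 + C2 * (‖μ‖ + 1)) * (‖x - x'‖ + ‖y - y'‖) := by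
      have h4 : (x + e • (p - x) - y) - (x' + e • (p - x') - y') = (1 - e) • (x - x') - (y - y') := by
        simp only [smul_sub, sub_smul, one_smul]
        abel
      rw [h4]
      have h5 : ‖(1 - e) • (x - x')‖ ≤ ‖x - x'‖ := by
        rw [norm_smul, Real.norm_of_nonneg (by linarith)]
        nlinarith [norm_nonneg (x - x')]
      have h6 : ‖ContinuousLinearMap.adjoint (fderiv ℝ P y - fderiv ℝ P y') l'‖
          ≤ C2 * ‖y - y'‖ * (‖μ‖ + 1) := by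
        refine (ContinuousLinearMap.le_opNorm _ _).trans ?_
        rw [LinearIsometryEquiv.norm_map]
        have h7 := hlip y' y (by linarith) (by linarith)
        gcongr
      have h8 : C2 * ‖y - y'‖ * (‖μ‖ + 1) ≤ C2 * (‖x - x'‖ + ‖y - y'‖) * (‖μ‖ + 1) := by
        gcongr
        linarith [norm_nonneg (x - x')]
      calc ‖(1 - e) • (x - x') - (y - y')
            - ContinuousLinearMap.adjoint (fderiv ℝ P y - fderiv ℝ P y') l'‖
          ≤ ‖(1 - e) • (x - x') - (y - y')‖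
            + ‖ContinuousLinearMap.adjoint (fderiv ℝ P y - fderiv ℝ P y') l'‖ := norm_sub_le _ _
        _ ≤ (‖(1 - e) • (x - x')‖ + ‖y - y'‖) + C2 * ‖y - y'‖ * (‖μ‖ + 1) := by
            gcongr; exact norm_sub_le _ _
        _ ≤ (‖x - x'‖ + ‖y - y'‖) + C2 * (‖x - x'‖ + ‖y - y'‖) * (‖μ‖ + 1) := by gcongr
        _ = (1 + C2 * (‖μ‖ + 1)) * (‖x - x'‖ + ‖y - y'‖) := by ring
    calc C1 * ‖(x + e • (p - x) - y) - (x' + e • (p - x') - y')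
        - ContinuousLinearMap.adjoint (fderiv ℝ P y - fderiv ℝ P y') l'‖
        ≤ C1 * ((1 + C2 * (‖μ‖ + 1)) * (‖x - x'‖ + ‖y - y'‖)) := by gcongr
      _ = k2 * (‖x - x'‖ + ‖y - y'‖) := by rw [hk2]; ring
  -- (3)
  have key : (1 - e) * ⟪x - x', v⟫_ℝ - ⟪y - y', v⟫_ℝ - e * ⟪μ, fderiv ℝ (fderiv ℝ P) c (y - y') v⟫_ℝ
      = ⟪l - l', (fderiv ℝ P y - fderiv ℝ P c) v⟫_ℝ + ⟪l' - e • μ, (fderiv ℝ P y - fderiv ℝ P y') v⟫_ℝ
        + e * ⟪μ, (fderiv ℝ P y - fderiv ℝ P y' - fderiv ℝ (fderiv ℝ P) c (y - y')) v⟫_ℝ := by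
    have h1 : (1 - e) * ⟪x - x', v⟫_ℝ - ⟪y - y', v⟫_ℝ
        = ⟪l, fderiv ℝ P y v⟫_ℝ - ⟪l', fderiv ℝ P y' v⟫_ℝ := by
      rw [← hl, ← hl']
      simp only [inner_sub_left, inner_add_left, inner_smul_left, conj_trivial]
      ring
    rw [h1]
    simp only [ContinuousLinearMap.sub_apply, inner_sub_left, inner_sub_right, inner_smul_left, conj_trivial, hv,
      inner_zero_right]
    ring
  rw [key]
  have t1 : |⟪l - l', (fderiv ℝ P y - fderiv ℝ P c) v⟫_ℝ| ≤ η / 3 * (‖x - x'‖ + ‖y - y'‖) * ‖v‖ := by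
    refine (abs_real_inner_le_norm _ _).trans ?_
    have h1 : ‖(fderiv ℝ P y - fderiv ℝ P c) v‖ ≤ C2 * r * ‖v‖ := by
      refine (ContinuousLinearMap.le_opNorm _ _).trans ?_
      gcongr
      exact (hlip c y hcc (by linarith)).trans (by gcongr)
    have h2 : k2 * C2 * r ≤ η / 3 := by
      calc k2 * C2 * r ≤ k2 * C2 * (η / (3 * (k2 * C2))) := by gcongr
        _ = η / 3 := by field_simp
    calc ‖l - l'‖ * ‖(fderiv ℝ P y - fderiv ℝ P c) v‖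
        ≤ (k2 * (‖x - x'‖ + ‖y - y'‖)) * (C2 * r * ‖v‖) := by gcongr
      _ = (k2 * C2 * r) * (‖x - x'‖ + ‖y - y'‖) * ‖v‖ := by ring
      _ ≤ η / 3 * (‖x - x'‖ + ‖y - y'‖) * ‖v‖ := by gcongr
  have hyS : ‖y - y'‖ ≤ ‖x - x'‖ + ‖y - y'‖ := by linarith [norm_nonneg (x - x')]
  have t2 : |⟪l' - e • μ, (fderiv ℝ P y - fderiv ℝ P y') v⟫_ℝ| ≤ η / 3 * (‖x - x'‖ + ‖y - y'‖) * ‖v‖ := by
    refine (abs_real_inner_le_norm _ _).trans ?_
    have h1 : ‖(fderiv ℝ P y - fderiv ℝ P y') v‖ ≤ C2 * (‖x - x'‖ + ‖y - y'‖) * ‖v‖ := by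
      refine (ContinuousLinearMap.le_opNorm _ _).trans ?_
      gcongr
      exact (hlip y' y (by linarith) (by linarith)).trans (by gcongr)
    have h2 : k1 * C2 * r ≤ η / 3 := by
      calc k1 * C2 * r ≤ k1 * C2 * (η / (3 * (k1 * C2))) := by gcongr
        _ = η / 3 := by field_simp
    calc ‖l' - e • μ‖ * ‖(fderiv ℝ P y - fderiv ℝ P y') v‖
        ≤ (k1 * r) * (C2 * (‖x - x'‖ + ‖y - y'‖) * ‖v‖) := by gcongr
      _ = (k1 * C2 * r) * (‖x - x'‖ + ‖y - y'‖) * ‖v‖ := by ring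
      _ ≤ η / 3 * (‖x - x'‖ + ‖y - y'‖) * ‖v‖ := by gcongr
  have t3 : |e * ⟪μ, (fderiv ℝ P y - fderiv ℝ P y' - fderiv ℝ (fderiv ℝ P) c (y - y')) v⟫_ℝ|
      ≤ η / 3 * (‖x - x'‖ + ‖y - y'‖) * ‖v‖ := by
    rw [abs_mul, abs_of_pos he]
    have h0 := abs_real_inner_le_norm μ ((fderiv ℝ P y - fderiv ℝ P y' - fderiv ℝ (fderiv ℝ P) c (y - y')) v)
    have h1 : ‖(fderiv ℝ P y - fderiv ℝ P y' - fderiv ℝ (fderiv ℝ P) c (y - y')) v‖
        ≤ η / (3 * (‖μ‖ + 1)) * (‖x - x'‖ + ‖y - y'‖) * ‖v‖ := by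
      refine (ContinuousLinearMap.le_opNorm _ _).trans ?_
      gcongr
      exact (hst y' y (by linarith) (by linarith)).trans (by gcongr)
    calc e * |⟪μ, (fderiv ℝ P y - fderiv ℝ P y' - fderiv ℝ (fderiv ℝ P) c (y - y')) v⟫_ℝ|
        ≤ 1 * (‖μ‖ * (η / (3 * (‖μ‖ + 1)) * (‖x - x'‖ + ‖y - y'‖) * ‖v‖)) := by
          gcongr
          exact h0.trans (by gcongr)
      _ = (η / 3 * (‖x - x'‖ + ‖y - y'‖) * ‖v‖) * (‖μ‖ / (‖μ‖ + 1)) := by
          field_simp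
      _ ≤ (η / 3 * (‖x - x'‖ + ‖y - y'‖) * ‖v‖) * 1 := by
          gcongr
          rw [div_le_one (by positivity)]
          linarith
      _ = η / 3 * (‖x - x'‖ + ‖y - y'‖) * ‖v‖ := by ring
  calc |⟪l - l', (fderiv ℝ P y - fderiv ℝ P c) v⟫_ℝ + ⟪l' - e • μ, (fderiv ℝ P y - fderiv ℝ P y') v⟫_ℝ
        + e * ⟪μ, (fderiv ℝ P y - fderiv ℝ P y' - fderiv ℝ (fderiv ℝ P) c (y - y')) v⟫_ℝ|
      ≤ |⟪l - l', (fderiv ℝ P y - fderiv ℝ P c) v⟫_ℝ| + |⟪l' - e • μ, (fderiv ℝ P y - fderiv ℝ P y') v⟫_ℝ|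
        + |e * ⟪μ, (fderiv ℝ P y - fderiv ℝ P y' - fderiv ℝ (fderiv ℝ P) c (y - y')) v⟫_ℝ| := abs_add_three _ _ _
    _ ≤ η * (‖x - x'‖ + ‖y - y'‖) * ‖v‖ := by linarith

end AF21
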