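import Pool.Agent.AF21.Defs

/-!
# [AF21-LIN] Linear algebra for the cone lemma

Proof. The bilinear form `β` restricted to `T` is symmetric; let `Bt : T →ₗ T` be the symmetric operator with
`⟪Bt v, w⟫ = β v w` for `v, w ∈ T` (Riesz on `T`, e.g. `(toDual ℝ T).symm`; or `LinearMap.toMatrix`-free:
`InnerProductSpace.toDual`), `LinearMap.IsSymmetric`. Take an orthonormal basis `b i` of `T` of eigenvectors with eigenvalues
`β_i` (`LinearMap.IsSymmetric.eigenvectorBasis`, `.eigenvalues`, `.apply_eigenvectorBasis`), and put `m_i = 1 + e β_i`,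
`I_A = {i | |m_i| > 1 - e}`, `I_B = {i | |m_i| ≤ 1 - e}`, `A w = ∑_{i ∈ I_A} ⟪b i, w⟫ b i`, `B w = ∑_{i ∈ I_B} ⟪b i, w⟫ b i`.
* For `i ∈ I_B`: `1 + e β_i ≤ 1 - e`, so `β_i ≤ -1`, so on `S = span {b i | i ∈ I_B}` (inside `T`) `‖v‖² + β v v =
  ∑ (1 + β_i) ⟪b i, v⟫² ≤ 0`. By `hl`, `finrank S ≤ l`, and `range B ⊆ S`.
* `κ` = half of `1 +` the minimum of `|m_i| / (1 - e)`, `i ∈ I_A`... simply: `κ > 1` with `|m_i| ≥ κ (1 - e)` for all `i ∈ I_A`
  (finite set; `κ = 2` if `I_A` is empty).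
* `A`, `B` are orthogonal projections up to `Tᗮ`: `‖A w‖ ≤ ‖w‖`, `‖B w‖ ≤ ‖w‖`, `A w = 0 = B w` for `w ∈ Tᗮ`, and `w = A w + B w` for
  `w ∈ T`.
* Last claim. Let `w' ∈ T`, `r = (1-e) Π_T w - w' - e Bt w' ∈ T`; the hypothesis says `|⟪r, v⟫| ≤ ρ ‖v‖` for `v ∈ T`, so `‖r‖ ≤ ρ`
  (take `v = r`). In coordinates `⟪b i, ·⟫`: `(1-e) w_i = m_i w'_i + r_i`. So
  `(1-e) A w = ∑_{I_A} m_i w'_i b_i + A r`, the first term has norm `≥ κ (1-e) ‖A w'‖`; and
  `(1-e) B w = ∑_{I_B} m_i w'_i b_i + B r`, the first term has norm `≤ (1-e) ‖B w'‖`. (Norms of sums over an orthonormal family: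
  `‖∑ c_i b_i‖² = ∑ c_i²`, `Orthonormal.norm_sum...`/`OrthonormalBasis.sum_sq_norm_inner_right`.)
-/

set_option autoImplicit false

open Set Topology
open scoped ContDiff InnerProductSpace

namespace AF21
variable {V : Type} [NormedAddCommGroup V] [InnerProductSpace ℝ V] [FiniteDimensional ℝ V]

/-- `w ↦ ∑_{i ∈ I} ⟪e i, w⟫ e i` -/
private noncomputable def helper23_P {n : ℕ} (e : Fin n → V) (I : Finset (Fin n)) : V →L[ℝ] V :=
  ∑ i ∈ I, (innerSL ℝ (e i)).smulRight (e i)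

omit [FiniteDimensional ℝ V] in
private theorem helper23_P_apply {n : ℕ} (e : Fin n → V) (I : Finset (Fin n)) (w : V) :
    helper23_P e I w = ∑ i ∈ I, ⟪e i, w⟫_ℝ • e i := by
  simp [helper23_P]

omit [FiniteDimensional ℝ V] in
private theorem helper23_norm_sum {n : ℕ} {e : Fin n → V} (he : Orthonormal ℝ e)
    (I : Finset (Fin n)) (c : Fin n → ℝ) : ‖∑ i ∈ I, c i • e i‖ ^ 2 = ∑ i ∈ I, c i ^ 2 := by
  rw [← real_inner_self_eq_norm_sq, he.inner_sum]
  exact Finset.sum_congr rfl fun i _ => by simp [sq]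

omit [FiniteDimensional ℝ V] in
private theorem helper23_P_le {n : ℕ} {e : Fin n → V} (he : Orthonormal ℝ e)
    (I : Finset (Fin n)) (w : V) : ‖helper23_P e I w‖ ≤ ‖w‖ := by
  rw [← sq_le_sq₀ (norm_nonneg _) (norm_nonneg _), helper23_P_apply, helper23_norm_sum he]
  have h := he.sum_inner_products_le (s := I) (x := w)
  refine le_trans (le_of_eq ?_) h
  exact Finset.sum_congr rfl fun i _ => by rw [Real.norm_eq_abs, sq_abs]

private theorem helper23_kappa {n : ℕ} (I : Finset (Fin n)) (m : Fin n → ℝ) (c : ℝ)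
    (h : ∀ i ∈ I, c < m i) : ∃ κ : ℝ, 1 < κ ∧ ∀ i ∈ I, κ * c ≤ m i := by
  have h1 : ∀ i ∈ I, ∀ᶠ κ in 𝓝[>] (1 : ℝ), κ * c ≤ m i := by
    intro i hi
    have h2 : Filter.Tendsto (fun κ : ℝ => κ * c) (𝓝[>] (1 : ℝ)) (𝓝 (1 * c)) :=
      (Filter.Tendsto.mul_const c Filter.tendsto_id).mono_left nhdsWithin_le_nhds
    rw [one_mul] at h2
    exact (h2.eventually (gt_mem_nhds (h i hi))).mono fun x hx => le_of_lt hx
  have h2 : ∀ᶠ κ in 𝓝[>] (1 : ℝ), ∀ i ∈ I, κ * c ≤ m i :=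
    (Filter.eventually_all_finset I).2 h1
  obtain ⟨κ, hκ1, hκ2⟩ := (h2.and self_mem_nhdsWithin).exists
  exact ⟨κ, hκ2, hκ1⟩

private theorem helper23_Bt (T : Submodule ℝ V) (β : V →L[ℝ] V →L[ℝ] ℝ) :
    ∃ Bt : T →ₗ[ℝ] T, ∀ v w : T, ⟪Bt v, w⟫_ℝ = β v w := by
  have b0 := stdOrthonormalBasis ℝ T
  refine ⟨∑ i, ((β.flip (b0 i : V)).toLinearMap ∘ₗ T.subtype).smulRight (b0 i), ?_⟩
  intro v w
  have h1 : (∑ i, ((β.flip (b0 i : V)).toLinearMap ∘ₗ T.subtype).smulRight (b0 i)) v =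
      ∑ i, β v (b0 i : V) • b0 i := by
    simp
  have h2 : (w : V) = ∑ i, ⟪b0 i, w⟫_ℝ • (b0 i : V) := by
    have h3 : ((∑ i, ⟪b0 i, w⟫_ℝ • b0 i : T) : V) = w := congrArg _ (b0.sum_repr' w)
    rw [← h3]
    simp
  rw [h1, sum_inner]
  conv_rhs => rw [h2, map_sum]
  refine Finset.sum_congr rfl fun i _ => ?_
  rw [real_inner_smul_left, map_smul, smul_eq_mul, mul_comm]

theorem lin_split (T : Submodule ℝ V) (β : V →L[ℝ] V →L[ℝ] ℝ) (hβ : ∀ v w, β v w = β w v) (l : ℕ)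
    (hl : ∀ S : Submodule ℝ V, S ≤ T → (∀ v ∈ S, ‖v‖ ^ 2 + β v v ≤ 0) → Module.finrank ℝ S ≤ l)
    {e : ℝ} (he : 0 < e) (he1 : e < 1) :
    ∃ (A B : V →L[ℝ] V) (κ : ℝ), 1 < κ ∧ Module.finrank ℝ (LinearMap.range (B : V →ₗ[ℝ] V)) ≤ l ∧
      (∀ w, ‖A w‖ ≤ ‖w‖) ∧ (∀ w, ‖B w‖ ≤ ‖w‖) ∧
      (∀ w, A (T.starProjection w) = A w) ∧ (∀ w, B (T.starProjection w) = B w) ∧
      (∀ w ∈ T, A w + B w = w) ∧
      ∀ (w w' : V) (ρ : ℝ), 0 ≤ ρ → w' ∈ T →
        (∀ v ∈ T, |(1 - e) * ⟪w, v⟫_ℝ - ⟪w', v⟫_ℝ - e * β w' v| ≤ ρ * ‖v‖) →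
        κ * (1 - e) * ‖A w'‖ ≤ (1 - e) * ‖A w‖ + ρ ∧ (1 - e) * ‖B w‖ ≤ (1 - e) * ‖B w'‖ + ρ := by
  classical
  obtain ⟨Bt, hBt⟩ := helper23_Bt T β
  have hsym : Bt.IsSymmetric := by
    intro v w
    rw [hBt, real_inner_comm, hBt, hβ]
  set n := Module.finrank ℝ T with hn
  set b := hsym.eigenvectorBasis hn.symm with hb
  set bet : Fin n → ℝ := hsym.eigenvalues hn.symm with hbet
  set ee : Fin n → V := fun i => (b i : V) with hee
  have heT : ∀ i, ee i ∈ T := fun i => (b i).2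
  have hon : Orthonormal ℝ ee := b.orthonormal.comp_linearIsometry T.subtypeₗᵢ
  have hβe : ∀ i, ∀ w ∈ T, β (ee i) w = bet i * ⟪ee i, w⟫_ℝ := by
    intro i w hw
    have h1 := hBt (b i) ⟨w, hw⟩
    have h2 : Bt (b i) = (bet i : ℝ) • b i := hsym.apply_eigenvectorBasis hn.symm i
    rw [h2, real_inner_smul_left] at h1
    exact h1.symm
  set m : Fin n → ℝ := fun i => 1 + e * bet i with hm
  set IA : Finset (Fin n) := Finset.univ.filter (fun i => 1 - e < |m i|) with hIA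
  set IB : Finset (Fin n) := Finset.univ.filter (fun i => ¬ (1 - e < |m i|)) with hIB
  obtain ⟨κ, hκ1, hκ⟩ := helper23_kappa IA (fun i => |m i|) (1 - e)
    (fun i hi => (Finset.mem_filter.1 hi).2)
  have h1e : 0 < 1 - e := by linarith
  have hPT : ∀ (I : Finset (Fin n)) (w : V), helper23_P ee I w ∈ T := by
    intro I w
    rw [helper23_P_apply]
    exact Submodule.sum_mem _ fun i _ => T.smul_mem _ (heT i)
  have hproj : ∀ (I : Finset (Fin n)) (w : V),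
      helper23_P ee I (T.starProjection w) = helper23_P ee I w := by
    intro I w
    rw [helper23_P_apply, helper23_P_apply]
    refine Finset.sum_congr rfl fun i _ => ?_
    rw [← Submodule.inner_starProjection_left_eq_right,
      Submodule.starProjection_eq_self_iff.2 (heT i)]
  -- the main estimate
  have hmain : ∀ (I : Finset (Fin n)) (w w' : V) (ρ : ℝ), 0 ≤ ρ → w' ∈ T →
      (∀ v ∈ T, |(1 - e) * ⟪w, v⟫_ℝ - ⟪w', v⟫_ℝ - e * β w' v| ≤ ρ * ‖v‖) →
      ‖(1 - e) • helper23_P ee I w - ∑ i ∈ I, (m i * ⟪ee i, w'⟫_ℝ) • ee i‖ ≤ ρ := by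
    intro I w w' ρ hρ hw' hr
    set r : Fin n → ℝ := fun i => (1 - e) * ⟪ee i, w⟫_ℝ - m i * ⟪ee i, w'⟫_ℝ with hrdef
    have h1 : (1 - e) • helper23_P ee I w - ∑ i ∈ I, (m i * ⟪ee i, w'⟫_ℝ) • ee i =
        ∑ i ∈ I, r i • ee i := by
      rw [helper23_P_apply, Finset.smul_sum, ← Finset.sum_sub_distrib]
      refine Finset.sum_congr rfl fun i _ => ?_
      rw [smul_smul, ← sub_smul]
    rw [h1]
    set v : V := ∑ i ∈ I, r i • ee i with hv
    have hvT : v ∈ T := Submodule.sum_mem _ fun i _ => T.smul_mem _ (heT i)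
    have h2 := hr v hvT
    have h3 : (1 - e) * ⟪w, v⟫_ℝ - ⟪w', v⟫_ℝ - e * β w' v = ∑ i ∈ I, r i ^ 2 := by
      rw [hv, inner_sum, inner_sum, map_sum, Finset.mul_sum, Finset.mul_sum,
        ← Finset.sum_sub_distrib, ← Finset.sum_sub_distrib]
      refine Finset.sum_congr rfl fun i _ => ?_
      rw [real_inner_smul_right, real_inner_smul_right, map_smul, smul_eq_mul, hβ w' (ee i),
        hβe i w' hw', real_inner_comm (ee i) w, real_inner_comm (ee i) w']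
      simp only [hrdef, hm]
      ring
    rw [h3, ← helper23_norm_sum hon I r, ← hv, abs_of_nonneg (sq_nonneg _)] at h2
    by_contra hlt
    rw [not_le] at hlt
    have h4 : 0 < ‖v‖ := lt_of_le_of_lt hρ hlt
    nlinarith
  refine ⟨helper23_P ee IA, helper23_P ee IB, κ, hκ1, ?_, helper23_P_le hon IA,
    helper23_P_le hon IB, hproj IA, hproj IB, ?_, ?_⟩
  · apply hl
    · rintro _ ⟨w, rfl⟩
      exact hPT IB w
    · rintro _ ⟨w, rfl⟩
      have h0 : (helper23_P ee IB : V →ₗ[ℝ] V) w = ∑ i ∈ IB, ⟪ee i, w⟫_ℝ • ee i :=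
        helper23_P_apply ee IB w
      rw [h0]
      set c : Fin n → ℝ := fun i => ⟪ee i, w⟫_ℝ with hc
      have hvT : ∑ i ∈ IB, c i • ee i ∈ T :=
        Submodule.sum_mem _ fun i _ => T.smul_mem _ (heT i)
      have h1 : β (∑ i ∈ IB, c i • ee i) (∑ i ∈ IB, c i • ee i) =
          ∑ i ∈ IB, bet i * c i ^ 2 := by
        rw [map_sum]
        refine Finset.sum_congr rfl fun i hi => ?_
        rw [map_smul, hβ, hβe i _ hvT, hon.inner_right_sum c hi, smul_eq_mul]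
        ring
      rw [h1, helper23_norm_sum hon, ← Finset.sum_add_distrib]
      refine Finset.sum_nonpos fun i hi => ?_
      have h2 : |m i| ≤ 1 - e := not_lt.1 (Finset.mem_filter.1 hi).2
      have h3 : m i ≤ 1 - e := (le_abs_self _).trans h2
      have h4 : e * (bet i + 1) ≤ 0 := by
        simp only [hm] at h3
        linarith
      have h5 : bet i + 1 ≤ 0 := by
        by_contra hcon
        rw [not_le] at hcon
        have := mul_pos he hcon
        linarith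
      nlinarith [sq_nonneg (c i)]
  · intro w hw
    rw [helper23_P_apply, helper23_P_apply, hIA, hIB, Finset.sum_filter_add_sum_filter_not]
    have h3 : ((∑ i, ⟪b i, (⟨w, hw⟩ : T)⟫_ℝ • b i : T) : V) = w :=
      congrArg (fun t : T => (t : V)) (b.sum_repr' ⟨w, hw⟩)
    conv_rhs => rw [← h3]
    simp [hee]
  · intro w w' ρ hρ hw' hr
    constructor
    · have h1 := hmain IA w w' ρ hρ hw' hr
      have h2 : κ * (1 - e) * ‖helper23_P ee IA w'‖ ≤
          ‖∑ i ∈ IA, (m i * ⟪ee i, w'⟫_ℝ) • ee i‖ := by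
        rw [← sq_le_sq₀ (by positivity) (norm_nonneg _), helper23_norm_sum hon, mul_pow,
          helper23_P_apply, helper23_norm_sum hon, Finset.mul_sum]
        refine Finset.sum_le_sum fun i hi => ?_
        rw [mul_pow (m i)]
        refine mul_le_mul_of_nonneg_right ?_ (sq_nonneg _)
        rw [← sq_abs (m i)]
        have h3 := hκ i hi
        have h4 : 0 ≤ κ * (1 - e) := by positivity
        gcongr
      have h3 : ‖∑ i ∈ IA, (m i * ⟪ee i, w'⟫_ℝ) • ee i‖ ≤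
          ‖(1 - e) • helper23_P ee IA w‖ + ‖(1 - e) • helper23_P ee IA w -
            ∑ i ∈ IA, (m i * ⟪ee i, w'⟫_ℝ) • ee i‖ := by
        have h4 := norm_sub_le ((1 - e) • helper23_P ee IA w) ((1 - e) • helper23_P ee IA w -
            ∑ i ∈ IA, (m i * ⟪ee i, w'⟫_ℝ) • ee i)
        rwa [sub_sub_cancel] at h4
      rw [norm_smul, Real.norm_eq_abs, abs_of_pos h1e] at h3
      linarith
    · have h1 := hmain IB w w' ρ hρ hw' hr
      have h2 : ‖∑ i ∈ IB, (m i * ⟪ee i, w'⟫_ℝ) • ee i‖ ≤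
          (1 - e) * ‖helper23_P ee IB w'‖ := by
        rw [← sq_le_sq₀ (norm_nonneg _) (by positivity), helper23_norm_sum hon, mul_pow,
          helper23_P_apply, helper23_norm_sum hon, Finset.mul_sum]
        refine Finset.sum_le_sum fun i hi => ?_
        rw [mul_pow (m i)]
        refine mul_le_mul_of_nonneg_right ?_ (sq_nonneg _)
        rw [← sq_abs (m i)]
        have h3 : |m i| ≤ 1 - e := not_lt.1 (Finset.mem_filter.1 hi).2
        gcongr
      have h3 : ‖(1 - e) • helper23_P ee IB w‖ ≤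
          ‖(1 - e) • helper23_P ee IB w - ∑ i ∈ IB, (m i * ⟪ee i, w'⟫_ℝ) • ee i‖ +
            ‖∑ i ∈ IB, (m i * ⟪ee i, w'⟫_ℝ) • ee i‖ := by
        have h4 := norm_add_le ((1 - e) • helper23_P ee IB w -
            ∑ i ∈ IB, (m i * ⟪ee i, w'⟫_ℝ) • ee i) (∑ i ∈ IB, (m i * ⟪ee i, w'⟫_ℝ) • ee i)
        rwa [sub_add_cancel] at h4
      rw [norm_smul, Real.norm_eq_abs, abs_of_pos h1e] at h3
      linarith

end AF21
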