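import Pool.Agent.AF21.StepBasic
import Pool.Agent.AF21.ConeEst
import Pool.Agent.AF21.Lin

/-!
# [AF21-CONE] Cone lemma at a fixed point of the proximal step

Proof. `(P, W)` from `hX.loc c`, `T = ker (fderiv ℝ P c)`. `c` is a nearest point to `c + e (p - c)` (`step_near`, `hfix`), so by
`lagr` and division by `e` there is `μ` with `⟪p - c, v⟫ = ⟪μ, fderiv P c v⟫`. Put
`β v w = ⟪μ, fderiv ℝ (fderiv ℝ P) c v w⟫` (continuous bilinear; symmetric by `ContDiffAt.isSymmSndFDerivAt` /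
`second_derivative_symmetric`). The hypothesis `hl` of `lin_split` is `IdxB P c l` with `-μ`. Get `A, B, κ0` from `lin_split`.
Let `η > 0` be small (below) and let `r` be such that the ball of radius `r` is inside `W` and `tangency` and `cone_est` hold
in it with `η`. For `y, y' ∈ X` in the ball and `w = y - y'`: `w = Π w + (w - Π w)`, `‖w - Π w‖ ≤ η ‖w‖`,
`Π w = A w + B w` (`A (Π w) = A w`), so `(1 - η) ‖w‖ ≤ ‖A w‖ + ‖B w‖`; first claim for `η ≤ 1/2`.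
Let `x, x'` be as in the second claim, `w = x - x'`, `w' = Ψ x - Ψ x'`, `t' = Π w'`, `a = ‖A w'‖`, `‖B w'‖ ≤ a`, so `‖w'‖ ≤ 4 a`.
For `v ∈ T`: `⟪w', v⟫ = ⟪t', v⟫`, and `|β (w' - t') v| ≤ ‖β‖ η ‖w'‖ ‖v‖`, so by `cone_est`
`|(1-e) ⟪w, v⟫ - ⟪t', v⟫ - e β t' v| ≤ ρ ‖v‖`, `ρ = η (‖w‖ + ‖w'‖) + e ‖β‖ η ‖w'‖`. With `v = Π w`:
`(1-e) ‖Π w‖ ≤ (1 + e ‖β‖) ‖w'‖ + ρ` and `‖w‖ ≤ 2 ‖Π w‖`; so for `η ≤ (1-e)/4`: `‖w‖ ≤ C2 ‖w'‖` with a constant `C2` depending only on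
`e, ‖β‖`. Hence `ρ ≤ η C5 a`. Now `lin_split` (for `w`, `t'`; note `A t' = A w'`):
`κ0 (1-e) a ≤ (1-e) ‖A w‖ + η C5 a` and `(1-e) ‖B w‖ ≤ (1-e) a + η C5 a`. If `η C5 ≤ (1-e)(κ0-1)/2` then with `κ = (1 + κ0)/2`:
`‖A w‖ ≥ κ a` and `‖B w‖ ≤ κ a ≤ ‖A w‖`. (Choose `η` first, from `κ0, e, ‖β‖`, then `r`.)
-/

set_option autoImplicit false

open Set Topology
open scoped ContDiff InnerProductSpace

namespace AF21
variable {V F : Type} [NormedAddCommGroup V] [InnerProductSpace ℝ V] [FiniteDimensional ℝ V]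
  [NormedAddCommGroup F] [InnerProductSpace ℝ F] [FiniteDimensional ℝ F]

theorem cone {X : Set V} {l : ℕ} (hX : Nice X F l) {p : V} {R : ℝ} (D : StepData X p R) {c : V}
    (hc : c ∈ K0 X p R) (hfix : D.Ψ c = c) :
    ∃ (A B : V →L[ℝ] V) (r κ : ℝ), 0 < r ∧ 1 < κ ∧
      Module.finrank ℝ (LinearMap.range (B : V →ₗ[ℝ] V)) ≤ l ∧
      (∀ y ∈ X, ∀ y' ∈ X, ‖y - c‖ < r → ‖y' - c‖ < r → ‖y - y'‖ ≤ 2 * (‖A (y - y')‖ + ‖B (y - y')‖)) ∧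
      (∀ x ∈ K0 X p R, ∀ x' ∈ K0 X p R, ‖x - c‖ < r → ‖x' - c‖ < r → ‖D.Ψ x - c‖ < r → ‖D.Ψ x' - c‖ < r →
        ‖B (D.Ψ x - D.Ψ x')‖ ≤ ‖A (D.Ψ x - D.Ψ x')‖ →
        ‖B (x - x')‖ ≤ ‖A (x - x')‖ ∧ κ * ‖A (D.Ψ x - D.Ψ x')‖ ≤ ‖A (x - x')‖) := by
  obtain ⟨P, W, hcW, hL, hIdx⟩ := hX.loc c hc.1
  have he := D.e_pos
  have he1 := D.e_lt
  have h1e : 0 < 1 - D.e := by linarith
  -- the multiplier at `c`
  have hnc : IsNear X (c + D.e • (p - c)) c := by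
    have h := step_near D hc
    rwa [hfix] at h
  obtain ⟨μ0, hμ0⟩ := lagr hL hcW hnc
  set μ : F := D.e⁻¹ • μ0 with hμdef
  have hμ : ∀ v, ⟪p - c, v⟫_ℝ = ⟪μ, fderiv ℝ P c v⟫_ℝ := by
    intro v
    have h1 := hμ0 v
    have h2 : c + D.e • (p - c) - c = D.e • (p - c) := by abel
    rw [h2, real_inner_smul_left] at h1
    rw [hμdef, real_inner_smul_left, ← h1, ← mul_assoc, inv_mul_cancel₀ he.ne', one_mul]
  -- the bilinear form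
  set β : V →L[ℝ] V →L[ℝ] ℝ :=
    ((ContinuousLinearMap.compL ℝ V F ℝ) (innerSL ℝ μ)).comp (fderiv ℝ (fderiv ℝ P) c) with hβdef
  have hβapp : ∀ v w, β v w = ⟪μ, fderiv ℝ (fderiv ℝ P) c v w⟫_ℝ := fun v w => rfl
  have hsymm : IsSymmSndFDerivAt ℝ P c :=
    ContDiffAt.isSymmSndFDerivAt (hL.smooth.contDiffAt) (by
      rw [minSmoothness_of_isRCLikeNormedField]
      exact WithTop.coe_le_coe.2 le_top)
  have hβsymm : ∀ v w, β v w = β w v := by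
    intro v w
    rw [hβapp, hβapp, hsymm.eq v w]
  set T : Submodule ℝ V := LinearMap.ker (fderiv ℝ P c : V →ₗ[ℝ] F) with hT
  have hTmem : ∀ v, v ∈ T → fderiv ℝ P c v = 0 := fun v hv => by
    rw [hT, LinearMap.mem_ker] at hv
    exact hv
  have hl : ∀ S : Submodule ℝ V, S ≤ T → (∀ v ∈ S, ‖v‖ ^ 2 + β v v ≤ 0) →
      Module.finrank ℝ S ≤ l := by
    intro S hS hneg
    refine hIdx c hcW hc.1 (-μ) S fun v hv => ⟨hTmem v (hS hv), ?_⟩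
    have h1 := hneg v hv
    rw [inner_neg_left, ← hβapp]
    linarith
  obtain ⟨A, B, κ0, hκ0, hrank, hA, hB, hAT, hBT, hAB, hmain⟩ := lin_split T β hβsymm l hl he he1
  -- constants
  obtain ⟨C, hC⟩ : ∃ C, C = 1 + D.e * ‖β‖ := ⟨_, rfl⟩
  have hC1 : 1 ≤ C := by
    rw [hC]
    have := mul_nonneg he.le (norm_nonneg β)
    linarith
  obtain ⟨C2, hC2⟩ : ∃ C2, C2 = 6 * C / (1 - D.e) := ⟨_, rfl⟩
  have hC2p : 0 < C2 := by
    rw [hC2]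
    positivity
  obtain ⟨C5, hC5⟩ : ∃ C5, C5 = 4 * (C2 + C) := ⟨_, rfl⟩
  have hC5p : 0 < C5 := by
    rw [hC5]
    positivity
  obtain ⟨η, hη, hη1, hη2, hη3⟩ : ∃ η > 0, η ≤ 1 / 2 ∧ η ≤ (1 - D.e) / 4 ∧
      η * C5 ≤ (1 - D.e) * (κ0 - 1) / 2 := by
    have h1 : 0 < (1 - D.e) * (κ0 - 1) / 2 / C5 := by
      have : 0 < κ0 - 1 := by linarith
      positivity
    refine ⟨min (1 / 2) (min ((1 - D.e) / 4) ((1 - D.e) * (κ0 - 1) / 2 / C5)), ?_, min_le_left _ _,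
      (min_le_right _ _).trans (min_le_left _ _), ?_⟩
    · have : 0 < (1 - D.e) / 4 := by positivity
      exact lt_min (by norm_num) (lt_min this h1)
    · rw [← le_div_iff₀ hC5p]
      exact (min_le_right _ _).trans (min_le_right _ _)
  obtain ⟨ρ1, hρ1, htan⟩ := tangency hL.smooth (hL.surj c hcW) hη
  obtain ⟨ρ2, hρ2, hest⟩ := cone_est hL he he1 hcW μ hμ hη
  obtain ⟨ρ3, hρ3, hball⟩ := Metric.isOpen_iff.1 hL.isOpen c hcW
  obtain ⟨r, hr, hr1, hr2, hr3⟩ : ∃ r > 0, r ≤ ρ1 ∧ r ≤ ρ2 ∧ r ≤ ρ3 :=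
    ⟨min ρ1 (min ρ2 ρ3), lt_min hρ1 (lt_min hρ2 hρ3), min_le_left _ _,
      (min_le_right _ _).trans (min_le_left _ _), (min_le_right _ _).trans (min_le_right _ _)⟩
  have hP0 : ∀ y ∈ X, ‖y - c‖ < r → P y = 0 := by
    intro y hy hyr
    refine (hL.iff y (hball ?_)).1 hy
    rw [Metric.mem_ball, dist_eq_norm]
    linarith
  have hpr : ∀ y ∈ X, ∀ y' ∈ X, ‖y - c‖ < r → ‖y' - c‖ < r →
      ‖(y - y') - T.starProjection (y - y')‖ ≤ η * ‖y - y'‖ := fun y hy y' hy' h1 h2 =>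
    htan y y' (by linarith) (by linarith) (hP0 y hy h1) (hP0 y' hy' h2)
  have hsum : ∀ w, T.starProjection w = A w + B w := by
    intro w
    have h1 := hAB (T.starProjection w) (Submodule.starProjection_apply_mem T w)
    rw [hAT, hBT] at h1
    exact h1.symm
  have hnorm : ∀ y ∈ X, ∀ y' ∈ X, ‖y - c‖ < r → ‖y' - c‖ < r →
      ‖y - y'‖ ≤ 2 * (‖A (y - y')‖ + ‖B (y - y')‖) := by
    intro y hy y' hy' h1 h2
    have h3 := hpr y hy y' hy' h1 h2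
    have h4 : ‖y - y'‖ ≤ ‖(y - y') - T.starProjection (y - y')‖ + ‖T.starProjection (y - y')‖ := by
      simpa using norm_add_le ((y - y') - T.starProjection (y - y')) (T.starProjection (y - y'))
    have h5 : ‖T.starProjection (y - y')‖ ≤ ‖A (y - y')‖ + ‖B (y - y')‖ := by
      rw [hsum]
      exact norm_add_le _ _
    have h6 : η * ‖y - y'‖ ≤ 1 / 2 * ‖y - y'‖ := mul_le_mul_of_nonneg_right hη1 (norm_nonneg _)
    linarith
  refine ⟨A, B, r, (1 + κ0) / 2, hr, by linarith, hrank, hnorm, ?_⟩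
  intro x hx x' hx' hxc hx'c hΨx hΨx' hBA
  have hyX : D.Ψ x ∈ X := (step_near D hx).1
  have hy'X : D.Ψ x' ∈ X := (step_near D hx').1
  have hw'4 := hnorm _ hyX _ hy'X hΨx hΨx'
  have hpw := hpr x hx.1 x' hx'.1 hxc hx'c
  have hpw' := hpr _ hyX _ hy'X hΨx hΨx'
  have hest1 := hest x x' (D.Ψ x) (D.Ψ x') (by linarith) (by linarith) (by linarith) (by linarith)
    (step_near D hx) (step_near D hx')
  obtain ⟨w, hw⟩ : ∃ w, w = x - x' := ⟨_, rfl⟩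
  obtain ⟨w', hw'⟩ : ∃ w', w' = D.Ψ x - D.Ψ x' := ⟨_, rfl⟩
  rw [← hw'] at hw'4 hpw' hBA hest1 ⊢
  rw [← hw] at hpw hest1 ⊢
  obtain ⟨t', ht'⟩ : ∃ t', t' = T.starProjection w' := ⟨_, rfl⟩
  obtain ⟨t, ht⟩ : ∃ t, t = T.starProjection w := ⟨_, rfl⟩
  have htT : t ∈ T := by rw [ht]; exact Submodule.starProjection_apply_mem T w
  have ht'T : t' ∈ T := by rw [ht']; exact Submodule.starProjection_apply_mem T w'
  rw [← ht] at hpw
  rw [← ht'] at hpw'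
  obtain ⟨a, ha⟩ : ∃ a, a = ‖A w'‖ := ⟨_, rfl⟩
  have ha0 : 0 ≤ a := by rw [ha]; exact norm_nonneg _
  rw [← ha] at hBA hw'4 ⊢
  have hw'a : ‖w'‖ ≤ 4 * a := by linarith
  have hn := norm_nonneg w
  have hn' := norm_nonneg w'
  -- the estimate on the tangent space
  obtain ⟨ρ, hρ⟩ : ∃ ρ, ρ = η * (‖w‖ + ‖w'‖) + D.e * ‖β‖ * (η * ‖w'‖) := ⟨_, rfl⟩
  have hρ0 : 0 ≤ ρ := by rw [hρ]; positivity
  have hort : ∀ (z : V), ∀ v ∈ T, ⟪z, v⟫_ℝ = ⟪T.starProjection z, v⟫_ℝ := by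
    intro z v hv
    have h1 := Submodule.starProjection_inner_eq_zero (K := T) z v hv
    rw [inner_sub_left] at h1
    linarith
  have hkey : ∀ v ∈ T, |(1 - D.e) * ⟪w, v⟫_ℝ - ⟪t', v⟫_ℝ - D.e * β t' v| ≤ ρ * ‖v‖ := by
    intro v hv
    have h1 := hest1 v (hTmem v hv)
    rw [← hβapp] at h1
    have h2 : ⟪w', v⟫_ℝ = ⟪t', v⟫_ℝ := by rw [ht']; exact hort w' v hv
    have h3 : β w' v = β t' v + β (w' - t') v := by
      rw [map_sub, sub_apply]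
      ring
    have h4 : |β (w' - t') v| ≤ ‖β‖ * (η * ‖w'‖) * ‖v‖ := by
      rw [← Real.norm_eq_abs]
      refine (ContinuousLinearMap.le_opNorm₂ β _ _).trans ?_
      gcongr
    rw [h2, h3] at h1
    have h5 : (1 - D.e) * ⟪w, v⟫_ℝ - ⟪t', v⟫_ℝ - D.e * β t' v =
        ((1 - D.e) * ⟪w, v⟫_ℝ - ⟪t', v⟫_ℝ - D.e * (β t' v + β (w' - t') v)) +
          D.e * β (w' - t') v := by ring
    rw [h5]
    refine (abs_add_le _ _).trans ?_
    rw [abs_mul, abs_of_pos he]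
    have h6 := mul_le_mul_of_nonneg_left h4 he.le
    rw [hρ]
    linarith
  -- `‖w‖ ≤ C2 ‖w'‖`
  have htw' : ‖t'‖ ≤ ‖w'‖ := by
    rw [ht']
    exact Submodule.norm_starProjection_apply_le T w'
  have h1 : (1 - D.e) * ‖t‖ ≤ C * ‖w'‖ + ρ := by
    rcases (norm_nonneg t).eq_or_lt with h0 | h0
    · rw [← h0, mul_zero]
      positivity
    · have h2 := hkey t htT
      have h3 : ⟪w, t⟫_ℝ = ‖t‖ ^ 2 := by
        rw [hort w t htT, ← ht, real_inner_self_eq_norm_sq]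
      have h4 : |⟪t', t⟫_ℝ| ≤ ‖w'‖ * ‖t‖ :=
        (abs_real_inner_le_norm _ _).trans (mul_le_mul_of_nonneg_right htw' h0.le)
      have h5 : |β t' t| ≤ ‖β‖ * ‖w'‖ * ‖t‖ := by
        rw [← Real.norm_eq_abs]
        refine (ContinuousLinearMap.le_opNorm₂ β _ _).trans ?_
        gcongr
      rw [h3] at h2
      have h6 := (abs_le.1 h2).2
      have h7 := (abs_le.1 h4).2
      have h8 := mul_le_mul_of_nonneg_left (abs_le.1 h5).2 he.le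
      have h9 : (1 - D.e) * ‖t‖ * ‖t‖ ≤ (C * ‖w'‖ + ρ) * ‖t‖ := by
        rw [hC]
        linarith
      exact le_of_mul_le_mul_right h9 h0
  have h2 : ‖w‖ ≤ 2 * ‖t‖ := by
    have h3 : ‖w‖ ≤ ‖w - t‖ + ‖t‖ := by simpa using norm_add_le (w - t) t
    have h6 : η * ‖w‖ ≤ 1 / 2 * ‖w‖ := mul_le_mul_of_nonneg_right hη1 hn
    linarith
  have hρC : ρ = η * ‖w‖ + C * (η * ‖w'‖) := by
    rw [hρ, hC]
    ring
  have h3 : ‖w‖ ≤ C2 * ‖w'‖ := by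
    have h4 : (1 - D.e) * ‖w‖ ≤ 2 * (C * ‖w'‖ + ρ) := by
      have := mul_le_mul_of_nonneg_left h2 h1e.le
      linarith
    have h5 : η * ‖w‖ ≤ (1 - D.e) / 4 * ‖w‖ := mul_le_mul_of_nonneg_right hη2 hn
    have h6 : C * (η * ‖w'‖) ≤ C * (1 / 2 * ‖w'‖) := by gcongr
    have h7 : (1 - D.e) * ‖w‖ ≤ 6 * C * ‖w'‖ := by
      rw [hρC] at h4
      linarith
    rw [hC2, div_mul_eq_mul_div, le_div_iff₀ h1e]
    linarith
  have h4 : ρ ≤ η * C5 * a := by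
    rw [hρC]
    have h5 : η * ‖w‖ ≤ η * (C2 * ‖w'‖) := by gcongr
    have h6 : η * (C2 + C) * ‖w'‖ ≤ η * (C2 + C) * (4 * a) := by gcongr
    rw [hC5]
    linarith
  obtain ⟨h5, h6⟩ := hmain w t' ρ hρ0 ht'T hkey
  have hAt : A t' = A w' := by rw [ht', hAT]
  have hBt : B t' = B w' := by rw [ht', hBT]
  rw [hAt, ← ha] at h5
  rw [hBt] at h6
  have h7 : η * C5 * a ≤ (1 - D.e) * (κ0 - 1) / 2 * a := mul_le_mul_of_nonneg_right hη3 ha0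
  have h8 : (1 - D.e) * ((1 + κ0) / 2 * a) ≤ (1 - D.e) * ‖A w‖ := by linarith
  have h9 : (1 + κ0) / 2 * a ≤ ‖A w‖ := le_of_mul_le_mul_left h8 h1e
  have h10 : (1 - D.e) * ‖B w‖ ≤ (1 - D.e) * ((1 + κ0) / 2 * a) := by
    have := mul_le_mul_of_nonneg_left hBA h1e.le
    linarith
  exact ⟨(le_of_mul_le_mul_left h10 h1e).trans h9, h9⟩

end AF21
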