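import Pool.Agent.AF21.Back
import Pool.Agent.AF21.Cone

/-!
# [AF21-ATT] The attractor has Hausdorff measure zero in dimension `l + 1`

`lip_null`: a set `W` on which `‖y - y'‖ ≤ 4 ‖B (y - y')‖` with `B` linear of rank `≤ l` has `μH[l+1] W = 0`. Proof:
`B '' W ⊆ range B`, a space of dimension `≤ l < l + 1`, so `μH[l+1] (range B) = 0` (`Real.hausdorffMeasure_of_finrank_lt` for
`E = range B` and `μH` of the image under the isometric inclusion, or `dimH` of a finite-dimensional space is its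
dimension: `Real.dimH_univ_eq_finrank`, `dimH_lt`..., `hausdorffMeasure_of_dimH_lt`). `B` is injective on `W` with a
`4`-Lipschitz inverse `g` on `B '' W` (`Function.invFunOn`), `W = g '' (B '' W)`, and Lipschitz images of null sets are null
(`LipschitzOnWith.hausdorffMeasure_image_le`).

`attr_null`. For every fixed point `c` (finitely many, `fix_finite`) take `A, B, r, κ` from `cone`, and let
`W_c = {y | ∃ z : ℕ → V, z 0 = y ∧ ∀ k, z k ∈ K0 ∧ ‖z k - c‖ < r ∧ D.Ψ (z (k+1)) = z k}`. For `y, y' ∈ W_c` with orbits `z, z'`: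
suppose `‖B (y - y')‖ ≤ ‖A (y - y')‖`; by induction `‖B (z k - z' k)‖ ≤ ‖A (z k - z' k)‖` and
`κ^k ‖A (y - y')‖ ≤ ‖A (z k - z' k)‖ ≤ ‖A‖ 2 r` for all `k`, so `‖A (y - y')‖ = 0`, then `‖B (y - y')‖ = 0` and `y = y'` by the first
claim of `cone`. So in all cases `‖A (y - y')‖ ≤ ‖B (y - y')‖`, hence `‖y - y'‖ ≤ 4 ‖B (y - y')‖`, and `μH[l+1] W_c = 0`.
By `backward`, for every `y ∈ attr D` there are `c` and `N` such that `z N ∈ W_c` (shifted orbit) and `y = Ψ^N (z N)`, i.e.
`attr D ⊆ ⋃_c ⋃_N Ψ^N '' (W_c)`, `W_c ⊆ K0`, `Ψ^N` is Lipschitz on `K0` (`step_lip`, `step_maps`), so all these sets are null;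
countable union (`measure_iUnion_null`, `measure_biUnion_null_iff` for the finite set of `c`).
-/

set_option autoImplicit false

open Set Topology MeasureTheory
open scoped ContDiff InnerProductSpace

namespace AF21
variable {V F : Type} [NormedAddCommGroup V] [InnerProductSpace ℝ V] [FiniteDimensional ℝ V]
  [NormedAddCommGroup F] [InnerProductSpace ℝ F] [FiniteDimensional ℝ F]

theorem null_image {W : Type} [NormedAddCommGroup W] [MeasurableSpace W] [BorelSpace W]
    {U : Type} [NormedAddCommGroup U] [MeasurableSpace U] [BorelSpace U] {K : NNReal} {f : W → U} {S : Set W}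
    (h : LipschitzOnWith K f S) {d : ℝ} (hd : 0 ≤ d) (hS : Measure.hausdorffMeasure d S = 0) :
    Measure.hausdorffMeasure d (f '' S) = 0 := by
  have h1 := h.hausdorffMeasure_image_le hd
  rw [hS, mul_zero] at h1
  exact le_antisymm h1 zero_le

theorem lip_null [MeasurableSpace V] [BorelSpace V] {l : ℕ} (B : V →L[ℝ] V)
    (hB : Module.finrank ℝ (LinearMap.range (B : V →ₗ[ℝ] V)) ≤ l) {S : Set V}
    (hS : ∀ y ∈ S, ∀ y' ∈ S, ‖y - y'‖ ≤ 4 * ‖B (y - y')‖) :
    Measure.hausdorffMeasure ((l : ℝ) + 1) S = 0 := by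
  classical
  have hl : (0 : ℝ) ≤ (l : ℝ) + 1 := by positivity
  have hdim : dimH ((LinearMap.range (B : V →ₗ[ℝ] V) : Submodule ℝ V) : Set V) ≤ (l : ENNReal) := by
    have h1 : ContDiff ℝ 1 (fun x : LinearMap.range (B : V →ₗ[ℝ] V) => (x : V)) :=
      (LinearMap.range (B : V →ₗ[ℝ] V)).subtypeL.contDiff
    have h2 := h1.dimH_range_le
    have h3 : range (fun x : LinearMap.range (B : V →ₗ[ℝ] V) => (x : V)) =
        ((LinearMap.range (B : V →ₗ[ℝ] V) : Submodule ℝ V) : Set V) := Subtype.range_coe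
    rw [h3] at h2
    exact h2.trans (by exact_mod_cast hB)
  have hnull : Measure.hausdorffMeasure ((l : ℝ) + 1)
      ((LinearMap.range (B : V →ₗ[ℝ] V) : Submodule ℝ V) : Set V) = 0 := by
    have h1 : dimH ((LinearMap.range (B : V →ₗ[ℝ] V) : Submodule ℝ V) : Set V) <
        (((l : NNReal) + 1 : NNReal) : ENNReal) := by
      refine lt_of_le_of_lt hdim ?_
      push_cast
      exact_mod_cast Nat.lt_succ_self l
    have h2 := hausdorffMeasure_of_dimH_lt h1
    push_cast at h2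
    exact h2
  have hBS : Measure.hausdorffMeasure ((l : ℝ) + 1) (B '' S) = 0 := by
    refine measure_mono_null ?_ hnull
    rintro _ ⟨y, -, rfl⟩
    exact ⟨y, rfl⟩
  rcases S.eq_empty_or_nonempty with rfl | ⟨s0, hs0⟩
  · simp
  have hg : ∀ b ∈ B '' S, Function.invFunOn B S b ∈ S ∧ B (Function.invFunOn B S b) = b := by
    rintro b ⟨y, hy, rfl⟩
    exact ⟨Function.invFunOn_mem ⟨y, hy, rfl⟩, Function.invFunOn_eq ⟨y, hy, rfl⟩⟩
  have hlip : LipschitzOnWith 4 (Function.invFunOn B S) (B '' S) := by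
    refine LipschitzOnWith.of_dist_le_mul fun b hb b' hb' => ?_
    rw [dist_eq_norm, dist_eq_norm]
    have h1 := hS _ (hg b hb).1 _ (hg b' hb').1
    rw [map_sub, (hg b hb).2, (hg b' hb').2] at h1
    exact h1
  have himg : S = Function.invFunOn B S '' (B '' S) := by
    ext y
    constructor
    · intro hy
      refine ⟨B y, ⟨y, hy, rfl⟩, ?_⟩
      have h0 := hg (B y) ⟨y, hy, rfl⟩
      have h1 := hS _ h0.1 _ hy
      rw [map_sub, h0.2, sub_self, norm_zero, mul_zero] at h1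
      exact sub_eq_zero.1 (norm_le_zero_iff.1 h1)
    · rintro ⟨b, hb, rfl⟩
      exact (hg b hb).1
  rw [himg]
  exact null_image hlip hl hBS

theorem iter_null [MeasurableSpace V] [BorelSpace V] {X : Set V} {p : V} {R : ℝ} (D : StepData X p R)
    {d : ℝ} (hd : 0 ≤ d) (N : ℕ) {S : Set V} (hS : S ⊆ K0 X p R)
    (h0 : Measure.hausdorffMeasure d S = 0) : Measure.hausdorffMeasure d (D.Ψ^[N] '' S) = 0 := by
  induction N with
  | zero => simpa using h0
  | succ N ih =>
    rw [Function.iterate_succ', image_comp]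
    refine null_image ((step_lip D).mono ?_) hd ih
    rintro _ ⟨x, hx, rfl⟩
    exact (step_maps D).iterate N (hS hx)

theorem attr_null [MeasurableSpace V] [BorelSpace V] {X : Set V} {l : ℕ} (hX : Nice X F l) {p : V} {R : ℝ}
    (D : StepData X p R) (hiso : IsoFix X p D.e) :
    Measure.hausdorffMeasure ((l : ℝ) + 1) (attr D) = 0 := by
  classical
  have hl : (0 : ℝ) ≤ (l : ℝ) + 1 := by positivity
  have hfin := fix_finite hX.closed D hiso
  have hcone : ∀ c ∈ {c | c ∈ K0 X p R ∧ D.Ψ c = c}, ∃ r > 0, Measure.hausdorffMeasure ((l : ℝ) + 1)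
      {y | ∃ z : ℕ → V, z 0 = y ∧ ∀ k, z k ∈ K0 X p R ∧ ‖z k - c‖ < r ∧ D.Ψ (z (k + 1)) = z k} = 0 := by
    rintro c ⟨hc, hfix⟩
    obtain ⟨A, B, r, κ, hr, hκ, hrank, h1, h2⟩ := cone hX D hc hfix
    refine ⟨r, hr, lip_null B hrank ?_⟩
    rintro y ⟨z, hz0, hz⟩ y' ⟨z', hz0', hz'⟩
    have hyy := h1 y (by rw [← hz0]; exact (hz 0).1.1) y' (by rw [← hz0']; exact (hz' 0).1.1)
      (by rw [← hz0]; exact (hz 0).2.1) (by rw [← hz0']; exact (hz' 0).2.1)
    by_cases hBA : ‖B (y - y')‖ ≤ ‖A (y - y')‖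
    · have hind : ∀ k, ‖B (z k - z' k)‖ ≤ ‖A (z k - z' k)‖ ∧ κ ^ k * ‖A (y - y')‖ ≤ ‖A (z k - z' k)‖ := by
        intro k
        induction k with
        | zero =>
          rw [hz0, hz0']
          exact ⟨hBA, by simp⟩
        | succ k ih =>
          have h3 := h2 (z (k + 1)) (hz (k + 1)).1 (z' (k + 1)) (hz' (k + 1)).1 (hz (k + 1)).2.1
            (hz' (k + 1)).2.1 (by rw [(hz k).2.2]; exact (hz k).2.1)
            (by rw [(hz' k).2.2]; exact (hz' k).2.1)
            (by rw [(hz k).2.2, (hz' k).2.2]; exact ih.1)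
          rw [(hz k).2.2, (hz' k).2.2] at h3
          refine ⟨h3.1, le_trans ?_ h3.2⟩
          rw [pow_succ, mul_comm (κ ^ k) κ, mul_assoc]
          exact mul_le_mul_of_nonneg_left ih.2 (by linarith)
      have hbd : ∀ k : ℕ, κ ^ k * ‖A (y - y')‖ ≤ ‖A‖ * (2 * r) := by
        intro k
        refine (hind k).2.trans ((A.le_opNorm _).trans ?_)
        refine mul_le_mul_of_nonneg_left ?_ (norm_nonneg _)
        have h4 : z k - z' k = (z k - c) - (z' k - c) := by abel
        rw [h4]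
        have := norm_sub_le (z k - c) (z' k - c)
        linarith [(hz k).2.1, (hz' k).2.1]
      have hA0 : ‖A (y - y')‖ = 0 := by
        by_contra hne
        have hpos : 0 < ‖A (y - y')‖ := lt_of_le_of_ne (norm_nonneg _) (Ne.symm hne)
        obtain ⟨k, hk⟩ := pow_unbounded_of_one_lt (‖A‖ * (2 * r) / ‖A (y - y')‖) hκ
        rw [div_lt_iff₀ hpos] at hk
        exact absurd (hbd k) (not_le.2 hk)
      rw [hA0] at hyy hBA
      have hB0 := norm_nonneg (B (y - y'))
      linarith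
    · push Not at hBA
      linarith
  choose! ρ hρ hnull using hcone
  have hsub : attr D ⊆ ⋃ c ∈ {c | c ∈ K0 X p R ∧ D.Ψ c = c}, ⋃ N : ℕ,
      D.Ψ^[N] '' {y | ∃ z : ℕ → V, z 0 = y ∧ ∀ k, z k ∈ K0 X p R ∧ ‖z k - c‖ < ρ c ∧
        D.Ψ (z (k + 1)) = z k} := by
    intro y hy
    obtain ⟨z, hz, hz0, hzs, c, hc, hfix, hlim⟩ := backward hX.closed D hiso hy
    obtain ⟨N, hN⟩ := hlim (ρ c) (hρ c ⟨hc, hfix⟩)
    have hit : ∀ N, D.Ψ^[N] (z N) = y := by
      intro N
      induction N with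
      | zero => simpa using hz0
      | succ N ih => rw [Function.iterate_succ_apply, hzs, ih]
    refine mem_iUnion₂.2 ⟨c, ⟨hc, hfix⟩, mem_iUnion.2 ⟨N, z N, ?_, hit N⟩⟩
    refine ⟨fun k => z (N + k), by simp, fun k => ⟨hz _, hN _ (Nat.le_add_right _ _), ?_⟩⟩
    exact hzs (N + k)
  refine measure_mono_null hsub ?_
  rw [measure_biUnion_null_iff hfin.countable]
  intro c hc
  rw [measure_iUnion_null_iff]
  intro N
  refine iter_null D hl N ?_ (hnull c hc)
  rintro y ⟨z, hz0, hz⟩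
  rw [← hz0]
  exact (hz 0).1

end AF21
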