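import Pool.Agent.AF21.GoodSq

/-!
# [AF21-GEN] The half twists generate

Proof. For every configuration `q` there is `r_q > 0` with `Sep q.1 r_q` (a quarter of the smallest distance of two points of `q`:
`|z| ≤ |re z| + |im z|`), and `Sq q.1 r_q` is an open neighbourhood of `q`. By compactness of `[0,1]` there are `N > 0` and
configurations `q_0, ..., q_{N-1}` with `γ [m/N, (m+1)/N] ⊆ Sq q_m r_m` (`exists_monotone_Icc_subset_open_cover_unitInterval` or
`lebesgue_number_lemma`). For `0 < m < N` choose a regular `c_m` so near to `γ (m/N)` that the straight path from `γ (m/N)` to `c_m`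
lies in `Sq q_{m-1} r_{m-1} ∩ Sq q_m r_m` (`exists_reg`, these are convex conditions); `c_0 = std k`, `c_N = (std k).perm π`, both
regular. `γ` is homotopic to the concatenation of the paths `c_m → γ(m/N) → γ((m+1)/N) → c_{m+1}` (the inserted paths
`γ(m/N) → c_m → γ(m/N)` cancel), each of them is in `Sq q_m r_m`, so good by `good_sq`; `goodP_trans`, `goodP_congr`,
`cl_of_goodP`.
(A convenient induction: claim for `m`: for every regular `c` such that the straight path from `γ (m/N)` to `c` lies in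
`Sq q_{m-1} r_{m-1}`, the path `γ|[0, m/N]` followed by this straight path is good. One may avoid subpaths as follows:
`∀ t₀`, the truncated path `s ↦ γ (min s t₀)` is `Path.truncate`-like; reparametrizations are homotopic.)
-/

set_option autoImplicit false

open Set Topology

namespace AF21
variable {k : ℕ} {Y : Type} [TopologicalSpace Y]

namespace GenAux

theorem exists_sep (q : Conf k) : ∃ r > 0, Sep q.1 r := by
  have hne : ∀ i j : Fin k, i ≠ j → 0 < max |(q.1 i).re - (q.1 j).re| |(q.1 i).im - (q.1 j).im| := by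
    intro i j hij
    by_contra hcon
    have h1 := not_lt.1 hcon
    have h2 := (le_max_left _ _).trans h1
    have h3 := (le_max_right _ _).trans h1
    have h4 : (q.1 i).re - (q.1 j).re = 0 := abs_nonpos_iff.1 h2
    have h5 : (q.1 i).im - (q.1 j).im = 0 := abs_nonpos_iff.1 h3
    exact hij (q.2 (Complex.ext (sub_eq_zero.1 h4) (sub_eq_zero.1 h5)))
  let g : Fin k × Fin k → ℝ := fun p => if p.1 = p.2 then 1 else
    max |(q.1 p.1).re - (q.1 p.2).re| |(q.1 p.1).im - (q.1 p.2).im|
  have hg : ∀ p, 0 < g p := by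
    intro p
    by_cases h : p.1 = p.2
    · simp only [g, if_pos h]
      norm_num
    · simp only [g, if_neg h]
      exact hne _ _ h
  rcases isEmpty_or_nonempty (Fin k × Fin k) with he | hn
  · refine ⟨1, one_pos, fun i j _ => (he.false (i, j)).elim⟩
  · obtain ⟨p₀, hp₀⟩ := Finite.exists_min g
    refine ⟨g p₀ / 2, by have := hg p₀; positivity, ?_⟩
    intro i j hij
    have h1 := hp₀ (i, j)
    simp only [g, if_neg hij] at h1
    have h2 : 2 * (g p₀ / 2) = g p₀ := by ring
    rw [h2]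
    exact le_max_iff.1 h1

noncomputable def rad (q : Conf k) : ℝ := (exists_sep q).choose

theorem rad_pos (q : Conf k) : 0 < rad q := (exists_sep q).choose_spec.1

theorem rad_sep (q : Conf k) : Sep q.1 (rad q) := (exists_sep q).choose_spec.2

/-- a small neighbourhood -/
def N (q : Conf k) : Set (Conf k) := Sq q.1 (rad q)

theorem mem_N (q : Conf k) : q ∈ N q := by
  intro j
  simp only [sub_self, abs_zero]
  exact ⟨rad_pos q, rad_pos q⟩

theorem isOpen_N (q : Conf k) : IsOpen (N q) := by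
  have h : N q = ⋂ j : Fin k, {x : Conf k | |(x.1 j).re - (q.1 j).re| < rad q ∧
      |(x.1 j).im - (q.1 j).im| < rad q} := by
    ext x
    simp only [N, Sq, mem_ofPred_eq, mem_iInter]
  rw [h]
  refine isOpen_iInter_of_finite fun j => ?_
  have h1 : Continuous fun x : Conf k => (x.1 j).re :=
    Complex.continuous_re.comp ((continuous_apply j).comp continuous_subtype_val)
  have h2 : Continuous fun x : Conf k => (x.1 j).im :=
    Complex.continuous_im.comp ((continuous_apply j).comp continuous_subtype_val)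
  exact (isOpen_lt (h1.sub continuous_const).abs continuous_const).inter
    (isOpen_lt (h2.sub continuous_const).abs continuous_const)

theorem abs_conv {t x c q r : ℝ} (ht0 : 0 ≤ t) (ht1 : t ≤ 1) (hx : |x - q| < r) (hc : |c - q| < r) :
    |(1 - t) * x + t * c - q| < r := by
  rw [abs_lt] at *
  obtain ⟨hx1, hx2⟩ := hx
  obtain ⟨hc1, hc2⟩ := hc
  rcases eq_or_lt_of_le ht0 with h | h
  · rw [← h]
    constructor <;> linarith
  · constructor
    · nlinarith [mul_pos h (sub_pos.2 hc1), mul_nonneg (sub_nonneg.2 ht1) (sub_pos.2 hx1).le]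
    · nlinarith [mul_pos h (sub_pos.2 hc2), mul_nonneg (sub_nonneg.2 ht1) (sub_pos.2 hx2).le]

theorem re_conv (t : ℝ) (x c : ℂ) :
    ((1 - (t : ℂ)) * x + (t : ℂ) * c).re = (1 - t) * x.re + t * c.re := by simp

theorem im_conv (t : ℝ) (x c : ℂ) :
    ((1 - (t : ℂ)) * x + (t : ℂ) * c).im = (1 - t) * x.im + t * c.im := by simp

theorem sq_conv {q x c : Fin k → ℂ} {r : ℝ}
    (hx : ∀ j, |(x j).re - (q j).re| < r ∧ |(x j).im - (q j).im| < r)
    (hc : ∀ j, |(c j).re - (q j).re| < r ∧ |(c j).im - (q j).im| < r) {t : ℝ} (ht0 : 0 ≤ t)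
    (ht1 : t ≤ 1) (j : Fin k) :
    |((1 - (t : ℂ)) * x j + (t : ℂ) * c j).re - (q j).re| < r ∧
      |((1 - (t : ℂ)) * x j + (t : ℂ) * c j).im - (q j).im| < r := by
  rw [re_conv, im_conv]
  exact ⟨abs_conv ht0 ht1 (hx j).1 (hc j).1, abs_conv ht0 ht1 (hx j).2 (hc j).2⟩

theorem exists_small (q q' x : Conf k) (h : x ∈ N q) (h' : x ∈ N q') :
    ∃ (c : Conf k) (σ : Path x c), Reg c ∧ ∀ t, σ t ∈ N q ∧ σ t ∈ N q' := by
  have hopen : IsOpen (N q ∩ N q') := (isOpen_N q).inter (isOpen_N q')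
  obtain ⟨ε, hε, hball⟩ := Metric.isOpen_iff.1 hopen x ⟨h, h'⟩
  obtain ⟨c, hc, hcε⟩ := exists_reg x hε
  have hc' : c ∈ N q ∩ N q' := by
    apply hball
    rw [Metric.mem_ball, Subtype.dist_eq, dist_pi_lt_iff hε]
    intro j
    rw [dist_eq_norm]
    exact hcε j
  have key : ∀ t : unitInterval, ∀ j, |((1 - ((t : ℝ) : ℂ)) * x.1 j + ((t : ℝ) : ℂ) * c.1 j).re -
      (q.1 j).re| < rad q ∧ |((1 - ((t : ℝ) : ℂ)) * x.1 j + ((t : ℝ) : ℂ) * c.1 j).im -
      (q.1 j).im| < rad q := fun t j => sq_conv h hc'.1 t.2.1 t.2.2 j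
  have key' : ∀ t : unitInterval, ∀ j, |((1 - ((t : ℝ) : ℂ)) * x.1 j + ((t : ℝ) : ℂ) * c.1 j).re -
      (q'.1 j).re| < rad q' ∧ |((1 - ((t : ℝ) : ℂ)) * x.1 j + ((t : ℝ) : ℂ) * c.1 j).im -
      (q'.1 j).im| < rad q' := fun t j => sq_conv h' hc'.2 t.2.1 t.2.2 j
  refine ⟨c, ⟨⟨fun t => ⟨fun j => (1 - ((t : ℝ) : ℂ)) * x.1 j + ((t : ℝ) : ℂ) * c.1 j,
    sep_injective (rad_sep q) _ (key t)⟩, ?_⟩, ?_, ?_⟩, hc, fun t => ⟨key t, key' t⟩⟩
  · refine Continuous.subtype_mk ?_ _
    refine continuous_pi fun j => ?_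
    have h1 : Continuous fun t : unitInterval => ((t : ℝ) : ℂ) :=
      Complex.continuous_ofReal.comp continuous_subtype_val
    exact ((continuous_const.sub h1).mul continuous_const).add (h1.mul continuous_const)
  · apply Subtype.ext
    funext j
    simp
  · apply Subtype.ext
    funext j
    simp

/-- paths which are good after adding small end pieces -/
def VG (G : SymMap k Y) {x y : Conf k} (γ : Path x y) : Prop :=
  ∀ (c c' : Conf k) (δ : Path c x) (ε : Path y c'), Reg c → Reg c' →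
    (∀ t, δ t ∈ N x) → (∀ t, ε t ∈ N y) → GoodP G (δ.trans (γ.trans ε))

theorem q1 {x y z w v u : Conf k} (δ : Path x y) (γ : Path y z) (γ' : Path z w) (ε : Path w v)
    (σ : Path z u) : ((δ.trans (γ.trans σ)).trans (σ.symm.trans (γ'.trans ε))).Homotopic
      (δ.trans ((γ.trans γ').trans ε)) := by
  rw [← Path.Homotopic.Quotient.eq]
  simp only [Path.Homotopic.Quotient.mk_trans, Path.Homotopic.Quotient.mk_symm,
    Path.Homotopic.Quotient.trans_assoc]
  rw [← Path.Homotopic.Quotient.trans_assoc (Path.Homotopic.Quotient.mk σ)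
    (Path.Homotopic.Quotient.mk σ).symm, Path.Homotopic.Quotient.trans_symm,
    Path.Homotopic.Quotient.refl_trans]

theorem q2 {x y z w v u : Conf k} (δ : Path x y) (γ : Path y z) (ε : Path z w)
    (σ : Path y u) (σ' : Path z v) :
    ((δ.trans σ).trans ((σ.symm.trans (γ.trans σ')).trans (σ'.symm.trans ε))).Homotopic
      (δ.trans (γ.trans ε)) := by
  rw [← Path.Homotopic.Quotient.eq]
  simp only [Path.Homotopic.Quotient.mk_trans, Path.Homotopic.Quotient.mk_symm,
    Path.Homotopic.Quotient.trans_assoc]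
  rw [← Path.Homotopic.Quotient.trans_assoc (Path.Homotopic.Quotient.mk σ')
    (Path.Homotopic.Quotient.mk σ').symm, Path.Homotopic.Quotient.trans_symm,
    Path.Homotopic.Quotient.refl_trans, ← Path.Homotopic.Quotient.trans_assoc
    (Path.Homotopic.Quotient.mk σ) (Path.Homotopic.Quotient.mk σ).symm,
    Path.Homotopic.Quotient.trans_symm, Path.Homotopic.Quotient.refl_trans]

theorem trans_mem {x y z : Conf k} {S : Set (Conf k)} (γ : Path x y) (γ' : Path y z)
    (h : ∀ t, γ t ∈ S) (h' : ∀ t, γ' t ∈ S) (t : unitInterval) : (γ.trans γ') t ∈ S := by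
  have h1 : (γ.trans γ') t ∈ range (γ.trans γ') := ⟨t, rfl⟩
  rw [Path.trans_range] at h1
  rcases h1 with ⟨s, hs⟩ | ⟨s, hs⟩
  · rw [← hs]; exact h s
  · rw [← hs]; exact h' s

theorem symm_mem {x y : Conf k} {S : Set (Conf k)} (γ : Path x y) (h : ∀ t, γ t ∈ S)
    (t : unitInterval) : γ.symm t ∈ S := h _

theorem vg_congr (G : SymMap k Y) {x y : Conf k} {γ γ' : Path x y} (h : γ.Homotopic γ')
    (hg : VG G γ) : VG G γ' := fun c c' δ ε hc hc' hδ hε =>
  goodP_congr G (Path.Homotopic.hcomp (Path.Homotopic.refl _)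
    (Path.Homotopic.hcomp h (Path.Homotopic.refl _))) (hg c c' δ ε hc hc' hδ hε)

theorem vg_trans (G : SymMap k Y) {x y z : Conf k} {γ : Path x y} {γ' : Path y z} (h : VG G γ)
    (h' : VG G γ') : VG G (γ.trans γ') := by
  intro c c' δ ε hc hc' hδ hε
  obtain ⟨c₁, σ, hc₁, hσ⟩ := exists_small y y y (mem_N y) (mem_N y)
  exact goodP_congr G (q1 δ γ γ' ε σ) (goodP_trans G hc₁
    (h c c₁ δ σ hc hc₁ hδ fun t => (hσ t).1)
    (h' c₁ c' σ.symm ε hc₁ hc' (symm_mem σ fun t => (hσ t).1) hε))

theorem vg_small (G : SymMap k Y) {x y : Conf k} (q : Conf k) (γ : Path x y)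
    (h : ∀ t, γ t ∈ N q) : VG G γ := by
  intro c c' δ ε hc hc' hδ hε
  have hx : x ∈ N q := by
    have := h 0
    rwa [γ.source] at this
  have hy : y ∈ N q := by
    have := h 1
    rwa [γ.target] at this
  obtain ⟨c₁, σ, hc₁, hσ⟩ := exists_small x q x (mem_N x) hx
  obtain ⟨c₂, σ', hc₂, hσ'⟩ := exists_small y q y (mem_N y) hy
  refine goodP_congr G (q2 δ γ ε σ σ') (goodP_trans G hc₁ ?_ (goodP_trans G hc₂ ?_ ?_))
  · exact good_sq G (rad_sep x) hc hc₁ _ (trans_mem _ _ hδ fun t => (hσ t).1)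
  · exact good_sq G (rad_sep q) hc₁ hc₂ _ (trans_mem _ _ (symm_mem _ fun t => (hσ t).2)
      (trans_mem _ _ h fun t => (hσ' t).2))
  · exact good_sq G (rad_sep y) hc₂ hc' _ (trans_mem _ _ (symm_mem _ fun t => (hσ' t).1) hε)

theorem vg_sub (G : SymMap k Y) {a b : Conf k} (γ : Path a b) (s t : unitInterval) (hst : s ≤ t)
    (q : Conf k) (h : Icc s t ⊆ γ ⁻¹' N q) : VG G (γ.subpath s t) := by
  apply vg_small G q
  intro u
  have h1 : γ.subpath s t u ∈ range (γ.subpath s t) := ⟨u, rfl⟩
  rw [Path.range_subpath_of_le γ s t hst] at h1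
  obtain ⟨v, hv, hv'⟩ := h1
  rw [← hv']
  exact h hv

theorem cast_aux {a b x' y' : Conf k} (p : Path a b) (hx : x' = a) (hy : y' = b) :
    (((Path.refl a).cast rfl hx).trans ((p.cast hx hy).trans ((Path.refl b).cast hy rfl))).Homotopic
      p := by
  subst hx hy
  exact (Path.Homotopic.refl_trans _).trans (Path.Homotopic.trans_refl _)

theorem good_all (G : SymMap k Y) {a b : Conf k} (ha : Reg a) (hb : Reg b) (γ : Path a b) :
    GoodP G γ := by
  obtain ⟨t, ht0, hmono, ⟨n, hn⟩, hcov⟩ := exists_monotone_Icc_subset_open_cover_unitInterval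
    (c := fun s : unitInterval => γ ⁻¹' N (γ s)) (fun s => (isOpen_N _).preimage γ.continuous)
    (fun s _ => mem_iUnion.2 ⟨s, mem_N _⟩)
  have hall : ∀ m, VG G (γ.subpath 0 (t m)) := by
    intro m
    induction m with
    | zero =>
      refine vg_sub G γ 0 (t 0) (by rw [ht0]) (γ 0) ?_
      rw [ht0, Icc_self]
      rintro s rfl
      exact mem_N _
    | succ m ih =>
      obtain ⟨i, hi⟩ := hcov m
      exact vg_congr G ⟨Path.Homotopy.subpathTransSubpath γ 0 (t m) (t (m + 1))⟩
        (vg_trans G ih (vg_sub G γ (t m) (t (m + 1)) (hmono (Nat.le_succ m)) (γ i) hi))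
  have hfin : ∀ s : unitInterval, s = 1 → VG G (γ.subpath 0 s) → GoodP G γ := by
    rintro s rfl hs
    rw [Path.subpath_zero_one] at hs
    have h1 := hs a b ((Path.refl a).cast rfl γ.source) ((Path.refl b).cast γ.target rfl) ha hb
      (fun t => by
        have h2 : ((Path.refl a).cast rfl γ.source) t = γ 0 := γ.source.symm
        rw [h2]; exact mem_N _)
      (fun t => by
        have h2 : ((Path.refl b).cast γ.target rfl) t = γ 1 := γ.target.symm
        rw [h2]; exact mem_N _)
    exact goodP_congr G (cast_aux γ γ.source γ.target) h1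
  exact hfin (t n) (hn n le_rfl) (hall n)

end GenAux

theorem gen_mem (G : SymMap k Y) {π : Equiv.Perm (Fin k)} (γ : Path (std k) ((std k).perm π)) :
    cl G γ ∈ SClos G := by
  have h0 : Reg (std k) := by
    intro i j hij
    have h1 : ((i : ℕ) : ℝ) = ((j : ℕ) : ℝ) := by simpa [std] using hij
    exact Fin.ext (by exact_mod_cast h1)
  have h1 : Reg ((std k).perm π) := by
    intro i j hij
    exact π.injective (h0 hij)
  exact cl_of_goodP G γ (GenAux.good_all G h0 h1 γ)

end AF21
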