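import Pool.Agent.AF21.GrpBasic

/-!
# [AF21-GRPE] The case `k = 2 n`, `n ≥ 3`

Notation: `x_j = s (2j)`, `j < n`.
Step 1. If `Rel n s m` then `u = s 0 ^ m_0` commutes with `s 1 ^ 4`. Proof: `u = ∏_{j ≥ 1} x_j ^ (-m_j)`, so every element which
commutes with `s 2, s 4, ..., s (2n-2)` commutes with `u`. `A = s1 * s2² * s1` commutes with `s2` (braid relation) and with
`s4, s6, ...`. So `u` commutes with `A`; `u` commutes with `s2, s3` (power of `s0`). Let `y = s1²`, `y' = s2⁻¹ * y * s2`,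
`y'' = s3⁻¹ * y' * s3`. Then `A = y' * y` (as `s2⁻¹ s1² s2 = s1 s2² s1⁻¹`), `s3⁻¹ * A * s3 = y'' * y`, so `y' * y''⁻¹ = A * (s3⁻¹ * A * s3)⁻¹`
commutes with `u`; `s2 * (y' * y''⁻¹) * s2⁻¹ = y * y''⁻¹` (`s2 * y'' * s2⁻¹ = y''`, because `s2 s3⁻¹ s2⁻¹ = s3⁻¹ s2⁻¹ s3` and `s3` commutes with
`s1`) commutes with `u`; so `y * y'⁻¹ = (y y''⁻¹)(y' y''⁻¹)⁻¹` does, and `(y * y'⁻¹) * (y' * y) = y² = s1 ^ 4`.
Step 2. `{e : ℤ | s 0 ^ e commutes with s 1 ^ 4}` is a subgroup of `ℤ` containing all coordinates of all relations (`rel_perm`); for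
every prime `p` it is not contained in `p ℤ`; so it is `ℤ`: `s 0` commutes with `s 1 ^ 4`. Then
`s 1 ^ 4 = s0 * s1^4 * s0⁻¹ = s1⁻¹ * s0^4 * s1` (`s0 s1 s0⁻¹ = s1⁻¹ s0 s1`), so `s 0 ^ 4 = s 1 ^ 4`; by `adj_all` all `s i ^ 4` are equal, and
central (commute with all `s j`).
Step 3. Take a relation `m` for `p = 2`; some `m_j` is odd. If some difference `m_i - m_j` is odd: `diff_rel` gives
`s 0 ^ d = s 1 ^ d` with `d` odd, with `s 0 ^ 4 = s 1 ^ 4` we get `s 0 = s 1`; done by `adj_all`. Otherwise all `m_j` are odd.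
If some difference is `≡ 2 mod 4` then `s 0 ^ 2 = s 1 ^ 2` (`diff_rel` and the 4th powers), all `s i ^ 2` are equal and central, and the
relation gives that `w = x_0 x_1 ... x_{n-1}` commutes with all `s j`. If all `m_j` are `≡ c` mod 4, `c = ±1`, then
`∏ x_j ^ m_j = w ^ c * (central)`, so again `w` commutes with all `s j`.
Step 4. `w` commutes with `s 1` and `x_2, ...` (`s 4, s 6, ..`) commute with `s 1`: so `s 0 * s 2` commutes with `s 1`; likewise
`w` commutes with `s 3`, so `c = s 2 * s 4` commutes with `s 3`; it commutes with `s 2`, `s 4`. Then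
`s3 s4 s3 = s4 s3 s4` with `s4 = c s2⁻¹` gives `s3 s2⁻¹ s3 = c s2⁻¹ s3 s2⁻¹`, `s2 s3 s2⁻¹ s3 s2 = c s3`, and with `s2 s3 s2⁻¹ = s3⁻¹ s2 s3`:
`s2 s3² s2 = c s3²` (multiply by `s3` on the left, `c` commutes with `s3`) `= s2 s4 s3²`, so `s3² s2 = s4 s3²`: `s2 = s3⁻² s4 s3²`. Now
`s 1` commutes with `s 3` and `s 4` (distance `≥ 2`), hence with `s 2 = s3⁻² s4 s3²`. Then the braid relation
gives `s 1 = s 2`, and `adj_all` (`d = 1`).
-/

set_option autoImplicit false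

namespace AF21
variable {Γ : Type} [Group Γ] {k n : ℕ} {s : ℕ → Γ}

theorem grpe_one_mem (S : AddSubgroup ℤ) (h : ∀ p : ℕ, p.Prime → ∃ e ∈ S, ¬ (p : ℤ) ∣ e) :
    (1 : ℤ) ∈ S := by
  obtain ⟨a, ha⟩ := Int.subgroup_cyclic S
  by_cases h1 : a.natAbs = 1
  · rw [ha, AddSubgroup.mem_closure_singleton]
    rcases Int.natAbs_eq a with h2 | h2
    · exact ⟨1, by rw [h2, h1]; simp⟩
    · exact ⟨-1, by rw [h2, h1]; simp⟩
  · obtain ⟨p, hp, hpa⟩ := Nat.exists_prime_and_dvd h1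
    obtain ⟨e, he, hpe⟩ := h p hp
    rw [ha, AddSubgroup.mem_closure_singleton] at he
    obtain ⟨t, rfl⟩ := he
    exact absurd (Dvd.dvd.mul_left (Int.natCast_dvd.2 hpa) t) hpe

/-- the exponents `e` with `x ^ e = y ^ e` -/
def grpe_eqPow (x y : Γ) : AddSubgroup ℤ where
  carrier := {e | x ^ e = y ^ e}
  zero_mem' := by simp
  add_mem' := by
    intro a b ha hb
    simp only [Set.mem_ofPred_eq] at *
    rw [zpow_add, zpow_add, ha, hb]
  neg_mem' := by
    intro a ha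
    simp only [Set.mem_ofPred_eq] at *
    rw [zpow_neg, zpow_neg, ha]

/-- the exponents `e` such that `x ^ e` commutes with `y` -/
def grpe_commPow (x y : Γ) : AddSubgroup ℤ where
  carrier := {e | Commute (x ^ e) y}
  zero_mem' := by simp
  add_mem' := by
    intro a b ha hb
    simp only [Set.mem_ofPred_eq] at *
    rw [zpow_add]
    exact ha.mul_left hb
  neg_mem' := by
    intro a ha
    simp only [Set.mem_ofPred_eq] at *
    rw [zpow_neg]
    exact ha.inv_left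

/-- everything that commutes with `s 2, s 4, ...` commutes with `s 0 ^ m_0` -/
theorem grpe_comm_of (hn : 1 ≤ n) {m : Fin n → ℤ} (hm : Rel n s m) {g : Γ}
    (hg : ∀ j, 1 ≤ j → j < n → Commute g (s (2 * j))) : Commute g (s 0 ^ (m ⟨0, hn⟩)) := by
  obtain ⟨n, rfl⟩ : ∃ n', n = n' + 1 := ⟨n - 1, by omega⟩
  unfold Rel at hm
  rw [List.ofFn_succ, List.prod_cons] at hm
  have h1 : s 0 ^ (m ⟨0, hn⟩) =
      ((List.ofFn fun i : Fin n => s (2 * ((i.succ : Fin (n + 1)) : ℕ)) ^ (m i.succ)).prod)⁻¹ := by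
    rw [← mul_eq_one_iff_eq_inv]
    exact hm
  rw [h1]
  apply Commute.inv_right
  apply Commute.list_prod_right
  intro x hx
  rw [List.mem_ofFn] at hx
  obtain ⟨i, rfl⟩ := hx
  apply Commute.zpow_right
  have hi := i.2
  rw [Fin.val_succ]
  exact hg ((i : ℕ) + 1) (by omega) (by omega)

/-- the computation in step 1 -/
theorem grpe_calc {a b c u : Γ} (hab : a * b * a = b * a * b) (hbc : b * c * b = c * b * c)
    (hac : a * c = c * a) (hub : Commute u b) (huc : Commute u c)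
    (huA : Commute u (a * b ^ 2 * a)) : Commute u (a ^ 4) := by
  have e1 : b⁻¹ * a * b = a * b * a⁻¹ := by
    rw [mul_assoc, inv_mul_eq_iff_eq_mul, ← mul_assoc, ← mul_assoc, ← hab, mul_inv_cancel_right]
  have e1' : b⁻¹ * a ^ 2 * b = a * b ^ 2 * a⁻¹ := by
    have h1 : b⁻¹ * a ^ 2 * b = (b⁻¹ * a * b) * (b⁻¹ * a * b) := by rw [pow_two]; group
    rw [h1, e1, pow_two]
    group
  have hA : a * b ^ 2 * a = (b⁻¹ * a ^ 2 * b) * a ^ 2 := by
    rw [e1']
    group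
  -- `y'' = c⁻¹ y' c`
  have hcA : c⁻¹ * (a * b ^ 2 * a) * c = (c⁻¹ * (b⁻¹ * a ^ 2 * b) * c) * a ^ 2 := by
    have h2 : a ^ 2 * c = c * a ^ 2 := ((show Commute a c from hac).pow_left 2).eq
    rw [hA]
    calc c⁻¹ * (b⁻¹ * a ^ 2 * b * a ^ 2) * c = c⁻¹ * (b⁻¹ * a ^ 2 * b) * (a ^ 2 * c) := by
          simp only [mul_assoc]
      _ = c⁻¹ * (b⁻¹ * a ^ 2 * b) * c * a ^ 2 := by rw [h2]; simp only [mul_assoc]
  have h3 : Commute u ((b⁻¹ * a ^ 2 * b) * (c⁻¹ * (b⁻¹ * a ^ 2 * b) * c)⁻¹) := by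
    have h4 : (b⁻¹ * a ^ 2 * b) * (c⁻¹ * (b⁻¹ * a ^ 2 * b) * c)⁻¹ =
        (a * b ^ 2 * a) * (c⁻¹ * (a * b ^ 2 * a) * c)⁻¹ := by
      rw [hcA, hA]
      group
    rw [h4]
    exact huA.mul_right ((huc.inv_right.mul_right huA).mul_right huc).inv_right
  have e2 : b * c⁻¹ * b⁻¹ = c⁻¹ * b⁻¹ * c := by
    have h5 : b * c * b⁻¹ = c⁻¹ * b * c := by
      rw [mul_inv_eq_iff_eq_mul, mul_assoc, mul_assoc, eq_inv_mul_iff_mul_eq, ← mul_assoc,
        ← mul_assoc, hbc]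
    calc b * c⁻¹ * b⁻¹ = (b * c * b⁻¹)⁻¹ := by group
      _ = (c⁻¹ * b * c)⁻¹ := by rw [h5]
      _ = c⁻¹ * b⁻¹ * c := by group
  have e3 : b * (c⁻¹ * (b⁻¹ * a ^ 2 * b) * c) * b⁻¹ = c⁻¹ * (b⁻¹ * a ^ 2 * b) * c := by
    have h2 : c * a ^ 2 * c⁻¹ = a ^ 2 := by
      rw [mul_inv_eq_iff_eq_mul]
      exact ((show Commute c a from hac.symm).pow_right 2).eq
    calc b * (c⁻¹ * (b⁻¹ * a ^ 2 * b) * c) * b⁻¹
        = (b * c⁻¹ * b⁻¹) * a ^ 2 * (b * c⁻¹ * b⁻¹)⁻¹ := by group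
      _ = (c⁻¹ * b⁻¹) * (c * a ^ 2 * c⁻¹) * (c⁻¹ * b⁻¹)⁻¹ := by rw [e2]; group
      _ = c⁻¹ * (b⁻¹ * a ^ 2 * b) * c := by rw [h2]; group
  have h6 : Commute u (a ^ 2 * (c⁻¹ * (b⁻¹ * a ^ 2 * b) * c)⁻¹) := by
    have h7 : a ^ 2 * (c⁻¹ * (b⁻¹ * a ^ 2 * b) * c)⁻¹ =
        b * ((b⁻¹ * a ^ 2 * b) * (c⁻¹ * (b⁻¹ * a ^ 2 * b) * c)⁻¹) * b⁻¹ := by
      conv_lhs => rw [← e3]
      group
    rw [h7]
    exact (hub.mul_right h3).mul_right hub.inv_right
  have h8 : a ^ 4 = (a ^ 2 * (c⁻¹ * (b⁻¹ * a ^ 2 * b) * c)⁻¹) *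
      ((b⁻¹ * a ^ 2 * b) * (c⁻¹ * (b⁻¹ * a ^ 2 * b) * c)⁻¹)⁻¹ * (a * b ^ 2 * a) := by
    rw [hA]
    group
  rw [h8]
  exact (h6.mul_right h3.inv_right).mul_right huA

theorem grp_even_step1 (h : BraidFam k s) (hn : 3 ≤ n) (hk : 2 * n ≤ k) {m : Fin n → ℤ} (hm : Rel n s m)
    (j : Fin n) : s 0 ^ (m j) * s 1 ^ 4 = s 1 ^ 4 * s 0 ^ (m j) := by
  have h0 : 1 ≤ n := by omega
  have h1 := rel_perm h hk hm (Equiv.swap ⟨0, h0⟩ j)
  have h2 : m j = (m ∘ Equiv.swap ⟨0, h0⟩ j) ⟨0, h0⟩ := by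
    rw [Function.comp_apply, Equiv.swap_apply_left]
  rw [h2]
  generalize m ∘ Equiv.swap ⟨0, h0⟩ j = m' at h1 ⊢
  have hab : s 1 * s 2 * s 1 = s 2 * s 1 * s 2 := h.braid 1 (by omega)
  have hbc : s 2 * s 3 * s 2 = s 3 * s 2 * s 3 := h.braid 2 (by omega)
  have hac : s 1 * s 3 = s 3 * s 1 := h.comm 1 3 le_rfl (by omega)
  have c2 : Commute (s 0 ^ (m' ⟨0, h0⟩)) (s 2) :=
    Commute.zpow_left (show Commute (s 0) (s 2) from h.comm 0 2 le_rfl (by omega)) _
  have c3 : Commute (s 0 ^ (m' ⟨0, h0⟩)) (s 3) :=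
    Commute.zpow_left (show Commute (s 0) (s 3) from h.comm 0 3 (by omega) (by omega)) _
  refine grpe_calc hab hbc hac c2 c3 (grpe_comm_of h0 h1 fun i hi hi' => ?_).symm
  rcases Nat.eq_or_lt_of_le hi with h3 | h3
  · rw [← h3, Nat.mul_one]
    change s 1 * s 2 ^ 2 * s 1 * s 2 = s 2 * (s 1 * s 2 ^ 2 * s 1)
    generalize s 1 = a at *
    generalize s 2 = b at *
    calc a * b ^ 2 * a * b = a * b * (b * a * b) := by rw [pow_two]; simp only [mul_assoc]
      _ = (a * b * a) * b * a := by rw [← hab]; simp only [mul_assoc]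
      _ = b * (a * b ^ 2 * a) := by rw [hab, pow_two]; simp only [mul_assoc]
  · have d1 : Commute (s 1) (s (2 * i)) := h.comm 1 (2 * i) (by omega) (by omega)
    have d2 : Commute (s 2) (s (2 * i)) := h.comm 2 (2 * i) (by omega) (by omega)
    exact (d1.mul_left (d2.pow_left 2)).mul_left d1

/-- the product `w` of all `s (2 j)` is central under the hypotheses of step 3; consequence for `s 2 * s 4` -/
theorem grpe_w (h : BraidFam k s) (hn : 3 ≤ n) (hk : 2 * n ≤ k) {m : Fin n → ℤ} (hm : Rel n s m)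
    {q c : ℤ} (hc : c = 1 ∨ c = -1) (hq : ∀ i, i + 1 < k → Commute (s i ^ q) (s 3))
    (hmc : ∀ j, q ∣ m j - c) : Commute (s 2 * s 4) (s 3) := by
  obtain ⟨H, _, φ, y, hφ, hy, hR⟩ := grpb_exists_comm h hk
  set K : Subgroup H := (Subgroup.centralizer {s 3}).comap φ with hK
  have hKmem : ∀ x : H, x ∈ K ↔ Commute (φ x) (s 3) := by
    intro x
    rw [hK, Subgroup.mem_comap, Subgroup.mem_centralizer_singleton_iff]
    rfl
  have hw : ∏ j, y j ∈ K := by
    have h1 : (∏ j, y j ^ c) * ∏ j, y j ^ (m j - c) = 1 := by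
      rw [← Finset.prod_mul_distrib, ← (hR m).1 hm]
      refine Finset.prod_congr rfl fun j _ => ?_
      rw [← zpow_add]
      congr 1
      ring
    have h2 : ∏ j, y j ^ (m j - c) ∈ K := by
      refine Subgroup.prod_mem K fun j _ => ?_
      obtain ⟨t, ht⟩ := hmc j
      rw [hKmem, ht, map_zpow, hy, zpow_mul]
      have hj := j.2
      exact (hq (2 * (j : ℕ)) (by omega)).zpow_left t
    have h3 : ∏ j, y j ^ c ∈ K := by
      rw [mul_eq_one_iff_eq_inv.1 h1]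
      exact K.inv_mem h2
    rw [Finset.prod_zpow] at h3
    rcases hc with hc | hc
    · rw [hc, zpow_one] at h3
      exact h3
    · rw [hc, zpow_neg, zpow_one] at h3
      exact K.inv_mem_iff.1 h3
  have h4 : ∏ j, y j = (∏ j : Fin n, if ((j : ℕ) = 1 ∨ (j : ℕ) = 2) then 1 else y j) *
      ∏ j : Fin n, if ((j : ℕ) = 1 ∨ (j : ℕ) = 2) then y j else 1 := by
    rw [← Finset.prod_mul_distrib]
    refine Finset.prod_congr rfl fun j _ => ?_
    split_ifs
    · rw [one_mul]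
    · rw [mul_one]
  have h5 : (∏ j : Fin n, if ((j : ℕ) = 1 ∨ (j : ℕ) = 2) then 1 else y j) ∈ K := by
    refine Subgroup.prod_mem K fun j _ => ?_
    split_ifs with h6
    · exact K.one_mem
    · rw [hKmem, hy]
      push Not at h6
      have hj := j.2
      exact grpb_comm h (by omega) (by omega) (by omega)
  have h7 : (∏ j : Fin n, if ((j : ℕ) = 1 ∨ (j : ℕ) = 2) then y j else 1) =
      y ⟨1, by omega⟩ * y ⟨2, by omega⟩ := by
    rw [Finset.prod_eq_mul (⟨1, by omega⟩ : Fin n) ⟨2, by omega⟩]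
    · simp
    · intro e
      have := congrArg Fin.val e
      simp at this
    · intro j _ hj
      rw [if_neg]
      push Not
      exact ⟨fun e => hj.1 (Fin.ext e), fun e => hj.2 (Fin.ext e)⟩
    · intro e; exact absurd (Finset.mem_univ _) e
    · intro e; exact absurd (Finset.mem_univ _) e
  rw [h4, h7] at hw
  have h8 := (K.mul_mem_cancel_left h5).1 hw
  rw [hKmem, map_mul, hy, hy] at h8
  exact h8

/-- step 4 -/
theorem grpe_step4 {a b c d : Γ} (hab : a * b * a = b * a * b) (hbc : b * c * b = c * b * c)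
    (hcd : c * d * c = d * c * d) (hac : Commute a c) (had : Commute a d) (hbd : Commute b d)
    (h : Commute (b * d) c) : a = b := by
  -- `b = c⁻² d c²`
  have h1 : b * c * b⁻¹ = c⁻¹ * b * c := by
    rw [mul_inv_eq_iff_eq_mul, mul_assoc, mul_assoc, eq_inv_mul_iff_mul_eq, ← mul_assoc,
      ← mul_assoc, hbc]
  have hz : Commute (b * d) b := (Commute.refl b).mul_left hbd.symm
  obtain ⟨z, hzd⟩ : ∃ z, z = b * d := ⟨_, rfl⟩
  rw [← hzd] at h hz
  have hd : d = z * b⁻¹ := by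
    rw [hzd, hbd.eq, mul_inv_cancel_right]
  have h2 : c * b⁻¹ * c = z * b⁻¹ * c * b⁻¹ := by
    rw [hd] at hcd
    have h3 : z * (c * b⁻¹ * c) = z * (z * b⁻¹ * c * b⁻¹) := by
      calc z * (c * b⁻¹ * c) = (z * c) * b⁻¹ * c := by simp only [mul_assoc]
        _ = c * (z * b⁻¹) * c := by rw [h.eq]; simp only [mul_assoc]
        _ = z * b⁻¹ * c * (z * b⁻¹) := hcd
        _ = z * (b⁻¹ * (c * z)) * b⁻¹ := by simp only [mul_assoc]
        _ = z * ((b⁻¹ * z) * c) * b⁻¹ := by rw [← h.eq]; simp only [mul_assoc]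
        _ = z * ((z * b⁻¹) * c) * b⁻¹ := by rw [← hz.inv_right.eq]
        _ = z * (z * b⁻¹ * c * b⁻¹) := by simp only [mul_assoc]
    exact mul_left_cancel h3
  have h4 : b * c ^ 2 * b = b * d * c ^ 2 := by
    have h5 : (b * c * b⁻¹) * c * b = z * c := by
      calc (b * c * b⁻¹) * c * b = b * (c * b⁻¹ * c) * b := by simp only [mul_assoc]
        _ = (b * z) * b⁻¹ * c := by rw [h2]; group
        _ = z * c := by rw [← hz.eq]; group
    rw [h1] at h5
    have h6 : b * c ^ 2 * b = c * (z * c) := by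
      rw [← h5, pow_two]
      group
    rw [h6, ← mul_assoc, ← h.eq, ← hzd, mul_assoc, pow_two]
  have h7 : b = (c ^ 2)⁻¹ * d * c ^ 2 := by
    have h8 : c ^ 2 * b = d * c ^ 2 := by
      apply mul_left_cancel (a := b)
      rw [← mul_assoc, h4, mul_assoc]
    rw [mul_assoc, ← h8, inv_mul_cancel_left]
  have h9 : Commute a b := by
    rw [h7]
    exact ((hac.pow_right 2).inv_right.mul_right had).mul_right (hac.pow_right 2)
  rw [h9.eq] at hab
  exact mul_left_cancel hab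

theorem grp_even (h : BraidFam k s) (hn : 3 ≤ n) (hk : 2 * n ≤ k)
    (hrel : ∀ p : ℕ, p.Prime → ∃ m : Fin n → ℤ, (¬ ∀ j, (p : ℤ) ∣ m j) ∧ Rel n s m) (i : ℕ)
    (hi : i + 2 < k) : s i = s (i + 1) := by
  -- step 2
  have h1 : Commute (s 0) (s 1 ^ 4) := by
    have h2 : (1 : ℤ) ∈ grpe_commPow (s 0) (s 1 ^ 4) := by
      apply grpe_one_mem
      intro p hp
      obtain ⟨m, hm, hR⟩ := hrel p hp
      push Not at hm
      obtain ⟨j, hj⟩ := hm
      exact ⟨m j, grp_even_step1 h hn hk hR j, hj⟩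
    have h3 : Commute (s 0 ^ (1 : ℤ)) (s 1 ^ 4) := h2
    rwa [zpow_one] at h3
  have h4 : s 0 ^ (4 : ℤ) = s 1 ^ (4 : ℤ) := by
    have hb : s 0 * s 1 * s 0 = s 1 * s 0 * s 1 := h.braid 0 (by omega)
    generalize s 0 = z at *
    generalize s 1 = a at *
    have h5 : a⁻¹ * z * a = z * a * z⁻¹ := by
      rw [mul_assoc, inv_mul_eq_iff_eq_mul, ← mul_assoc, ← mul_assoc, ← hb, mul_inv_cancel_right]
    have h6 : z ^ 4 = a ^ 4 := by
      calc z ^ 4 = a * (a⁻¹ * z ^ 4 * a⁻¹⁻¹) * a⁻¹ := by group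
        _ = a * (a⁻¹ * z * a) ^ 4 * a⁻¹ := by rw [← conj_pow, inv_inv]
        _ = a * (z * a ^ 4 * z⁻¹) * a⁻¹ := by rw [h5, conj_pow]
        _ = a * a ^ 4 * a⁻¹ := by rw [h1.eq, mul_inv_cancel_right]
        _ = a ^ 4 := by group
    exact_mod_cast h6
  have hall : ∀ (q : ℤ), s 0 ^ q = s 1 ^ q → ∀ l, l + 1 < k → s l ^ q = s 0 ^ q := by
    intro q hq l
    induction l with
    | zero => intro _; rfl
    | succ l ih =>
      intro hl
      rw [← ih (by omega)]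
      exact (adj_all h q (i := 0) (by omega) hq l (by omega)).symm
  have hcen : ∀ (q : ℤ), s 0 ^ q = s 1 ^ q → ∀ l, l + 1 < k → Commute (s l ^ q) (s 3) := by
    intro q hq l hl
    rw [hall q hq l hl, ← hall q hq 3 (by omega)]
    exact (Commute.refl (s 3)).zpow_left q
  have hfin : Commute (s 2 * s 4) (s 3) → s i = s (i + 1) := by
    intro hc
    have h5 : s 1 = s 2 := by
      apply grpe_step4 (c := s 3) (d := s 4) (h.braid 1 (by omega)) (h.braid 2 (by omega))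
        (h.braid 3 (by omega)) (h.comm 1 3 le_rfl (by omega)) (h.comm 1 4 (by omega) (by omega))
        (h.comm 2 4 le_rfl (by omega)) hc
    have h6 := adj_all h 1 (i := 1) (by omega) (by rw [zpow_one, zpow_one]; exact h5) i hi
    rwa [zpow_one, zpow_one] at h6
  -- step 3
  obtain ⟨m, hm, hR⟩ := hrel 2 Nat.prime_two
  push Not at hm
  obtain ⟨j₀, hj₀⟩ := hm
  have hd : ∀ a b : Fin n, m a - m b ∈ grpe_eqPow (s 0) (s 1) := by
    intro a b
    by_cases hab : a = b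
    · rw [hab, sub_self]
      exact (grpe_eqPow (s 0) (s 1)).zero_mem
    · exact diff_rel h hk (by omega) hR hab 0 (by omega)
  have h4' : (4 : ℤ) ∈ grpe_eqPow (s 0) (s 1) := h4
  by_cases hodd : ∃ a b : Fin n, ¬ (2 : ℤ) ∣ m a - m b
  · obtain ⟨a, b, hab⟩ := hodd
    have h5 : (1 : ℤ) ∈ grpe_eqPow (s 0) (s 1) := by
      have h6 : (m a - m b) % 4 = 1 ∨ (m a - m b) % 4 = 3 := by omega
      rcases h6 with h6 | h6
      · have h7 : (1 : ℤ) = (m a - m b) - ((m a - m b) / 4) • 4 := by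
          rw [smul_eq_mul]; omega
        rw [h7]
        exact AddSubgroup.sub_mem _ (hd a b) (AddSubgroup.zsmul_mem _ h4' _)
      · have h7 : (1 : ℤ) = ((m a - m b) / 4 + 1) • 4 - (m a - m b) := by
          rw [smul_eq_mul]; omega
        rw [h7]
        exact AddSubgroup.sub_mem _ (AddSubgroup.zsmul_mem _ h4' _) (hd a b)
    have h6 := adj_all h 1 (i := 0) (by omega) h5 i hi
    rwa [zpow_one, zpow_one] at h6
  push Not at hodd
  have hall_odd : ∀ j, ¬ (2 : ℤ) ∣ m j := by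
    intro j hj
    apply hj₀
    have := hodd j j₀
    omega
  apply hfin
  by_cases h2 : ∃ a b : Fin n, ¬ (4 : ℤ) ∣ m a - m b
  · obtain ⟨a, b, hab⟩ := h2
    have h5 : (2 : ℤ) ∈ grpe_eqPow (s 0) (s 1) := by
      have h6 := hodd a b
      have h7 : (2 : ℤ) = (m a - m b) - ((m a - m b) / 4) • 4 := by
        rw [smul_eq_mul]; omega
      rw [h7]
      exact AddSubgroup.sub_mem _ (hd a b) (AddSubgroup.zsmul_mem _ h4' _)
    refine grpe_w h hn hk hR (q := 2) (c := 1) (Or.inl rfl) (hcen 2 h5) fun j => ?_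
    have := hall_odd j
    omega
  · push Not at h2
    have h6 : m j₀ % 4 = 1 ∨ m j₀ % 4 = 3 := by omega
    rcases h6 with h6 | h6
    · refine grpe_w h hn hk hR (q := 4) (c := 1) (Or.inl rfl) (hcen 4 h4) fun j => ?_
      have := h2 j j₀
      omega
    · refine grpe_w h hn hk hR (q := 4) (c := -1) (Or.inr rfl) (hcen 4 h4) fun j => ?_
      have := h2 j j₀
      omega

end AF21
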