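import Pool.Agent.AF21.GrpOdd
import Pool.Agent.AF21.GrpEven

/-!
# Group theory: conclusion
-/

set_option autoImplicit false

namespace AF21
variable {Γ : Type} [Group Γ] {k n : ℕ} {s : ℕ → Γ}

theorem grp_adj (h : BraidFam k s) (hn : 1 ≤ n) (hk : 4 < k) (hnk : 2 * n ≤ k)
    (hrel : ∀ p : ℕ, p.Prime → ∃ m : Fin n → ℤ, (¬ ∀ j, (p : ℤ) ∣ m j) ∧ Rel n s m) (i : ℕ)
    (hi : i + 2 < k) : s i = s (i + 1) := by
  by_cases h1 : 2 * n + 1 ≤ k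
  · exact grp_odd h hn h1 hrel i hi
  · exact grp_even h (by omega) hnk hrel i hi

theorem grp_all (h : BraidFam k s) (hn : 1 ≤ n) (hk : 4 < k) (hnk : 2 * n ≤ k)
    (hrel : ∀ p : ℕ, p.Prime → ∃ m : Fin n → ℤ, (¬ ∀ j, (p : ℤ) ∣ m j) ∧ Rel n s m) (i : ℕ)
    (hi : i + 1 < k) : s i = s 0 := by
  induction i with
  | zero => rfl
  | succ i ih => rw [← grp_adj h hn hk hnk hrel i (by omega), ih (by omega)]

end AF21
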