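import Pool.Agent.AF21.TorusMap
import Pool.Agent.AF21.Gen
import Pool.Agent.AF21.Grp

/-!
# [AF21-BMAIN] All classes commute

Proof. `gen G` is a braid family (`gen_braid`, `gen_comm`) with relations (`torus_rel`), so `gen G i = gen G 0` for `i + 1 < k`
(`grp_all`), `SClos G` is the closure of at most one element, hence commutative (`Subgroup.closure_comm`-like: closure of
pairwise commuting elements, `Subgroup.closure_induction₂` or `SClos G ≤ Subgroup.zpowers (gen G 0)`). Given `a` take
`π₀, δ : std → a.perm π₀` (`conf_conn`). For `γ : a → a.perm π` the path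
`γ̂ = δ · (permPath γ π₀) · (permPath δ π')⁻¹`, where `π' = π₀⁻¹ π π₀` so that `(a.perm π₀).perm π' = (a.perm π).perm π₀`
(`= a.perm (π * π₀)`), goes from `std` to `std.perm π'`, and `cl G γ̂` is the conjugate of `cl G γ` by the class of `G ∘ δ`
(`lp G γ̂` is homotopic to `Δ · lp G γ · Δ⁻¹` with `Δ = G ∘ δ : G std → G (a.perm π₀) = G a`). By `gen_mem` both `cl G γ̂` and
`cl G γ̂'` are in `SClos G`, so they commute, and conjugating back `cl G γ` and `cl G γ'` commute.
-/

set_option autoImplicit false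

open Set Topology

namespace AF21
variable {k n : ℕ} {Y : Type} [TopologicalSpace Y]

theorem braidFam_gen (G : SymMap k Y) : BraidFam k (gen G) :=
  ⟨fun i h => gen_braid G i h, fun i j hij hj => gen_comm G i j hij hj⟩

theorem comm_std (hT : TorusProp Y n) (hn1 : 1 ≤ n) (hn : 2 * n ≤ k) (hk : 4 < k) (G : SymMap k Y)
    {x y : FundamentalGroup Y (G.toMap (std k))} (hx : x ∈ SClos G) (hy : y ∈ SClos G) : Commute x y := by
  have h1 : ∀ i, i + 1 < k → gen G i = gen G 0 := fun i hi =>
    grp_all (braidFam_gen G) hn1 hk hn (fun p hp => torus_rel hT hn G p hp) i hi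
  have h2 : SClos G ≤ Subgroup.zpowers (gen G 0) := by
    unfold SClos
    rw [Subgroup.closure_le]
    rintro _ ⟨i, hi, rfl⟩
    rw [h1 i hi]
    exact Subgroup.mem_zpowers _
  obtain ⟨a, rfl⟩ := Subgroup.mem_zpowers_iff.1 (h2 hx)
  obtain ⟨b, rfl⟩ := Subgroup.mem_zpowers_iff.1 (h2 hy)
  exact (Commute.refl (gen G 0)).zpow_zpow a b

private theorem bmain_quot {x y : Y} (D : Path x y) (L L' : Path y y) :
    (L'.trans L).Homotopic
      (D.symm.trans (((D.trans (L'.trans D.symm)).trans (D.trans (L.trans D.symm))).trans D)) := by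
  rw [← Path.Homotopic.Quotient.eq]
  simp only [Path.Homotopic.Quotient.mk_trans, Path.Homotopic.Quotient.mk_symm,
    Path.Homotopic.Quotient.trans_assoc]
  rw [Path.Homotopic.Quotient.symm_trans, Path.Homotopic.Quotient.trans_refl,
    ← Path.Homotopic.Quotient.trans_assoc (Path.Homotopic.Quotient.mk D).symm
    (Path.Homotopic.Quotient.mk D), Path.Homotopic.Quotient.symm_trans,
    Path.Homotopic.Quotient.refl_trans,
    ← Path.Homotopic.Quotient.trans_assoc (Path.Homotopic.Quotient.mk D).symm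
    (Path.Homotopic.Quotient.mk D), Path.Homotopic.Quotient.symm_trans,
    Path.Homotopic.Quotient.refl_trans]

private theorem bmain_conj {x y : Y} (D : Path x y) (L L' : Path y y)
    (h : Commute (fp (D.trans (L.trans D.symm))) (fp (D.trans (L'.trans D.symm)))) :
    Commute (fp L) (fp L') := by
  have h1 := h.eq
  rw [← fp_trans, ← fp_trans] at h1
  have h2 := homotopic_of_fp_eq h1
  change fp L * fp L' = fp L' * fp L
  rw [← fp_trans, ← fp_trans]
  apply fp_eq
  exact ((bmain_quot D L L').trans (Path.Homotopic.hcomp (Path.Homotopic.refl _)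
    (Path.Homotopic.hcomp h2 (Path.Homotopic.refl _)))).trans (bmain_quot D L' L).symm

private theorem bmain_hat (G : SymMap k Y) {a : Conf k} {π π₀ : Equiv.Perm (Fin k)}
    (δ : Path (std k) (a.perm π₀)) (γ : Path a (a.perm π)) :
    ∃ (π' : Equiv.Perm (Fin k)) (g : Path (std k) ((std k).perm π')),
      lp G g = ((δ.map G.toMap.continuous).cast rfl (G.symm a π₀).symm).trans ((lp G γ).trans
        ((δ.map G.toMap.continuous).cast rfl (G.symm a π₀).symm).symm) := by
  have he : (a.perm π₀).perm (π₀⁻¹ * π * π₀) = (a.perm π).perm π₀ := by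
    rw [perm_perm, perm_perm]
    congr 1
    group
  refine ⟨π₀⁻¹ * π * π₀, δ.trans ((permPath γ π₀).trans
    ((permPath δ (π₀⁻¹ * π * π₀)).symm.cast he.symm rfl)), ?_⟩
  ext t
  simp only [lp, Path.cast_coe, Path.map_coe, Function.comp_apply, Path.trans_apply]
  split_ifs with h1 h2
  · rfl
  · exact G.symm _ π₀
  · exact G.symm _ (π₀⁻¹ * π * π₀)

theorem comm_of_torusProp (hT : TorusProp Y n) (hn1 : 1 ≤ n) (hn : 2 * n ≤ k) (hk : 4 < k) (G : SymMap k Y)
    {a : Conf k} {π ρ : Equiv.Perm (Fin k)} (γ : Path a (a.perm π)) (γ' : Path a (a.perm ρ)) :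
    Commute (cl G γ) (cl G γ') := by
  obtain ⟨π₀, ⟨δ⟩⟩ := conf_conn a
  obtain ⟨π₁, g₁, h₁⟩ := bmain_hat G δ γ
  obtain ⟨π₂, g₂, h₂⟩ := bmain_hat G δ γ'
  have h3 : Commute (cl G g₁) (cl G g₂) := comm_std hT hn1 hn hk G (gen_mem G g₁) (gen_mem G g₂)
  unfold cl at h3 ⊢
  rw [h₁, h₂] at h3
  exact bmain_conj _ _ _ h3

end AF21
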