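import Pool.Agent.AF21.StepBasic

/-!
# [AF21-BACK] Backward orbits of points of the attractor

`K = K0 X p R` is compact (`K0_compact`), `Ψ = D.Ψ` maps `K` to `K`, Lipschitz.

`fix_finite`. The set `Fix` of fixed points in `K` is closed in `K` (`Ψ` continuous on `K`), so compact, and its points are
isolated (`IsoFix`, by `step_near` a fixed point `c` satisfies `IsNear X (c + e (p - c)) c`), so it is finite
(`IsCompact.finite` with discrete topology, or a sequence of distinct points has an accumulation point).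

`exists_pre`. `y ∈ attr D` has a preimage in `attr D`: the sets `S_j = {x ∈ Ψ^j K | Ψ x = y}` are compact, decreasing
(`Ψ^(j+1) K ⊆ Ψ^j K`) and nonempty (as `y ∈ Ψ^(j+1) K`), so their intersection is nonempty
(`IsCompact.nonempty_iInter_of_directed_nonempty_isCompact_isClosed`).

`backward`. By `exists_pre` choose recursively `z 0 = y`, `z (k+1) ∈ attr D ⊆ K`, `Ψ (z (k+1)) = z k`. By `step_energy`
`‖z k - p‖² + ((1-e)/e) ‖z k - z (k+1)‖² ≤ ‖z (k+1) - p‖²`: the sequence `‖z k - p‖²` is nondecreasing and bounded by `R²`, hence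
convergent, and `‖z k - z (k+1)‖ → 0`. Let `r > 0` and let `δ ≤ r` be such that different fixed points have distance `≥ 4 δ`.
On the compact set `{x ∈ K | ∀ c ∈ Fix, δ ≤ ‖x - c‖}` the continuous function `‖Ψ x - x‖` is positive, so it is `≥ m > 0`
there; for large `k` `‖Ψ (z (k+1)) - z (k+1)‖ < m`, so `z (k+1)` is within `δ` of some fixed point `c_k`; for large `k` also
`‖z k - z (k+1)‖ < δ`, so `‖c_k - c_(k+1)‖ < 4 δ`... (`≤ 3 δ`), hence `c_k = c_(k+1)`: eventually constant. The limit fixed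
point `c` does not depend on `r`: do the argument first for one fixed `δ_0` to get `c`, and then for smaller `δ` the fixed
point found is within `δ + δ_0` of `c`, so it is `c`.
-/

set_option autoImplicit false

open Set Topology
open scoped ContDiff InnerProductSpace

namespace AF21
variable {V : Type} [NormedAddCommGroup V] [InnerProductSpace ℝ V] [FiniteDimensional ℝ V]
  {X : Set V} {p : V} {R : ℝ}

theorem fix_isClosed (hX : IsClosed X) (D : StepData X p R) :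
    IsClosed {c | c ∈ K0 X p R ∧ D.Ψ c = c} := by
  have hcont : ContinuousOn (fun x => D.Ψ x - x) (K0 X p R) :=
    (step_lip D).continuousOn.sub continuousOn_id
  have h := hcont.preimage_isClosed_of_isClosed (K0_compact hX p R).isClosed
    (isClosed_singleton (x := (0 : V)))
  convert h using 1
  ext c
  simp [sub_eq_zero]

theorem fix_finite (hX : IsClosed X) (D : StepData X p R) (hiso : IsoFix X p D.e) :
    {c | c ∈ K0 X p R ∧ D.Ψ c = c}.Finite := by
  by_contra hinf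
  have hinf' : {c | c ∈ K0 X p R ∧ D.Ψ c = c}.Infinite := hinf
  obtain ⟨x, -, hacc⟩ := hinf'.exists_accPt_of_subset_isCompact (K0_compact hX p R) (fun c hc => hc.1)
  have hx : x ∈ {c | c ∈ K0 X p R ∧ D.Ψ c = c} :=
    (fix_isClosed hX D).closure_subset (mem_closure_iff_clusterPt.2 hacc.clusterPt)
  have hn : ∀ c, c ∈ K0 X p R → D.Ψ c = c → IsNear X (c + D.e • (p - c)) c := by
    intro c hc hfc
    have h := step_near D hc
    rw [hfc] at h
    exact h
  obtain ⟨ε, hε, hiso'⟩ := hiso x hx.1.1 (hn x hx.1 hx.2)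
  rw [accPt_iff_nhds] at hacc
  obtain ⟨y, hy, hyx⟩ := hacc (Metric.ball x ε) (Metric.ball_mem_nhds x hε)
  apply hyx
  refine hiso' y hy.2.1.1 (hn y hy.2.1 hy.2.2) ?_
  have := hy.1
  rwa [Metric.mem_ball, dist_eq_norm] at this

theorem iter_image_succ_subset (D : StepData X p R) (j : ℕ) :
    D.Ψ^[j + 1] '' K0 X p R ⊆ D.Ψ^[j] '' K0 X p R := by
  rintro _ ⟨x, hx, rfl⟩
  exact ⟨D.Ψ x, step_maps D hx, by rw [Function.iterate_succ_apply]⟩

theorem iter_compact (hX : IsClosed X) (D : StepData X p R) (j : ℕ) :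
    IsCompact (D.Ψ^[j] '' K0 X p R) := by
  induction j with
  | zero => simpa using K0_compact hX p R
  | succ j ih =>
    have hsub : D.Ψ^[j] '' K0 X p R ⊆ K0 X p R := by
      rintro _ ⟨x, hx, rfl⟩
      exact (step_maps D).iterate j hx
    have h := ih.image_of_continuousOn ((step_lip D).continuousOn.mono hsub)
    rw [← image_comp, ← Function.iterate_succ'] at h
    exact h

omit [FiniteDimensional ℝ V] in
theorem attr_subset (D : StepData X p R) : attr D ⊆ K0 X p R := by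
  intro y hy
  have := mem_iInter.1 hy 0
  simpa using this

theorem exists_pre (hX : IsClosed X) (D : StepData X p R) {y : V} (hy : y ∈ attr D) :
    ∃ x ∈ attr D, D.Ψ x = y := by
  have hcont : ContinuousOn D.Ψ (K0 X p R) := (step_lip D).continuousOn
  let S : ℕ → Set V := fun j => (D.Ψ^[j] '' K0 X p R) ∩ D.Ψ ⁻¹' {y}
  have hsub : ∀ j, D.Ψ^[j] '' K0 X p R ⊆ K0 X p R := by
    rintro j _ ⟨x, hx, rfl⟩
    exact (step_maps D).iterate j hx
  have hclosed : ∀ j, IsClosed (S j) := fun j =>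
    (hcont.mono (hsub j)).preimage_isClosed_of_isClosed (iter_compact hX D j).isClosed
      (isClosed_singleton (x := y))
  have hcomp : ∀ j, IsCompact (S j) := fun j =>
    (iter_compact hX D j).of_isClosed_subset (hclosed j) inter_subset_left
  have hne : ∀ j, (S j).Nonempty := by
    intro j
    obtain ⟨x, hx, hxy⟩ := mem_iInter.1 hy (j + 1)
    refine ⟨D.Ψ^[j] x, ⟨x, hx, rfl⟩, ?_⟩
    rw [mem_preimage, mem_singleton_iff, ← hxy, Function.iterate_succ_apply']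
  have hdec : ∀ j, S (j + 1) ⊆ S j := fun j =>
    inter_subset_inter_left _ (iter_image_succ_subset D j)
  obtain ⟨x, hx⟩ := IsCompact.nonempty_iInter_of_sequence_nonempty_isCompact_isClosed S hdec hne
    (hcomp 0) hclosed
  rw [mem_iInter] at hx
  exact ⟨x, mem_iInter.2 fun j => (hx j).1, (hx 0).2⟩

/-- a point of `K` which is moved little by the step is close to a fixed point -/
theorem near_fix (hX : IsClosed X) (D : StepData X p R) {δ : ℝ} (hδ : 0 < δ) :
    ∃ m > 0, ∀ x ∈ K0 X p R, ‖D.Ψ x - x‖ < m → ∃ c ∈ K0 X p R, D.Ψ c = c ∧ ‖x - c‖ < δ := by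
  by_contra hcon
  push Not at hcon
  have hcont : ContinuousOn (fun x => ‖D.Ψ x - x‖) (K0 X p R) :=
    ((step_lip D).continuousOn.sub continuousOn_id).norm
  let A : Set V := {x | x ∈ K0 X p R ∧ ∀ c ∈ K0 X p R, D.Ψ c = c → δ ≤ ‖x - c‖}
  have hAclosed : IsClosed A := by
    have : A = K0 X p R ∩ ⋂ (c : V) (_ : c ∈ K0 X p R) (_ : D.Ψ c = c), {x | δ ≤ ‖x - c‖} := by
      ext x
      simp [A]
    rw [this]
    refine (K0_compact hX p R).isClosed.inter ?_
    refine isClosed_iInter fun c => isClosed_iInter fun _ => isClosed_iInter fun _ => ?_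
    exact isClosed_le continuous_const (by fun_prop)
  have hAcomp : IsCompact A := (K0_compact hX p R).of_isClosed_subset hAclosed (fun x hx => hx.1)
  have hAne : A.Nonempty := by
    obtain ⟨x, hx, -, hx2⟩ := hcon 1 one_pos
    exact ⟨x, hx, hx2⟩
  obtain ⟨a, ha, hmin⟩ := hAcomp.exists_isMinOn hAne (hcont.mono fun x hx => hx.1)
  have hpos : 0 < ‖D.Ψ a - a‖ := by
    rw [norm_pos_iff, sub_ne_zero]
    intro h
    have := ha.2 a ha.1 h
    simp at this
    linarith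
  obtain ⟨x, hx, hx1, hx2⟩ := hcon _ hpos
  exact absurd hx1 (not_lt.2 (hmin ⟨hx, hx2⟩))

theorem fix_sep (hX : IsClosed X) (D : StepData X p R) (hiso : IsoFix X p D.e) :
    ∃ δ > 0, ∀ c ∈ K0 X p R, D.Ψ c = c → ∀ d ∈ K0 X p R, D.Ψ d = d → ‖c - d‖ < 4 * δ → c = d := by
  have hfin := fix_finite hX D hiso
  obtain ⟨η, hη, h⟩ : ∃ η > 0, ∀ c ∈ {c | c ∈ K0 X p R ∧ D.Ψ c = c}, ∀ d ∈ {c | c ∈ K0 X p R ∧ D.Ψ c = c},
      ‖c - d‖ < η → c = d := by
    have hf2 : {q : V × V | q ∈ {c | c ∈ K0 X p R ∧ D.Ψ c = c} ×ˢ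
      {c | c ∈ K0 X p R ∧ D.Ψ c = c} ∧ q.1 ≠ q.2}.Finite := (hfin.prod hfin).subset (fun q hq => hq.1)
    by_cases hne : {q : V × V | q ∈ {c | c ∈ K0 X p R ∧ D.Ψ c = c} ×ˢ
      {c | c ∈ K0 X p R ∧ D.Ψ c = c} ∧ q.1 ≠ q.2}.Nonempty
    · obtain ⟨q, hq, hmin⟩ := hf2.exists_minimalFor (fun q : V × V => ‖q.1 - q.2‖) _ hne
      refine ⟨‖q.1 - q.2‖, norm_pos_iff.2 (sub_ne_zero.2 hq.2), ?_⟩
      intro c hc d hd hlt
      by_contra hcd
      have h1 := hmin (j := (c, d)) ⟨⟨hc, hd⟩, hcd⟩ hlt.le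
      exact absurd hlt (not_lt.2 h1)
    · refine ⟨1, one_pos, ?_⟩
      intro c hc d hd _
      by_contra hcd
      exact hne ⟨(c, d), ⟨hc, hd⟩, hcd⟩
  refine ⟨η / 4, by positivity, ?_⟩
  intro c hc hc' d hd hd' hlt
  exact h c ⟨hc, hc'⟩ d ⟨hd, hd'⟩ (by linarith)

theorem backward (hX : IsClosed X) (D : StepData X p R) (hiso : IsoFix X p D.e) {y : V} (hy : y ∈ attr D) :
    ∃ z : ℕ → V, (∀ k, z k ∈ K0 X p R) ∧ z 0 = y ∧ (∀ k, D.Ψ (z (k + 1)) = z k) ∧
      ∃ c ∈ K0 X p R, D.Ψ c = c ∧ ∀ r > 0, ∃ N, ∀ k ≥ N, ‖z k - c‖ < r := by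
  classical
  -- the backward orbit
  let w : ℕ → attr D := fun k => Nat.rec ⟨y, hy⟩
    (fun _ v => ⟨(exists_pre hX D v.2).choose, (exists_pre hX D v.2).choose_spec.1⟩) k
  have hw : ∀ k, D.Ψ (w (k + 1)).1 = (w k).1 := fun k => (exists_pre hX D (w k).2).choose_spec.2
  obtain ⟨z, hz, hz0, hzs⟩ : ∃ z : ℕ → V, (∀ k, z k ∈ K0 X p R) ∧ z 0 = y ∧ ∀ k, D.Ψ (z (k + 1)) = z k :=
    ⟨fun k => (w k).1, fun k => attr_subset D (w k).2, rfl, hw⟩
  refine ⟨z, hz, hz0, hzs, ?_⟩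
  -- the energy increases along the orbit
  have hen : ∀ k, D.e * ‖z k - p‖ ^ 2 + (1 - D.e) * ‖z k - z (k + 1)‖ ^ 2 ≤ D.e * ‖z (k + 1) - p‖ ^ 2 := by
    intro k
    have h := step_energy D (hz (k + 1))
    rwa [hzs k] at h
  have he := D.e_pos
  have he1 := D.e_lt
  have hmono : Monotone fun k => D.e * ‖z k - p‖ ^ 2 := by
    apply monotone_nat_of_le_succ
    intro k
    have h1 : 0 ≤ (1 - D.e) * ‖z k - z (k + 1)‖ ^ 2 := mul_nonneg (by linarith) (sq_nonneg _)
    have := hen k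
    show D.e * ‖z k - p‖ ^ 2 ≤ D.e * ‖z (k + 1) - p‖ ^ 2
    linarith
  have hbdd : BddAbove (range fun k => D.e * ‖z k - p‖ ^ 2) := by
    refine ⟨D.e * R ^ 2, ?_⟩
    rintro _ ⟨k, rfl⟩
    have h1 := (hz k).2
    have h2 : ‖z k - p‖ ^ 2 ≤ R ^ 2 := pow_le_pow_left₀ (norm_nonneg _) h1 2
    exact mul_le_mul_of_nonneg_left h2 he.le
  have hlim := tendsto_atTop_ciSup hmono hbdd
  set L := ⨆ k, D.e * ‖z k - p‖ ^ 2 with hL
  -- consecutive points get close
  have hclose : ∀ η > 0, ∃ N, ∀ k ≥ N, ‖z k - z (k + 1)‖ < η := by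
    intro η hη
    have hpos : 0 < (1 - D.e) * η ^ 2 := mul_pos (by linarith) (by positivity)
    obtain ⟨N, hN⟩ := Metric.tendsto_atTop.1 hlim _ hpos
    refine ⟨N, fun k hk => ?_⟩
    have h1 := hN k hk
    have h2 : D.e * ‖z (k + 1) - p‖ ^ 2 ≤ L := le_ciSup hbdd (k + 1)
    rw [Real.dist_eq, abs_lt] at h1
    have h3 := hen k
    have h4 : (1 - D.e) * ‖z k - z (k + 1)‖ ^ 2 < (1 - D.e) * η ^ 2 := by linarith [h1.1]
    have h5 : ‖z k - z (k + 1)‖ ^ 2 < η ^ 2 := lt_of_mul_lt_mul_left h4 (by linarith)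
    exact lt_of_pow_lt_pow_left₀ 2 hη.le h5
  obtain ⟨δ₀, hδ₀, hsep⟩ := fix_sep hX D hiso
  -- for each `δ ≤ δ₀`, the orbit is eventually within `δ` of one fixed point
  have hev : ∀ δ, 0 < δ → δ ≤ δ₀ → ∃ c ∈ K0 X p R, D.Ψ c = c ∧ ∃ N, ∀ k ≥ N, ‖z k - c‖ < δ := by
    intro δ hδ hδ'
    obtain ⟨m, hm, hmf⟩ := near_fix hX D hδ
    obtain ⟨N₁, hN₁⟩ := hclose (min m δ) (lt_min hm hδ)
    have hc : ∀ k ≥ N₁, ∃ c ∈ K0 X p R, D.Ψ c = c ∧ ‖z (k + 1) - c‖ < δ := by
      intro k hk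
      apply hmf _ (hz (k + 1))
      rw [hzs k]
      exact (hN₁ k hk).trans_le (min_le_left _ _)
    obtain ⟨c, hcK, hcf, hcN⟩ := hc N₁ le_rfl
    refine ⟨c, hcK, hcf, N₁ + 1, ?_⟩
    intro k hk
    induction k, hk using Nat.le_induction with
    | base => exact hcN
    | succ k hk ih =>
      obtain ⟨c', hc'K, hc'f, hc'N⟩ := hc k (by omega)
      have h1 : ‖z k - z (k + 1)‖ < δ := (hN₁ k (by omega)).trans_le (min_le_right _ _)
      have h2 : ‖c - c'‖ < 4 * δ₀ := by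
        have h3 : c - c' = -(z k - c) + (z k - z (k + 1)) + (z (k + 1) - c') := by abel
        calc ‖c - c'‖ = ‖-(z k - c) + (z k - z (k + 1)) + (z (k + 1) - c')‖ := by rw [h3]
          _ ≤ ‖-(z k - c)‖ + ‖z k - z (k + 1)‖ + ‖z (k + 1) - c'‖ := norm_add₃_le
          _ < δ + δ + δ := by rw [norm_neg]; linarith
          _ ≤ 4 * δ₀ := by linarith
      have h4 := hsep c hcK hcf c' hc'K hc'f h2
      rw [h4]
      exact hc'N
  obtain ⟨c, hcK, hcf, N₀, hN₀⟩ := hev δ₀ hδ₀ le_rfl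
  refine ⟨c, hcK, hcf, ?_⟩
  intro r hr
  obtain ⟨c', hc'K, hc'f, N, hN⟩ := hev (min r δ₀) (lt_min hr hδ₀) (min_le_right _ _)
  have hcc : c = c' := by
    apply hsep c hcK hcf c' hc'K hc'f
    have h1 := hN₀ (max N₀ N) (le_max_left _ _)
    have h2 := (hN (max N₀ N) (le_max_right _ _)).trans_le (min_le_right _ _)
    have h3 : c - c' = -(z (max N₀ N) - c) + (z (max N₀ N) - c') := by abel
    calc ‖c - c'‖ = ‖-(z (max N₀ N) - c) + (z (max N₀ N) - c')‖ := by rw [h3]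
      _ ≤ ‖-(z (max N₀ N) - c)‖ + ‖z (max N₀ N) - c'‖ := norm_add_le _ _
      _ < δ₀ + δ₀ := by rw [norm_neg]; linarith
      _ ≤ 4 * δ₀ := by linarith
  refine ⟨N, fun k hk => ?_⟩
  rw [hcc]
  exact (hN k hk).trans_le (min_le_left _ _)

end AF21
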