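import Pool.Agent.AF21.Tw

/-!
# [AF21-BELOW] Paths in `Below` with the same end points are homotopic

Proof. For `C ≥ 0` and `q ∈ Below k` the configuration `q + C·√-1·(0, 1, ..., k-1)` is injective: if two
of its points `i < j` have the same real part then `im q_i < im q_j`, so `im q_i + C i < im q_j + C j`.
Let `Up = {q | StrictMono (im ∘ q)}`; as a subset of `ℂ^k` it is convex, and contained in the injective vectors.
For `C q = 1 + 2 ∑ |im q_j|` (a continuous function of `q`) the raised configuration is in `Up`. So the inclusion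
`f : Below k → Conf k` is homotopic to the map `g q = q + C q·√-1·j`, by raising with `u·C q`, `u ∈ [0,1]`, and `g` factors
through the simply connected space `Up`. Naturality of the homotopy (`Path.Homotopic.map_trans_evalAt`) gives
`f γ · F_b ≃ F_a · g γ` and the same for `γ'`, and `g γ ≃ g γ'`. Cancel `F_b`.
-/

set_option autoImplicit false

open Set Topology

namespace AF21

/-- the height of a configuration -/
private noncomputable def bht {k : ℕ} (q : Conf k) : ℝ := 1 + 2 * ∑ j, |(q.1 j).im|

private theorem bht_pos {k : ℕ} (q : Conf k) : 0 < bht q := by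
  unfold bht
  have : 0 ≤ ∑ j, |(q.1 j).im| := Finset.sum_nonneg fun _ _ => abs_nonneg _
  linarith

private theorem bht_cont {k : ℕ} : Continuous (bht (k := k)) := by
  unfold bht
  refine continuous_const.add (continuous_const.mul (continuous_finsetSum _ fun j _ => ?_))
  exact (Complex.continuous_im.comp ((continuous_apply j).comp continuous_subtype_val)).abs

/-- the raised vector -/
private noncomputable def brs {k : ℕ} (q : Fin k → ℂ) (c : ℝ) : Fin k → ℂ :=
  fun j => q j + ((c * (j : ℕ) : ℝ) : ℂ) * Complex.I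

private theorem brs_re {k : ℕ} (q : Fin k → ℂ) (c : ℝ) (j : Fin k) : (brs q c j).re = (q j).re := by
  unfold brs
  simp

private theorem brs_im {k : ℕ} (q : Fin k → ℂ) (c : ℝ) (j : Fin k) :
    (brs q c j).im = (q j).im + c * (j : ℕ) := by
  unfold brs
  simp

private theorem brs_inj {k : ℕ} {q : Conf k} (hq : q ∈ Below k) {c : ℝ} (hc : 0 ≤ c) :
    Function.Injective (brs q.1 c) := by
  have key : ∀ i j : Fin k, i < j → brs q.1 c i ≠ brs q.1 c j := by
    intro i j hij h
    have h1 : (q.1 i).re = (q.1 j).re := by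
      rw [← brs_re q.1 c i, ← brs_re q.1 c j, h]
    have h2 := hq i j hij h1
    have h3 : (q.1 i).im + c * (i : ℕ) = (q.1 j).im + c * (j : ℕ) := by
      rw [← brs_im, ← brs_im, h]
    have h4 : ((i : ℕ) : ℝ) ≤ ((j : ℕ) : ℝ) := by exact_mod_cast (le_of_lt hij)
    nlinarith [mul_le_mul_of_nonneg_left h4 hc]
  intro i j h
  rcases lt_trichotomy i j with h1 | h1 | h1
  · exact absurd h (key i j h1)
  · exact h1
  · exact absurd h.symm (key j i h1)

private theorem brs_up {k : ℕ} (q : Conf k) : StrictMono fun j => (brs q.1 (bht q) j).im := by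
  intro i j hij
  simp only [brs_im]
  have h4 : ((i : ℕ) : ℝ) + 1 ≤ ((j : ℕ) : ℝ) := by exact_mod_cast hij
  have h5 : |(q.1 i).im| ≤ ∑ j, |(q.1 j).im| :=
    Finset.single_le_sum (f := fun j => |(q.1 j).im|) (fun _ _ => abs_nonneg _) (Finset.mem_univ i)
  have h6 : |(q.1 j).im| ≤ ∑ j, |(q.1 j).im| :=
    Finset.single_le_sum (f := fun j => |(q.1 j).im|) (fun _ _ => abs_nonneg _) (Finset.mem_univ j)
  have h7 : (q.1 i).im ≤ |(q.1 i).im| := le_abs_self _
  have h8 : -(q.1 j).im ≤ |(q.1 j).im| := neg_le_abs _
  have h9 : bht q = 1 + 2 * ∑ j, |(q.1 j).im| := rfl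
  have h10 := mul_le_mul_of_nonneg_left h4 (bht_pos q).le
  nlinarith

private theorem brs_cont {k : ℕ} {X : Type} [TopologicalSpace X] {f : X → Fin k → ℂ} {c : X → ℝ}
    (hf : Continuous f) (hc : Continuous c) : Continuous fun x => brs (f x) (c x) := by
  unfold brs
  refine continuous_pi fun j => ((continuous_apply j).comp hf).add ?_
  exact (Complex.continuous_ofReal.comp (hc.mul continuous_const)).mul continuous_const

private theorem brs_zero {k : ℕ} (q : Fin k → ℂ) : brs q 0 = q := by
  funext j
  unfold brs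
  simp

/-- vectors with strictly increasing imaginary parts -/
private def BUp (k : ℕ) : Set (Fin k → ℂ) := {v | StrictMono fun j => (v j).im}

private theorem bup_convex (k : ℕ) : Convex ℝ (BUp k) := by
  intro x hx y hy a b ha hb hab i j hij
  have h1 := hx hij
  have h2 := hy hij
  simp only at h1 h2
  simp only [Pi.add_apply, Pi.smul_apply, Complex.add_im, Complex.real_smul, Complex.mul_im,
    Complex.ofReal_re, Complex.ofReal_im, zero_mul, add_zero]
  rcases eq_or_lt_of_le ha with h | h
  · subst h
    have : b = 1 := by linarith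
    subst this
    linarith
  · have h3 := mul_lt_mul_of_pos_left h1 h
    have h4 := mul_le_mul_of_nonneg_left h2.le hb
    linarith

private theorem bup_inj {k : ℕ} {v : Fin k → ℂ} (hv : v ∈ BUp k) : Function.Injective v := by
  intro i j h
  have hv' : StrictMono fun j => (v j).im := hv
  exact hv'.injective (by simp only [h])

/-- the inclusion -/
private def bF (k : ℕ) : C({q : Conf k // q ∈ Below k}, Conf k) := ⟨Subtype.val, continuous_subtype_val⟩

/-- raising -/
private noncomputable def bG (k : ℕ) : C({q : Conf k // q ∈ Below k}, BUp k) :=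
  ⟨fun q => ⟨brs q.1.1 (bht q.1), brs_up q.1⟩,
    Continuous.subtype_mk (brs_cont (continuous_subtype_val.comp continuous_subtype_val)
      (bht_cont.comp continuous_subtype_val)) _⟩

/-- the inclusion of `Up` -/
private def bI (k : ℕ) : C(BUp k, Conf k) :=
  ⟨fun v => ⟨v.1, bup_inj v.2⟩, Continuous.subtype_mk continuous_subtype_val _⟩

/-- the homotopy -/
private noncomputable def bH (k : ℕ) : (bF k).Homotopy ((bI k).comp (bG k)) where
  toFun p := ⟨brs p.2.1.1 (p.1 * bht p.2.1), brs_inj p.2.2 (mul_nonneg p.1.2.1 (bht_pos _).le)⟩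
  continuous_toFun := Continuous.subtype_mk
    (brs_cont (continuous_subtype_val.comp (continuous_subtype_val.comp continuous_snd))
      ((continuous_subtype_val.comp continuous_fst).mul
        (bht_cont.comp (continuous_subtype_val.comp continuous_snd)))) _
  map_zero_left q := by
    apply Subtype.ext
    show brs q.1.1 (((0 : unitInterval) : ℝ) * bht q.1) = q.1.1
    rw [Set.Icc.coe_zero, zero_mul, brs_zero]
  map_one_left q := by
    apply Subtype.ext
    show brs q.1.1 (((1 : unitInterval) : ℝ) * bht q.1) = brs q.1.1 (bht q.1)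
    rw [Set.Icc.coe_one, one_mul]

private theorem cancel_path {X : Type} [TopologicalSpace X] {a b c d : X} {p p' : Path a b}
    {s : Path b d} {r : Path a c} {w w' : Path c d}
    (h1 : (p.trans s).Homotopic (r.trans w)) (h2 : (p'.trans s).Homotopic (r.trans w'))
    (h3 : w.Homotopic w') : p.Homotopic p' := by
  have h4 : (p.trans s).Homotopic (p'.trans s) := (h1.trans ((Path.Homotopic.refl r).hcomp h3)).trans h2.symm
  have e : ∀ q : Path a b, ((q.trans s).trans s.symm).Homotopic q := by
    intro q
    have e1 : ((q.trans s).trans s.symm).Homotopic (q.trans (s.trans s.symm)) :=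
      ⟨Path.Homotopy.transAssoc q s s.symm⟩
    have e2 : (q.trans (s.trans s.symm)).Homotopic (q.trans (Path.refl b)) :=
      (Path.Homotopic.refl q).hcomp ⟨(Path.Homotopy.reflTransSymm s).symm⟩
    have e3 : (q.trans (Path.refl b)).Homotopic q := ⟨Path.Homotopy.transRefl q⟩
    exact (e1.trans e2).trans e3
  exact ((e p).symm.trans (h4.hcomp (Path.Homotopic.refl s.symm))).trans (e p')

theorem below_homotopic {k : ℕ} {a b : Conf k} (γ γ' : Path a b) (h : ∀ t, γ t ∈ Below k)
    (h' : ∀ t, γ' t ∈ Below k) : γ.Homotopic γ' := by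
  have ha : a ∈ Below k := by
    have := h 0
    rwa [γ.source] at this
  have hb : b ∈ Below k := by
    have := h 1
    rwa [γ.target] at this
  let δ : Path (⟨a, ha⟩ : {q : Conf k // q ∈ Below k}) ⟨b, hb⟩ :=
    ⟨⟨fun t => ⟨γ t, h t⟩, Continuous.subtype_mk γ.continuous _⟩,
      Subtype.ext γ.source, Subtype.ext γ.target⟩
  let δ' : Path (⟨a, ha⟩ : {q : Conf k // q ∈ Below k}) ⟨b, hb⟩ :=
    ⟨⟨fun t => ⟨γ' t, h' t⟩, Continuous.subtype_mk γ'.continuous _⟩,
      Subtype.ext γ'.source, Subtype.ext γ'.target⟩
  have : ContractibleSpace (BUp k) := (bup_convex k).contractibleSpace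
    ⟨((bG k) ⟨a, ha⟩).1, ((bG k) ⟨a, ha⟩).2⟩
  have e3 : (δ.map (map_continuous ((bI k).comp (bG k)))).Homotopic
      (δ'.map (map_continuous ((bI k).comp (bG k)))) :=
    (SimplyConnectedSpace.paths_homotopic (δ.map (bG k).continuous) (δ'.map (bG k).continuous)).map (bI k)
  exact cancel_path (Path.Homotopic.map_trans_evalAt (bH k) δ)
    (Path.Homotopic.map_trans_evalAt (bH k) δ') e3

end AF21
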