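import Pool.Agent.AF21.Tw

/-!
# [AF21-CLMUL] Loops of concatenated paths of configurations

`perm_perm`: `(a ∘ ρ) ∘ π = a ∘ (ρ * π)`.
`cl_trans`: let `γ : a → a.perm π`, `γ' : a → a.perm ρ`, `δ : a → a.perm (ρ * π)` homotopic (with fixed end points) to `γ` followed
by the relabelled path `γ'.perm π : a.perm π → (a.perm ρ).perm π`. Then `cl G δ = cl G γ' * cl G γ` (order as in Mathlib: `fp_trans`).
Proof: `G.toMap ((γ' t).perm π) = G.toMap (γ' t)` by symmetry, so the loop `lp G δ` is homotopic to the concatenation of `lp G γ` and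
`lp G γ'`: `Path.map_trans`, `Path.Homotopic.map`, extensionality; casts do not change the underlying functions.
`cl_congr`: homotopic paths have the same class.
`below_tw`: `tw k i` is in `Below k`: for `0 < t < 1` the point `i` has imaginary part `-sin(πt)/2 < 0`, the point `i+1` has
`+sin(πt)/2`, and real parts: two points with equal real part can only be `i`, `i+1` (for `t = 1/2`); for `t = 0, 1` all real
parts are different.
-/

set_option autoImplicit false

open Set Topology

namespace AF21
variable {k : ℕ} {Y : Type} [TopologicalSpace Y]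

theorem perm_perm (a : Conf k) (π ρ : Equiv.Perm (Fin k)) : (a.perm ρ).perm π = a.perm (ρ * π) := rfl

theorem perm_one (a : Conf k) : a.perm 1 = a := rfl

theorem homotopic_cast {Z : Type} [TopologicalSpace Z] {x y y' : Z} {p q : Path x y} (h : y' = y)
    (hpq : p.Homotopic q) : (p.cast rfl h).Homotopic (q.cast rfl h) := by
  subst h
  exact hpq

theorem cl_congr (G : SymMap k Y) {a : Conf k} {π : Equiv.Perm (Fin k)} {γ γ' : Path a (a.perm π)}
    (h : γ.Homotopic γ') : cl G γ = cl G γ' :=
  fp_eq (homotopic_cast _ (h.map G.toMap))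

theorem cl_trans (G : SymMap k Y) {a : Conf k} {π ρ : Equiv.Perm (Fin k)} (γ : Path a (a.perm π))
    (γ' : Path a (a.perm ρ)) (δ : Path a (a.perm (ρ * π)))
    (h : δ.Homotopic (γ.trans ((permPath γ' π).cast rfl (perm_perm a π ρ).symm))) :
    cl G δ = cl G γ' * cl G γ := by
  rw [cl_congr G h]
  have key : lp G (γ.trans ((permPath γ' π).cast rfl (perm_perm a π ρ).symm)) =
      (lp G γ).trans (lp G γ') := by
    ext t
    simp only [lp, Path.cast_coe, Path.map_coe, Function.comp_apply, Path.trans_apply]
    split_ifs with h1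
    · rfl
    · exact G.symm _ π
  rw [cl, key, fp_trans]
  rfl

theorem reim (x y : ℝ) : ((x : ℂ) + (y : ℂ) * Complex.I).re = x ∧
    ((x : ℂ) + (y : ℂ) * Complex.I).im = y := by simp

theorem twF_left (i : ℕ) (t : ℝ) :
    (twF i i t).re = i + 1 / 2 - Real.cos (Real.pi * t) / 2 ∧
      (twF i i t).im = -(Real.sin (Real.pi * t) / 2) := by
  have h : (Real.pi * t * Complex.I : ℂ) = ((Real.pi * t : ℝ) : ℂ) * Complex.I := by push_cast; ring
  have h2 : twF i i t = ((i : ℝ) + 1 / 2 - Real.cos (Real.pi * t) / 2 : ℝ)
      + (-(Real.sin (Real.pi * t) / 2) : ℝ) * Complex.I := by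
    rw [twF, if_pos rfl, h, Complex.exp_mul_I, ← Complex.ofReal_cos, ← Complex.ofReal_sin]
    push_cast
    ring
  rw [h2]
  exact reim _ _

theorem twF_right (i : ℕ) (t : ℝ) :
    (twF i (i + 1) t).re = i + 1 / 2 + Real.cos (Real.pi * t) / 2 ∧
      (twF i (i + 1) t).im = Real.sin (Real.pi * t) / 2 := by
  have h : (Real.pi * t * Complex.I : ℂ) = ((Real.pi * t : ℝ) : ℂ) * Complex.I := by push_cast; ring
  have h2 : twF i (i + 1) t = ((i : ℝ) + 1 / 2 + Real.cos (Real.pi * t) / 2 : ℝ)
      + (Real.sin (Real.pi * t) / 2 : ℝ) * Complex.I := by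
    rw [twF, if_neg (by omega), if_pos rfl, h, Complex.exp_mul_I, ← Complex.ofReal_cos,
      ← Complex.ofReal_sin]
    push_cast
    ring
  rw [h2]
  exact reim _ _

theorem twF_other (i j : ℕ) (t : ℝ) (h1 : j ≠ i) (h2 : j ≠ i + 1) : twF i j t = j := by
  rw [twF, if_neg h1, if_neg h2]

theorem twF_ne (i j : ℕ) (x : ℝ) (h1 : j ≠ i) (h2 : j ≠ i + 1) (hx : (i : ℝ) ≤ x)
    (hx' : x ≤ i + 1) : (j : ℝ) ≠ x := by
  rintro rfl
  have h3 : i ≤ j := by exact_mod_cast hx
  have h4 : j ≤ i + 1 := by exact_mod_cast hx'
  omega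

theorem below_tw (k i : ℕ) (hi : i + 1 < k) (t : unitInterval) : tw k i hi t ∈ Below k := by
  intro a b hab hre
  rw [tw_apply, tw_apply] at hre ⊢
  have hab' : (a : ℕ) < b := hab
  have hl := twF_left i t
  have hr := twF_right i t
  have c1 := Real.cos_le_one (Real.pi * t)
  have c2 := Real.neg_one_le_cos (Real.pi * t)
  generalize hA : (a : ℕ) = A at *
  generalize hB : (b : ℕ) = B at *
  by_cases ha : A = i
  · subst ha
    by_cases hb : B = A + 1
    · subst hb
      rw [hl.1, hr.1] at hre
      rw [hl.2, hr.2]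
      have hc : Real.cos (Real.pi * t) = 0 := by linarith
      have hs : 0 ≤ Real.sin (Real.pi * t) := by
        apply Real.sin_nonneg_of_nonneg_of_le_pi
        · exact mul_nonneg Real.pi_pos.le t.2.1
        · calc Real.pi * (t : ℝ) ≤ Real.pi * 1 :=
                mul_le_mul_of_nonneg_left t.2.2 Real.pi_pos.le
            _ = Real.pi := mul_one _
      have hsc := Real.sin_sq_add_cos_sq (Real.pi * t)
      rw [hc] at hsc
      have hs' : Real.sin (Real.pi * t) ≠ 0 := by
        intro h0
        rw [h0] at hsc
        norm_num at hsc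
      have : 0 < Real.sin (Real.pi * t) := lt_of_le_of_ne hs (Ne.symm hs')
      linarith
    · rw [hl.1, twF_other A B t (by omega) hb, Complex.natCast_re] at hre
      exact absurd hre.symm (twF_ne A B _ (by omega) hb (by linarith) (by linarith))
  · by_cases ha' : A = i + 1
    · subst ha'
      rw [hr.1, twF_other i B t (by omega) (by omega), Complex.natCast_re] at hre
      exact absurd hre.symm (twF_ne i B _ (by omega) (by omega) (by linarith) (by linarith))
    · rw [twF_other i A t ha ha', Complex.natCast_re] at hre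
      by_cases hb : B = i
      · subst hb
        rw [hl.1] at hre
        exact absurd hre (twF_ne B A _ ha ha' (by linarith) (by linarith))
      · by_cases hb' : B = i + 1
        · subst hb'
          rw [hr.1] at hre
          exact absurd hre (twF_ne i A _ ha ha' (by linarith) (by linarith))
        · rw [twF_other i B t hb hb', Complex.natCast_re] at hre
          have : A = B := by exact_mod_cast hre
          omega

end AF21
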