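import Pool.Agent.AF21.BelowH
import Pool.Agent.AF21.ClMul

/-!
# [AF21-BRAID] The braid relations

Write `s_i` for the twist `tw k i`. `γ · γ'.perm π` (π the permutation of `γ`) is a path `std → std.perm (ρ * π)`.
`gen_braid`: the two paths `s_i · (s_{i+1}) · (s_i)` and `s_{i+1} · s_i · s_{i+1}` (each factor relabelled by the product of the
previous permutations) go from `std` to `std.perm` of the permutation which reverses `i, i+1, i+2`. Both lie in `Below k`:
the relabelled twist `(tw k j t).perm π` is in `Below` if `π` does not invert the two labels which are at the positions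
`j, j+1`, i.e. if `π.symm j < π.symm (j+1)`, because (i) the only two points which can have the same real part are the two
points of the twist, and (ii) the label `π.symm j`, which moves below, is the smaller one. In the first path the pairs of
labels are `(i, i+1)`, `(i, i+2)`, `(i+1, i+2)` (start: labels `i, i+1, i+2` at the positions `i, i+1, i+2`; after `s_i`:
`i+1, i, i+2`; after `s_{i+1}`: `i+1, i+2, i`; after `s_i`: `i+2, i+1, i`), in the second path `(i+1, i+2)`, `(i, i+2)`,
`(i, i+1)`. So they are homotopic by `below_homotopic` and the classes agree by `cl_congr`, `cl_trans` (twice).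
(The permutations: `swap i (i+1) * swap (i+1) (i+2) * swap i (i+1) = swap (i+1) (i+2) * swap i (i+1) * swap (i+1) (i+2)`; for the
order of the factors see `cl_trans`; the identity is symmetric. To handle the dependent types: state a lemma for three
indices giving `δ : Path std (std.perm τ)` in `Below` with `cl G δ = gen i3 * gen i2 * gen i1` for any `τ` equal to the product.)
`gen_comm` in the same way, with the pairs `(i, i+1)`, `(j, j+1)` in both orders.
-/

set_option autoImplicit false

open Set Topology

namespace AF21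
variable {k : ℕ} {Y : Type} [TopologicalSpace Y]

/-- two points of the twist on the same vertical line are the two moving points -/
theorem twF_re_eq (i A B : ℕ) (t : ℝ) (hAB : A ≠ B) (h : (twF i A t).re = (twF i B t).re) :
    (A = i ∧ B = i + 1) ∨ (A = i + 1 ∧ B = i) := by
  have hl := twF_left i t
  have hr := twF_right i t
  have c1 := Real.cos_le_one (Real.pi * t)
  have c2 := Real.neg_one_le_cos (Real.pi * t)
  by_cases ha : A = i
  · subst ha
    by_cases hb : B = A + 1
    · exact Or.inl ⟨rfl, hb⟩
    · rw [hl.1, twF_other A B t (by omega) hb, Complex.natCast_re] at h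
      exact absurd h.symm (twF_ne A B _ (by omega) hb (by linarith) (by linarith))
  · by_cases ha' : A = i + 1
    · subst ha'
      by_cases hb : B = i
      · exact Or.inr ⟨rfl, hb⟩
      · rw [hr.1, twF_other i B t hb (by omega), Complex.natCast_re] at h
        exact absurd h.symm (twF_ne i B _ hb (by omega) (by linarith) (by linarith))
    · rw [twF_other i A t ha ha', Complex.natCast_re] at h
      by_cases hb : B = i
      · subst hb
        rw [hl.1] at h
        exact absurd h (twF_ne B A _ ha ha' (by linarith) (by linarith))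
      · by_cases hb' : B = i + 1
        · subst hb'
          rw [hr.1] at h
          exact absurd h (twF_ne i A _ ha ha' (by linarith) (by linarith))
        · rw [twF_other i B t hb hb', Complex.natCast_re] at h
          exact absurd (by exact_mod_cast h) hAB

/-- the relabelled twist is in `Below` if the labels of the moving points are in the right order -/
theorem below_tw_perm (k j : ℕ) (hj : j + 1 < k) (π : Equiv.Perm (Fin k))
    (hπ : π.symm ⟨j, by omega⟩ < π.symm ⟨j + 1, hj⟩) (t : unitInterval) :
    (tw k j hj t).perm π ∈ Below k := by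
  intro a b hab hre
  change ((tw k j hj t).1 (π a)).re = ((tw k j hj t).1 (π b)).re at hre
  change ((tw k j hj t).1 (π a)).im < ((tw k j hj t).1 (π b)).im
  have hne : ((π a : Fin k) : ℕ) ≠ ((π b : Fin k) : ℕ) := by
    intro h
    exact (ne_of_lt hab) (π.injective (Fin.ext h))
  have hre' := hre
  rw [tw_apply, tw_apply] at hre'
  rcases twF_re_eq j _ _ t hne hre' with ⟨h1, h2⟩ | ⟨h1, h2⟩
  · exact below_tw k j hj t (π a) (π b) (by rw [Fin.lt_def]; omega) hre
  · exfalso
    have e1 : π.symm ⟨j + 1, hj⟩ = a := by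
      rw [Equiv.symm_apply_eq]
      exact (Fin.ext h1).symm
    have e2 : π.symm ⟨j, by omega⟩ = b := by
      rw [Equiv.symm_apply_eq]
      exact (Fin.ext h2).symm
    rw [e1, e2] at hπ
    exact lt_asymm hab hπ

/-- one more twist -/
theorem below_step (G : SymMap k Y) {π : Equiv.Perm (Fin k)} (γ : Path (std k) ((std k).perm π))
    (hγ : ∀ t, γ t ∈ Below k) (j : ℕ) (hj : j + 1 < k)
    (hπ : π.symm ⟨j, by omega⟩ < π.symm ⟨j + 1, hj⟩) :
    ∃ δ : Path (std k) ((std k).perm (Equiv.swap ⟨j, by omega⟩ ⟨j + 1, hj⟩ * π)),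
      (∀ t, δ t ∈ Below k) ∧ cl G δ = gen G j * cl G γ := by
  refine ⟨γ.trans ((permPath (tw k j hj) π).cast rfl (perm_perm (std k) π _).symm), ?_, ?_⟩
  · intro t
    rw [Path.trans_apply]
    split_ifs with h
    · exact hγ _
    · exact below_tw_perm k j hj π hπ _
  · rw [gen_eq G j hj]
    exact cl_trans G γ (tw k j hj) _ (Path.Homotopic.refl _)

theorem cl_eq_of_below (G : SymMap k Y) {τ τ' : Equiv.Perm (Fin k)} (h : τ = τ')
    (δ : Path (std k) ((std k).perm τ)) (δ' : Path (std k) ((std k).perm τ'))
    (hδ : ∀ t, δ t ∈ Below k) (hδ' : ∀ t, δ' t ∈ Below k) : cl G δ = cl G δ' := by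
  subst h
  exact cl_congr G (below_homotopic δ δ' hδ hδ')

private theorem swap_braid (a b c : Fin k) (hab : a ≠ b) (hac : a ≠ c) (hbc : b ≠ c) :
    Equiv.swap a b * (Equiv.swap b c * Equiv.swap a b) =
      Equiv.swap b c * (Equiv.swap a b * Equiv.swap b c) := by
  ext x
  simp only [Equiv.Perm.mul_apply, Equiv.swap_apply_def]
  split_ifs <;> simp_all

private theorem swap_comm' (a b c d : Fin k) (hac : a ≠ c) (had : a ≠ d) (hbc : b ≠ c) (hbd : b ≠ d) :
    Equiv.swap a b * Equiv.swap c d = Equiv.swap c d * Equiv.swap a b := by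
  ext x
  simp only [Equiv.Perm.mul_apply, Equiv.swap_apply_def]
  split_ifs <;> simp_all

theorem gen_braid (G : SymMap k Y) (i : ℕ) (h : i + 2 < k) :
    gen G i * gen G (i + 1) * gen G i = gen G (i + 1) * gen G i * gen G (i + 1) := by
  have n01 : (⟨i, by omega⟩ : Fin k) ≠ ⟨i + 1, by omega⟩ := by simp [Fin.ext_iff]
  have n02 : (⟨i, by omega⟩ : Fin k) ≠ ⟨i + 1 + 1, by omega⟩ := by
    intro h'
    have := congrArg Fin.val h'
    simp only at this
    omega
  have n12 : (⟨i + 1, by omega⟩ : Fin k) ≠ ⟨i + 1 + 1, by omega⟩ := by simp [Fin.ext_iff]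
  -- first path
  obtain ⟨d1, hd1, e1⟩ := below_step G (tw k i (by omega)) (below_tw k i (by omega)) (i + 1) (by omega)
    (by
      rw [Equiv.symm_swap, Equiv.swap_apply_right, Equiv.swap_apply_of_ne_of_ne n02.symm n12.symm,
        Fin.lt_def]
      simp only
      omega)
  obtain ⟨d2, hd2, e2⟩ := below_step G d1 hd1 i (by omega)
    (by
      rw [← Equiv.Perm.inv_def, mul_inv_rev, Equiv.swap_inv, Equiv.swap_inv, Equiv.Perm.mul_apply,
        Equiv.Perm.mul_apply, Equiv.swap_apply_of_ne_of_ne n01 n02, Equiv.swap_apply_left,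
        Equiv.swap_apply_left, Equiv.swap_apply_of_ne_of_ne n02.symm n12.symm, Fin.lt_def]
      simp only
      omega)
  -- second path
  obtain ⟨d3, hd3, e3⟩ := below_step G (tw k (i + 1) (by omega)) (below_tw k (i + 1) (by omega)) i (by omega)
    (by
      rw [Equiv.symm_swap, Equiv.swap_apply_left, Equiv.swap_apply_of_ne_of_ne n01 n02,
        Fin.lt_def]
      simp only
      omega)
  obtain ⟨d4, hd4, e4⟩ := below_step G d3 hd3 (i + 1) (by omega)
    (by
      rw [← Equiv.Perm.inv_def, mul_inv_rev, Equiv.swap_inv, Equiv.swap_inv, Equiv.Perm.mul_apply,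
        Equiv.Perm.mul_apply, Equiv.swap_apply_right, Equiv.swap_apply_of_ne_of_ne n01 n02,
        Equiv.swap_apply_of_ne_of_ne n02.symm n12.symm, Equiv.swap_apply_right, Fin.lt_def]
      simp only
      omega)
  have key := cl_eq_of_below G (swap_braid (⟨i, by omega⟩ : Fin k) ⟨i + 1, by omega⟩ ⟨i + 1 + 1, by omega⟩
    n01 n02 n12) d2 d4 hd2 hd4
  rw [e2, e1, e4, e3, ← gen_eq G i (by omega), ← gen_eq G (i + 1) (by omega)] at key
  rw [mul_assoc, mul_assoc]
  exact key

theorem gen_comm (G : SymMap k Y) (i j : ℕ) (hij : i + 2 ≤ j) (hj : j + 1 < k) :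
    gen G i * gen G j = gen G j * gen G i := by
  have ne1 : (⟨i, by omega⟩ : Fin k) ≠ ⟨j, by omega⟩ := fun h => by
    have := congrArg Fin.val h
    simp only at this
    omega
  have ne2 : (⟨i, by omega⟩ : Fin k) ≠ ⟨j + 1, by omega⟩ := fun h => by
    have := congrArg Fin.val h
    simp only at this
    omega
  have ne3 : (⟨i + 1, by omega⟩ : Fin k) ≠ ⟨j, by omega⟩ := fun h => by
    have := congrArg Fin.val h
    simp only at this
    omega
  have ne4 : (⟨i + 1, by omega⟩ : Fin k) ≠ ⟨j + 1, by omega⟩ := fun h => by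
    have := congrArg Fin.val h
    simp only at this
    omega
  obtain ⟨d1, hd1, e1⟩ := below_step G (tw k j (by omega)) (below_tw k j (by omega)) i (by omega)
    (by
      rw [Equiv.symm_swap, Equiv.swap_apply_of_ne_of_ne ne1 ne2, Equiv.swap_apply_of_ne_of_ne ne3 ne4,
        Fin.lt_def]
      simp only
      omega)
  obtain ⟨d2, hd2, e2⟩ := below_step G (tw k i (by omega)) (below_tw k i (by omega)) j (by omega)
    (by
      rw [Equiv.symm_swap, Equiv.swap_apply_of_ne_of_ne ne1.symm ne3.symm,
        Equiv.swap_apply_of_ne_of_ne ne2.symm ne4.symm, Fin.lt_def]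
      simp only
      omega)
  have key := cl_eq_of_below G (swap_comm' (⟨i, by omega⟩ : Fin k) ⟨i + 1, by omega⟩ ⟨j, by omega⟩
    ⟨j + 1, by omega⟩ ne1 ne2 ne3 ne4) d1 d2 hd1 hd2
  rw [e1, e2, ← gen_eq G i (by omega), ← gen_eq G j (by omega)] at key
  exact key

end AF21
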