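import Pool.Agent.AF21.Tw

/-!
# [AF21-CONN] Regular configurations

`exists_sort`: a configuration `q` with different real parts has a permutation `π` such that the real parts of `q.perm π` are
strictly increasing (`Tuple.sort`), and the straight path from `std` to `q.perm π` is in `Inc k` (strictly increasing real
parts is a convex condition; `std k ∈ Inc k`).
`inc_homotopic`: two paths in `Inc k` with the same end points are homotopic (straight-line homotopy, convexity; an element of
`Inc k` is injective).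
`exists_reg`: for every `q` and `ε > 0` there is a regular `r` with `‖r j - q j‖ < ε` for all `j` (`r j = q j + s j`, `s > 0` a small
real number such that no difference `re q_i - re q_j` is equal to `s (j - i)`, `i ≠ j`: finitely many bad `s`), injective
automatically as the real parts differ.
`conf_conn`: for every `a` there is a path from `std` to some `a.perm π`: take a regular `r` so close to `a` that the straight path
from `r` to `a` stays in the configuration space (`ε ≤` a third of the smallest distance of two points of `a`), `π` sorts `r`,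
`std → r.perm π` by `exists_sort`, then `r.perm π → a.perm π` (`permPath` of the straight path).
-/

set_option autoImplicit false

open Set Topology

namespace AF21
variable {k : ℕ}

private theorem seg_path (a b : Conf k)
    (h : ∀ t : unitInterval, Function.Injective fun j => ((1 - t : ℝ) : ℂ) * a.1 j + ((t : ℝ) : ℂ) * b.1 j) :
    ∃ γ : Path a b, ∀ (t : unitInterval) (j : Fin k),
      (γ t).1 j = ((1 - t : ℝ) : ℂ) * a.1 j + ((t : ℝ) : ℂ) * b.1 j := by
  refine ⟨⟨⟨fun t => ⟨fun j => ((1 - t : ℝ) : ℂ) * a.1 j + ((t : ℝ) : ℂ) * b.1 j, h t⟩, ?_⟩, ?_, ?_⟩,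
    fun t j => rfl⟩
  · refine Continuous.subtype_mk ?_ _
    refine continuous_pi fun j => ?_
    fun_prop
  · apply Subtype.ext
    funext j
    simp
  · apply Subtype.ext
    funext j
    simp

private theorem inc_seg {a b : Conf k} (ha : a ∈ Inc k) (hb : b ∈ Inc k) (t : ℝ) (h0 : 0 ≤ t) (h1 : t ≤ 1) :
    StrictMono fun j => (((1 - t : ℝ) : ℂ) * a.1 j + ((t : ℝ) : ℂ) * b.1 j).re := by
  intro i j hij
  have h2 := ha hij
  have h3 := hb hij
  simp only [Complex.add_re, Complex.re_ofReal_mul] at h2 h3 ⊢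
  rcases eq_or_lt_of_le h0 with h | h
  · subst h
    linarith
  · have h4 : t * (a.1 i).re ≤ t * (a.1 j).re := mul_le_mul_of_nonneg_left h2.le h0
    have h5 : (1 - t) * (a.1 i).re ≤ (1 - t) * (a.1 j).re := mul_le_mul_of_nonneg_left h2.le (by linarith)
    have h6 : t * (b.1 i).re < t * (b.1 j).re := mul_lt_mul_of_pos_left h3 h
    linarith

private theorem inj_of_re {f : Fin k → ℂ} (h : Function.Injective fun j => (f j).re) : Function.Injective f := by
  intro i j hij
  apply h
  show (f i).re = (f j).re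
  rw [hij]

private theorem std_inc : std k ∈ Inc k := by
  intro i j hij
  show (((i : ℕ) : ℂ)).re < (((j : ℕ) : ℂ)).re
  rw [Complex.natCast_re, Complex.natCast_re]
  exact_mod_cast hij

theorem exists_sort (q : Conf k) (hq : Reg q) :
    ∃ (π : Equiv.Perm (Fin k)) (α : Path (std k) (q.perm π)), ∀ t, α t ∈ Inc k := by
  let f : Fin k → ℝ := fun j => (q.1 j).re
  have h1 : Monotone (f ∘ Tuple.sort f) := Tuple.monotone_sort f
  have h2 : Function.Injective (f ∘ Tuple.sort f) := Function.Injective.comp hq (Tuple.sort f).injective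
  have h3 : StrictMono (f ∘ Tuple.sort f) := h1.strictMono_of_injective h2
  have h4 : q.perm (Tuple.sort f) ∈ Inc k := h3
  obtain ⟨γ, hγ⟩ := seg_path (std k) (q.perm (Tuple.sort f))
    (fun t => inj_of_re (inc_seg std_inc h4 t t.2.1 t.2.2).injective)
  refine ⟨Tuple.sort f, γ, fun t => ?_⟩
  have h5 := inc_seg std_inc h4 t t.2.1 t.2.2
  show StrictMono fun j => ((γ t).1 j).re
  simpa only [hγ] using h5

theorem inc_homotopic {a b : Conf k} (γ γ' : Path a b) (h : ∀ t, γ t ∈ Inc k) (h' : ∀ t, γ' t ∈ Inc k) :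
    γ.Homotopic γ' := by
  refine ⟨⟨⟨⟨fun p => ⟨fun j => ((1 - p.1 : ℝ) : ℂ) * (γ p.2).1 j + ((p.1 : ℝ) : ℂ) * (γ' p.2).1 j,
    inj_of_re (inc_seg (h p.2) (h' p.2) p.1 p.1.2.1 p.1.2.2).injective⟩, ?_⟩, ?_, ?_⟩, ?_⟩⟩
  · refine Continuous.subtype_mk ?_ _
    refine continuous_pi fun j => ?_
    have c1 : Continuous fun p : unitInterval × unitInterval => (γ p.2).1 j :=
      (continuous_apply j).comp (continuous_subtype_val.comp (γ.continuous.comp continuous_snd))
    have c2 : Continuous fun p : unitInterval × unitInterval => (γ' p.2).1 j :=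
      (continuous_apply j).comp (continuous_subtype_val.comp (γ'.continuous.comp continuous_snd))
    have c3 : Continuous fun p : unitInterval × unitInterval => ((1 - p.1 : ℝ) : ℂ) := by fun_prop
    have c4 : Continuous fun p : unitInterval × unitInterval => ((p.1 : ℝ) : ℂ) := by fun_prop
    exact (c3.mul c1).add (c4.mul c2)
  · intro s
    apply Subtype.ext
    funext j
    simp
  · intro s
    apply Subtype.ext
    funext j
    simp
  · intro t s hs
    rcases hs with hs | hs
    · subst hs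
      apply Subtype.ext
      funext j
      simp
      ring
    · rw [Set.mem_singleton_iff] at hs
      subst hs
      apply Subtype.ext
      funext j
      simp
      ring

theorem sort_unique {q : Conf k} {π ρ : Equiv.Perm (Fin k)} (h : q.perm π ∈ Inc k) (h' : q.perm ρ ∈ Inc k) :
    π = ρ := by
  have key : ∀ σ : Equiv.Perm (Fin k), q.perm σ ∈ Inc k → σ = Tuple.sort fun j => (q.1 j).re := by
    intro σ hσ
    have h1 : StrictMono ((fun j => (q.1 j).re) ∘ σ) := hσ
    rw [Tuple.eq_sort_iff]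
    exact ⟨h1.monotone, fun i j hij he => absurd he (ne_of_lt (h1 hij))⟩
  rw [key π h, key ρ h']

theorem exists_reg (q : Conf k) {ε : ℝ} (hε : 0 < ε) : ∃ r : Conf k, Reg r ∧ ∀ j, ‖r.1 j - q.1 j‖ < ε := by
  let B : Set ℝ := Set.range fun p : Fin k × Fin k =>
    ((q.1 p.1).re - (q.1 p.2).re) / (((p.2 : ℕ) : ℝ) - ((p.1 : ℕ) : ℝ))
  have hB : B.Finite := Set.finite_range _
  have hI : (Set.Ioo (0 : ℝ) (ε / (k + 1))).Infinite := Set.Ioo_infinite (by positivity)
  obtain ⟨s, hs, hsB⟩ := (hI.sdiff hB).nonempty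
  have hreg : Function.Injective fun j : Fin k => (q.1 j + ((s * ((j : ℕ) : ℝ) : ℝ) : ℂ)).re := by
    intro i j hij
    by_contra hne
    apply hsB
    refine ⟨(i, j), ?_⟩
    have h1 : ((j : ℕ) : ℝ) - ((i : ℕ) : ℝ) ≠ 0 := by
      intro h
      apply hne
      apply Fin.ext
      have h2 : ((i : ℕ) : ℝ) = ((j : ℕ) : ℝ) := by linarith
      exact_mod_cast h2
    simp only [Complex.add_re, Complex.ofReal_re] at hij ⊢
    rw [div_eq_iff h1]
    linarith
  refine ⟨⟨fun j => q.1 j + ((s * ((j : ℕ) : ℝ) : ℝ) : ℂ), inj_of_re hreg⟩, hreg, fun j => ?_⟩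
  show ‖q.1 j + ((s * ((j : ℕ) : ℝ) : ℝ) : ℂ) - q.1 j‖ < ε
  rw [add_sub_cancel_left, Complex.norm_real, Real.norm_eq_abs, abs_of_nonneg (by
    have := hs.1
    positivity)]
  have h2 : ((j : ℕ) : ℝ) ≤ k := by exact_mod_cast j.2.le
  have h3 : s * ((k : ℝ) + 1) < ε := by
    have h4 := hs.2
    rwa [lt_div_iff₀ (by positivity)] at h4
  have h5 : s * ((j : ℕ) : ℝ) ≤ s * k := mul_le_mul_of_nonneg_left h2 hs.1.le
  have h6 := hs.1
  nlinarith

private theorem exists_sep (a : Conf k) : ∃ d > 0, ∀ i j : Fin k, i ≠ j → d ≤ ‖a.1 i - a.1 j‖ := by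
  have : Nonempty {x : ℝ // 0 < x} := ⟨⟨1, one_pos⟩⟩
  obtain ⟨d, h⟩ := Finite.exists_ge
    (fun p : {p : Fin k × Fin k // p.1 ≠ p.2} => (⟨‖a.1 p.1.1 - a.1 p.1.2‖, by
      obtain ⟨⟨i, j⟩, hij⟩ := p
      exact norm_pos_iff.mpr (sub_ne_zero.mpr fun h => hij (a.2 h))⟩ : {x : ℝ // 0 < x}))
  exact ⟨d.1, d.2, fun i j hij => h ⟨(i, j), hij⟩⟩

theorem conf_conn (a : Conf k) : ∃ π : Equiv.Perm (Fin k), Nonempty (Path (std k) (a.perm π)) := by
  obtain ⟨d, hd, hsep⟩ := exists_sep a
  obtain ⟨r, hr, hra⟩ := exists_reg a (ε := d / 3) (by positivity)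
  obtain ⟨π, α, -⟩ := exists_sort r hr
  obtain ⟨γ, -⟩ := seg_path a r (by
    intro t i j hij
    by_contra hne
    have h1 : ‖((t : ℝ) : ℂ) * (r.1 i - a.1 i)‖ ≤ d / 3 := by
      rw [norm_mul, Complex.norm_real, Real.norm_eq_abs, abs_of_nonneg t.2.1]
      have h2 := hra i
      have h3 := t.2.2
      have h4 := t.2.1
      have h5 := norm_nonneg (r.1 i - a.1 i)
      nlinarith
    have h2 : ‖((t : ℝ) : ℂ) * (r.1 j - a.1 j)‖ ≤ d / 3 := by
      rw [norm_mul, Complex.norm_real, Real.norm_eq_abs, abs_of_nonneg t.2.1]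
      have h2 := hra j
      have h3 := t.2.2
      have h4 := t.2.1
      have h5 := norm_nonneg (r.1 j - a.1 j)
      nlinarith
    have h3 : a.1 i - a.1 j = ((t : ℝ) : ℂ) * (r.1 j - a.1 j) - ((t : ℝ) : ℂ) * (r.1 i - a.1 i) := by
      have h4 : ((1 - t : ℝ) : ℂ) * a.1 i + ((t : ℝ) : ℂ) * r.1 i
        = ((1 - t : ℝ) : ℂ) * a.1 j + ((t : ℝ) : ℂ) * r.1 j := hij
      push_cast at h4
      linear_combination h4
    have h4 := norm_sub_le (((t : ℝ) : ℂ) * (r.1 j - a.1 j)) (((t : ℝ) : ℂ) * (r.1 i - a.1 i))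
    rw [← h3] at h4
    have h5 := hsep i j hne
    linarith)
  exact ⟨π, ⟨α.trans (permPath γ.symm π)⟩⟩

end AF21
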