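import Mathlib

/-!
# AF21 (MP_e382fa_ag): continuous maps `G_k^0 → X` for `k ≥ 2 l + 2`

Theorem (Final.lean): `X ⊆ ℂ^N` a smooth affine variety of pure dimension `l`, `k > 4`, `k ≥ 2 l + 2`; then every
CONTINUOUS map from the space `U` of monic separable polynomials of degree `k` with vanishing `z^(k-1)`
coefficient to `X` has abelian image on fundamental groups.

Part A (`AF`): `TorusProp X (l+1)`: for every torus in `X` of dimension `l+1` and every prime `p` there is
  `m ∈ ℤ^(l+1)`, `m ∉ p ℤ^(l+1)`, whose loop is null-homotopic in `X`.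
  Proof: let `p` be a generic point (Sard). `Ψ x` is the nearest point of `X` to `x + e (p - x)`, `e > 0` small
  (one proximal step for `‖x-p‖²`). It is a Lipschitz self map of the compact set
  `K0 = {x ∈ X, ‖x-p‖ ≤ R}`, homotopic to the identity, with isolated fixed points. Its attractor `⋂ Ψ^j K0` has
  Hausdorff measure zero in dimension `l+1` (cone lemma at the fixed points: the Hessian of `‖x-p‖²` is `≤ 0` only
  on totally real subspaces). A generic fine cubical grid of the ambient space then misses the attractor in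
  codimension `l+1`, hence misses `Ψ^j K0` for large `j`; the torus is covered by `l+1` periodic open sets in
  which every loop is small, hence null-homotopic in `X`, and the torus covering theorem (part T) applies.
Part T (`torus_cover`): if `ℝ^n` is covered by `n` periodic open sets, then for each prime `p` one of them
  joins some `y` to `y + m` with `m ∉ p ℤ^n`.
Part B: `TorusProp Y n` and `2 n ≤ k`, `k > 4` imply that all loops of `Y` coming from a symmetric continuous
  map of the ordered configuration space of `k` points commute.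

This file: all definitions. Coordinates, points and generators are numbered from `0`.
-/

set_option autoImplicit false

open Set Topology
open scoped ContDiff InnerProductSpace

namespace AF21

/-! ## Torus property -/

section Torus
variable {Y : Type} [TopologicalSpace Y] {n : ℕ}

/-- periodicity of a map on `ℝ^n` -/
def Per (H : (Fin n → ℝ) → Y) : Prop := ∀ (y : Fin n → ℝ) (m : Fin n → ℤ), H (fun j => y j + m j) = H y

/-- the class of a loop -/
noncomputable def fp {x : Y} (γ : Path x x) : FundamentalGroup Y x :=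
  FundamentalGroup.fromPath (Path.Homotopic.Quotient.mk γ)

theorem fp_trans {x : Y} (γ γ' : Path x x) : fp (γ.trans γ') = fp γ' * fp γ := rfl
theorem fp_symm {x : Y} (γ : Path x x) : fp γ.symm = (fp γ)⁻¹ := rfl
theorem fp_refl (x : Y) : fp (Path.refl x) = 1 := rfl
theorem fp_eq {x : Y} {γ γ' : Path x x} (h : γ.Homotopic γ') : fp γ = fp γ' :=
  Quotient.sound h
theorem homotopic_of_fp_eq {x : Y} {γ γ' : Path x x} (h : fp γ = fp γ') : γ.Homotopic γ' :=
  Quotient.exact h

/-- the loop of a periodic map belonging to the lattice vector `m` -/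
def segLoop (H : C(Fin n → ℝ, Y)) (hH : Per H) (m : Fin n → ℤ) : Path (H 0) (H 0) where
  toFun t := H (fun j => (t : ℝ) * m j)
  continuous_toFun := by fun_prop
  source' := by
    congr 1
    funext j
    simp
  target' := by
    rw [← hH 0 m]
    congr 1
    funext j
    simp

/-- every `n`-torus in `Y` has, for each prime `p`, a null-homotopic loop which is not divisible by `p` -/
def TorusProp (Y : Type) [TopologicalSpace Y] (n : ℕ) : Prop :=
  ∀ (H : C(Fin n → ℝ, Y)) (hH : Per H) (p : ℕ), p.Prime →
    ∃ m : Fin n → ℤ, (¬ ∀ j, (p : ℤ) ∣ m j) ∧ (segLoop H hH m).Homotopic (Path.refl _)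

end Torus

/-! ## Submanifolds of Euclidean space -/

section Geo
variable {V F : Type} [NormedAddCommGroup V] [InnerProductSpace ℝ V] [FiniteDimensional ℝ V]
  [NormedAddCommGroup F] [InnerProductSpace ℝ F] [FiniteDimensional ℝ F]

/-- `P = 0` is a local equation of `X` on the open set `W` -/
structure LocEq (X : Set V) (P : V → F) (W : Set V) : Prop where
  isOpen : IsOpen W
  smooth : ContDiff ℝ ∞ P
  surj : ∀ y ∈ W, Function.Surjective (fderiv ℝ P y)
  iff : ∀ y ∈ W, (y ∈ X ↔ P y = 0)

/-- index bound: every subspace of the tangent space on which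
`‖v‖² - ⟪μ, D²P(v,v)⟫` is `≤ 0` has dimension at most `l` -/
def IdxB (P : V → F) (y : V) (l : ℕ) : Prop :=
  ∀ (μ : F) (S : Submodule ℝ V),
    (∀ v ∈ S, fderiv ℝ P y v = 0 ∧ ‖v‖ ^ 2 ≤ ⟪μ, fderiv ℝ (fderiv ℝ P) y v v⟫_ℝ) →
    Module.finrank ℝ S ≤ l

/-- closed submanifold with index bound `l` -/
structure Nice (X : Set V) (F : Type) [NormedAddCommGroup F] [InnerProductSpace ℝ F]
    [FiniteDimensional ℝ F] (l : ℕ) : Prop where
  closed : IsClosed X
  loc : ∀ x ∈ X, ∃ (P : V → F) (W : Set V), x ∈ W ∧ LocEq X P W ∧ ∀ y ∈ W, y ∈ X → IdxB P y l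

/-- `y` is a nearest point of `X` to `u` -/
def IsNear (X : Set V) (u y : V) : Prop := y ∈ X ∧ ∀ z ∈ X, ‖u - y‖ ≤ ‖u - z‖

/-- the compact piece -/
def K0 (X : Set V) (p : V) (R : ℝ) : Set V := {x | x ∈ X ∧ ‖x - p‖ ≤ R}

/-- proximal steps for `‖x - p‖²` on `K0 X p R` -/
structure StepData (X : Set V) (p : V) (R : ℝ) where
  e : ℝ
  q : V → V
  e_pos : 0 < e
  e_lt : e < 1
  near : ∀ x ∈ K0 X p R, ∀ t ∈ Icc (0 : ℝ) 1,
    IsNear X (x + (t * e) • (p - x)) (q (x + (t * e) • (p - x)))
  lip : ∀ x ∈ K0 X p R, ∀ x' ∈ K0 X p R, ∀ t ∈ Icc (0 : ℝ) 1, ∀ t' ∈ Icc (0 : ℝ) 1,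
    ‖q (x + (t * e) • (p - x)) - q (x' + (t' * e) • (p - x'))‖
      ≤ 2 * ‖(x + (t * e) • (p - x)) - (x' + (t' * e) • (p - x'))‖

/-- the homotopy from the identity to `Ψ` -/
def StepData.Ψt {X : Set V} {p : V} {R : ℝ} (D : StepData X p R) (t : ℝ) (x : V) : V :=
  D.q (x + (t * D.e) • (p - x))

/-- the step -/
def StepData.Ψ {X : Set V} {p : V} {R : ℝ} (D : StepData X p R) (x : V) : V := D.Ψt 1 x

/-- the attractor -/
def attr {X : Set V} {p : V} {R : ℝ} (D : StepData X p R) : Set V :=
  ⋂ j : ℕ, D.Ψ^[j] '' K0 X p R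

/-- the fixed points of the step with parameter `e` are isolated -/
def IsoFix (X : Set V) (p : V) (e : ℝ) : Prop :=
  ∀ c ∈ X, IsNear X (c + e • (p - c)) c →
    ∃ ε > 0, ∀ y ∈ X, IsNear X (y + e • (p - y)) y → ‖y - c‖ < ε → y = c

end Geo

/-! ## Grid -/

section Grid
variable {V : Type} [NormedAddCommGroup V] [InnerProductSpace ℝ V] {D : ℕ}

/-- distance of the `j`-th coordinate of `y` to the grid `τ j + δ ℤ` -/
noncomputable def gd (b : OrthonormalBasis (Fin D) ℝ V) (δ : ℝ) (τ : Fin D → ℝ) (j : Fin D) (y : V) : ℝ :=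
  |(⟪b j, y⟫_ℝ - τ j) - δ * round ((⟪b j, y⟫_ℝ - τ j) / δ)|

/-- the coordinates in `J` are strictly closer to the grid than the others, the others are not on the grid -/
def VJ (b : OrthonormalBasis (Fin D) ℝ V) (δ : ℝ) (τ : Fin D → ℝ) (J : Finset (Fin D)) : Set V :=
  {y | (∀ i ∈ J, ∀ j ∉ J, gd b δ τ i y < gd b δ τ j y) ∧ ∀ j ∉ J, 0 < gd b δ τ j y}

/-- union of the `VJ` with `J` of cardinality `i` -/
def UI (b : OrthonormalBasis (Fin D) ℝ V) (δ : ℝ) (τ : Fin D → ℝ) (i : ℕ) : Set V :=
  {y | ∃ J : Finset (Fin D), J.card = i ∧ y ∈ VJ b δ τ J}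

/-- the coordinates of `y` on the grid -/
noncomputable def onGrid (b : OrthonormalBasis (Fin D) ℝ V) (δ : ℝ) (τ : Fin D → ℝ) (y : V) :
    Finset (Fin D) := by
  classical
  exact Finset.univ.filter (fun j => gd b δ τ j y = 0)

end Grid

/-! ## Polynomials -/

section Alg

/-- gradient of a polynomial -/
noncomputable def jac {N : ℕ} (f : MvPolynomial (Fin N) ℂ) (x : Fin N → ℂ) : Fin N → ℂ :=
  fun i => MvPolynomial.eval x (MvPolynomial.pderiv i f)

/-- the rank hypothesis of the problem -/
def RankHyp {N : ℕ} (l : ℕ) (X : Set (Fin N → ℂ)) : Prop :=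
  ∀ x ∈ X, Module.finrank ℂ
    (Submodule.span ℂ {v : Fin N → ℂ | ∃ f : MvPolynomial (Fin N) ℂ,
      (∀ y ∈ X, MvPolynomial.eval y f = 0) ∧ v = fun i => MvPolynomial.eval x (MvPolynomial.pderiv i f)})
    = N - l

/-- the polynomials of the problem -/
noncomputable def pol (k : ℕ) (a : Fin (k - 1) → ℂ) : Polynomial ℂ :=
  Polynomial.X ^ k + ∑ i : Fin (k - 1), Polynomial.C (a i) * Polynomial.X ^ (k - 2 - (i : ℕ))

end Alg

/-! ## Configurations -/

section Conf

/-- ordered configurations of `k` distinct points of the plane -/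
abbrev Conf (k : ℕ) := {q : Fin k → ℂ // Function.Injective q}

/-- relabelling -/
def Conf.perm {k : ℕ} (q : Conf k) (π : Equiv.Perm (Fin k)) : Conf k := ⟨q.1 ∘ π, q.2.comp π.injective⟩

/-- the standard configuration `0, 1, ..., k-1` -/
def std (k : ℕ) : Conf k := ⟨fun j => ((j : ℕ) : ℂ), fun a b h => by
  have h' : ((a : ℕ) : ℂ) = ((b : ℕ) : ℂ) := h
  exact Fin.ext (by exact_mod_cast h')⟩

/-- continuous symmetric maps of the configuration space -/
structure SymMap (k : ℕ) (Y : Type) [TopologicalSpace Y] where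
  toMap : C(Conf k, Y)
  symm : ∀ (q : Conf k) (π : Equiv.Perm (Fin k)), toMap (q.perm π) = toMap q

variable {k : ℕ} {Y : Type} [TopologicalSpace Y]

/-- the loop of `Y` of a path of configurations from `a` to a relabelling of `a` -/
noncomputable def lp (G : SymMap k Y) {a : Conf k} {π : Equiv.Perm (Fin k)} (γ : Path a (a.perm π)) :
    Path (G.toMap a) (G.toMap a) :=
  (γ.map G.toMap.continuous).cast rfl (G.symm a π).symm

/-- its class -/
noncomputable def cl (G : SymMap k Y) {a : Conf k} {π : Equiv.Perm (Fin k)} (γ : Path a (a.perm π)) :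
    FundamentalGroup Y (G.toMap a) :=
  fp (lp G γ)

/-- the relabelled path -/
noncomputable def permPath {a b : Conf k} (γ : Path a b) (π : Equiv.Perm (Fin k)) : Path (a.perm π) (b.perm π) where
  toFun t := (γ t).perm π
  continuous_toFun := by
    refine Continuous.subtype_mk ?_ _
    have h : Continuous (fun t => (γ t).1) := continuous_subtype_val.comp γ.continuous
    exact continuous_pi fun j => (continuous_apply (π j)).comp h
  source' := by simp
  target' := by simp

/-- position of the point `j` at time `t` in the half twist of the points `i`, `i+1`: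
`i` passes below `i+1` -/
noncomputable def twF (i j : ℕ) (t : ℝ) : ℂ :=
  if j = i then (i + 1 / 2 : ℂ) - (1 / 2) * Complex.exp (Real.pi * t * Complex.I)
  else if j = i + 1 then (i + 1 / 2 : ℂ) + (1 / 2) * Complex.exp (Real.pi * t * Complex.I)
  else (j : ℂ)

/-- configurations in which of two points on the same vertical line the one with the smaller label is below -/
def Below (k : ℕ) : Set (Conf k) :=
  {q | ∀ i j : Fin k, i < j → (q.1 i).re = (q.1 j).re → (q.1 i).im < (q.1 j).im}

/-- configurations whose points have strictly increasing real parts -/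
def Inc (k : ℕ) : Set (Conf k) := {q | StrictMono fun j => (q.1 j).re}

/-- the loop at `G std` of a path between configurations, closed up by paths `α`, `β` from `std` -/
noncomputable def vlp (G : SymMap k Y) {a b : Conf k} (γ : Path a b) {π ρ : Equiv.Perm (Fin k)}
    (α : Path (std k) (a.perm π)) (β : Path (std k) (b.perm ρ)) :
    Path (G.toMap (std k)) (G.toMap (std k)) :=
  ((α.map G.toMap.continuous).cast rfl (G.symm a π).symm).trans
    ((γ.map G.toMap.continuous).trans
      ((β.map G.toMap.continuous).cast rfl (G.symm b ρ).symm).symm)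

end Conf

end AF21
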