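import Pool.Agent.AF21.RealForm

/-!
# [AF21-EVD] Derivatives of polynomial maps in real coordinates

`realP Q` is smooth; its derivative is `D(y) v = (toC M).symm (i ↦ ∑ j, jac (Q i) (toC N y) j * toC N v j)`; and its
second derivative is
`D²(y) v w = (toC M).symm (i ↦ ∑ j, ∑ j', eval (toC N y) (∂_j' ∂_j Q_i) * (toC N v j') * (toC N w j))`.

Proof. `z ↦ eval z f` has the strict derivative `v ↦ ∑ j, jac f z j * v j` over `ℂ` on `Fin N → ℂ`
(`MvPolynomial.induction_on`: constants, sums, products with a variable; `MvPolynomial.pderiv_X`, Leibniz), and it is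
`ContDiff` (sum of products of coordinates). Restrict scalars to `ℝ`, compose with the continuous linear maps `toC N` and
`(toC M).symm`, coordinates by `hasStrictFDerivAt_pi`/`hasFDerivAt_pi`. So `fderiv ℝ (realP Q) y v` is the formula in
`realP_fderiv`. For the second derivative: `fderiv ℝ (fderiv ℝ P) y v w` is the derivative of `y ↦ fderiv ℝ P y w` at `y`
in the direction `v` (`fderiv_clm_apply`, or `(ContinuousLinearMap.apply ..)` composed; `fderiv ℝ P` is
differentiable as `P` is smooth); for fixed `w` this is the function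
`y ↦ (toC M).symm (i ↦ ∑ j, eval (toC N y) (pderiv j (Q i)) * toC N w j)`, differentiate again by the same rule.
-/

set_option autoImplicit false

open Set Topology
open scoped ContDiff InnerProductSpace

namespace AF21

private lemma evd_contDiff {N : ℕ} (f : MvPolynomial (Fin N) ℂ) :
    ContDiff ℝ ∞ (fun y : EV N => MvPolynomial.eval (toC N y) f) := by
  induction f using MvPolynomial.induction_on with
  | C a =>
    simp only [MvPolynomial.eval_C]
    exact contDiff_const
  | add p q hp hq =>
    simp only [map_add]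
    exact hp.add hq
  | mul_X p i hp =>
    simp only [map_mul, MvPolynomial.eval_X]
    refine hp.mul ?_
    exact ((ContinuousLinearMap.proj (R := ℝ) (φ := fun _ : Fin N => ℂ) i).contDiff).comp
      (toC N).contDiff

/-- the derivative of a polynomial in real coordinates -/
private noncomputable def evdL {N : ℕ} (f : MvPolynomial (Fin N) ℂ) (y : EV N) : EV N →L[ℝ] ℂ :=
  ∑ j, jac f (toC N y) j •
    ((ContinuousLinearMap.proj (R := ℝ) (φ := fun _ : Fin N => ℂ) j).comp
      ((toC N : EV N ≃L[ℝ] (Fin N → ℂ)) : EV N →L[ℝ] (Fin N → ℂ)))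

private lemma evdL_apply {N : ℕ} (f : MvPolynomial (Fin N) ℂ) (y v : EV N) :
    evdL f y v = ∑ j, jac f (toC N y) j * toC N v j := by
  unfold evdL
  rw [_root_.sum_apply]
  rfl

private lemma evd_hasFDerivAt {N : ℕ} (f : MvPolynomial (Fin N) ℂ) (y : EV N) :
    HasFDerivAt (fun y : EV N => MvPolynomial.eval (toC N y) f) (evdL f y) y := by
  induction f using MvPolynomial.induction_on with
  | C a =>
    simp only [MvPolynomial.eval_C]
    refine (hasFDerivAt_const a y).congr_fderiv ?_
    ext v
    rw [evdL_apply]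
    simp [jac]
  | add p q hp hq =>
    simp only [map_add]
    refine (hp.add hq).congr_fderiv ?_
    ext v
    rw [add_apply, evdL_apply, evdL_apply, evdL_apply, ← Finset.sum_add_distrib]
    refine Finset.sum_congr rfl fun j _ => ?_
    simp only [jac, map_add]
    ring
  | mul_X p i hp =>
    simp only [map_mul, MvPolynomial.eval_X]
    have hX : HasFDerivAt (fun y : EV N => toC N y i)
        ((ContinuousLinearMap.proj (R := ℝ) (φ := fun _ : Fin N => ℂ) i).comp
          ((toC N : EV N ≃L[ℝ] (Fin N → ℂ)) : EV N →L[ℝ] (Fin N → ℂ))) y :=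
      ((ContinuousLinearMap.proj (R := ℝ) (φ := fun _ : Fin N => ℂ) i).comp
          ((toC N : EV N ≃L[ℝ] (Fin N → ℂ)) : EV N →L[ℝ] (Fin N → ℂ))).hasFDerivAt
    refine (hp.mul hX).congr_fderiv ?_
    ext v
    have hl : ∀ j, jac (p * MvPolynomial.X i) (toC N y) j * toC N v j
        = MvPolynomial.eval (toC N y) p * ((if j = i then 1 else 0) * toC N v j)
          + toC N y i * (jac p (toC N y) j * toC N v j) := by
      intro j
      have h1 : MvPolynomial.pderiv j (MvPolynomial.X i : MvPolynomial (Fin N) ℂ)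
          = if j = i then 1 else 0 := by
        rw [MvPolynomial.pderiv_X]
        by_cases h : j = i
        · subst h; simp
        · simp [h, Ne.symm h]
      simp only [jac, Derivation.leibniz, smul_eq_mul, map_add, map_mul, MvPolynomial.eval_X, h1]
      split_ifs <;> simp <;> ring
    rw [evdL_apply, Finset.sum_congr rfl (fun j _ => hl j), Finset.sum_add_distrib,
      ← Finset.mul_sum, ← Finset.mul_sum, ← evdL_apply]
    simp

theorem realP_contDiff {N M : ℕ} (Q : Fin M → MvPolynomial (Fin N) ℂ) : ContDiff ℝ ∞ (realP Q) := by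
  unfold realP
  exact (toC M).symm.contDiff.comp (contDiff_pi.2 fun i => evd_contDiff (Q i))

private lemma evd_realP_hasFDerivAt {N M : ℕ} (Q : Fin M → MvPolynomial (Fin N) ℂ) (y : EV N) :
    HasFDerivAt (realP Q) ((((toC M).symm : (Fin M → ℂ) ≃L[ℝ] EV M) : (Fin M → ℂ) →L[ℝ] EV M).comp
      (ContinuousLinearMap.pi fun i => evdL (Q i) y)) y := by
  have h : HasFDerivAt (fun y : EV N => fun i => MvPolynomial.eval (toC N y) (Q i))
      (ContinuousLinearMap.pi fun i => evdL (Q i) y) y :=
    hasFDerivAt_pi.2 fun i => evd_hasFDerivAt (Q i) y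
  exact ((toC M).symm : (Fin M → ℂ) ≃L[ℝ] EV M).hasFDerivAt.comp y h

theorem realP_fderiv {N M : ℕ} (Q : Fin M → MvPolynomial (Fin N) ℂ) (y v : EV N) :
    fderiv ℝ (realP Q) y v = (toC M).symm (fun i => ∑ j, jac (Q i) (toC N y) j * toC N v j) := by
  rw [(evd_realP_hasFDerivAt Q y).fderiv]
  rw [ContinuousLinearMap.comp_apply]
  have h : (ContinuousLinearMap.pi fun i => evdL (Q i) y) v
      = fun i => ∑ j, jac (Q i) (toC N y) j * toC N v j := by
    funext i
    rw [ContinuousLinearMap.pi_apply, evdL_apply]
  rw [h]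
  rfl

theorem realP_fderiv2 {N M : ℕ} (Q : Fin M → MvPolynomial (Fin N) ℂ) (y v w : EV N) :
    fderiv ℝ (fderiv ℝ (realP Q)) y v w = (toC M).symm (fun i => ∑ j, ∑ j',
      MvPolynomial.eval (toC N y) (MvPolynomial.pderiv j' (MvPolynomial.pderiv j (Q i))) * toC N v j' * toC N w j) := by
  have hd : DifferentiableAt ℝ (fderiv ℝ (realP Q)) y :=
    ((realP_contDiff Q).fderiv_right (m := ∞) (by simp)).differentiable (by simp) y
  have h1 : fderiv ℝ (fun z => fderiv ℝ (realP Q) z w) y v
      = fderiv ℝ (fderiv ℝ (realP Q)) y v w := by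
    have h := hd.hasFDerivAt.clm_apply (hasFDerivAt_const w y)
    rw [h.fderiv]
    simp
  rw [← h1]
  have h2 : (fun z => fderiv ℝ (realP Q) z w)
      = realP (fun i => ∑ j, MvPolynomial.C (toC N w j) * MvPolynomial.pderiv j (Q i)) := by
    funext z
    rw [realP_fderiv, realP]
    congr 1
    funext i
    rw [map_sum]
    refine Finset.sum_congr rfl fun j _ => ?_
    rw [map_mul, MvPolynomial.eval_C, jac, mul_comm]
  rw [h2, realP_fderiv]
  congr 1
  funext i
  have h3 : ∀ j', jac (∑ j, MvPolynomial.C (toC N w j) * MvPolynomial.pderiv j (Q i)) (toC N y) j'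
        * toC N v j'
      = ∑ j, MvPolynomial.eval (toC N y) (MvPolynomial.pderiv j' (MvPolynomial.pderiv j (Q i)))
        * toC N v j' * toC N w j := by
    intro j'
    simp only [jac, map_sum, Finset.sum_mul]
    refine Finset.sum_congr rfl fun j _ => ?_
    rw [Derivation.leibniz]
    simp only [MvPolynomial.pderiv_C, smul_eq_mul, mul_zero, add_zero, map_mul,
      MvPolynomial.eval_C]
    ring
  rw [Finset.sum_congr rfl (fun j' _ => h3 j'), Finset.sum_comm]

end AF21
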