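import Pool.Agent.AF21.Defs

/-!
# [AF21-ROOTS] Lifting paths of polynomials to paths of roots

`root_near` (continuity of roots, elementary): if a monic polynomial splits, `P = ∏_j (X - C (r j))`, then some `r j` satisfies
`‖r j - z‖ ^ k ≤ ‖P(z)‖` (the product of the `k` numbers `‖z - r j‖` is `‖P(z)‖`).

`roots_lift`. All `pol k (a t)` are monic of degree `k` and split over `ℂ` with distinct roots (`IsAlgClosed.splits`, separable).
Local statement (L): for `t₀ ∈ [0,1]` and `q₀ : Conf k` with `pol k (a t₀) = ∏ (X - C (q₀ j))` there is an open neighbourhood `N` of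
`t₀` in `[0,1]` and `ρ : N → Conf k` continuous with `ρ t₀ = q₀` and `pol k (a t) = ∏ (X - C (ρ t j))`. Proof: let `ε > 0` be less than a
third of the smallest distance of two points of `q₀`. `pol k (a t) (q₀ j) → pol k (a t₀) (q₀ j) = 0` for `t → t₀`, so for `t` near `t₀` every
disc `D(q₀ j, ε)` contains a root of `pol k (a t)` (`root_near`); the `k` discs are disjoint and there are only `k` roots, so every disc
contains exactly one root; call it `ρ t j`. `ρ t` is injective, and `∏ (X - C (ρ t j))` is the polynomial. Continuity at `t₁ ∈ N`: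
for `t` near `t₁` there is a root of `pol k (a t)` close to `ρ t₁ j` (same estimate at `t₁`), it lies in `D(q₀ j, ε)`, so it is `ρ t j`.
Globally: cover `[0,1]` by finitely many intervals on which (L) gives a lift for one ordering, hence (by relabelling) with any
prescribed ordering at the left end point, and glue.
-/

set_option autoImplicit false

open Set Topology

namespace AF21

theorem root_near {k : ℕ} (r : Fin k → ℂ) (hk : 0 < k) (z : ℂ) :
    ∃ j, ‖r j - z‖ ^ k ≤ ‖(∏ j, (Polynomial.X - Polynomial.C (r j))).eval z‖ := by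
  have hne : (Finset.univ : Finset (Fin k)).Nonempty := ⟨⟨0, hk⟩, Finset.mem_univ _⟩
  obtain ⟨j, _, hj⟩ := Finset.exists_min_image Finset.univ (fun i => ‖r i - z‖) hne
  refine ⟨j, ?_⟩
  rw [Polynomial.eval_prod, norm_prod]
  have h1 : ‖r j - z‖ ^ k = ∏ _i : Fin k, ‖r j - z‖ := by
    rw [Finset.prod_const, Finset.card_univ, Fintype.card_fin]
  rw [h1]
  refine Finset.prod_le_prod (fun _ _ => norm_nonneg _) fun i _ => ?_
  rw [Polynomial.eval_sub, Polynomial.eval_X, Polynomial.eval_C, norm_sub_rev z (r i)]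
  exact hj i (Finset.mem_univ _)

/-! ### orderings of the roots -/

private theorem deg_lower (k : ℕ) (a : Fin (k - 1) → ℂ) (hk : 0 < k) :
    (∑ i : Fin (k - 1), Polynomial.C (a i) * Polynomial.X ^ (k - 2 - (i : ℕ))).degree < ((k : ℕ) : WithBot ℕ) := by
  rw [← Polynomial.mem_degreeLT]
  refine Submodule.sum_mem _ fun i _ => ?_
  rw [Polynomial.mem_degreeLT]
  refine (Polynomial.degree_C_mul_X_pow_le _ _).trans_lt ?_
  have := i.isLt
  exact_mod_cast (show k - 2 - (i : ℕ) < k by omega)

private theorem pol_monic (k : ℕ) (a : Fin (k - 1) → ℂ) :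
    (pol k a).Monic ∧ (pol k a).natDegree = k := by
  rcases Nat.eq_zero_or_pos k with rfl | hk
  · have : pol 0 a = 1 := by
      unfold pol
      rw [pow_zero]
      have : ∑ i : Fin (0 - 1), Polynomial.C (a i) * Polynomial.X ^ (0 - 2 - (i : ℕ)) = 0 := by
        refine Finset.sum_eq_zero fun i _ => ?_
        exact i.elim0
      rw [this, add_zero]
    rw [this]
    exact ⟨Polynomial.monic_one, Polynomial.natDegree_one⟩
  · have h := deg_lower k a hk
    have hm : (pol k a).Monic := Polynomial.monic_X_pow_add h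
    refine ⟨hm, ?_⟩
    unfold pol
    rw [Polynomial.natDegree_add_eq_left_of_degree_lt, Polynomial.natDegree_X_pow]
    rw [Polynomial.degree_X_pow]
    exact h

private theorem exists_ordering (k : ℕ) (a : Fin (k - 1) → ℂ) :
    ∃ r : Fin k → ℂ, pol k a = ∏ j, (Polynomial.X - Polynomial.C (r j)) := by
  obtain ⟨hm, hd⟩ := pol_monic k a
  have hs : (pol k a).Splits := IsAlgClosed.splits _
  have hcard : (pol k a).roots.card = (pol k a).natDegree := (hs.natDegree_eq_card_roots).symm
  have hprod := Polynomial.prod_multiset_X_sub_C_of_monic_of_roots_card_eq hm hcard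
  obtain ⟨L, hL⟩ : ∃ L : List ℂ, (L : Multiset ℂ) = (pol k a).roots :=
    ⟨_, Multiset.coe_toList _⟩
  rw [← hL, Multiset.map_coe, Multiset.prod_coe] at hprod
  rw [← hL, Multiset.coe_card, hd] at hcard
  subst hcard
  refine ⟨fun j => L[(j : ℕ)], ?_⟩
  rw [← List.prod_ofFn, ← hprod]
  congr 1
  apply List.ext_getElem
  · rw [List.length_map, List.length_ofFn]
  · intro i h1 h2
    rw [List.getElem_map, List.getElem_ofFn]

private theorem inj_of {k : ℕ} {P : Polynomial ℂ} (hP : P.Separable) {r : Fin k → ℂ}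
    (h : P = ∏ j, (Polynomial.X - Polynomial.C (r j))) : Function.Injective r := by
  rw [h] at hP
  exact Polynomial.separable_prod_X_sub_C_iff.1 hP

private theorem root_mem {k : ℕ} {P : Polynomial ℂ} {r : Fin k → ℂ}
    (h : P = ∏ j, (Polynomial.X - Polynomial.C (r j))) (z : ℂ) :
    P.eval z = 0 ↔ ∃ j, r j = z := by
  rw [h, Polynomial.eval_prod, Finset.prod_eq_zero_iff]
  constructor
  · rintro ⟨j, _, hj⟩
    rw [Polynomial.eval_sub, Polynomial.eval_X, Polynomial.eval_C, sub_eq_zero] at hj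
    exact ⟨j, hj.symm⟩
  · rintro ⟨j, rfl⟩
    refine ⟨j, Finset.mem_univ _, ?_⟩
    rw [Polynomial.eval_sub, Polynomial.eval_X, Polynomial.eval_C, sub_self]

private theorem perm_of {k : ℕ} {P : Polynomial ℂ} (hP : P.Separable) {r r' : Fin k → ℂ}
    (h : P = ∏ j, (Polynomial.X - Polynomial.C (r j)))
    (h' : P = ∏ j, (Polynomial.X - Polynomial.C (r' j))) :
    ∃ π : Equiv.Perm (Fin k), ∀ j, r' (π j) = r j := by
  have h1 : ∀ j, ∃ i, r' i = r j := fun j => (root_mem h' (r j)).1 ((root_mem h (r j)).2 ⟨j, rfl⟩)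
  choose f hf using h1
  have hinj : Function.Injective f := by
    intro x y hxy
    apply inj_of hP h
    rw [← hf x, ← hf y, hxy]
  exact ⟨Equiv.ofBijective f (Finite.injective_iff_bijective.1 hinj), hf⟩

private theorem relabel {k : ℕ} {P : Polynomial ℂ} {r : Fin k → ℂ}
    (h : P = ∏ j, (Polynomial.X - Polynomial.C (r j))) (π : Equiv.Perm (Fin k)) :
    P = ∏ j, (Polynomial.X - Polynomial.C (r (π j))) := by
  rw [h]
  exact (Equiv.prod_comp π fun j => Polynomial.X - Polynomial.C (r j)).symm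

private theorem eval_cont {k : ℕ} (a : C(unitInterval, Fin (k - 1) → ℂ)) (z : ℂ) :
    Continuous fun t => (pol k (a t)).eval z := by
  unfold pol
  simp only [Polynomial.eval_add, Polynomial.eval_pow, Polynomial.eval_X,
    Polynomial.eval_finsetSum, Polynomial.eval_mul, Polynomial.eval_C]
  refine continuous_const.add (continuous_finsetSum _ fun i _ => ?_)
  exact ((continuous_apply i).comp a.continuous).mul continuous_const

private theorem exists_eps {k : ℕ} (r : Fin k → ℂ) (hr : Function.Injective r) :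
    ∃ ε > 0, ∀ i j, i ≠ j → 2 * ε < ‖r i - r j‖ := by
  classical
  set S : Finset (Fin k × Fin k) := Finset.univ.filter fun x => x.1 ≠ x.2 with hS
  by_cases hne : S.Nonempty
  · obtain ⟨x, hx, hmin⟩ := Finset.exists_min_image S (fun x => ‖r x.1 - r x.2‖) hne
    have hx' : x.1 ≠ x.2 := (Finset.mem_filter.1 hx).2
    have hpos : 0 < ‖r x.1 - r x.2‖ := norm_pos_iff.2 (sub_ne_zero.2 fun h => hx' (hr h))
    refine ⟨‖r x.1 - r x.2‖ / 3, by positivity, fun i j hij => ?_⟩
    have := hmin (i, j) (Finset.mem_filter.2 ⟨Finset.mem_univ _, hij⟩)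
    dsimp only at this
    linarith
  · refine ⟨1, one_pos, fun i j hij => ?_⟩
    exact absurd ⟨(i, j), Finset.mem_filter.2 ⟨Finset.mem_univ _, hij⟩⟩ hne

/-- the local statement -/
private theorem loc_lift {k : ℕ} (a : C(unitInterval, Fin (k - 1) → ℂ))
    (ha : ∀ t, (pol k (a t)).Separable) (t0 : unitInterval) :
    ∃ (N : Set unitInterval) (ρ : unitInterval → Fin k → ℂ), IsOpen N ∧ t0 ∈ N ∧
      ContinuousOn ρ N ∧ ∀ t ∈ N, pol k (a t) = ∏ j, (Polynomial.X - Polynomial.C (ρ t j)) := by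
  classical
  obtain ⟨q0, hq0⟩ := exists_ordering k (a t0)
  have hinj := inj_of (ha t0) hq0
  obtain ⟨ε, hε, hsep⟩ := exists_eps q0 hinj
  set N : Set unitInterval := {t | ∀ j : Fin k, ‖(pol k (a t)).eval (q0 j)‖ < ε ^ k} with hN
  have hNo : IsOpen N := by
    have : N = ⋂ j : Fin k, {t | ‖(pol k (a t)).eval (q0 j)‖ < ε ^ k} := by
      ext t
      simp [hN]
    rw [this]
    refine isOpen_iInter_of_finite fun j => ?_
    exact isOpen_lt (eval_cont a (q0 j)).norm continuous_const
  have hN0 : t0 ∈ N := by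
    intro j
    rw [(root_mem hq0 (q0 j)).2 ⟨j, rfl⟩, norm_zero]
    positivity
  -- the ordering close to `q0`
  have hex : ∀ t ∈ N, ∃ r : Fin k → ℂ,
      pol k (a t) = ∏ j, (Polynomial.X - Polynomial.C (r j)) ∧ ∀ j, ‖r j - q0 j‖ < ε := by
    intro t ht
    obtain ⟨r, hr⟩ := exists_ordering k (a t)
    have h1 : ∀ j : Fin k, ∃ i, ‖r i - q0 j‖ < ε := by
      intro j
      have hk : 0 < k := j.pos
      obtain ⟨i, hi⟩ := root_near r hk (q0 j)
      rw [← hr] at hi
      refine ⟨i, ?_⟩
      have h2 := hi.trans_lt (ht j)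
      exact lt_of_pow_lt_pow_left₀ k hε.le h2
    choose σ hσ using h1
    have hσi : Function.Injective σ := by
      intro i j hij
      by_contra hne
      have h2 := hsep i j hne
      have h3 := hσ i
      have h4 := hσ j
      rw [← hij] at h4
      have h5 : ‖q0 i - q0 j‖ ≤ ‖r (σ i) - q0 j‖ + ‖r (σ i) - q0 i‖ := by
        have e : q0 i - q0 j = (r (σ i) - q0 j) - (r (σ i) - q0 i) := by ring
        rw [e]
        exact norm_sub_le _ _
      linarith
    refine ⟨r ∘ σ, ?_, hσ⟩
    exact relabel hr (Equiv.ofBijective σ (Finite.injective_iff_bijective.1 hσi))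
  set ρ : unitInterval → Fin k → ℂ := fun t => if h : t ∈ N then (hex t h).choose else q0 with hρ
  have hρ1 : ∀ t (ht : t ∈ N), pol k (a t) = ∏ j, (Polynomial.X - Polynomial.C (ρ t j)) ∧
      ∀ j, ‖ρ t j - q0 j‖ < ε := by
    intro t ht
    have h1 : ρ t = (hex t ht).choose := by
      simp only [hρ]
      rw [dif_pos ht]
    rw [h1]
    exact (hex t ht).choose_spec
  -- a root close to `q0 j` is `ρ t j`
  have huniq : ∀ t (_ : t ∈ N) (j : Fin k) (z : ℂ), (pol k (a t)).eval z = 0 → ‖z - q0 j‖ < ε →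
      z = ρ t j := by
    intro t ht j z hz hzj
    obtain ⟨i, hi⟩ := (root_mem (hρ1 t ht).1 z).1 hz
    by_cases hij : i = j
    · rw [← hij, hi]
    · exfalso
      have h2 := hsep i j hij
      have h3 := (hρ1 t ht).2 i
      rw [hi] at h3
      have h5 : ‖q0 i - q0 j‖ ≤ ‖z - q0 j‖ + ‖z - q0 i‖ := by
        have e : q0 i - q0 j = (z - q0 j) - (z - q0 i) := by ring
        rw [e]
        exact norm_sub_le _ _
      linarith
  refine ⟨N, ρ, hNo, hN0, ?_, fun t ht => (hρ1 t ht).1⟩
  refine continuousOn_pi.2 fun j => ?_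
  intro t1 ht1
  refine ContinuousAt.continuousWithinAt ?_
  rw [Metric.continuousAt_iff']
  intro η hη
  have hk : 0 < k := j.pos
  set η' : ℝ := min η (ε - ‖ρ t1 j - q0 j‖) with hη'
  have hη'0 : 0 < η' := lt_min hη (sub_pos.2 ((hρ1 t1 ht1).2 j))
  have h1 : ∀ᶠ t in 𝓝 t1, ‖(pol k (a t)).eval (ρ t1 j)‖ < η' ^ k := by
    have hc : ContinuousAt (fun t => ‖(pol k (a t)).eval (ρ t1 j)‖) t1 :=
      (eval_cont a (ρ t1 j)).norm.continuousAt
    refine hc.eventually_lt_const ?_
    change ‖Polynomial.eval (ρ t1 j) (pol k (a t1))‖ < η' ^ k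
    rw [(root_mem (hρ1 t1 ht1).1 (ρ t1 j)).2 ⟨j, rfl⟩, norm_zero]
    positivity
  filter_upwards [h1, hNo.mem_nhds ht1] with t h2 h3
  obtain ⟨i, hi⟩ := root_near (ρ t) hk (ρ t1 j)
  rw [← (hρ1 t h3).1] at hi
  have h4 : ‖ρ t i - ρ t1 j‖ < η' := lt_of_pow_lt_pow_left₀ k hη'0.le (hi.trans_lt h2)
  have h5 : ‖ρ t i - q0 j‖ < ε := by
    have e : ρ t i - q0 j = (ρ t i - ρ t1 j) + (ρ t1 j - q0 j) := by ring
    rw [e]
    have h6 := norm_add_le (ρ t i - ρ t1 j) (ρ t1 j - q0 j)
    have h7 : η' ≤ ε - ‖ρ t1 j - q0 j‖ := min_le_right _ _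
    linarith
  have h6 := huniq t h3 j (ρ t i) ((root_mem (hρ1 t h3).1 _).2 ⟨i, rfl⟩) h5
  rw [dist_eq_norm, ← h6]
  exact h4.trans_le (min_le_left _ _)

theorem roots_lift {k : ℕ} (a : C(unitInterval, Fin (k - 1) → ℂ)) (ha : ∀ t, (pol k (a t)).Separable)
    (q0 : Conf k) (h0 : pol k (a 0) = ∏ j, (Polynomial.X - Polynomial.C (q0.1 j))) :
    ∃ q : C(unitInterval, Conf k), q 0 = q0 ∧
      ∀ t, pol k (a t) = ∏ j, (Polynomial.X - Polynomial.C ((q t).1 j)) := by
  classical
  choose N ρ hNo hN0 hρc hρ using loc_lift a ha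
  obtain ⟨t, ht0, htm, ⟨M, hM⟩, hcov⟩ := exists_monotone_Icc_subset_open_cover_unitInterval
    (c := N) hNo (fun s _ => mem_iUnion.2 ⟨s, hN0 s⟩)
  have key : ∀ m : ℕ, ∃ f : unitInterval → Fin k → ℂ, ContinuousOn f (Icc 0 (t m)) ∧
      f 0 = q0.1 ∧ ∀ s ∈ Icc 0 (t m), pol k (a s) = ∏ j, (Polynomial.X - Polynomial.C (f s j)) := by
    intro m
    induction m with
    | zero =>
      refine ⟨fun _ => q0.1, continuousOn_const, rfl, fun s hs => ?_⟩
      rw [ht0] at hs
      have : s = 0 := le_antisymm hs.2 hs.1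
      rw [this]
      exact h0
    | succ m ih =>
      obtain ⟨f, hfc, hf0, hf⟩ := ih
      obtain ⟨i, hi⟩ := hcov m
      have hmm : t m ≤ t (m + 1) := htm (Nat.le_succ m)
      have hm0 : (0 : unitInterval) ≤ t m := unitInterval.nonneg'
      have hmN : t m ∈ N i := hi ⟨le_refl _, hmm⟩
      obtain ⟨π, hπ⟩ := perm_of (ha (t m)) (hf (t m) ⟨hm0, le_refl _⟩) (hρ i (t m) hmN)
      set f' : unitInterval → Fin k → ℂ := fun s => if s ≤ t m then f s else fun j => ρ i s (π j)
        with hf'
      have hl : ∀ s ∈ Icc 0 (t m), f' s = f s := by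
        intro s hs
        simp only [hf']
        rw [if_pos hs.2]
      have hr : ∀ s ∈ Icc (t m) (t (m + 1)), f' s = fun j => ρ i s (π j) := by
        intro s hs
        simp only [hf']
        by_cases h : s ≤ t m
        · have hst : s = t m := le_antisymm h hs.1
          rw [if_pos h, hst]
          funext j
          exact (hπ j).symm
        · rw [if_neg h]
      have hU : Icc (0 : unitInterval) (t m) ∪ Icc (t m) (t (m + 1)) = Icc 0 (t (m + 1)) :=
        Icc_union_Icc_eq_Icc hm0 hmm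
      refine ⟨f', ?_, ?_, ?_⟩
      · rw [← hU]
        refine ContinuousOn.union_of_isClosed ?_ ?_ isClosed_Icc isClosed_Icc
        · exact hfc.congr hl
        · refine ContinuousOn.congr ?_ hr
          refine continuousOn_pi.2 fun j => ?_
          exact ((continuousOn_pi.1 (hρc i)) (π j)).mono hi
      · rw [hl 0 ⟨le_refl _, hm0⟩, hf0]
      · intro s hs
        rw [← hU] at hs
        rcases hs with hs | hs
        · rw [hl s hs]
          exact hf s hs
        · rw [hr s hs]
          exact relabel (hρ i s (hi hs)) π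
  obtain ⟨f, hfc, hf0, hf⟩ := key M
  rw [hM M (le_refl _)] at hfc hf
  have huniv : Icc (0 : unitInterval) 1 = univ := by
    ext s
    simp only [mem_Icc, mem_univ, iff_true]
    exact ⟨unitInterval.nonneg', unitInterval.le_one'⟩
  rw [huniv] at hfc hf
  have hfc' : Continuous f := continuousOn_univ.1 hfc
  refine ⟨⟨fun s => ⟨f s, inj_of (ha s) (hf s (mem_univ s))⟩, hfc'.subtype_mk _⟩, ?_, ?_⟩
  · exact Subtype.ext hf0
  · intro s
    exact hf s (mem_univ s)

end AF21
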