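import Pool.Agent.AF21.EvalDeriv

/-!
# [AF21-IDX] Real local equations and the index bound

`locEq_real`: from the complex equations. `isOpen`: preimage. `smooth`: `realP_contDiff`. `surj`: the linear map
`v ↦ (∑ j, jac (Q i) y j * v j)_i` from `Fin N → ℂ` to `Fin M → ℂ` is surjective as the rows are linearly independent
(`Matrix`: rank = M; or `LinearMap.range_eq_top` by duality), compose with `toC`. `iff`: `realP Q y = 0` iff all
`eval (toC N y) (Q i) = 0` (`toC M` is a linear equivalence).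

`idxB_real`: let `J : EV N → EV N`, `J v = (toC N).symm (Complex.I • toC N v)`, an `ℝ`-linear isometry
(`‖J v‖ = ‖v‖`: norms squared are sums of squares of the coordinates, `EuclideanSpace.norm_eq`), `J (J v) = -v`. By the
formulas of `EvalDeriv` `D(Jv) = 0 ↔ D v = 0` (as `D(Jv)` is `I` times `D v`) and `D²(Jv, Jv) = - D²(v, v)` (`I * I = -1`). Let `S`
be as in `IdxB`. If `v = J w`, `v, w ∈ S`, then `‖w‖² ≤ ⟪μ, D²(w,w)⟫` and `‖v‖² ≤ ⟪μ, D²(Jw,Jw)⟫ = -⟪μ, D²(w,w)⟫`, so
`‖v‖² + ‖w‖² ≤ 0`, `v = 0`. So `S ⊓ J S = ⊥`, and both are contained in `T = ker D`, `finrank T = 2N - 2M = 2l`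
(surjectivity, rank-nullity, `finrank (EV N) = 2N`), so `2 finrank S = finrank S + finrank (J S) ≤ 2 l`
(`Submodule.finrank_add_finrank_le_of_disjoint` or `finrank_sup_add_finrank_inf_eq`, `LinearEquiv.finrank_map_eq`).
-/

set_option autoImplicit false

open Set Topology
open scoped ContDiff InnerProductSpace

namespace AF21

/-- linearly independent rows give a surjective linear map -/
theorem rows_surj {N M : ℕ} (A : Fin M → Fin N → ℂ) (h : LinearIndependent ℂ A) (w : Fin M → ℂ) :
    ∃ v : Fin N → ℂ, ∀ i, ∑ j, A i j * v j = w i := by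
  have h1 : (Matrix.of A).rank = Fintype.card (Fin M) :=
    LinearIndependent.rank_matrix (M := Matrix.of A) h
  have h2 : LinearMap.range (Matrix.mulVecLin (Matrix.of A)) = ⊤ := by
    apply Submodule.eq_top_of_finrank_eq
    rw [Module.finrank_fintype_fun_eq_card, ← h1]
    rfl
  obtain ⟨v, hv⟩ := LinearMap.range_eq_top.1 h2 w
  refine ⟨v, fun i => ?_⟩
  rw [← hv]
  rfl

theorem realP_surj {N M : ℕ} (Q : Fin M → MvPolynomial (Fin N) ℂ) (y : EV N)
    (hli : LinearIndependent ℂ (fun i => jac (Q i) (toC N y))) :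
    Function.Surjective (fderiv ℝ (realP Q) y) := by
  intro w
  obtain ⟨v, hv⟩ := rows_surj _ hli (toC M w)
  refine ⟨(toC N).symm v, ?_⟩
  rw [realP_fderiv]
  apply (toC M).injective
  rw [ContinuousLinearEquiv.apply_symm_apply, ContinuousLinearEquiv.apply_symm_apply]
  funext i
  exact hv i

theorem realP_eq_zero {N M : ℕ} (Q : Fin M → MvPolynomial (Fin N) ℂ) (y : EV N) :
    realP Q y = 0 ↔ ∀ i, MvPolynomial.eval (toC N y) (Q i) = 0 := by
  constructor
  · intro h i
    have h1 := congrArg (toC M) h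
    rw [realP, ContinuousLinearEquiv.apply_symm_apply, map_zero] at h1
    exact congrFun h1 i
  · intro h
    rw [realP]
    have h1 : (fun i => MvPolynomial.eval (toC N y) (Q i)) = 0 := funext h
    rw [h1, map_zero]

theorem locEq_real {N M : ℕ} {X : Set (Fin N → ℂ)} (Q : Fin M → MvPolynomial (Fin N) ℂ)
    {W : Set (Fin N → ℂ)} (hW : IsOpen W)
    (hli : ∀ y ∈ W, LinearIndependent ℂ (fun i => jac (Q i) y))
    (hiff : ∀ y ∈ W, (y ∈ X ↔ ∀ i, MvPolynomial.eval y (Q i) = 0)) :
    LocEq (toC N ⁻¹' X) (realP Q) (toC N ⁻¹' W) where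
  isOpen := hW.preimage (toC N).continuous
  smooth := realP_contDiff Q
  surj := fun y hy => realP_surj Q y (hli _ hy)
  iff := fun y hy => by
    rw [realP_eq_zero]
    exact hiff _ hy

/-- the complex structure -/
noncomputable def JJ (N : ℕ) : EV N ≃ₗ[ℝ] EV N :=
  (toC N).toLinearEquiv.trans
    (((LinearEquiv.smulOfNeZero ℂ (Fin N → ℂ) Complex.I Complex.I_ne_zero).restrictScalars ℝ).trans
      (toC N).symm.toLinearEquiv)

theorem toC_JJ (N : ℕ) (v : EV N) : toC N (JJ N v) = Complex.I • toC N v := by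
  simp [JJ]

theorem norm_sq_toC (N : ℕ) (v : EV N) : ‖v‖ ^ 2 = ∑ j, ‖toC N v j‖ ^ 2 := by
  rw [EuclideanSpace.real_norm_sq_eq, Fintype.sum_sum_type, ← Finset.sum_add_distrib]
  apply Finset.sum_congr rfl
  intro j _
  rw [toC_apply, ← Complex.normSq_eq_norm_sq, Complex.normSq_mk]
  ring

theorem norm_sq_JJ (N : ℕ) (v : EV N) : ‖JJ N v‖ ^ 2 = ‖v‖ ^ 2 := by
  rw [norm_sq_toC, norm_sq_toC, toC_JJ]
  simp

theorem fderiv_JJ {N M : ℕ} (Q : Fin M → MvPolynomial (Fin N) ℂ) (y v : EV N)
    (h : fderiv ℝ (realP Q) y v = 0) : fderiv ℝ (realP Q) y (JJ N v) = 0 := by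
  rw [realP_fderiv] at h ⊢
  rw [toC_JJ]
  have h1 : (fun i => ∑ j, jac (Q i) (toC N y) j * toC N v j) = 0 := by
    have := congrArg (toC M) h
    rwa [ContinuousLinearEquiv.apply_symm_apply, map_zero] at this
  have h2 : (fun i => ∑ j, jac (Q i) (toC N y) j * (Complex.I • toC N v) j)
      = Complex.I • (fun i => ∑ j, jac (Q i) (toC N y) j * toC N v j) := by
    funext i
    simp only [Pi.smul_apply, smul_eq_mul]
    rw [Finset.mul_sum]
    apply Finset.sum_congr rfl
    intro j _
    ring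
  rw [h2, h1, smul_zero, map_zero]

theorem fderiv2_JJ {N M : ℕ} (Q : Fin M → MvPolynomial (Fin N) ℂ) (y v : EV N) :
    fderiv ℝ (fderiv ℝ (realP Q)) y (JJ N v) (JJ N v)
      = -fderiv ℝ (fderiv ℝ (realP Q)) y v v := by
  rw [realP_fderiv2, realP_fderiv2, toC_JJ, ← map_neg]
  congr 1
  funext i
  simp only [Pi.smul_apply, smul_eq_mul, Pi.neg_apply, ← Finset.sum_neg_distrib]
  apply Finset.sum_congr rfl
  intro j _
  apply Finset.sum_congr rfl
  intro j' _
  linear_combination (MvPolynomial.eval (toC N y) (MvPolynomial.pderiv j' (MvPolynomial.pderiv j (Q i)))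
    * toC N v j' * toC N v j) * Complex.I_mul_I

theorem idxB_real {N M l : ℕ} (hN : N = M + l) (Q : Fin M → MvPolynomial (Fin N) ℂ) (y : EV N)
    (hli : LinearIndependent ℂ (fun i => jac (Q i) (toC N y))) : IdxB (realP Q) y l := by
  intro μ S hS
  set D : EV N →ₗ[ℝ] EV M := (fderiv ℝ (realP Q) y).toLinearMap with hD
  have hsurj : LinearMap.range D = ⊤ := LinearMap.range_eq_top.2 (realP_surj Q y hli)
  have hker : Module.finrank ℝ (LinearMap.ker D) = 2 * l := by
    have h1 := LinearMap.finrank_range_add_finrank_ker D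
    rw [hsurj, finrank_top, finrank_euclideanSpace, finrank_euclideanSpace] at h1
    simp only [Fintype.card_sum, Fintype.card_fin] at h1
    omega
  set S' : Submodule ℝ (EV N) := S.map (JJ N).toLinearMap with hS'
  have hfr : Module.finrank ℝ S' = Module.finrank ℝ S := LinearEquiv.finrank_map_eq (JJ N) S
  have hdisj : S ⊓ S' = ⊥ := by
    rw [eq_bot_iff]
    rintro v ⟨hv, hv'⟩
    obtain ⟨w, hw, rfl⟩ := hv'
    have h1 := (hS w hw).2
    have h2 := (hS _ hv).2
    have h3 : ((JJ N).toLinearMap w : EV N) = JJ N w := rfl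
    rw [h3, fderiv2_JJ, inner_neg_right, norm_sq_JJ] at h2
    have h4 : ‖w‖ ^ 2 = 0 := le_antisymm (by linarith) (sq_nonneg _)
    have h5 : w = 0 := by
      have := pow_eq_zero_iff (two_ne_zero) |>.1 h4
      exact norm_eq_zero.1 this
    rw [h5, map_zero]
    exact Submodule.zero_mem _
  have hle : S ⊔ S' ≤ LinearMap.ker D := by
    apply sup_le
    · intro v hv
      exact (hS v hv).1
    · rintro _ ⟨w, hw, rfl⟩
      exact fderiv_JJ Q y w (hS w hw).1
  have h1 := Submodule.finrank_sup_add_finrank_inf_eq S S'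
  have h2 := Submodule.finrank_mono hle
  rw [hdisj, finrank_bot, hfr] at h1
  omega

end AF21
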