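import Pool.Agent.AF21.AlgLoc
import Pool.Agent.AF21.Idx

/-!
# Smooth affine varieties are `Nice`
-/

set_option autoImplicit false

open Set Topology
open scoped ContDiff InnerProductSpace

namespace AF21

theorem nice_real {N l : ℕ} (hl : l ≤ N) {X : Set (Fin N → ℂ)}
    (hS : ∃ S : Set (MvPolynomial (Fin N) ℂ), X = {x | ∀ f ∈ S, MvPolynomial.eval x f = 0})
    (hr : RankHyp l X) : Nice (toC N ⁻¹' X) (EV (N - l)) l := by
  refine ⟨?_, ?_⟩
  · have hXc : IsClosed X := by
      obtain ⟨S, rfl⟩ := hS
      have : {x : Fin N → ℂ | ∀ f ∈ S, MvPolynomial.eval x f = 0}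
          = ⋂ f ∈ S, {x | MvPolynomial.eval x f = 0} := by
        ext x; simp
      rw [this]
      exact isClosed_biInter fun f _ =>
        isClosed_eq (by simpa using MvPolynomial.continuous_eval f) continuous_const
    exact hXc.preimage (toC N).continuous
  · intro x hx
    obtain ⟨Q, W, hW, hxW, hli, hiff⟩ := alg_loc hl hS hr (x0 := toC N x) hx
    refine ⟨realP Q, toC N ⁻¹' W, hxW, locEq_real Q hW hli hiff, ?_⟩
    intro y hy _
    exact idxB_real (by omega) Q y (hli _ hy)

end AF21
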