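import Pool.Agent.AF21.AFMain
import Pool.Agent.AF21.NiceX

/-!
# The torus property of smooth affine varieties
-/

set_option autoImplicit false

open Set Topology
open scoped ContDiff InnerProductSpace

namespace AF21

theorem hom_of_symm {Y Z : Type} [TopologicalSpace Y] [TopologicalSpace Z] (e : Y ≃ₜ Z) {a b : Z}
    (γ γ' : Path a b) (h : (γ.map e.symm.continuous).Homotopic (γ'.map e.symm.continuous)) :
    γ.Homotopic γ' := by
  obtain ⟨F⟩ := h
  refine ⟨⟨⟨⟨fun x => e (F x), e.continuous.comp F.continuous⟩, ?_, ?_⟩, ?_⟩⟩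
  · intro t
    simp
  · intro t
    simp
  · intro t x hx
    have := F.prop' t x hx
    simp only [ContinuousMap.coe_mk] at this ⊢
    have h2 := congrArg e this
    simpa using h2

/-- `TorusProp` is invariant under homeomorphisms -/
theorem TorusProp.of_homeo {Y Z : Type} [TopologicalSpace Y] [TopologicalSpace Z] {n : ℕ} (e : Y ≃ₜ Z)
    (h : TorusProp Y n) : TorusProp Z n := by
  intro H hH p hp
  have hH' : Per ((⟨e.symm, e.symm.continuous⟩ : C(Z, Y)).comp H) := fun y m => by
    simp only [ContinuousMap.coe_comp, ContinuousMap.coe_mk, Function.comp_apply]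
    rw [hH y m]
  obtain ⟨m, hm, hn⟩ := h ((⟨e.symm, e.symm.continuous⟩ : C(Z, Y)).comp H) hH' p hp
  exact ⟨m, hm, hom_of_symm e _ _ hn⟩

theorem torusProp_affine {N l : ℕ} (hl : l ≤ N) {X : Set (Fin N → ℂ)}
    (hS : ∃ S : Set (MvPolynomial (Fin N) ℂ), X = {x | ∀ f ∈ S, MvPolynomial.eval x f = 0})
    (hr : RankHyp l X) : TorusProp ↥X (l + 1) := by
  have h := torusProp_of_nice (nice_real hl hS hr) (by
    simp only [finrank_euclideanSpace, Fintype.card_sum, Fintype.card_fin]
    omega)
  exact h.of_homeo ((toC N).toHomeomorph.sets (by rfl))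

end AF21
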