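import Pool.Agent.AF21.Defs

/-!
# [AF21-VIETA] Roots and coefficients

`pol_inj`: compare the coefficients of `X^(k-2-i)`, `i < k - 1` (the exponents are different, all `< k`; `k ≥ 2`).
`pol_exists`: `pol k a` is monic of degree `k`, splits over `ℂ`, and separable polynomials have distinct roots.
`pol_sum`: the coefficient of `X^(k-1)` of `pol k a` is `0`, and that of `∏ (X - C (q j))` is `-∑ q j`
(`Polynomial.coeff_prod_X_sub_C...`, `Multiset.prod_X_sub_C_coeff_card_pred`, `Polynomial.nextCoeff`/`prod_X_sub_C_nextCoeff`).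
`exists_vieta`: `v q i` = the coefficient of `X^(k-2-i)` of `∏ (X - C (q j - c))`, `c = (∑ q)/k`; the sum of the numbers `q j - c` is `0`, the
polynomial is monic of degree `k`, so it is `pol k (v q)` (compare coefficients). Continuity: the coefficients of `∏ (X - C (r j))` are
polynomials in the `r j` (`Multiset.prod_X_sub_C_coeff`/`Finset.prod` and `esymm`, or by induction over the factors: the coefficients of
`(X - C r) * P` depend continuously on `r` and the coefficients of `P`). Symmetry: `Equiv.prod_comp`, `Equiv.sum_comp`.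
Separable: `Polynomial.separable_prod_X_sub_C_iff`.
`perm_of_prod_eq`: two injective labellings of the roots of the same polynomial differ by a permutation.
-/

set_option autoImplicit false

open Set Topology

namespace AF21

theorem coeff_pol (k : ℕ) (a : Fin (k - 1) → ℂ) (n : ℕ) :
    (pol k a).coeff n = (if n = k then 1 else 0) +
      ∑ i : Fin (k - 1), if n = k - 2 - (i : ℕ) then a i else 0 := by
  unfold pol
  rw [Polynomial.coeff_add, Polynomial.coeff_X_pow, Polynomial.finset_sum_coeff]
  congr 1
  refine Finset.sum_congr rfl fun i _ => ?_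
  rw [Polynomial.coeff_C_mul_X_pow]

theorem coeff_pol_idx {k : ℕ} (hk : 2 ≤ k) (a : Fin (k - 1) → ℂ) (i : Fin (k - 1)) :
    (pol k a).coeff (k - 2 - (i : ℕ)) = a i := by
  rw [coeff_pol, if_neg (by omega), zero_add, Finset.sum_eq_single i]
  · rw [if_pos rfl]
  · intro j _ hj
    rw [if_neg]
    intro h
    apply hj
    have h1 := i.2
    have h2 := j.2
    exact Fin.ext (by omega)
  · intro h
    exact absurd (Finset.mem_univ i) h

theorem coeff_pol_top {k : ℕ} (hk : 2 ≤ k) (a : Fin (k - 1) → ℂ) : (pol k a).coeff k = 1 := by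
  rw [coeff_pol, if_pos rfl, Finset.sum_eq_zero, add_zero]
  intro i _
  rw [if_neg (by omega)]

theorem coeff_pol_pred {k : ℕ} (hk : 2 ≤ k) (a : Fin (k - 1) → ℂ) :
    (pol k a).coeff (k - 1) = 0 := by
  rw [coeff_pol, if_neg (by omega), Finset.sum_eq_zero, add_zero]
  intro i _
  rw [if_neg (by omega)]

theorem coeff_pol_big {k : ℕ} (hk : 2 ≤ k) (a : Fin (k - 1) → ℂ) {n : ℕ} (hn : k < n) :
    (pol k a).coeff n = 0 := by
  rw [coeff_pol, if_neg (by omega), Finset.sum_eq_zero, add_zero]
  intro i _
  rw [if_neg (by omega)]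

theorem natDegree_pol {k : ℕ} (hk : 2 ≤ k) (a : Fin (k - 1) → ℂ) : (pol k a).natDegree = k := by
  refine Polynomial.natDegree_eq_of_le_of_coeff_ne_zero ?_ ?_
  · exact Polynomial.natDegree_le_iff_coeff_eq_zero.2 fun n hn => coeff_pol_big hk a hn
  · rw [coeff_pol_top hk]
    exact one_ne_zero

theorem monic_pol {k : ℕ} (hk : 2 ≤ k) (a : Fin (k - 1) → ℂ) : (pol k a).Monic := by
  unfold Polynomial.Monic Polynomial.leadingCoeff
  rw [natDegree_pol hk, coeff_pol_top hk]

theorem pol_inj {k : ℕ} (hk : 2 ≤ k) {a b : Fin (k - 1) → ℂ} (h : pol k a = pol k b) : a = b := by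
  funext i
  rw [← coeff_pol_idx hk a i, h, coeff_pol_idx hk b i]

theorem pol_exists {k : ℕ} (hk : 2 ≤ k) (a : Fin (k - 1) → ℂ) (h : (pol k a).Separable) :
    ∃ q : Conf k, pol k a = ∏ j, (Polynomial.X - Polynomial.C (q.1 j)) := by
  have hs : (pol k a).Splits := IsAlgClosed.splits _
  have h1 := hs.eq_prod_roots_of_monic (monic_pol hk a)
  have h2 : (pol k a).roots.Nodup := Polynomial.nodup_roots h
  have h3 : Multiset.card (pol k a).roots = k := by
    have h4 := congrArg Polynomial.natDegree h1
    rw [Polynomial.natDegree_multiset_prod_X_sub_C_eq_card, natDegree_pol hk] at h4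
    exact h4.symm
  set l : List ℂ := (pol k a).roots.toList with hl
  have hl1 : (l : Multiset ℂ) = (pol k a).roots := Multiset.coe_toList _
  have hlen : l.length = k := by
    rw [← Multiset.coe_card, hl1, h3]
  have hnd : l.Nodup := by
    rw [← Multiset.coe_nodup, hl1]
    exact h2
  refine ⟨⟨fun j => l.get (Fin.cast hlen.symm j), ?_⟩, ?_⟩
  · intro i j hij
    have := (List.nodup_iff_injective_get.1 hnd) hij
    exact Fin.cast_injective _ this
  · rw [← hl1] at h1
    refine h1.trans ?_
    rw [Multiset.map_coe, Multiset.prod_coe]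
    have h5 : ∀ (n : ℕ) (h : l.length = n),
        (l.map fun x => Polynomial.X - Polynomial.C x).prod =
          ∏ j : Fin n, (Polynomial.X - Polynomial.C (l.get (Fin.cast h.symm j))) := by
      intro n hn
      subst hn
      rw [← List.prod_ofFn]
      congr 1
      apply List.ext_get
      · simp
      · intro n h1 h2
        simp
    exact h5 k hlen

theorem pol_sum {k : ℕ} (hk : 2 ≤ k) (a : Fin (k - 1) → ℂ) (q : Fin k → ℂ)
    (h : pol k a = ∏ j, (Polynomial.X - Polynomial.C (q j))) : ∑ j, q j = 0 := by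
  have h1 := congrArg Polynomial.nextCoeff h
  rw [Polynomial.prod_X_sub_C_nextCoeff, Polynomial.nextCoeff_of_natDegree_pos
    (by rw [natDegree_pol hk]; omega), natDegree_pol hk, coeff_pol_pred hk] at h1
  exact neg_eq_zero.1 h1.symm

theorem eq_pol_of {k : ℕ} (hk : 2 ≤ k) (P : Polynomial ℂ) (hm : P.Monic) (hd : P.natDegree = k)
    (hn : P.nextCoeff = 0) : pol k (fun i => P.coeff (k - 2 - (i : ℕ))) = P := by
  ext n
  rcases lt_trichotomy n k with h | h | h
  · rcases Nat.lt_or_ge n (k - 1) with h' | h'
    · have h1 : n = k - 2 - (k - 2 - n) := by omega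
      have h2 := coeff_pol_idx hk (fun i => P.coeff (k - 2 - (i : ℕ))) ⟨k - 2 - n, by omega⟩
      simp only at h2
      rw [← h1] at h2
      exact h2
    · have h1 : n = k - 1 := by omega
      rw [h1, coeff_pol_pred hk]
      rw [Polynomial.nextCoeff_of_natDegree_pos (by rw [hd]; omega), hd] at hn
      exact hn.symm
  · rw [h, coeff_pol_top hk]
    have h1 := hm.coeff_natDegree
    rw [hd] at h1
    exact h1.symm
  · rw [coeff_pol_big hk _ h, Polynomial.coeff_eq_zero_of_natDegree_lt (by rw [hd]; exact h)]

theorem continuous_coeff_prod {k : ℕ} (s : Finset (Fin k)) (n : ℕ) :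
    Continuous fun r : Fin k → ℂ =>
      (∏ j ∈ s, (Polynomial.X - Polynomial.C (r j))).coeff n := by
  induction s using Finset.induction_on generalizing n with
  | empty =>
    simp only [Finset.prod_empty]
    exact continuous_const
  | insert j s hj ih =>
    have h1 : ∀ r : Fin k → ℂ,
        (∏ j ∈ insert j s, (Polynomial.X - Polynomial.C (r j))).coeff n =
        (Polynomial.X * ∏ j ∈ s, (Polynomial.X - Polynomial.C (r j))).coeff n -
          r j * (∏ j ∈ s, (Polynomial.X - Polynomial.C (r j))).coeff n := by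
      intro r
      rw [Finset.prod_insert hj, sub_mul, Polynomial.coeff_sub, Polynomial.coeff_C_mul]
    simp only [h1]
    refine Continuous.sub ?_ ((continuous_apply j).mul (ih n))
    cases n with
    | zero =>
      simp only [Polynomial.mul_coeff_zero, Polynomial.coeff_X_zero, zero_mul]
      exact continuous_const
    | succ n =>
      simp only [Polynomial.coeff_X_mul]
      exact ih n

theorem exists_vieta {k : ℕ} (hk : 2 ≤ k) : ∃ v : Conf k → (Fin (k - 1) → ℂ), Continuous v ∧
    (∀ q : Conf k, pol k (v q) = ∏ j, (Polynomial.X - Polynomial.C (q.1 j - (∑ i, q.1 i) / k))) ∧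
    (∀ (q : Conf k) (π : Equiv.Perm (Fin k)), v (q.perm π) = v q) ∧
    ∀ q, (pol k (v q)).Separable := by
  have hk0 : (k : ℂ) ≠ 0 := by
    have : k ≠ 0 := by omega
    exact_mod_cast this
  set P : Conf k → Polynomial ℂ :=
    fun q => ∏ j, (Polynomial.X - Polynomial.C (q.1 j - (∑ i, q.1 i) / k)) with hP
  have hpol : ∀ q, pol k (fun i => (P q).coeff (k - 2 - (i : ℕ))) = P q := by
    intro q
    refine eq_pol_of hk (P q) (Polynomial.monic_prod_X_sub_C _ _) ?_ ?_
    · rw [hP]
      simp only
      rw [Polynomial.natDegree_finset_prod_X_sub_C_eq_card]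
      simp
    · rw [hP]
      simp only
      rw [Polynomial.prod_X_sub_C_nextCoeff, neg_eq_zero, Finset.sum_sub_distrib,
        Finset.sum_const, Finset.card_univ, Fintype.card_fin, nsmul_eq_mul, mul_div_cancel₀ _ hk0,
        sub_self]
  refine ⟨fun q i => (P q).coeff (k - 2 - (i : ℕ)), ?_, hpol, ?_, ?_⟩
  · refine continuous_pi fun i => ?_
    have h1 : Continuous fun q : Conf k => fun j => q.1 j - (∑ i, q.1 i) / (k : ℂ) := by
      have h2 : ∀ j : Fin k, Continuous fun q : Conf k => q.1 j := fun j =>
        (continuous_apply j).comp continuous_subtype_val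
      exact continuous_pi fun j =>
        (h2 j).sub ((continuous_finset_sum _ fun i _ => h2 i).div_const _)
    exact (continuous_coeff_prod Finset.univ (k - 2 - (i : ℕ))).comp h1
  · intro q π
    have h1 : P (q.perm π) = P q := by
      rw [hP]
      simp only [Conf.perm, Function.comp]
      rw [Equiv.sum_comp π q.1]
      exact Equiv.prod_comp π fun j => Polynomial.X - Polynomial.C (q.1 j - (∑ i, q.1 i) / k)
    funext i
    simp only [h1]
  · intro q
    rw [hpol q, hP]
    simp only
    rw [Polynomial.separable_prod_X_sub_C_iff]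
    intro i j hij
    exact q.2 (sub_left_injective hij)

theorem perm_of_prod_eq {k : ℕ} (q r : Conf k)
    (h : ∏ j, (Polynomial.X - Polynomial.C (q.1 j)) = ∏ j, (Polynomial.X - Polynomial.C (r.1 j))) :
    ∃ π : Equiv.Perm (Fin k), r = q.perm π := by
  have h1 : ∀ j, ∃ i, q.1 i = r.1 j := by
    intro j
    have h2 := congrArg (Polynomial.eval (r.1 j)) h
    have h3 : Polynomial.eval (r.1 j) (∏ j, (Polynomial.X - Polynomial.C (r.1 j))) = 0 := by
      rw [Polynomial.eval_prod]
      exact Finset.prod_eq_zero (Finset.mem_univ j) (by simp)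
    rw [h3, Polynomial.eval_prod, Finset.prod_eq_zero_iff] at h2
    obtain ⟨i, _, hi⟩ := h2
    refine ⟨i, ?_⟩
    rw [Polynomial.eval_sub, Polynomial.eval_X, Polynomial.eval_C, sub_eq_zero] at hi
    exact hi.symm
  choose f hf using h1
  have hinj : Function.Injective f := by
    intro i j hij
    apply r.2
    rw [← hf i, ← hf j, hij]
  refine ⟨Equiv.ofBijective f (Finite.injective_iff_bijective.1 hinj), ?_⟩
  apply Subtype.ext
  funext j
  exact (hf j).symm

end AF21
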