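import Pool.Agent.AF21.BMain
import Pool.Agent.AF21.TorusX
import Pool.Agent.AF21.Roots
import Pool.Agent.AF21.Vieta

/-!
# The main theorem

`4 < k`, `2 l + 2 ≤ k`, `X` a closed algebraic subset of `ℂ^n`, smooth of pure dimension `l`; then every continuous map
`g : U → X` from the space of separable polynomials `z^k + a_0 z^(k-2) + ... + a_(k-2)` induces a map on
fundamental groups whose image is abelian.
-/

set_option autoImplicit false

open Set Topology

namespace AF21

/-- topological form: it suffices that the target has the torus property -/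
theorem comm_of_torusProp_U {k n : ℕ} (hk : 4 < k) (hn1 : 1 ≤ n) (hn : 2 * n ≤ k) {Y : Type}
    [TopologicalSpace Y] (hT : TorusProp Y n) (U : Set (Fin (k - 1) → ℂ))
    (hU : U = {a | (pol k a).Separable}) (g : C(↥U, Y)) (x0 : ↥U) (α β : FundamentalGroup ↥U x0) :
    Commute (FundamentalGroup.map g x0 α) (FundamentalGroup.map g x0 β) := by
  subst hU
  obtain ⟨v, hvc, hv, hvs, hsep⟩ := exists_vieta (k := k) (by omega)
  -- the symmetric map
  let G : SymMap k Y :=
    { toMap := ⟨fun q => g ⟨v q, hsep q⟩, g.continuous.comp (hvc.subtype_mk _)⟩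
      symm := fun q π => by
        change g ⟨v (q.perm π), hsep _⟩ = g ⟨v q, hsep _⟩
        congr 1
        exact Subtype.ext (hvs q π) }
  obtain ⟨q0, hq0⟩ := pol_exists (by omega) x0.1 x0.2
  -- `v` of a configuration of roots is the polynomial
  have hback : ∀ (a : Fin (k - 1) → ℂ) (q : Conf k),
      pol k a = ∏ j, (Polynomial.X - Polynomial.C (q.1 j)) → v q = a := by
    intro a q hq
    apply pol_inj (by omega)
    rw [hv q, pol_sum (by omega) a q.1 hq, hq]
    simp
  have hG0 : G.toMap q0 = g x0 := by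
    change g ⟨v q0, hsep _⟩ = g x0
    congr 1
    exact Subtype.ext (hback x0.1 q0 hq0)
  -- every class comes from a path of configurations
  have key : ∀ α : FundamentalGroup ↥{a | (pol k a).Separable} x0, ∃ (π : Equiv.Perm (Fin k))
      (γ : Path q0 (q0.perm π)), FundamentalGroup.map g x0 α
        = fp ((lp G γ).cast hG0.symm hG0.symm) := by
    intro α
    obtain ⟨δ, rfl⟩ : ∃ δ : Path x0 x0, fp δ = α := by
      obtain ⟨δ, hδ⟩ := Quotient.exists_rep α
      exact ⟨δ, hδ⟩
    obtain ⟨q, hq, hqa⟩ := roots_lift (k := k)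
      ⟨fun t => (δ t).1, continuous_subtype_val.comp δ.continuous⟩ (fun t => (δ t).2) q0 (by
        simpa using hq0)
    obtain ⟨π, hπ⟩ := perm_of_prod_eq q0 (q 1) (by
      rw [← hqa 1, ← hq0]
      simp)
    refine ⟨π, ⟨q, hq, hπ⟩, ?_⟩
    have e1 : FundamentalGroup.map g x0 (fp δ) = fp (δ.map g.continuous) := rfl
    rw [e1]
    congr 1
    ext t
    change g (δ t) = G.toMap (q t)
    change g (δ t) = g ⟨v (q t), hsep _⟩
    congr 1
    exact Subtype.ext (hback _ _ (hqa t)).symm
  obtain ⟨π, γ, hγ⟩ := key α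
  obtain ⟨ρ, γ', hγ'⟩ := key β
  rw [hγ, hγ']
  have hc := comm_of_torusProp hT hn1 hn hk G γ γ'
  have hcast : ∀ {y z : Y} (h : y = z) (c d : Path z z), Commute (fp c) (fp d) →
      Commute (fp (c.cast h h)) (fp (d.cast h h)) := by
    intro y z h c d hcd
    subst h
    exact hcd
  exact hcast hG0.symm _ _ hc

theorem main {k n l : ℕ} (hk : 4 < k) (hl : 2 * l + 2 ≤ k) (hln : l ≤ n) (X : Set (Fin n → ℂ))
    (hS : ∃ S : Set (MvPolynomial (Fin n) ℂ), X = {x | ∀ f ∈ S, MvPolynomial.eval x f = 0})
    (hr : RankHyp l X) (U : Set (Fin (k - 1) → ℂ)) (hU : U = {a | (pol k a).Separable})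
    (g : C(↥U, ↥X)) (x0 : ↥U) (α β : FundamentalGroup ↥U x0) :
    Commute (FundamentalGroup.map g x0 α) (FundamentalGroup.map g x0 β) :=
  comm_of_torusProp_U hk (by omega) (by omega) (torusProp_affine hln hS hr) U hU g x0 α β

end AF21
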