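import Pool.Agent.AF21.Conn
import Pool.Agent.AF21.ClMul

/-!
# [AF21-GOOD] Basic properties of good paths

`goodP_congr`: `vlp G γ α β` and `vlp G γ' α β` are homotopic if `γ, γ'` are.
`goodP_trans`: given `α, β` for `a, c`, choose `π', δ : std → b.perm π'` in `Inc` by `exists_sort`; the loop
`α·(γ·γ')·β⁻¹` is homotopic to `(α·γ·δ⁻¹)·(δ·γ'·β⁻¹)` (in `Y`, after applying `G.toMap`; easiest in the fundamental groupoid
quotient `Path.Homotopic.Quotient` with `trans`/`symm`, or with `Path.Homotopic` lemmas `trans_assoc`, `symm_trans`...).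
`goodP_symm`: `vlp G γ.symm β α` is homotopic to the inverse of `vlp G γ α β`.
`goodP_reg`: if all configurations of `γ` are regular then `γ` is good, even with trivial class: the sorting permutation is
locally constant along `γ` (the set of `t` with `(γ t).perm π ∈ Inc k` is open for each `π`, these sets are disjoint
(`sort_unique`) and cover `[0,1]`, connected), so `π = ρ` and `α` and `β·(γ.perm π)⁻¹`... i.e. the path
`α · (γ.perm π) · β⁻¹` is a path in `Inc k` from `std` to `std`, homotopic to the constant path (`inc_homotopic`), and its image under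
`G.toMap` is `vlp G γ α β` (`G.symm`).
`cl_of_goodP`: for `γ : std → std.perm π` take `α = refl` (`std.perm 1 = std`) and `β = refl` (`(std.perm π).perm π⁻¹ = std`); then
`vlp G γ α β` is homotopic to `lp G γ`.
-/

set_option autoImplicit false

open Set Topology

namespace AF21
variable {k : ℕ} {Y : Type} [TopologicalSpace Y]

namespace GoodAux

open Path.Homotopic (Quotient)

/-- mapping paths by `G` -/
noncomputable abbrev gm (G : SymMap k Y) {a b : Conf k} (γ : Path a b) : Path (G.toMap a) (G.toMap b) :=
  γ.map G.toMap.continuous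

theorem q_trans {x y z w : Y} (A : Path x y) (C : Path y z) (D : Path x z) (C' : Path z w)
    (B : Path x w) : (A.trans ((C.trans C').trans B.symm)).Homotopic
      ((A.trans (C.trans D.symm)).trans (D.trans (C'.trans B.symm))) := by
  rw [← Path.Homotopic.Quotient.eq]
  simp only [Path.Homotopic.Quotient.mk_trans, Path.Homotopic.Quotient.mk_symm,
    Path.Homotopic.Quotient.trans_assoc]
  rw [← Path.Homotopic.Quotient.trans_assoc (Path.Homotopic.Quotient.mk D).symm
    (Path.Homotopic.Quotient.mk D), Path.Homotopic.Quotient.symm_trans,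
    Path.Homotopic.Quotient.refl_trans]

theorem q_symm {x y z : Y} (A : Path x z) (C : Path y z) (B : Path x y) :
    (A.trans (C.symm.trans B.symm)).Homotopic (B.trans (C.trans A.symm)).symm := by
  rw [Path.trans_symm, Path.trans_symm, Path.symm_symm]
  exact (Path.Homotopic.trans_assoc _ _ _).symm

theorem vlp_aux {x y z y' z' : Y} (P : Path x y') (Q : Path y' z') (R : Path x z') (hy : y = y')
    (hz : z = z') : (P.cast rfl hy).trans ((Q.cast hy hz).trans (R.cast rfl hz).symm) =
      P.trans (Q.trans R.symm) := by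
  subst hy hz
  rfl

theorem cl_aux {x y : Y} (p : Path x y) (A : Path x x) (B : Path x y) (e : x = y)
    (hA : ∀ t, A t = x) (hB : ∀ t, B t = x) :
    (A.trans (p.trans B.symm)).Homotopic (p.cast rfl e) := by
  subst e
  have hA' : A = Path.refl x := Path.ext (funext fun t => hA t)
  have hB' : B = Path.refl x := Path.ext (funext fun t => hB t)
  rw [hA', hB', Path.refl_symm]
  exact (Path.Homotopic.refl_trans _).trans (Path.Homotopic.trans_refl _)

theorem isOpen_Inc (k : ℕ) : IsOpen (Inc k) := by
  have h : Inc k = ⋂ i : Fin k, ⋂ j : Fin k, {q : Conf k | i < j → (q.1 i).re < (q.1 j).re} := by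
    ext q
    simp only [Inc, StrictMono, mem_ofPred_eq, mem_iInter]
  rw [h]
  refine isOpen_iInter_of_finite fun i => isOpen_iInter_of_finite fun j => ?_
  by_cases hij : i < j
  · have h1 : {q : Conf k | i < j → (q.1 i).re < (q.1 j).re} =
        {q : Conf k | (q.1 i).re < (q.1 j).re} := by
      ext q
      simp [hij]
    rw [h1]
    have h2 : ∀ i : Fin k, Continuous fun q : Conf k => (q.1 i).re := fun i =>
      Complex.continuous_re.comp ((continuous_apply i).comp continuous_subtype_val)
    exact isOpen_lt (h2 i) (h2 j)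
  · have h1 : {q : Conf k | i < j → (q.1 i).re < (q.1 j).re} = univ := by
      ext q
      simp [hij]
    rw [h1]
    exact isOpen_univ

theorem continuous_perm (π : Equiv.Perm (Fin k)) : Continuous fun q : Conf k => q.perm π := by
  refine Continuous.subtype_mk ?_ _
  exact continuous_pi fun j => (continuous_apply (π j)).comp continuous_subtype_val

theorem inc_all {a b : Conf k} (γ : Path a b) (h : ∀ t, Reg (γ t)) {π : Equiv.Perm (Fin k)}
    (hπ : a.perm π ∈ Inc k) (t : unitInterval) : (γ t).perm π ∈ Inc k := by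
  let S : Equiv.Perm (Fin k) → Set unitInterval := fun σ => {t | (γ t).perm σ ∈ Inc k}
  have hS : ∀ σ, IsOpen (S σ) := fun σ =>
    (isOpen_Inc k).preimage ((continuous_perm σ).comp γ.continuous)
  have hex : ∀ t, ∃ σ, t ∈ S σ := by
    intro t
    obtain ⟨σ, α, hα⟩ := exists_sort (γ t) (h t)
    refine ⟨σ, ?_⟩
    have := hα 1
    rwa [α.target] at this
  have hc : (S π)ᶜ = ⋃ σ ∈ {σ : Equiv.Perm (Fin k) | σ ≠ π}, S σ := by
    ext t
    simp only [mem_compl_iff, mem_iUnion, mem_ofPred_eq, exists_prop]
    constructor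
    · intro ht
      obtain ⟨σ, hσ⟩ := hex t
      exact ⟨σ, fun hne => ht (hne ▸ hσ), hσ⟩
    · rintro ⟨σ, hne, hσ⟩ ht
      exact hne (sort_unique hσ ht)
  have hclosed : IsClosed (S π) := by
    rw [← isOpen_compl_iff, hc]
    exact isOpen_biUnion fun σ _ => hS σ
  have h0 : (0 : unitInterval) ∈ S π := by
    change (γ 0).perm π ∈ Inc k
    rwa [γ.source]
  have huniv : S π = univ := IsClopen.eq_univ ⟨hclosed, hS π⟩ ⟨0, h0⟩
  have ht : t ∈ S π := by rw [huniv]; exact mem_univ t
  exact ht

end GoodAux

open GoodAux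

theorem goodP_congr (G : SymMap k Y) {a b : Conf k} {γ γ' : Path a b} (h : γ.Homotopic γ') (hg : GoodP G γ) :
    GoodP G γ' := by
  intro π ρ α β hα hβ
  have h1 := hg π ρ α β hα hβ
  have h2 : fp (vlp G γ α β) = fp (vlp G γ' α β) := by
    apply fp_eq
    exact Path.Homotopic.hcomp (Path.Homotopic.refl _)
      (Path.Homotopic.hcomp (h.map G.toMap) (Path.Homotopic.refl _))
  rwa [h2] at h1

theorem goodP_trans (G : SymMap k Y) {a b c : Conf k} {γ : Path a b} {γ' : Path b c} (hb : Reg b)
    (h : GoodP G γ) (h' : GoodP G γ') : GoodP G (γ.trans γ') := by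
  intro π ρ α β hα hβ
  obtain ⟨π', δ, hδ⟩ := exists_sort b hb
  have h1 := h π π' α δ hα hδ
  have h2 := h' π' ρ δ β hδ hβ
  have h3 : fp (vlp G (γ.trans γ') α β) = fp ((vlp G γ α δ).trans (vlp G γ' δ β)) := by
    apply fp_eq
    unfold vlp
    rw [Path.map_trans]
    exact q_trans _ _ _ _ _
  rw [h3, fp_trans]
  exact Subgroup.mul_mem _ h2 h1

theorem goodP_symm (G : SymMap k Y) {a b : Conf k} {γ : Path a b} (h : GoodP G γ) : GoodP G γ.symm := by
  intro π ρ α β hα hβ
  have h1 := h ρ π β α hβ hα
  have h2 : fp (vlp G γ.symm α β) = fp (vlp G γ β α).symm := by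
    apply fp_eq
    unfold vlp
    rw [← Path.map_symm]
    exact q_symm _ _ _
  rw [h2, fp_symm]
  exact Subgroup.inv_mem _ h1

theorem goodP_reg (G : SymMap k Y) {a b : Conf k} (γ : Path a b) (h : ∀ t, Reg (γ t)) : GoodP G γ := by
  intro π ρ α β hα hβ
  have ha : a.perm π ∈ Inc k := by
    have := hα 1
    rwa [α.target] at this
  have hb : b.perm ρ ∈ Inc k := by
    have := hβ 1
    rwa [β.target] at this
  have hall := inc_all γ h ha
  have hb' : b.perm π ∈ Inc k := by
    have := hall 1
    rwa [γ.target] at this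
  have hπρ : π = ρ := sort_unique hb' hb
  subst hπρ
  have h0 : std k ∈ Inc k := by
    have := hα 0
    rwa [α.source] at this
  have hδ : (α.trans ((permPath γ π).trans β.symm)).Homotopic (Path.refl (std k)) := by
    apply inc_homotopic
    · intro t
      have h1 : (α.trans ((permPath γ π).trans β.symm)) t ∈
          range (α.trans ((permPath γ π).trans β.symm)) := ⟨t, rfl⟩
      rw [Path.trans_range, Path.trans_range, Path.symm_range] at h1
      rcases h1 with ⟨s, hs⟩ | ⟨s, hs⟩ | ⟨s, hs⟩
      · rw [← hs]; exact hα s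
      · rw [← hs]; exact hall s
      · rw [← hs]; exact hβ s
    · intro t
      exact h0
  have h2 : vlp G γ α β = (α.trans ((permPath γ π).trans β.symm)).map G.toMap.continuous := by
    have h3 : γ.map G.toMap.continuous =
        ((permPath γ π).map G.toMap.continuous).cast (G.symm a π).symm (G.symm b π).symm := by
      apply Path.ext
      funext t
      exact (G.symm (γ t) π).symm
    unfold vlp
    rw [h3, vlp_aux, Path.map_trans, Path.map_trans, Path.map_symm]
  rw [h2, fp_eq (hδ.map G.toMap)]
  have h4 : (Path.refl (std k)).map G.toMap.continuous = Path.refl (G.toMap (std k)) := by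
    apply Path.ext
    funext t
    rfl
  rw [h4, fp_refl]
  exact Subgroup.one_mem _

theorem cl_of_goodP (G : SymMap k Y) {π : Equiv.Perm (Fin k)} (γ : Path (std k) ((std k).perm π))
    (h : GoodP G γ) : cl G γ ∈ SClos G := by
  have h0 : std k ∈ Inc k := by
    intro i j hij
    have : ((i : ℕ) : ℝ) < ((j : ℕ) : ℝ) := by exact_mod_cast hij
    simpa [std] using this
  have e : ((std k).perm π).perm π⁻¹ = std k := by
    rw [perm_perm, mul_inv_cancel, perm_one]
  have h1 := h 1 π⁻¹ (Path.refl (std k)) ((Path.refl (std k)).cast rfl e) (fun _ => h0)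
    (fun _ => h0)
  have h2 : (vlp G γ (π := 1) (ρ := π⁻¹) (Path.refl (std k)) ((Path.refl (std k)).cast rfl e)).Homotopic
      (lp G γ) :=
    cl_aux _ _ _ _ (fun _ => rfl) (fun _ => rfl)
  rw [fp_eq h2] at h1
  exact h1

end AF21
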