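import Pool.Agent.AF21.Good
import Pool.Agent.AF21.BelowH

/-!
# [AF21-CROSS] One point moves horizontally past at most one other point

Proof. If `(a i).re = (b i).re` then `a = b` on all labels and the path is constant: `goodP_reg`. By `goodP_symm` (the reverse
path is the straight path from `b` to `a`) assume `(a i).re < (b i).re`. If no label `j ≠ i` has its real part between then all
`γ t` are regular: `goodP_reg`. Let `j` be the unique such label. There is `t` with `(γ t i).re = (a j).re`, so
`(a i).im ≠ (a j).im` by injectivity. Let `π, ρ, α, β` be as in `GoodP`. `π` sorts `a`; the labels `i, j` are neighbours in the order of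
`a`: `π r = i`, `π (r+1) = j` for some `r`, and `b` has the same order with `i, j` exchanged: `ρ = π * swap r (r+1)`
(`sort_unique`).
Case 1: `(a i).im < (a j).im`. The path `Θ = α · (permPath γ π) · (permPath β (swap r (r+1)))⁻¹` from `std` to `std.perm (swap r (r+1))`
(note `(b.perm ρ).perm (swap r (r+1)) = b.perm π`) lies in `Below k`: regular configurations are in `Below`, and in
`(γ t).perm π` only the labels `r` and `r+1` can have the same real part, and `r` (the point `i`) is below. So `Θ` is
homotopic to `tw k r` (`below_homotopic`, `below_tw`), and the loop `lp G Θ` is (equal or homotopic to) `vlp G γ α β` by symmetry of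
`G`. So the class is `gen G r`.
Case 2: `(a i).im > (a j).im`. The path `Θ = β · (permPath γ.symm ρ) · (permPath α (swap r (r+1)))⁻¹` from `std` to
`std.perm (swap r (r+1))` is in `Below k`: in `b.perm ρ` the label `r` is the point `j`, `r+1` is the point `i`, and `j` is below.
So `vlp G γ.symm β α` has the class `gen G r`, and `vlp G γ α β` the inverse.
-/

set_option autoImplicit false

open Set Topology

namespace AF21
variable {k : ℕ} {Y : Type} [TopologicalSpace Y]

/-- configurations in `Inc` have no two points on a vertical line -/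
theorem cross_inc_below {q : Conf k} (σ : Equiv.Perm (Fin k)) (h : q ∈ Inc k) : q.perm σ ∈ Below k := by
  intro u v huv he
  exfalso
  have h1 : σ u = σ v := h.injective he
  exact huv.ne (σ.injective h1)

/-- `i` passes below `j` from left to right -/
theorem cross_core (G : SymMap k Y) {a b : Conf k} (γ : Path a b) (i j : Fin k)
    (h1 : (a.1 i).re < (a.1 j).re) (h2 : (b.1 j).re < (b.1 i).re)
    (h3 : ∀ (t : unitInterval) (u v : Fin k), u ≠ v → ((γ t).1 u).re = ((γ t).1 v).re →
      ((u = i ∧ v = j) ∨ (u = j ∧ v = i)) ∧ ((γ t).1 i).im < ((γ t).1 j).im) : GoodP G γ := by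
  intro π ρ α β hα hβ
  have ha : a.perm π ∈ Inc k := by simpa using hα 1
  have hb : b.perm ρ ∈ Inc k := by simpa using hβ 1
  have h4 : ∀ u v : Fin k, ¬ (u = i ∧ v = j) → ¬ (u = j ∧ v = i) → (a.1 u).re < (a.1 v).re →
      (b.1 u).re < (b.1 v).re := by
    intro u v n1 n2 hlt
    by_contra hcon
    rw [not_lt] at hcon
    have huv : u ≠ v := by
      rintro rfl
      exact lt_irrefl _ hlt
    have hc : Continuous (fun t : unitInterval => ((γ t).1 u).re - ((γ t).1 v).re) := by
      have h : Continuous (fun t => (γ t).1) := continuous_subtype_val.comp γ.continuous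
      exact (Complex.continuous_re.comp ((continuous_apply u).comp h)).sub
        (Complex.continuous_re.comp ((continuous_apply v).comp h))
    obtain ⟨t, ht⟩ := mem_range_of_exists_le_of_exists_ge (c := 0) hc
      ⟨0, by simpa using hlt.le⟩ ⟨1, by simpa using hcon⟩
    rcases (h3 t u v huv (sub_eq_zero.1 ht)).1 with h | h
    · exact n1 h
    · exact n2 h
  -- the positions of `i` and `j`
  have hmono : ∀ u v : Fin k, u < v ↔ (a.1 (π u)).re < (a.1 (π v)).re := fun u v => (ha.lt_iff_lt).symm
  obtain ⟨p, hp⟩ : ∃ p, π p = i := π.surjective i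
  obtain ⟨q, hq⟩ : ∃ q, π q = j := π.surjective j
  have hpq : p < q := by
    rw [hmono, hp, hq]
    exact h1
  have hpq' : (q : ℕ) = p + 1 := by
    by_contra hne
    have h5 : (p : ℕ) < q := hpq
    have h6 : (p : ℕ) + 1 < k := by
      have := q.2
      omega
    obtain ⟨w, hw⟩ : ∃ w : Fin k, w = ⟨p + 1, h6⟩ := ⟨_, rfl⟩
    have hw' : (w : ℕ) = p + 1 := by rw [hw]
    have hpw : p < w := by
      rw [Fin.lt_def]
      omega
    have hwq : w < q := by
      rw [Fin.lt_def]
      omega
    have e1 : (b.1 i).re < (b.1 (π w)).re := by
      refine h4 i (π w) ?_ ?_ ?_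
      · rintro ⟨-, h⟩
        rw [← hq] at h
        exact hwq.ne (π.injective h)
      · rintro ⟨h, -⟩
        rw [h] at h1
        exact lt_irrefl _ h1
      · rw [← hp]
        exact (hmono _ _).1 hpw
    have e2 : (b.1 (π w)).re < (b.1 j).re := by
      refine h4 (π w) j ?_ ?_ ?_
      · rintro ⟨h, -⟩
        rw [← hp] at h
        exact hpw.ne' (π.injective h)
      · rintro ⟨h, -⟩
        rw [← hq] at h
        exact hwq.ne (π.injective h)
      · rw [← hq]
        exact (hmono _ _).1 hwq
    linarith
  obtain ⟨r, hr⟩ : ∃ r : ℕ, r = p := ⟨_, rfl⟩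
  have hrk : r + 1 < k := by
    have := q.2
    omega
  have hrk' : r < k := by omega
  have hpr : (⟨r, hrk'⟩ : Fin k) = p := Fin.ext hr
  have hqr : (⟨r + 1, hrk⟩ : Fin k) = q := Fin.ext (by simp only; omega)
  obtain ⟨σ, hσ⟩ : ∃ σ : Equiv.Perm (Fin k), σ = Equiv.swap ⟨r, hrk'⟩ ⟨r + 1, hrk⟩ := ⟨_, rfl⟩
  have hσpq : σ = Equiv.swap p q := by rw [hσ, hpr, hqr]
  have hσσ : σ * σ = 1 := by rw [hσ, Equiv.swap_mul_self]
  have hbσ : b.perm (π * σ) ∈ Inc k := by
    intro u v huv
    change (b.1 (π (σ u))).re < (b.1 (π (σ v))).re
    by_cases hc : u = p ∧ v = q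
    · rw [hc.1, hc.2, hσpq, Equiv.swap_apply_left, Equiv.swap_apply_right, hp, hq]
      exact h2
    · have hlt : σ u < σ v := by
        rw [hσpq]
        rcases eq_or_ne u p with hup | hup
        · rw [hup, Equiv.swap_apply_left]
          have hvq : v ≠ q := fun h => hc ⟨hup, h⟩
          have hvp : v ≠ p := by
            rw [← hup]
            exact huv.ne'
          rw [Equiv.swap_apply_of_ne_of_ne hvp hvq]
          rw [hup] at huv
          have e1 : (p : ℕ) < v := huv
          have e2 : (v : ℕ) ≠ q := fun h => hvq (Fin.ext h)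
          rw [Fin.lt_def]
          omega
        · rcases eq_or_ne u q with huq | huq
          · rw [huq, Equiv.swap_apply_right]
            rw [huq] at huv
            have hvq : v ≠ q := huv.ne'
            have hvp : v ≠ p := (hpq.trans huv).ne'
            rw [Equiv.swap_apply_of_ne_of_ne hvp hvq]
            exact hpq.trans huv
          · rw [Equiv.swap_apply_of_ne_of_ne hup huq]
            rcases eq_or_ne v p with hvp | hvp
            · rw [hvp, Equiv.swap_apply_left]
              rw [hvp] at huv
              exact huv.trans hpq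
            · rcases eq_or_ne v q with hvq | hvq
              · rw [hvq, Equiv.swap_apply_right]
                rw [hvq] at huv
                have e1 : (u : ℕ) < q := huv
                have e2 : (u : ℕ) ≠ p := fun h => hup (Fin.ext h)
                rw [Fin.lt_def]
                omega
              · rw [Equiv.swap_apply_of_ne_of_ne hvp hvq]
                exact huv
      refine h4 _ _ ?_ ?_ ((hmono _ _).1 hlt)
      · rintro ⟨e1, e2⟩
        rw [← hp] at e1
        rw [← hq] at e2
        have e3 := π.injective e1
        have e4 := π.injective e2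
        have e5 : u = q := by
          rw [← Equiv.swap_apply_left p q, ← hσpq, ← e3, ← Equiv.Perm.mul_apply, hσσ]
          rfl
        have e6 : v = p := by
          rw [← Equiv.swap_apply_right p q, ← hσpq, ← e4, ← Equiv.Perm.mul_apply, hσσ]
          rfl
        rw [e5, e6] at huv
        exact lt_asymm huv hpq
      · rintro ⟨e1, e2⟩
        rw [← hq] at e1
        rw [← hp] at e2
        have e3 := π.injective e1
        have e4 := π.injective e2
        apply hc
        constructor
        · rw [← Equiv.swap_apply_right p q, ← hσpq, ← e3, ← Equiv.Perm.mul_apply, hσσ]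
          rfl
        · rw [← Equiv.swap_apply_left p q, ← hσpq, ← e4, ← Equiv.Perm.mul_apply, hσσ]
          rfl
  have hρ : ρ = π * σ := sort_unique hb hbσ
  have hρσ : (b.perm ρ).perm σ = b.perm π := by
    rw [perm_perm, hρ, mul_assoc, hσσ, mul_one]
  -- the path
  let Θ : Path (std k) ((std k).perm σ) :=
    α.trans ((permPath γ π).trans (((permPath β σ).cast rfl hρσ.symm).symm))
  have hcast : ∀ t : unitInterval, ((permPath β σ).cast rfl hρσ.symm) t = (β t).perm σ := fun t => rfl
  have hΘ : ∀ t, Θ t ∈ Below k := by
    intro t
    have hm : ∀ s, permPath γ π s ∈ Below k := by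
      intro s u v huv he
      change ((γ s).1 (π u)).re = ((γ s).1 (π v)).re at he
      change ((γ s).1 (π u)).im < ((γ s).1 (π v)).im
      obtain ⟨e1, e2⟩ := h3 s _ _ (fun h => huv.ne (π.injective h)) he
      rcases e1 with ⟨e3, e4⟩ | ⟨e3, e4⟩
      · rw [e3, e4]
        exact e2
      · exfalso
        rw [← hq] at e3
        rw [← hp] at e4
        rw [π.injective e3, π.injective e4] at huv
        exact lt_asymm huv hpq
    have hl : ∀ s, ((permPath β σ).cast rfl hρσ.symm).symm s ∈ Below k := by
      intro s
      exact cross_inc_below σ (hβ (unitInterval.symm s))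
    have hf : ∀ s, α s ∈ Below k := fun s => by
      have := cross_inc_below 1 (hα s)
      rwa [perm_one] at this
    simp only [Θ]
    rw [Path.trans_apply]
    split_ifs
    · exact hf _
    · rw [Path.trans_apply]
      split_ifs
      · exact hm _
      · exact hl _
  have hv : vlp G γ α β = lp G Θ := by
    ext t
    simp only [vlp, lp, Θ]
    rw [Path.cast_coe, Path.map_coe, Function.comp_apply, Path.trans_apply, Path.trans_apply]
    split_ifs
    · rfl
    · rw [Path.trans_apply, Path.trans_apply]
      split_ifs
      · exact (G.symm _ π).symm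
      · exact (G.symm _ σ).symm
  subst hσ
  rw [hv]
  change cl G Θ ∈ SClos G
  rw [cl_congr G (below_homotopic Θ (tw k r hrk) hΘ (below_tw k r hrk)), ← gen_eq]
  exact Subgroup.subset_closure ⟨r, hrk, rfl⟩

/-- the label `j` is passed when `i` moves from `a i` to `b i` -/
def Btw (a b : Conf k) (i j : Fin k) : Prop :=
  min (a.1 i).re (b.1 i).re < (a.1 j).re ∧ (a.1 j).re < max (a.1 i).re (b.1 i).re

theorem good_cross (G : SymMap k Y) {a b : Conf k} (i : Fin k) (ha : Reg a) (hb : Reg b)
    (hj : ∀ j, j ≠ i → a.1 j = b.1 j) (him : (a.1 i).im = (b.1 i).im)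
    (hone : ∀ j j', j ≠ i → j' ≠ i → Btw a b i j → Btw a b i j' → j = j') (γ : Path a b)
    (hγ : ∀ (t : unitInterval) (j : Fin k), (γ t).1 j = (1 - (t : ℝ) : ℂ) * a.1 j + ((t : ℝ) : ℂ) * b.1 j) :
    GoodP G γ := by
  -- the coordinates
  have hre : ∀ (t : unitInterval) (j : Fin k),
      ((γ t).1 j).re = (1 - (t : ℝ)) * (a.1 j).re + (t : ℝ) * (b.1 j).re := by
    intro t j
    rw [hγ]
    simp
  have himg : ∀ (t : unitInterval) (j : Fin k),
      ((γ t).1 j).im = (1 - (t : ℝ)) * (a.1 j).im + (t : ℝ) * (b.1 j).im := by
    intro t j
    rw [hγ]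
    simp
  have hrj : ∀ (t : unitInterval) (j : Fin k), j ≠ i → ((γ t).1 j).re = (a.1 j).re := by
    intro t j h
    rw [hre, ← hj j h]
    ring
  have hij : ∀ (t : unitInterval) (j : Fin k), ((γ t).1 j).im = (a.1 j).im := by
    intro t j
    rw [himg]
    rcases eq_or_ne j i with h | h
    · rw [h, ← him]
      ring
    · rw [← hj j h]
      ring
  -- a coincidence of real parts is a crossing
  have hbt : ∀ (t : unitInterval) (j : Fin k), j ≠ i → ((γ t).1 i).re = (a.1 j).re → Btw a b i j := by
    intro t j h he
    have h0 : (a.1 i).re ≠ (a.1 j).re := fun e => h (ha e).symm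
    have h1 : (b.1 i).re ≠ (a.1 j).re := by
      rw [hj j h]
      exact fun e => h (hb e).symm
    rw [hre] at he
    have t0 := t.2.1
    have t1 := t.2.2
    have n0 : (t : ℝ) ≠ 0 := by
      intro e
      rw [e] at he
      apply h0
      linarith
    have n1 : (t : ℝ) ≠ 1 := by
      intro e
      rw [e] at he
      apply h1
      linarith
    have p0 : 0 < (t : ℝ) := lt_of_le_of_ne t0 (Ne.symm n0)
    have p1 : (t : ℝ) < 1 := lt_of_le_of_ne t1 n1
    have hne : (a.1 i).re ≠ (b.1 i).re := by
      intro e
      apply h0
      rw [← he, ← e]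
      ring
    rcases lt_or_gt_of_ne hne with hlt | hlt
    · refine ⟨?_, ?_⟩
      · rw [min_eq_left hlt.le, ← he]
        nlinarith
      · rw [max_eq_right hlt.le, ← he]
        nlinarith
    · refine ⟨?_, ?_⟩
      · rw [min_eq_right hlt.le, ← he]
        nlinarith
      · rw [max_eq_left hlt.le, ← he]
        nlinarith
  by_cases hex : ∃ j, j ≠ i ∧ Btw a b i j
  · obtain ⟨j, hji, hbj⟩ := hex
    have hcase : ∀ (t : unitInterval) (u v : Fin k), u ≠ v → ((γ t).1 u).re = ((γ t).1 v).re →
        (u = i ∧ v = j) ∨ (u = j ∧ v = i) := by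
      intro t u v huv he
      rcases eq_or_ne u i with hu | hu
      · left
        have hv : v ≠ i := by
          rw [← hu]
          exact huv.symm
        refine ⟨hu, ?_⟩
        rw [hu, hrj t v hv] at he
        exact hone v j hv hji (hbt t v hv he) hbj
      · rcases eq_or_ne v i with hv | hv
        · right
          refine ⟨?_, hv⟩
          rw [hv, hrj t u hu] at he
          exact hone u j hu hji (hbt t u hu he.symm) hbj
        · exfalso
          rw [hrj t u hu, hrj t v hv] at he
          exact huv (ha he)
    have hbre : (b.1 j).re = (a.1 j).re := by rw [hj j hji]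
    obtain ⟨hb1, hb2⟩ := hbj
    -- the imaginary parts differ
    have himne : (a.1 i).im ≠ (a.1 j).im := by
      intro e
      have hc : Continuous (fun t : unitInterval => ((γ t).1 i).re) := by
        have h : Continuous (fun t => (γ t).1) := continuous_subtype_val.comp γ.continuous
        exact Complex.continuous_re.comp ((continuous_apply i).comp h)
      have hex : ∃ t : unitInterval, ((γ t).1 i).re = (a.1 j).re := by
        rcases le_total (a.1 i).re (b.1 i).re with hle | hle
        · rw [min_eq_left hle] at hb1
          rw [max_eq_right hle] at hb2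
          exact mem_range_of_exists_le_of_exists_ge hc ⟨0, by simpa using hb1.le⟩
            ⟨1, by simpa using hb2.le⟩
        · rw [min_eq_right hle] at hb1
          rw [max_eq_left hle] at hb2
          exact mem_range_of_exists_le_of_exists_ge hc ⟨1, by simpa using hb1.le⟩
            ⟨0, by simpa using hb2.le⟩
      obtain ⟨t, ht⟩ := hex
      have : (γ t).1 i = (γ t).1 j := by
        apply Complex.ext
        · rw [ht, hrj t j hji]
        · rw [hij, hij, e]
      exact hji ((γ t).2 this).symm
    rcases le_total (a.1 i).re (b.1 i).re with hle | hle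
    · rw [min_eq_left hle] at hb1
      rw [max_eq_right hle] at hb2
      rcases lt_or_gt_of_ne himne with him' | him'
      · -- `i` passes below `j` from left to right
        refine cross_core G γ i j hb1 (by rw [hbre]; exact hb2) (fun t u v huv he => ?_)
        exact ⟨hcase t u v huv he, by rw [hij, hij]; exact him'⟩
      · -- `i` passes above `j` from left to right
        have h5 := cross_core G γ.symm j i (by rw [hbre]; exact hb2) hb1 (fun t u v huv he => ?_)
        · have h6 := goodP_symm G h5
          rwa [Path.symm_symm] at h6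
        · refine ⟨(hcase (unitInterval.symm t) u v huv he).symm, ?_⟩
          change ((γ (unitInterval.symm t)).1 j).im < ((γ (unitInterval.symm t)).1 i).im
          rw [hij, hij]
          exact him'
    · rw [min_eq_right hle] at hb1
      rw [max_eq_left hle] at hb2
      rcases lt_or_gt_of_ne himne with him' | him'
      · have h5 := cross_core G γ.symm i j (by rw [hbre]; exact hb1) hb2 (fun t u v huv he => ?_)
        · have h6 := goodP_symm G h5
          rwa [Path.symm_symm] at h6
        · refine ⟨hcase (unitInterval.symm t) u v huv he, ?_⟩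
          change ((γ (unitInterval.symm t)).1 i).im < ((γ (unitInterval.symm t)).1 j).im
          rw [hij, hij]
          exact him'
      · refine cross_core G γ j i hb2 (by rw [hbre]; exact hb1) (fun t u v huv he => ?_)
        exact ⟨(hcase t u v huv he).symm, by rw [hij, hij]; exact him'⟩
  · apply goodP_reg
    intro t u v he
    by_contra huv
    change ((γ t).1 u).re = ((γ t).1 v).re at he
    rcases eq_or_ne u i with hu | hu
    · have hv : v ≠ i := by
        rw [← hu]
        exact fun h => huv h.symm
      rw [hu, hrj t v hv] at he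
      exact hex ⟨v, hv, hbt t v hv he⟩
    · rcases eq_or_ne v i with hv | hv
      · rw [hv, hrj t u hu] at he
        exact hex ⟨u, hu, hbt t u hu he.symm⟩
      · rw [hrj t u hu, hrj t v hv] at he
        exact huv (ha he)

end AF21
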