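import Pool.Agent.AF21.GoodCross

/-!
# [AF21-ELEM] One point moves horizontally

Proof. Strong induction on the number `n` of labels `j ≠ i` with `Btw a b i j`. If `n ≤ 1`: `good_cross`. Otherwise let `x` be a real
number strictly between `(a i).re` and `(b i).re` such that some but not all of these labels have their real part between
`(a i).re` and `x`, and `x` is not the real part of any `a j`; let `c` be `a` with the point `i` moved to `x + √-1 (a i).im`. It is
regular, it lies on the straight path (`c = γ t₀`, `0 < t₀ < 1`), and `γ` is homotopic to the concatenation of the straight paths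
`a → c → b` (all configurations lie on the segment from `a` to `c` to `b`, which consists of injective vectors; straight-line
homotopy of the parameters). Both pieces have fewer labels; `goodP_trans`, `goodP_congr`.
-/

set_option autoImplicit false

open Set Topology

namespace AF21
variable {k : ℕ} {Y : Type} [TopologicalSpace Y]

theorem elem_cast {a b c a' b' : Conf k} (p : Path a c) (q : Path c b) (r : Path a b) (ha : a' = a)
    (hb : b' = b) (r' : Path a' b') (hr : ∀ t, r t = r' t) (h : (p.trans q).Homotopic r) :
    ((p.cast ha rfl).trans (q.cast rfl hb)).Homotopic r' := by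
  subst ha hb
  have h1 : r = r' := Path.ext (funext hr)
  subst h1
  exact h

open Classical in
/-- the passed labels -/
noncomputable def passed (a b : Conf k) (i : Fin k) : Finset (Fin k) :=
  Finset.univ.filter fun j => j ≠ i ∧ Btw a b i j

theorem mem_passed {a b : Conf k} {i j : Fin k} : j ∈ passed a b i ↔ j ≠ i ∧ Btw a b i j := by
  classical
  simp [passed]

theorem good_elem_aux (G : SymMap k Y) (i : Fin k) (n : ℕ) : ∀ (a b : Conf k), Reg a → Reg b →
    (∀ j, j ≠ i → a.1 j = b.1 j) → (a.1 i).im = (b.1 i).im → ∀ (γ : Path a b),
    (∀ (t : unitInterval) (j : Fin k), (γ t).1 j = (1 - (t : ℝ) : ℂ) * a.1 j + ((t : ℝ) : ℂ) * b.1 j) →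
    (passed a b i).card ≤ n → GoodP G γ := by
  classical
  induction n with
  | zero =>
    intro a b ha hb hj him γ hγ hn
    refine good_cross G i ha hb hj him (fun j j' hj1 hj2 h1 h2 => ?_) γ hγ
    exfalso
    have h3 : passed a b i = ∅ := Finset.card_eq_zero.1 (Nat.le_zero.1 hn)
    have h4 : j ∈ passed a b i := mem_passed.2 ⟨hj1, h1⟩
    rw [h3] at h4
    exact absurd h4 (Finset.notMem_empty j)
  | succ n ih =>
    intro a b ha hb hj him γ hγ hn
    by_cases hle : (passed a b i).card ≤ 1
    · refine good_cross G i ha hb hj him (fun j j' hj1 hj2 h1 h2 => ?_) γ hγ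
      exact Finset.card_le_one.1 hle j (mem_passed.2 ⟨hj1, h1⟩) j' (mem_passed.2 ⟨hj2, h2⟩)
    · rw [not_le] at hle
      obtain ⟨j₁, hm1, j₂, hm2, hne⟩ := Finset.one_lt_card.1 hle
      -- two passed labels in the order of their real parts
      obtain ⟨j₁, j₂, hm1, hm2, hlt⟩ : ∃ j₁ j₂, j₁ ∈ passed a b i ∧ j₂ ∈ passed a b i ∧
          (a.1 j₁).re < (a.1 j₂).re := by
        rcases lt_trichotomy (a.1 j₁).re (a.1 j₂).re with h | h | h
        · exact ⟨j₁, j₂, hm1, hm2, h⟩
        · exact absurd (ha h) hne
        · exact ⟨j₂, j₁, hm2, hm1, h⟩
      obtain ⟨x, hx, hxn⟩ := (Set.Ioo_infinite hlt).exists_notMem_finset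
        (Finset.univ.image fun j => (a.1 j).re)
      have hxa : ∀ j, (a.1 j).re ≠ x := by
        intro j hj
        exact hxn (Finset.mem_image.2 ⟨j, Finset.mem_univ _, hj⟩)
      obtain ⟨-, hb1, hb2⟩ := mem_passed.1 hm1
      obtain ⟨-, hb3, hb4⟩ := mem_passed.1 hm2
      have hx1 : min (a.1 i).re (b.1 i).re < x := hb1.trans hx.1
      have hx2 : x < max (a.1 i).re (b.1 i).re := hx.2.trans hb4
      -- the parameter
      have hab : (b.1 i).re - (a.1 i).re ≠ 0 := by
        intro h
        have h1 : (b.1 i).re = (a.1 i).re := by linarith
        rw [h1] at hx1 hx2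
        rw [min_self] at hx1
        rw [max_self] at hx2
        linarith
      obtain ⟨s, hs⟩ : ∃ s : ℝ, s = (x - (a.1 i).re) / ((b.1 i).re - (a.1 i).re) := ⟨_, rfl⟩
      have hsx : (1 - s) * (a.1 i).re + s * (b.1 i).re = x := by
        rw [hs]
        field_simp
        ring
      have hs01 : 0 ≤ s ∧ s ≤ 1 := by
        rcases lt_or_gt_of_ne (sub_ne_zero.1 hab) with h | h
        · rw [min_eq_right h.le] at hx1
          rw [max_eq_left h.le] at hx2
          constructor
          · by_contra hc
            rw [not_le] at hc
            nlinarith
          · by_contra hc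
            rw [not_le] at hc
            nlinarith
        · rw [min_eq_left h.le] at hx1
          rw [max_eq_right h.le] at hx2
          constructor
          · by_contra hc
            rw [not_le] at hc
            nlinarith
          · by_contra hc
            rw [not_le] at hc
            nlinarith
      let T : unitInterval := ⟨s, hs01⟩
      have hT : (T : ℝ) = s := rfl
      have hci : (γ T).1 i = ⟨x, (a.1 i).im⟩ := by
        rw [hγ, hT]
        apply Complex.ext
        · simp only [Complex.add_re, Complex.mul_re, Complex.sub_re, Complex.one_re, Complex.ofReal_re,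
            Complex.sub_im, Complex.one_im, Complex.ofReal_im]
          rw [← hsx]
          ring
        · simp only [Complex.add_im, Complex.mul_im, Complex.sub_re, Complex.one_re, Complex.ofReal_re,
            Complex.sub_im, Complex.one_im, Complex.ofReal_im]
          rw [← him]
          ring
      have hcj : ∀ j, j ≠ i → (γ T).1 j = a.1 j := by
        intro j h
        rw [hγ, ← hj j h]
        ring
      have hcr : Reg (γ T) := by
        intro u v huv
        change ((γ T).1 u).re = ((γ T).1 v).re at huv
        by_contra hne
        rcases eq_or_ne u i with hu | hu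
        · have hv : v ≠ i := fun h => hne (by rw [hu, h])
          rw [hu, hci, hcj v hv] at huv
          exact hxa v huv.symm
        · rcases eq_or_ne v i with hv | hv
          · rw [hv, hci, hcj u hu] at huv
            exact hxa u huv
          · rw [hcj u hu, hcj v hv] at huv
            exact hne (ha huv)
      -- the first piece
      have hcard1 : (passed a (γ T) i).card ≤ n := by
        have h1 : passed a (γ T) i ⊂ passed a b i := by
          rw [Finset.ssubset_iff_of_subset]
          · rcases le_total (a.1 i).re (b.1 i).re with h | h
            · rw [min_eq_left h] at hx1 hb1 hb3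
              rw [max_eq_right h] at hx2 hb2 hb4
              refine ⟨j₂, hm2, fun hmem => ?_⟩
              obtain ⟨-, h3, h4⟩ := mem_passed.1 hmem
              rw [hci] at h4
              change (a.1 j₂).re < max (a.1 i).re x at h4
              rw [max_eq_right hx1.le] at h4
              exact absurd h4 (not_lt.2 hx.2.le)
            · rw [min_eq_right h] at hx1 hb1 hb3
              rw [max_eq_left h] at hx2 hb2 hb4
              refine ⟨j₁, hm1, fun hmem => ?_⟩
              obtain ⟨-, h3, h4⟩ := mem_passed.1 hmem
              rw [hci] at h3
              change min (a.1 i).re x < (a.1 j₁).re at h3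
              rw [min_eq_right hx2.le] at h3
              exact absurd h3 (not_lt.2 hx.1.le)
          · intro j hjm
            obtain ⟨h2, h3, h4⟩ := mem_passed.1 hjm
            rw [hci] at h3 h4
            change min (a.1 i).re x < (a.1 j).re at h3
            change (a.1 j).re < max (a.1 i).re x at h4
            refine mem_passed.2 ⟨h2, lt_of_le_of_lt ?_ h3, lt_of_lt_of_le h4 ?_⟩
            · exact le_min (min_le_left _ _) hx1.le
            · exact max_le (le_max_left _ _) hx2.le
        have h2 := Finset.card_lt_card h1
        omega
      have hcard2 : (passed (γ T) b i).card ≤ n := by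
        have h1 : passed (γ T) b i ⊂ passed a b i := by
          rw [Finset.ssubset_iff_of_subset]
          · have hj1i := (mem_passed.1 hm1).1
            have hj2i := (mem_passed.1 hm2).1
            rcases le_total (a.1 i).re (b.1 i).re with h | h
            · rw [min_eq_left h] at hx1 hb1 hb3
              rw [max_eq_right h] at hx2 hb2 hb4
              refine ⟨j₁, hm1, fun hmem => ?_⟩
              obtain ⟨-, h3, h4⟩ := mem_passed.1 hmem
              rw [hci, hcj _ hj1i] at h3
              change min x (b.1 i).re < (a.1 j₁).re at h3
              rw [min_eq_left hx2.le] at h3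
              exact absurd h3 (not_lt.2 hx.1.le)
            · rw [min_eq_right h] at hx1 hb1 hb3
              rw [max_eq_left h] at hx2 hb2 hb4
              refine ⟨j₂, hm2, fun hmem => ?_⟩
              obtain ⟨-, h3, h4⟩ := mem_passed.1 hmem
              rw [hci, hcj _ hj2i] at h4
              change (a.1 j₂).re < max x (b.1 i).re at h4
              rw [max_eq_left hx1.le] at h4
              exact absurd h4 (not_lt.2 hx.2.le)
          · intro j hjm
            obtain ⟨h2, h3, h4⟩ := mem_passed.1 hjm
            rw [hci, hcj _ h2] at h3 h4
            change min x (b.1 i).re < (a.1 j).re at h3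
            change (a.1 j).re < max x (b.1 i).re at h4
            refine mem_passed.2 ⟨h2, lt_of_le_of_lt ?_ h3, lt_of_lt_of_le h4 ?_⟩
            · exact le_min hx1.le (min_le_right _ _)
            · exact max_le hx2.le (le_max_right _ _)
        have h2 := Finset.card_lt_card h1
        omega
      -- the pieces
      have hg1 : GoodP G ((γ.subpath 0 T).cast γ.source.symm rfl) := by
        refine ih a (γ T) ha hcr (fun j h => (hcj j h).symm) (by rw [hci]) _ (fun t j => ?_) hcard1
        change (γ (Set.Icc.convexComb 0 T t)).1 j = _
        rw [hγ, hγ]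
        have h1 : ((Set.Icc.convexComb (0 : unitInterval) T t : unitInterval) : ℝ) = t * s := by
          simp [Set.Icc.convexComb, hT]
        rw [h1, hT]
        push_cast
        ring
      have hg2 : GoodP G ((γ.subpath T 1).cast rfl γ.target.symm) := by
        refine ih (γ T) b hcr hb (fun j h => (hcj j h).trans (hj j h)) (by rw [hci, ← him]) _
          (fun t j => ?_) hcard2
        change (γ (Set.Icc.convexComb T 1 t)).1 j = _
        rw [hγ, hγ]
        have h1 : ((Set.Icc.convexComb T (1 : unitInterval) t : unitInterval) : ℝ) =
            (1 - t) * s + t := by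
          simp [Set.Icc.convexComb, hT]
        rw [h1, hT]
        push_cast
        ring
      refine goodP_congr G ?_ (goodP_trans G hcr hg1 hg2)
      refine elem_cast (γ.subpath 0 T) (γ.subpath T 1) (γ.subpath 0 1) _ _ γ (fun t => ?_)
        ⟨Path.Homotopy.subpathTransSubpath γ 0 T 1⟩
      rw [Path.subpath_zero_one]
      rfl

theorem good_elem (G : SymMap k Y) {a b : Conf k} (i : Fin k) (ha : Reg a) (hb : Reg b)
    (hj : ∀ j, j ≠ i → a.1 j = b.1 j) (him : (a.1 i).im = (b.1 i).im) (γ : Path a b)
    (hγ : ∀ (t : unitInterval) (j : Fin k), (γ t).1 j = (1 - (t : ℝ) : ℂ) * a.1 j + ((t : ℝ) : ℂ) * b.1 j) :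
    GoodP G γ :=
  good_elem_aux G i _ a b ha hb hj him γ hγ le_rfl

end AF21
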