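import Pool.Agent.AF21.GoodElem

/-!
# [AF21-SQ] Paths inside a product of disjoint squares

`sep_injective`: vectors in the product of the squares are injective. So `{x : Fin k → ℂ | ∀ j, ...}` is a convex set of injective
vectors, and any two paths with the same end points in `Sq c r` are homotopic (`sq_homotopic`, straight-line homotopy).
`good_sq`. By `sq_homotopic` and `goodP_congr` it suffices to find one good path from `a` to `b` in `Sq c r`.
(1) `a → a'`, `a' = (re a, im b)` (straight path): all configurations have the real parts of `a`, so they are regular: `goodP_reg`.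
(2) choose real numbers `x j`, all different, different from all `re a_i` and all `re b_i`, with `|x j - re c_j| < r`: for example
`x j = re b_j + s (j + 1)` with small `s > 0` avoiding finitely many values. Change the real parts of `a'` to `x j` one label after
the other: after `m` steps the labels `j < m` have real part `x j` and the others `re a_j`; all these configurations are regular,
in `Sq c r`, and two consecutive ones are connected by the straight path in `Sq c r` in which one point moves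
horizontally: `good_elem`, `goodP_trans`. (3) in the same way from `(x, im b)` to `(re b, im b) = b`.
(State a lemma: if `y, z : Fin k → ℝ` are such that all `y`'s and `z`'s are pairwise different, both within `r` of `re c`, then the
configurations `y + √-1 im b` and `z + √-1 im b` are connected by a good path in `Sq c r`; induction on `m`.)
-/

set_option autoImplicit false

open Set Topology

namespace AF21
variable {k : ℕ} {Y : Type} [TopologicalSpace Y]

/-- product of open squares -/
def Sq (c : Fin k → ℂ) (r : ℝ) : Set (Conf k) :=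
  {q | ∀ j, |(q.1 j).re - (c j).re| < r ∧ |(q.1 j).im - (c j).im| < r}

/-- the squares are disjoint -/
def Sep (c : Fin k → ℂ) (r : ℝ) : Prop :=
  ∀ i j, i ≠ j → 2 * r ≤ |(c i).re - (c j).re| ∨ 2 * r ≤ |(c i).im - (c j).im|

theorem sep_injective {c : Fin k → ℂ} {r : ℝ} (hs : Sep c r) (q : Fin k → ℂ)
    (hq : ∀ j, |(q j).re - (c j).re| < r ∧ |(q j).im - (c j).im| < r) : Function.Injective q := by
  intro i j hij
  by_contra hne
  have key : ∀ x y u v : ℝ, x = y → |x - u| < r → |y - v| < r → ¬ 2 * r ≤ |u - v| := by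
    intro x y u v hxy h1 h2 h3
    have h4 : u - v = (y - v) - (x - u) := by rw [hxy]; ring
    have h5 : |u - v| ≤ |y - v| + |x - u| := by rw [h4]; exact abs_sub _ _
    linarith
  rcases hs i j hne with h | h
  · exact key _ _ _ _ (by rw [hij]) (hq i).1 (hq j).1 h
  · exact key _ _ _ _ (by rw [hij]) (hq i).2 (hq j).2 h

/-- convexity of the squares -/
theorem sq_conv {u x y v r t : ℝ} (ht0 : 0 ≤ t) (ht1 : t ≤ 1) (hu : |x - v| < r) (hy : |y - v| < r)
    (h : u = (1 - t) * x + t * y) : |u - v| < r := by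
  have h1 : u - v = (1 - t) * (x - v) + t * (y - v) := by rw [h]; ring
  rw [h1]
  rw [abs_lt] at hu hy ⊢
  rcases eq_or_lt_of_le ht0 with h0 | h0
  · rw [← h0]
    constructor <;> linarith
  · have h2 : 0 ≤ 1 - t := by linarith
    constructor
    · have e1 := mul_lt_mul_of_pos_left hy.1 h0
      have e2 := mul_le_mul_of_nonneg_left hu.1.le h2
      linarith
    · have e1 := mul_lt_mul_of_pos_left hy.2 h0
      have e2 := mul_le_mul_of_nonneg_left hu.2.le h2
      linarith

/-- the straight path in a product of squares -/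
theorem exists_straight {c : Fin k → ℂ} {r : ℝ} (hs : Sep c r) {a b : Conf k} (ha : a ∈ Sq c r)
    (hb : b ∈ Sq c r) : ∃ γ : Path a b, (∀ t, γ t ∈ Sq c r) ∧
      ∀ (t : unitInterval) (j : Fin k), (γ t).1 j = (1 - (t : ℝ) : ℂ) * a.1 j + ((t : ℝ) : ℂ) * b.1 j := by
  have hin : ∀ t : unitInterval, ∀ j,
      |((1 - (t : ℝ) : ℂ) * a.1 j + ((t : ℝ) : ℂ) * b.1 j).re - (c j).re| < r ∧
      |((1 - (t : ℝ) : ℂ) * a.1 j + ((t : ℝ) : ℂ) * b.1 j).im - (c j).im| < r := by
    intro t j
    refine ⟨sq_conv t.2.1 t.2.2 (ha j).1 (hb j).1 ?_, sq_conv t.2.1 t.2.2 (ha j).2 (hb j).2 ?_⟩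
    · simp
    · simp
  refine ⟨⟨⟨fun t => ⟨fun j => (1 - (t : ℝ) : ℂ) * a.1 j + ((t : ℝ) : ℂ) * b.1 j,
    sep_injective hs _ (hin t)⟩, ?_⟩, ?_, ?_⟩, fun t => hin t, fun t j => rfl⟩
  · refine Continuous.subtype_mk ?_ _
    fun_prop
  · apply Subtype.ext
    funext j
    simp
  · apply Subtype.ext
    funext j
    simp

theorem sq_homotopic {c : Fin k → ℂ} {r : ℝ} (hs : Sep c r) {a b : Conf k} (γ γ' : Path a b)
    (h : ∀ t, γ t ∈ Sq c r) (h' : ∀ t, γ' t ∈ Sq c r) : γ.Homotopic γ' := by
  have hin : ∀ x : unitInterval × unitInterval, ∀ j,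
      |((1 - (x.1 : ℝ) : ℂ) * (γ x.2).1 j + ((x.1 : ℝ) : ℂ) * (γ' x.2).1 j).re - (c j).re| < r ∧
      |((1 - (x.1 : ℝ) : ℂ) * (γ x.2).1 j + ((x.1 : ℝ) : ℂ) * (γ' x.2).1 j).im - (c j).im| < r := by
    intro x j
    refine ⟨sq_conv x.1.2.1 x.1.2.2 (h x.2 j).1 (h' x.2 j).1 ?_,
      sq_conv x.1.2.1 x.1.2.2 (h x.2 j).2 (h' x.2 j).2 ?_⟩
    · simp
    · simp
  refine ⟨⟨⟨⟨fun x => ⟨fun j => (1 - (x.1 : ℝ) : ℂ) * (γ x.2).1 j + ((x.1 : ℝ) : ℂ) * (γ' x.2).1 j,
    sep_injective hs _ (hin x)⟩, ?_⟩, ?_, ?_⟩, ?_⟩⟩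
  · refine Continuous.subtype_mk ?_ _
    have h1 : Continuous fun x : unitInterval × unitInterval => (γ x.2).1 :=
      continuous_subtype_val.comp (γ.continuous.comp continuous_snd)
    have h2 : Continuous fun x : unitInterval × unitInterval => (γ' x.2).1 :=
      continuous_subtype_val.comp (γ'.continuous.comp continuous_snd)
    refine continuous_pi fun j => ?_
    have h3 : Continuous fun x : unitInterval × unitInterval => (γ x.2).1 j :=
      (continuous_apply j).comp h1
    have h4 : Continuous fun x : unitInterval × unitInterval => (γ' x.2).1 j :=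
      (continuous_apply j).comp h2
    have h5 : Continuous fun x : unitInterval × unitInterval => ((x.1 : ℝ) : ℂ) :=
      Complex.continuous_ofReal.comp (continuous_subtype_val.comp continuous_fst)
    exact ((continuous_const.sub h5).mul h3).add (h5.mul h4)
  · intro t
    apply Subtype.ext
    funext j
    simp
  · intro t
    apply Subtype.ext
    funext j
    simp
  · intro t x hx
    apply Subtype.ext
    funext j
    rcases hx with hx | hx
    · subst hx
      simp
      ring
    · rw [mem_singleton_iff] at hx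
      subst hx
      simp
      ring

/-- changing the real parts one after the other -/
theorem sq_move (G : SymMap k Y) {c : Fin k → ℂ} {r : ℝ} (hs : Sep c r) {b : Conf k}
    (hbS : b ∈ Sq c r) (hb : Reg b) (m : ℕ) : ∀ a : Conf k, a ∈ Sq c r → Reg a →
    (∀ j, (a.1 j).im = (b.1 j).im) → (∀ i j, i ≠ j → (a.1 i).re ≠ (b.1 j).re) →
    (∀ j : Fin k, m ≤ (j : ℕ) → a.1 j = b.1 j) →
    ∃ γ : Path a b, (∀ t, γ t ∈ Sq c r) ∧ GoodP G γ := by
  induction m with
  | zero =>
    intro a haS ha _ _ h
    have hab : a = b := Subtype.ext (funext fun j => h j (Nat.zero_le _))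
    subst hab
    exact ⟨Path.refl a, fun _ => haS, goodP_reg G _ fun _ => ha⟩
  | succ m ih =>
    intro a haS ha him hx h
    by_cases hm : m < k
    · obtain ⟨i, hi⟩ : ∃ i : Fin k, i = ⟨m, hm⟩ := ⟨_, rfl⟩
      have hiv : (i : ℕ) = m := by rw [hi]
      have hin : ∀ j, |((Function.update a.1 i (b.1 i)) j).re - (c j).re| < r ∧
          |((Function.update a.1 i (b.1 i)) j).im - (c j).im| < r := by
        intro j
        rcases eq_or_ne j i with hj | hj
        · rw [hj, Function.update_self]
          exact hbS i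
        · rw [Function.update_of_ne hj]
          exact haS j
      obtain ⟨a', ha'⟩ : ∃ a' : Conf k, a'.1 = Function.update a.1 i (b.1 i) :=
        ⟨⟨_, sep_injective hs _ hin⟩, rfl⟩
      have hi' : a'.1 i = b.1 i := by rw [ha', Function.update_self]
      have hj' : ∀ j, j ≠ i → a'.1 j = a.1 j := fun j hj => by
        rw [ha', Function.update_of_ne hj]
      have haS' : a' ∈ Sq c r := by
        intro j
        rw [ha']
        exact hin j
      have hreg' : Reg a' := by
        intro u v huv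
        change (a'.1 u).re = (a'.1 v).re at huv
        by_contra hne
        rcases eq_or_ne u i with hu | hu
        · have hv : v ≠ i := fun h => hne (by rw [hu, h])
          rw [hu, hi', hj' v hv] at huv
          exact hx v i hv huv.symm
        · rcases eq_or_ne v i with hv | hv
          · rw [hv, hi', hj' u hu] at huv
            exact hx u i hu huv
          · rw [hj' u hu, hj' v hv] at huv
            exact hne (ha huv)
      obtain ⟨γ₁, h1, h2⟩ := exists_straight hs haS haS'
      have h3 : GoodP G γ₁ := by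
        refine good_elem G i ha hreg' (fun j hj => (hj' j hj).symm) ?_ γ₁ h2
        rw [hi', him]
      obtain ⟨γ₂, h4, h5⟩ := ih a' haS' hreg' (by
        intro j
        rcases eq_or_ne j i with hj | hj
        · rw [hj, hi']
        · rw [hj' j hj, him]) (by
        intro u v huv
        rcases eq_or_ne u i with hu | hu
        · rw [hu, hi']
          intro he
          exact huv (hu.trans (hb he))
        · rw [hj' u hu]
          exact hx u v huv) (by
        intro j hj
        rcases eq_or_ne j i with h6 | h6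
        · rw [h6, hi']
        · rw [hj' j h6]
          refine h j ?_
          have : (j : ℕ) ≠ m := fun h7 => h6 (Fin.ext (h7.trans hiv.symm))
          omega)
      refine ⟨γ₁.trans γ₂, fun t => ?_, goodP_trans G hreg' h3 h5⟩
      rw [Path.trans_apply]
      split_ifs
      · exact h1 _
      · exact h4 _
    · refine ih a haS ha him hx fun j hj => ?_
      have := j.2
      omega

theorem good_sq (G : SymMap k Y) {c : Fin k → ℂ} {r : ℝ} (hs : Sep c r) {a b : Conf k} (ha : Reg a)
    (hb : Reg b) (γ : Path a b) (hγ : ∀ t, γ t ∈ Sq c r) : GoodP G γ := by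
  have haS : a ∈ Sq c r := by
    have := hγ 0
    rwa [γ.source] at this
  have hbS : b ∈ Sq c r := by
    have := hγ 1
    rwa [γ.target] at this
  -- the configuration with the real parts of `a` and the imaginary parts of `b`
  have hin1 : ∀ j, |((⟨(a.1 j).re, (b.1 j).im⟩ : ℂ)).re - (c j).re| < r ∧
      |((⟨(a.1 j).re, (b.1 j).im⟩ : ℂ)).im - (c j).im| < r := fun j => ⟨(haS j).1, (hbS j).2⟩
  obtain ⟨a', ha'⟩ : ∃ a' : Conf k, ∀ j, a'.1 j = ⟨(a.1 j).re, (b.1 j).im⟩ :=
    ⟨⟨fun j => ⟨(a.1 j).re, (b.1 j).im⟩, sep_injective hs _ hin1⟩, fun _ => rfl⟩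
  have hre' : ∀ j, (a'.1 j).re = (a.1 j).re := fun j => by rw [ha']
  have him' : ∀ j, (a'.1 j).im = (b.1 j).im := fun j => by rw [ha']
  have haS' : a' ∈ Sq c r := fun j => by
    rw [hre', him']
    exact ⟨(haS j).1, (hbS j).2⟩
  have hreg' : Reg a' := by
    intro u v huv
    change (a'.1 u).re = (a'.1 v).re at huv
    rw [hre', hre'] at huv
    exact ha huv
  -- generic real parts
  have hcont : ∀ j : Fin k, Continuous fun s : ℝ => (b.1 j).re + s * ((j : ℕ) + 1) := fun j => by
    fun_prop
  have e1 : ∀ j : Fin k, ∀ᶠ s in 𝓝[>] (0 : ℝ), |(b.1 j).re + s * ((j : ℕ) + 1) - (c j).re| < r := by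
    intro j
    have h1 : Continuous fun s : ℝ => |(b.1 j).re + s * ((j : ℕ) + 1) - (c j).re| :=
      ((hcont j).sub continuous_const).abs
    have h2 := h1.tendsto 0
    have h3 : |(b.1 j).re + 0 * (((j : ℕ) : ℝ) + 1) - (c j).re| < r := by
      rw [zero_mul, add_zero]
      exact (hbS j).1
    exact nhdsWithin_le_nhds (h2.eventually_lt_const h3)
  have e2 : ∀ i j : Fin k, i ≠ j → ∀ᶠ s in 𝓝[>] (0 : ℝ),
      (b.1 i).re + s * ((i : ℕ) + 1) ≠ (b.1 j).re + s * ((j : ℕ) + 1) := by
    intro i j hij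
    have h0 : (b.1 i).re + 0 * (((i : ℕ) : ℝ) + 1) ≠ (b.1 j).re + 0 * (((j : ℕ) : ℝ) + 1) := by
      rw [zero_mul, add_zero, zero_mul, add_zero]
      exact fun h => hij (hb h)
    have h1 : IsOpen {s : ℝ | (b.1 i).re + s * (((i : ℕ) : ℝ) + 1) ≠ (b.1 j).re + s * (((j : ℕ) : ℝ) + 1)} :=
      isOpen_ne_fun (hcont i) (hcont j)
    exact nhdsWithin_le_nhds (h1.mem_nhds h0)
  have e3 : ∀ i j : Fin k, i ≠ j → ∀ᶠ s in 𝓝[>] (0 : ℝ),
      (b.1 j).re + s * ((j : ℕ) + 1) ≠ (b.1 i).re := by
    intro i j hij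
    have h0 : (b.1 j).re + 0 * (((j : ℕ) : ℝ) + 1) ≠ (b.1 i).re := by
      rw [zero_mul, add_zero]
      exact fun h => hij (hb h).symm
    have h1 : IsOpen {s : ℝ | (b.1 j).re + s * (((j : ℕ) : ℝ) + 1) ≠ (b.1 i).re} :=
      isOpen_ne_fun (hcont j) continuous_const
    exact nhdsWithin_le_nhds (h1.mem_nhds h0)
  have e4 : ∀ i j : Fin k, ∀ᶠ s in 𝓝[>] (0 : ℝ),
      (b.1 j).re + s * ((j : ℕ) + 1) ≠ (a.1 i).re := by
    intro i j
    rcases eq_or_ne (b.1 j).re (a.1 i).re with h | h
    · filter_upwards [self_mem_nhdsWithin] with s hs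
      have hs' : 0 < s := hs
      have h2 : 0 < s * (((j : ℕ) : ℝ) + 1) := by positivity
      rw [h]
      intro h3
      linarith
    · have h0 : (b.1 j).re + 0 * (((j : ℕ) : ℝ) + 1) ≠ (a.1 i).re := by
        rw [zero_mul, add_zero]
        exact h
      have h1 : IsOpen {s : ℝ | (b.1 j).re + s * (((j : ℕ) : ℝ) + 1) ≠ (a.1 i).re} :=
        isOpen_ne_fun (hcont j) continuous_const
      exact nhdsWithin_le_nhds (h1.mem_nhds h0)
  have e2' : ∀ᶠ s in 𝓝[>] (0 : ℝ), ∀ i j : Fin k, i ≠ j →
      (b.1 i).re + s * ((i : ℕ) + 1) ≠ (b.1 j).re + s * ((j : ℕ) + 1) := by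
    rw [Filter.eventually_all]
    intro i
    rw [Filter.eventually_all]
    intro j
    by_cases hij : i = j
    · exact Filter.Eventually.of_forall fun s h => absurd hij h
    · filter_upwards [e2 i j hij] with s hs _ using hs
  have e3' : ∀ᶠ s in 𝓝[>] (0 : ℝ), ∀ i j : Fin k, i ≠ j →
      (b.1 j).re + s * ((j : ℕ) + 1) ≠ (b.1 i).re := by
    rw [Filter.eventually_all]
    intro i
    rw [Filter.eventually_all]
    intro j
    by_cases hij : i = j
    · exact Filter.Eventually.of_forall fun s h => absurd hij h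
    · filter_upwards [e3 i j hij] with s hs _ using hs
  have e4' : ∀ᶠ s in 𝓝[>] (0 : ℝ), ∀ i j : Fin k,
      (b.1 j).re + s * ((j : ℕ) + 1) ≠ (a.1 i).re := by
    rw [Filter.eventually_all]
    intro i
    rw [Filter.eventually_all]
    intro j
    exact e4 i j
  obtain ⟨s, h1, h2, h3, h4⟩ := ((Filter.eventually_all.2 e1).and (e2'.and (e3'.and e4'))).exists
  -- the intermediate configuration
  have hin2 : ∀ j : Fin k, |((⟨(b.1 j).re + s * ((j : ℕ) + 1), (b.1 j).im⟩ : ℂ)).re - (c j).re| < r ∧
      |((⟨(b.1 j).re + s * ((j : ℕ) + 1), (b.1 j).im⟩ : ℂ)).im - (c j).im| < r :=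
    fun j => ⟨h1 j, (hbS j).2⟩
  obtain ⟨x, hx⟩ : ∃ x : Conf k, ∀ j : Fin k, x.1 j = ⟨(b.1 j).re + s * ((j : ℕ) + 1), (b.1 j).im⟩ :=
    ⟨⟨fun j => ⟨(b.1 j).re + s * ((j : ℕ) + 1), (b.1 j).im⟩, sep_injective hs _ hin2⟩, fun _ => rfl⟩
  have hxre : ∀ j : Fin k, (x.1 j).re = (b.1 j).re + s * ((j : ℕ) + 1) := fun j => by rw [hx]
  have hxim : ∀ j, (x.1 j).im = (b.1 j).im := fun j => by rw [hx]
  have hxS : x ∈ Sq c r := fun j => by
    rw [hxre, hxim]
    exact ⟨h1 j, (hbS j).2⟩
  have hxreg : Reg x := by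
    intro u v huv
    change (x.1 u).re = (x.1 v).re at huv
    by_contra hne
    rw [hxre, hxre] at huv
    exact h2 u v hne huv
  -- the path
  obtain ⟨γ₁, g1, g2⟩ := exists_straight hs haS haS'
  have g3 : GoodP G γ₁ := by
    refine goodP_reg G γ₁ fun t => ?_
    intro u v huv
    change ((γ₁ t).1 u).re = ((γ₁ t).1 v).re at huv
    have g4 : ∀ j, ((γ₁ t).1 j).re = (a.1 j).re := by
      intro j
      rw [g2]
      simp only [Complex.add_re, Complex.mul_re, Complex.sub_re, Complex.one_re,
        Complex.ofReal_re, Complex.sub_im, Complex.one_im, Complex.ofReal_im, hre']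
      ring
    rw [g4, g4] at huv
    exact ha huv
  obtain ⟨γ₂, g5, g6⟩ := sq_move G hs hxS hxreg k a' haS' hreg'
    (fun j => by rw [him', hxim]) (fun i j _ => by
      rw [hre', hxre]
      exact (h4 i j).symm) (fun j hj => absurd j.2 (not_lt.2 hj))
  obtain ⟨γ₃, g7, g8⟩ := sq_move G hs hbS hb k x hxS hxreg hxim (fun i j hij => by
      rw [hxre]
      exact h3 j i hij.symm) (fun j hj => absurd j.2 (not_lt.2 hj))
  refine goodP_congr G (sq_homotopic hs (γ₁.trans (γ₂.trans γ₃)) γ ?_ hγ)
    (goodP_trans G hreg' g3 (goodP_trans G hxreg g6 g8))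
  intro t
  rw [Path.trans_apply]
  split_ifs
  · exact g1 _
  · rw [Path.trans_apply]
    split_ifs
    · exact g5 _
    · exact g7 _

end AF21
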