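import Mathlib

/-!
# [AF21-GRPB] Braid families: basic group theory

`BraidFam k s`: the elements `s 0, ..., s (k-2)` satisfy the braid relations.
`Rel n s m`: `s 0 ^ m_0 * s 2 ^ m_1 * ... * s (2n-2) ^ m_{n-1} = 1`.

`bf_conj1`: `s i * s (i+1) * s i = s (i+1) * s i * s (i+1)` gives `(s i * s (i+1)) * s i * (s i * s (i+1))⁻¹ = s (i+1)`.
`bf_conj2`: `t = s (i+1) * s i * s (i+2) * s (i+1)` satisfies `t * s i * t⁻¹ = s (i+2)` and `t * s (i+2) * t⁻¹ = s i`.
`rel_perm`: conjugating the relation by `t_j = s (2j+1) * s (2j) * s (2j+2) * s (2j+1)` exchanges `s (2j)` and `s (2j+2)` and fixes the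
other `s (2i)`; all `s (2i)` commute, so the product can be reordered: the exponents `m_j, m_{j+1}` are exchanged. These
transpositions generate all permutations (`Equiv.Perm.mclosure_swap_castSucc_succ` or induction).
`adj_all`: `s i ^ d = s (i+1) ^ d` for one `i` implies it for all: conjugation by `s 0 * s 1 * ... * s (k-2)` maps `s i` to `s (i+1)`;
or step by step: conjugation by `g = s (i+1) * s (i+2)`... (`bf_conj1`: use `h = s i * s (i+1) * s (i+2)`: `h * s i * h⁻¹ = s (i+1)`,
`h * s (i+1) * h⁻¹ = s (i+2)`).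
`diff_rel`: if `Rel n s m`, `n ≥ 2`, `2n ≤ k`, `k ≥ 5`, `i ≠ j`, then with `d = m i - m j`: `s 0 ^ d = s 1 ^ d`. Proof: exchanging the
exponents `m i, m j` and comparing, `s (2i) ^ d = s (2j) ^ d`; by permutation (apply `rel_perm` to the relation
`d (e_i - e_j)`) we get `s 0 ^ d = s 2 ^ d`; conjugation by `s 2 * s 3` fixes `s 0` and maps `s 2` to `s 3`, so `s 0 ^ d = s 3 ^ d`,
`s 2 ^ d = s 3 ^ d`, and `adj_all`.
-/

set_option autoImplicit false

namespace AF21

/-- braid relations for `s 0, ..., s (k-2)` -/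
structure BraidFam {Γ : Type} [Group Γ] (k : ℕ) (s : ℕ → Γ) : Prop where
  braid : ∀ i, i + 2 < k → s i * s (i + 1) * s i = s (i + 1) * s i * s (i + 1)
  comm : ∀ i j, i + 2 ≤ j → j + 1 < k → s i * s j = s j * s i

/-- the relation with exponents `m` -/
def Rel {Γ : Type} [Group Γ] (n : ℕ) (s : ℕ → Γ) (m : Fin n → ℤ) : Prop :=
  (List.ofFn fun j : Fin n => s (2 * (j : ℕ)) ^ (m j)).prod = 1

variable {Γ : Type} [Group Γ] {k n : ℕ} {s : ℕ → Γ}

theorem grpb_conj {g x y : Γ} (h : g * x = y * g) : g * x * g⁻¹ = y := by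
  rw [h, mul_inv_cancel_right]

theorem grpb_zpow {g x y : Γ} (h : g * x * g⁻¹ = y) (d : ℤ) : g * x ^ d * g⁻¹ = y ^ d := by
  rw [← h, conj_zpow]

/-- commutation in any order -/
theorem grpb_comm (h : BraidFam k s) {i j : ℕ} (hij : i + 2 ≤ j ∨ j + 2 ≤ i) (hi : i + 1 < k)
    (hj : j + 1 < k) : s i * s j = s j * s i := by
  rcases hij with h1 | h1
  · exact h.comm i j h1 hj
  · exact (h.comm j i h1 hi).symm

theorem bf_conj1 (h : BraidFam k s) (i : ℕ) (hi : i + 2 < k) :
    (s i * s (i + 1)) * s i * (s i * s (i + 1))⁻¹ = s (i + 1) := by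
  apply grpb_conj
  rw [h.braid i hi, mul_assoc]

theorem bf_conj2 (h : BraidFam k s) (i : ℕ) (hi : i + 3 < k) :
    (s (i + 1) * s i * s (i + 2) * s (i + 1)) * s i * (s (i + 1) * s i * s (i + 2) * s (i + 1))⁻¹ = s (i + 2) ∧
    (s (i + 1) * s i * s (i + 2) * s (i + 1)) * s (i + 2) * (s (i + 1) * s i * s (i + 2) * s (i + 1))⁻¹ = s i := by
  have hab : s i * s (i + 1) * s i = s (i + 1) * s i * s (i + 1) := h.braid i (by omega)
  have hbc : s (i + 1) * s (i + 2) * s (i + 1) = s (i + 2) * s (i + 1) * s (i + 2) :=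
    h.braid (i + 1) (by omega)
  have hac : s i * s (i + 2) = s (i + 2) * s i := h.comm i (i + 2) le_rfl (by omega)
  generalize s i = a at *
  generalize s (i + 1) = b at *
  generalize s (i + 2) = c at *
  constructor
  · apply grpb_conj
    calc b * a * c * b * a = b * (a * c) * b * a := by simp only [mul_assoc]
      _ = b * c * (a * b * a) := by rw [hac]; simp only [mul_assoc]
      _ = (b * c * b) * a * b := by rw [hab]; simp only [mul_assoc]
      _ = c * b * (c * a) * b := by rw [hbc]; simp only [mul_assoc]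
      _ = c * (b * a * c * b) := by rw [← hac]; simp only [mul_assoc]
  · apply grpb_conj
    calc b * a * c * b * c = b * a * (c * b * c) := by simp only [mul_assoc]
      _ = (b * a * b) * c * b := by rw [← hbc]; simp only [mul_assoc]
      _ = a * (b * a * c * b) := by rw [← hab]; simp only [mul_assoc]

/-- a conjugation which exchanges the `s (2 i)` by a given permutation -/
theorem grpb_exists_conj (h : BraidFam k s) (hn : 2 * n ≤ k) (σ : Equiv.Perm (Fin n)) :
    ∃ g : Γ, ∀ i : Fin n, g * s (2 * (i : ℕ)) * g⁻¹ = s (2 * ((σ i : Fin n) : ℕ)) := by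
  rcases n with _ | n
  · exact ⟨1, fun i => i.elim0⟩
  have hσ : σ ∈ Submonoid.closure (Set.range fun i : Fin n => Equiv.swap i.castSucc i.succ) := by
    rw [Equiv.Perm.mclosure_swap_castSucc_succ]
    exact Submonoid.mem_top σ
  induction hσ using Submonoid.closure_induction with
  | one => exact ⟨1, fun i => by simp⟩
  | mul σ τ _ _ hσ hτ =>
    obtain ⟨g, hg⟩ := hσ
    obtain ⟨g', hg'⟩ := hτ
    refine ⟨g * g', fun i => ?_⟩
    rw [Equiv.Perm.mul_apply, ← hg, ← hg', mul_inv_rev]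
    simp only [mul_assoc]
  | mem σ hσ =>
    obtain ⟨j, rfl⟩ := hσ
    have hj := j.2
    refine ⟨s (2 * (j : ℕ) + 1) * s (2 * (j : ℕ)) * s (2 * (j : ℕ) + 2) * s (2 * (j : ℕ) + 1),
      fun i => ?_⟩
    have h2 := bf_conj2 h (2 * (j : ℕ)) (by omega)
    change _ = s (2 * ((Equiv.swap j.castSucc j.succ i : Fin (n + 1)) : ℕ))
    by_cases h3 : i = j.castSucc
    · rw [h3, Equiv.swap_apply_left, Fin.val_succ, Fin.val_castSucc]
      exact h2.1
    by_cases h4 : i = j.succ
    · rw [h4, Equiv.swap_apply_right, Fin.val_succ, Fin.val_castSucc]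
      exact h2.2
    rw [Equiv.swap_apply_of_ne_of_ne h3 h4]
    apply grpb_conj
    have h3' : (i : ℕ) ≠ j := fun e => h3 (Fin.ext e)
    have h4' : (i : ℕ) ≠ j + 1 := fun e => h4 (Fin.ext (by rw [Fin.val_succ]; exact e))
    have hi := i.2
    have c1 : s (2 * (j : ℕ) + 1) * s (2 * (i : ℕ)) = s (2 * (i : ℕ)) * s (2 * (j : ℕ) + 1) :=
      grpb_comm h (by omega) (by omega) (by omega)
    have c0 : s (2 * (j : ℕ)) * s (2 * (i : ℕ)) = s (2 * (i : ℕ)) * s (2 * (j : ℕ)) :=
      grpb_comm h (by omega) (by omega) (by omega)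
    have c2 : s (2 * (j : ℕ) + 2) * s (2 * (i : ℕ)) = s (2 * (i : ℕ)) * s (2 * (j : ℕ) + 2) :=
      grpb_comm h (by omega) (by omega) (by omega)
    generalize s (2 * (j : ℕ) + 1) = b at *
    generalize s (2 * (j : ℕ)) = a at *
    generalize s (2 * (j : ℕ) + 2) = c at *
    generalize s (2 * (i : ℕ)) = x at *
    calc b * a * c * b * x = b * a * c * (b * x) := by simp only [mul_assoc]
      _ = b * a * (c * x) * b := by rw [c1]; simp only [mul_assoc]
      _ = b * (a * x) * c * b := by rw [c2]; simp only [mul_assoc]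
      _ = (b * x) * a * c * b := by rw [c0]; simp only [mul_assoc]
      _ = x * (b * a * c * b) := by rw [c1]; simp only [mul_assoc]

/-- the commutative group generated by the `s (2 i)` -/
theorem grpb_exists_comm (h : BraidFam k s) (hn : 2 * n ≤ k) :
    ∃ (H : Type) (_ : CommGroup H) (φ : H →* Γ) (y : Fin n → H), Function.Injective φ ∧
      (∀ j, φ (y j) = s (2 * (j : ℕ))) ∧ ∀ m : Fin n → ℤ, Rel n s m ↔ ∏ j, y j ^ m j = 1 := by
  have hc : ∀ x ∈ Set.range (fun j : Fin n => s (2 * (j : ℕ))),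
      ∀ y ∈ Set.range (fun j : Fin n => s (2 * (j : ℕ))), x * y = y * x := by
    rintro _ ⟨i, rfl⟩ _ ⟨j, rfl⟩
    have hi := i.2
    have hj := j.2
    by_cases h1 : (i : ℕ) = j
    · simp only [h1]
    · exact grpb_comm h (by omega) (by omega) (by omega)
  refine ⟨Subgroup.closure (Set.range (fun j : Fin n => s (2 * (j : ℕ)))),
    Subgroup.closureCommGroupOfComm hc, Subgroup.subtype _,
    fun j => ⟨s (2 * (j : ℕ)), Subgroup.subset_closure ⟨j, rfl⟩⟩, Subtype.val_injective,
    fun j => rfl, fun m => ?_⟩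
  let _ := Subgroup.closureCommGroupOfComm hc
  rw [← List.prod_ofFn]
  unfold Rel
  rw [← (injective_iff_map_eq_one' (Subgroup.subtype
    (Subgroup.closure (Set.range (fun j : Fin n => s (2 * (j : ℕ))))))).1 Subtype.val_injective,
    map_list_prod, List.map_ofFn]
  rfl

theorem rel_perm (h : BraidFam k s) (hn : 2 * n ≤ k) {m : Fin n → ℤ} (hm : Rel n s m)
    (π : Equiv.Perm (Fin n)) : Rel n s (m ∘ π) := by
  obtain ⟨g, hg⟩ := grpb_exists_conj h hn π⁻¹
  obtain ⟨H, _, φ, y, hφ, hy, hR⟩ := grpb_exists_comm h hn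
  have h1 := (hR m).1 hm
  rw [hR]
  apply hφ
  rw [map_one]
  have h2 : φ (∏ j, y (π⁻¹ j) ^ m j) = g * φ (∏ j, y j ^ m j) * g⁻¹ := by
    rw [← List.prod_ofFn, ← List.prod_ofFn, map_list_prod, map_list_prod, List.map_ofFn,
      List.map_ofFn]
    change _ = MulAut.conj g _
    rw [map_list_prod, List.map_ofFn]
    congr 2
    funext j
    simp only [Function.comp_apply, map_zpow, hy, MulAut.conj_apply, hg]
  rw [h1, map_one, mul_one, mul_inv_cancel] at h2
  rw [← h2]
  congr 1
  rw [← Equiv.prod_comp π⁻¹]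
  refine Finset.prod_congr rfl fun j _ => ?_
  simp

theorem grpb_adj (h : BraidFam k s) (d : ℤ) (j : ℕ) (hj : j + 3 < k) :
    s j ^ d = s (j + 1) ^ d ↔ s (j + 1) ^ d = s (j + 2) ^ d := by
  have hab : s j * s (j + 1) * s j = s (j + 1) * s j * s (j + 1) := h.braid j (by omega)
  have hbc : s (j + 1) * s (j + 2) * s (j + 1) = s (j + 2) * s (j + 1) * s (j + 2) :=
    h.braid (j + 1) (by omega)
  have hac : s j * s (j + 2) = s (j + 2) * s j := h.comm j (j + 2) le_rfl (by omega)
  generalize s j = a at *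
  generalize s (j + 1) = b at *
  generalize s (j + 2) = c at *
  have h1 : (a * b * c) * a * (a * b * c)⁻¹ = b := by
    apply grpb_conj
    calc a * b * c * a = a * b * (c * a) := by simp only [mul_assoc]
      _ = (a * b * a) * c := by rw [← hac]; simp only [mul_assoc]
      _ = b * (a * b * c) := by rw [hab]; simp only [mul_assoc]
  have h2 : (a * b * c) * b * (a * b * c)⁻¹ = c := by
    apply grpb_conj
    calc a * b * c * b = a * (b * c * b) := by simp only [mul_assoc]
      _ = (a * c) * b * c := by rw [hbc]; simp only [mul_assoc]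
      _ = c * (a * b * c) := by rw [hac]; simp only [mul_assoc]
  have e1 := grpb_zpow h1 d
  have e2 := grpb_zpow h2 d
  constructor
  · intro e
    rw [e] at e1
    rw [← e1.symm.trans e2]
  · intro e
    exact mul_left_cancel (mul_right_cancel (e1.trans (e.trans e2.symm)))

theorem adj_all (h : BraidFam k s) (d : ℤ) {i : ℕ} (hi : i + 2 < k) (hd : s i ^ d = s (i + 1) ^ d) (j : ℕ)
    (hj : j + 2 < k) : s j ^ d = s (j + 1) ^ d := by
  have key : ∀ j, j + 2 < k → (s j ^ d = s (j + 1) ^ d ↔ s 0 ^ d = s 1 ^ d) := by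
    intro j
    induction j with
    | zero => intro _; exact Iff.rfl
    | succ j ih =>
      intro hj
      rw [← ih (by omega)]
      exact (grpb_adj h d j (by omega)).symm
  rw [key j hj]
  exact (key i hi).1 hd

/-- two different indices can be moved to `0` and `1` -/
theorem grpb_exists_perm {i j : Fin n} (hij : i ≠ j) :
    ∃ σ : Equiv.Perm (Fin n), ((σ i : Fin n) : ℕ) = 0 ∧ ((σ j : Fin n) : ℕ) = 1 := by
  have hi := i.2
  have hj := j.2
  have hij' : (i : ℕ) ≠ j := fun e => hij (Fin.ext e)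
  let z : Fin n := ⟨0, by omega⟩
  let o : Fin n := ⟨1, by omega⟩
  have hzo : z ≠ o := fun e => by
    have := congrArg Fin.val e
    simp [z, o] at this
  refine ⟨Equiv.swap (Equiv.swap i z j) o * Equiv.swap i z, ?_, ?_⟩
  · rw [Equiv.Perm.mul_apply, Equiv.swap_apply_left, Equiv.swap_apply_of_ne_of_ne _ hzo]
    intro e
    have h1 : Equiv.swap i z i = Equiv.swap i z j := by rw [Equiv.swap_apply_left]; exact e
    exact hij ((Equiv.swap i z).injective h1)
  · rw [Equiv.Perm.mul_apply, Equiv.swap_apply_left]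

theorem diff_rel (h : BraidFam k s) (hn : 2 * n ≤ k) (hk : 4 < k) {m : Fin n → ℤ} (hm : Rel n s m)
    {i j : Fin n} (hij : i ≠ j) (l : ℕ) (hl : l + 2 < k) : s l ^ (m i - m j) = s (l + 1) ^ (m i - m j) := by
  set d := m i - m j with hd
  have h1 := rel_perm h hn hm (Equiv.swap i j)
  obtain ⟨H, _, φ, y, hφ, hy, hR⟩ := grpb_exists_comm h hn
  rw [hR] at hm h1
  have h2 : ∏ a, y a ^ (m a - (m ∘ Equiv.swap i j) a) = 1 := by
    rw [Finset.prod_congr rfl fun a _ => zpow_sub (y a) (m a) ((m ∘ Equiv.swap i j) a),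
      Finset.prod_mul_distrib, Finset.prod_inv_distrib, hm, h1, inv_one, one_mul]
  have h3 : y i ^ d * y j ^ (-d) = 1 := by
    rw [← h2, Finset.prod_eq_mul i j hij]
    · congr 2
      · rw [Function.comp_apply, Equiv.swap_apply_left]
      · rw [Function.comp_apply, Equiv.swap_apply_right, hd]
        ring
    · intro a _ ha
      rw [Function.comp_apply, Equiv.swap_apply_of_ne_of_ne ha.1 ha.2, sub_self, zpow_zero]
    · intro h; exact absurd (Finset.mem_univ _) h
    · intro h; exact absurd (Finset.mem_univ _) h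
  have h4 : s (2 * (i : ℕ)) ^ d = s (2 * (j : ℕ)) ^ d := by
    rw [← hy, ← hy, ← map_zpow, ← map_zpow]
    congr 1
    rw [zpow_neg] at h3
    exact mul_inv_eq_one.1 h3
  obtain ⟨σ, hσi, hσj⟩ := grpb_exists_perm hij
  obtain ⟨g, hg⟩ := grpb_exists_conj h hn σ
  have h5 : s 0 ^ d = s 2 ^ d := by
    have e1 := grpb_zpow (hg i) d
    have e2 := grpb_zpow (hg j) d
    rw [hσi, Nat.mul_zero] at e1
    rw [hσj, Nat.mul_one] at e2
    rw [← e1, ← e2, h4]
  have h6 : (s 2 * s 3) * s 0 * (s 2 * s 3)⁻¹ = s 0 := by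
    apply grpb_conj
    have c2 : s 2 * s 0 = s 0 * s 2 := grpb_comm h (by omega) (by omega) (by omega)
    have c3 : s 3 * s 0 = s 0 * s 3 := grpb_comm h (by omega) (by omega) (by omega)
    rw [mul_assoc, c3, ← mul_assoc, c2, mul_assoc]
  have h7 : (s 2 * s 3) * s 2 * (s 2 * s 3)⁻¹ = s 3 := bf_conj1 h 2 (by omega)
  have h8 : s 2 ^ d = s 3 ^ d := by
    have e1 := grpb_zpow h6 d
    have e2 := grpb_zpow h7 d
    rw [h5] at e1
    rw [← e2, e1]
  exact adj_all h d (i := 2) (by omega) h8 l hl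

end AF21
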