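import Pool.Agent.AF21.GrpBasic

/-!
# [AF21-GRPO] The case `2 n + 1 ≤ k`

Proof. The set `{d : ℤ | s (2n-2) ^ d = s (2n-1) ^ d}` is a subgroup of `ℤ` (closed under addition: `x ^ (d+e)`), so it is
`d₀ ℤ`. Let `p` be a prime with `p ∣ d₀`, and let `m` be a relation with some `m j` not divisible by `p`; by `rel_perm` we may assume
`j = n-1` (last). Conjugation by `h = s (2n-2) * s (2n-1)` (`2n - 1 ≤ k - 2`) maps `s (2n-2)` to `s (2n-1)` (`bf_conj1`) and fixes
`s 0, s 2, ..., s (2n-4)`. Comparing the relation with its conjugate: `s (2n-2) ^ m_{n-1} = s (2n-1) ^ m_{n-1}`, so `d₀ ∣ m_{n-1}`, a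
contradiction. So `d₀ = ±1` (if `d₀ = 0` every prime divides it), `s (2n-2) = s (2n-1)`, and `adj_all` with `d = 1`.
-/

set_option autoImplicit false

open Set

namespace AF21
variable {Γ : Type} [Group Γ] {k n : ℕ} {s : ℕ → Γ}

theorem grp_odd (h : BraidFam k s) (hn : 1 ≤ n) (hk : 2 * n + 1 ≤ k)
    (hrel : ∀ p : ℕ, p.Prime → ∃ m : Fin n → ℤ, (¬ ∀ j, (p : ℤ) ∣ m j) ∧ Rel n s m) (i : ℕ)
    (hi : i + 2 < k) : s i = s (i + 1) := by
  obtain ⟨N, rfl⟩ : ∃ N, n = N + 1 := ⟨n - 1, by omega⟩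
  -- the subgroup of exponents
  let D : AddSubgroup ℤ :=
    { carrier := {d : ℤ | s (2 * N) ^ d = s (2 * N + 1) ^ d}
      zero_mem' := by simp
      add_mem' := by
        intro a b ha hb
        simp only [mem_setOf_eq] at ha hb ⊢
        rw [zpow_add, zpow_add, ha, hb]
      neg_mem' := by
        intro a ha
        simp only [mem_setOf_eq] at ha ⊢
        rw [zpow_neg, zpow_neg, ha] }
  have hD : ∀ d : ℤ, d ∈ D ↔ s (2 * N) ^ d = s (2 * N + 1) ^ d := fun d => Iff.rfl
  -- every prime misses an element of D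
  have key : ∀ p : ℕ, p.Prime → ∃ a : ℤ, ¬ (p : ℤ) ∣ a ∧ a ∈ D := by
    intro p hp
    obtain ⟨m, hm, hr⟩ := hrel p hp
    push Not at hm
    obtain ⟨j, hj⟩ := hm
    have hr' := rel_perm h (by omega) hr (Equiv.swap j (Fin.last N))
    refine ⟨m j, hj, ?_⟩
    rw [hD]
    unfold Rel at hr'
    rw [List.ofFn_succ', List.concat_eq_append, List.prod_append, List.prod_singleton] at hr'
    simp only [Function.comp_apply, Equiv.swap_apply_right, Fin.val_last, Fin.val_castSucc] at hr'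
    set A := (List.ofFn fun i : Fin N =>
      s (2 * (i : ℕ)) ^ m ((Equiv.swap j (Fin.last N)) i.castSucc)).prod with hA
    have hcomm : Commute (s (2 * N) * s (2 * N + 1)) A := by
      rw [hA]
      apply Commute.list_prod_right
      intro x hx
      rw [List.mem_ofFn] at hx
      obtain ⟨i, rfl⟩ := hx
      apply Commute.zpow_right
      apply Commute.mul_left
      · exact (h.comm (2 * (i : ℕ)) (2 * N) (by have := i.2; omega) (by omega)).symm
      · exact (h.comm (2 * (i : ℕ)) (2 * N + 1) (by have := i.2; omega) (by omega)).symm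
    have hx : s (2 * N) ^ m j = A⁻¹ := (inv_eq_of_mul_eq_one_right hr').symm
    have hcx : Commute (s (2 * N) * s (2 * N + 1)) (s (2 * N) ^ m j) := by
      rw [hx]; exact hcomm.inv_right
    have hy : s (2 * N + 1) ^ m j =
        (s (2 * N) * s (2 * N + 1)) * s (2 * N) ^ m j * (s (2 * N) * s (2 * N + 1))⁻¹ := by
      rw [← conj_zpow, bf_conj1 h (2 * N) (by omega)]
    rw [hy, hcx.eq, mul_inv_cancel_right]
  -- D is everything
  have h1 : (1 : ℤ) ∈ D := by
    obtain ⟨d, hd⟩ := Int.subgroup_cyclic D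
    have hmem : ∀ a : ℤ, a ∈ D ↔ d ∣ a := by
      intro a
      rw [hd, ← AddSubgroup.zmultiples_eq_closure, Int.mem_zmultiples_iff]
    have hd1 : d.natAbs = 1 := by
      by_contra hne
      obtain ⟨p, hp, hpd⟩ := Nat.exists_prime_and_dvd hne
      obtain ⟨a, ha, haD⟩ := key p hp
      exact ha ((Int.natCast_dvd.2 hpd).trans ((hmem a).1 haD))
    rw [hmem]
    exact Int.natAbs_dvd_natAbs.1 (by rw [hd1]; exact one_dvd _)
  have h2 : s (2 * N) ^ (1 : ℤ) = s (2 * N + 1) ^ (1 : ℤ) := (hD 1).1 h1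
  have h3 := adj_all h 1 (i := 2 * N) (by omega) h2 i hi
  simpa using h3

end AF21
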