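import Pool.Agent.AF21.Defs

/-!
# Real coordinates on `ℂ^N` (definitions)

`EV N` is the Euclidean space `ℝ^(2N)`, `toC N : EV N ≃L[ℝ] (Fin N → ℂ)`,
`realP Q y` are the values of the polynomials `Q i` at the point `toC N y`, again in real coordinates.
-/

set_option autoImplicit false

open Set Topology
open scoped ContDiff InnerProductSpace

namespace AF21

/-- real coordinates of `ℂ^N` -/
abbrev EV (N : ℕ) := EuclideanSpace ℝ (Fin N ⊕ Fin N)

/-- real coordinates to complex coordinates -/
noncomputable def toC (N : ℕ) : EV N ≃L[ℝ] (Fin N → ℂ) :=
  LinearEquiv.toContinuousLinearEquiv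
    { toFun := fun y j => ⟨y (Sum.inl j), y (Sum.inr j)⟩
      map_add' := by
        intro y z
        funext j
        apply Complex.ext <;> simp
      map_smul' := by
        intro c y
        funext j
        apply Complex.ext <;> simp
      invFun := fun z => WithLp.toLp 2 (Sum.elim (fun j => (z j).re) (fun j => (z j).im))
      left_inv := by
        intro y
        ext j
        rcases j with j | j <;> simp
      right_inv := by
        intro z
        funext j
        apply Complex.ext <;> simp }

theorem toC_apply (N : ℕ) (y : EV N) (j : Fin N) : toC N y j = ⟨y (Sum.inl j), y (Sum.inr j)⟩ := rfl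

/-- a polynomial map in real coordinates -/
noncomputable def realP {N M : ℕ} (Q : Fin M → MvPolynomial (Fin N) ℂ) (y : EV N) : EV M :=
  (toC M).symm (fun i => MvPolynomial.eval (toC N y) (Q i))

end AF21
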