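import Pool.Agent.AF21.MultB

/-!
# [AF21-SARDLOC] Normal lines: a local Sard theorem

Proof. Let `L = fderiv ℝ P c`, `T = ker L`. The map `Φ : V → F × T`, `Φ y = (P y, Π_T (y - c))` is smooth with invertible
derivative at `c`; let `g` be a local inverse, smooth near `Φ c = (0, 0)` (`ContDiffAt.toOpenPartialHomeomorph`,
`ContDiffAt.to_localInverse`), `ξ v = g (0, v)`, defined for `v` in an open ball `B ⊆ T` about `0`, `ContDiffOn`, with
`P (ξ v) = 0`; shrink so that `ξ v ∈ W`, hence `ξ v ∈ X`, and so that every `y ∈ X` in an open neighbourhood `W' ⊆ W` of `c` is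
`ξ v` with `v = Π_T (y - c) ∈ B`.
`θ : B × F → V`, `θ (v, μ) = ξ v + (fderiv ℝ P (ξ v))† μ` is of class `C^1` (adjoint: `ContinuousLinearMap.adjoint`, a continuous
linear isometry on `V →L[ℝ] F`), and `dim (T × F) = dim V` (rank-nullity). Fix a linear equivalence `T × F ≃ V`, and let
`Z` be the image under `θ` of the set of points of `B × F` where the derivative of `θ` is not invertible. `volume Z = 0`
by Sard's theorem in equal dimensions `MeasureTheory.addHaar_image_eq_zero_of_det_fderivWithin_eq_zero` (apply it to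
`θ ∘ (equivalence)⁻¹ : V → V`; `det = 0` iff not invertible).
Let `p ∉ Z`, `y ∈ X ∩ W'`, `⟪p - y, ·⟫ = ⟪μ, fderiv P y ·⟫`. Then `p = θ (v, μ)`, `y = ξ v`, and the derivative of `θ` at
`(v, μ)` is invertible, so `θ` is injective near `(v, μ)` (`HasStrictFDerivAt.toOpenPartialHomeomorph`, or
`HasStrictFDerivAt` approximates). If there were `z_n → y`, `z_n ≠ y`, `z_n ∈ X`, with multipliers `μ_n`
(`⟪p - z_n, ·⟫ = ⟪μ_n, fderiv P z_n ·⟫`), then `z_n = ξ (v_n)`, `v_n → v`, `θ (v_n, μ_n) = p`, and `μ_n → μ`: indeed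
`⟪(p - z_n) - (p - y) - (fderiv P z_n - fderiv P y)† μ, v⟫ = ⟪μ_n - μ, fderiv P z_n v⟫`, so by `mult_bound` (at `c := y`)
`‖μ_n - μ‖ ≤ C (‖z_n - y‖ + ‖fderiv P z_n - fderiv P y‖ ‖μ‖) → 0`. By local injectivity `v_n = v`, `z_n = y`.
(Write it with `ε` instead of sequences: choose a neighbourhood of `(v, μ)` on which `θ` is injective.)
-/

set_option autoImplicit false

open Set Topology
open scoped ContDiff InnerProductSpace

namespace AF21
variable {V F : Type} [NormedAddCommGroup V] [InnerProductSpace ℝ V] [FiniteDimensional ℝ V]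
  [NormedAddCommGroup F] [InnerProductSpace ℝ F] [FiniteDimensional ℝ F]

/-- a right inverse of `L` with values in `(ker L)ᗮ` -/
theorem exists_kappa (L : V →L[ℝ] F) (hs : Function.Surjective L) (T : Submodule ℝ V)
    (hmem : ∀ v, v ∈ T ↔ L v = 0) :
    ∃ κ : F →L[ℝ] V, (∀ μ, L (κ μ) = μ) ∧ (∀ v, T.starProjection v + κ (L v) = v) ∧
      ∀ μ, T.starProjection (κ μ) = 0 := by
  have hLT : ∀ v, L (T.starProjection v) = 0 := fun v => (hmem _).1 (T.starProjection_apply_mem v)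
  obtain ⟨R, hR⟩ := (L : V →ₗ[ℝ] F).exists_rightInverse_of_surjective
    (LinearMap.range_eq_top.2 hs)
  have hR' : ∀ μ, L (R μ) = μ := fun μ => by
    have := LinearMap.congr_fun hR μ
    simpa using this
  have hidem : ∀ v, T.starProjection (T.starProjection v) = T.starProjection v := fun v =>
    T.starProjection_eq_self_iff.2 (T.starProjection_apply_mem v)
  refine ⟨LinearMap.toContinuousLinearMap R
    - T.starProjection.comp (LinearMap.toContinuousLinearMap R), ?_, ?_, ?_⟩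
  · intro μ
    simp [hR', hLT]
  · intro v
    have h1 : ∀ d : V, L d = 0 → T.starProjection d = d := fun d hd =>
      T.starProjection_eq_self_iff.2 ((hmem d).2 hd)
    have h2 := h1 (v - R (L v)) (by simp [hR'])
    rw [map_sub] at h2
    have h4 : (LinearMap.toContinuousLinearMap R - T.starProjection.comp (LinearMap.toContinuousLinearMap R)) (L v)
        = R (L v) - T.starProjection (R (L v)) := rfl
    rw [h4]
    have h3 : T.starProjection v = v - R (L v) + T.starProjection (R (L v)) := by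
      rw [← h2]; abel
    rw [h3]; abel
  · intro μ
    have h4 : (LinearMap.toContinuousLinearMap R - T.starProjection.comp (LinearMap.toContinuousLinearMap R)) μ
        = R μ - T.starProjection (R μ) := rfl
    rw [h4, map_sub, hidem, sub_self]

theorem sard_loc [MeasurableSpace V] [BorelSpace V] {X : Set V} {P : V → F} {W : Set V} (h : LocEq X P W)
    {c : V} (hc : c ∈ W) (hcX : c ∈ X) :
    ∃ W' : Set V, IsOpen W' ∧ c ∈ W' ∧ W' ⊆ W ∧ ∃ Z : Set V, MeasureTheory.volume Z = 0 ∧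
      ∀ p ∉ Z, ∀ y ∈ X, y ∈ W' → (∃ μ : F, ∀ v : V, ⟪p - y, v⟫_ℝ = ⟪μ, fderiv ℝ P y v⟫_ℝ) →
        ∃ ε > 0, ∀ z ∈ X, (∃ μ : F, ∀ v : V, ⟪p - z, v⟫_ℝ = ⟪μ, fderiv ℝ P z v⟫_ℝ) →
          ‖z - y‖ < ε → z = y := by
  have : CompleteSpace V := FiniteDimensional.complete ℝ V
  obtain ⟨L, hL⟩ : ∃ L, L = fderiv ℝ P c := ⟨_, rfl⟩
  obtain ⟨T, hmem⟩ : ∃ T : Submodule ℝ V, ∀ v, v ∈ T ↔ L v = 0 :=
    ⟨LinearMap.ker (L : V →ₗ[ℝ] F), fun v => by simp⟩
  obtain ⟨κ, hLκ, hdec, hpκ⟩ := exists_kappa L (by rw [hL]; exact h.surj c hc) T hmem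
  have hLT : ∀ v, L (T.starProjection v) = 0 := fun v => (hmem _).1 (T.starProjection_apply_mem v)
  have hidem : ∀ v, T.starProjection (T.starProjection v) = T.starProjection v := fun v =>
    T.starProjection_eq_self_iff.2 (T.starProjection_apply_mem v)
  have hPc : P c = 0 := (h.iff c hc).1 hcX
  -- the chart
  let Φ : V → V := fun y => T.starProjection (y - c) + κ (P y)
  have hΦs : ContDiff ℝ ∞ Φ :=
    (T.starProjection.contDiff.comp (contDiff_id.sub contDiff_const)).add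
      (κ.contDiff.comp h.smooth)
  have hΦ' : HasFDerivAt Φ ((ContinuousLinearEquiv.refl ℝ V : V ≃L[ℝ] V) : V →L[ℝ] V) c := by
    have h1 : HasFDerivAt Φ (T.starProjection.comp (ContinuousLinearMap.id ℝ V) + κ.comp L) c := by
      refine HasFDerivAt.add ?_ ?_
      · exact (T.starProjection.hasFDerivAt).comp c ((hasFDerivAt_id c).sub_const c)
      · rw [hL]
        exact (κ.hasFDerivAt).comp c (h.smooth.differentiable (by simp) c).hasFDerivAt
    convert h1 using 1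
    ext v
    exact (hdec v).symm
  have hn : ((2 : ℕ∞) : WithTop ℕ∞) ≠ 0 := by norm_num
  have hΦ2 : ContDiffAt ℝ ((2 : ℕ∞) : WithTop ℕ∞) Φ c := (hΦs.of_le (by exact_mod_cast le_top)).contDiffAt
  obtain ⟨hh, hhcoe, hcs, hct, hinv⟩ : ∃ hh : OpenPartialHomeomorph V V, (hh : V → V) = Φ ∧ c ∈ hh.source ∧
      Φ c ∈ hh.target ∧ ContDiffAt ℝ ((2 : ℕ∞) : WithTop ℕ∞) hh.symm (Φ c) :=
    ⟨hΦ2.toOpenPartialHomeomorph Φ hΦ' hn, ContDiffAt.toOpenPartialHomeomorph_coe _ _ _,
      ContDiffAt.mem_toOpenPartialHomeomorph_source _ _ _,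
      ContDiffAt.image_mem_toOpenPartialHomeomorph_target _ _ _, hΦ2.to_localInverse hΦ' hn⟩
  have hΦc : Φ c = 0 := by simp [Φ, hPc]
  rw [hΦc] at hct hinv
  have hsym0 : hh.symm 0 = c := by
    rw [← hΦc, ← hhcoe]
    exact hh.left_inv hcs
  -- a good ball
  obtain ⟨ε0, hε0, hball⟩ : ∃ ε0 > 0, ∀ q : V, ‖q‖ < ε0 → q ∈ hh.target ∧
      ContDiffAt ℝ ((2 : ℕ∞) : WithTop ℕ∞) hh.symm q ∧ hh.symm q ∈ W := by
    have e1 : ∀ᶠ q in 𝓝 (0 : V), q ∈ hh.target := hh.open_target.mem_nhds hct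
    have e2 : ∀ᶠ q in 𝓝 (0 : V), ContDiffAt ℝ ((2 : ℕ∞) : WithTop ℕ∞) hh.symm q := by
      exact hinv.eventually (by simp)
    have e3 : ∀ᶠ q in 𝓝 (0 : V), hh.symm q ∈ W :=
      hinv.continuousAt.eventually (by rw [hsym0]; exact h.isOpen.mem_nhds hc)
    obtain ⟨ε0, hε0, hb⟩ := Metric.eventually_nhds_iff.1 (e1.and (e2.and e3))
    exact ⟨ε0, hε0, fun q hq => hb (by simpa [dist_eq_norm] using hq)⟩
  let b := stdOrthonormalBasis ℝ V
  let S : V → V := fun v => hh.symm (T.starProjection v)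
    + ∑ i, ⟪fderiv ℝ P (hh.symm (T.starProjection v)) (b i), L v⟫_ℝ • b i
  let Ω : Set V := {v | ‖T.starProjection v‖ < ε0}
  have hSd : ∀ v ∈ Ω, ContDiffAt ℝ ((1 : ℕ∞) : WithTop ℕ∞) S v := by
    intro v hv
    have hx : ContDiffAt ℝ ((1 : ℕ∞) : WithTop ℕ∞) (fun v => hh.symm (T.starProjection v)) v := by
      have h1 : ContDiffAt ℝ ((1 : ℕ∞) : WithTop ℕ∞) hh.symm (T.starProjection v) :=
        (hball _ hv).2.1.of_le (by norm_num)
      exact h1.comp v (T.starProjection.contDiff.contDiffAt)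
    refine hx.add (ContDiffAt.sum fun i _ => ?_)
    refine ContDiffAt.smul (ContDiffAt.inner ℝ ?_ ?_) contDiffAt_const
    · have h2 : ContDiff ℝ ((1 : ℕ∞) : WithTop ℕ∞) (fderiv ℝ P) :=
        h.smooth.fderiv_right (by exact_mod_cast le_top)
      have h3 : ContDiffAt ℝ ((1 : ℕ∞) : WithTop ℕ∞)
          (fun v => fderiv ℝ P (hh.symm (T.starProjection v))) v := h2.contDiffAt.comp v hx
      exact h3.clm_apply contDiffAt_const
    · exact L.contDiff.contDiffAt
  let Z : Set V := S '' {v | v ∈ Ω ∧ (fderiv ℝ S v).det = 0}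
  have hZ : MeasureTheory.volume Z = 0 := by
    refine MeasureTheory.addHaar_image_eq_zero_of_det_fderivWithin_eq_zero MeasureTheory.volume
      (f' := fderiv ℝ S) ?_ ?_
    · intro v hv
      exact ((hSd v hv.1).differentiableAt (by norm_num)).hasFDerivAt.hasFDerivWithinAt
    · intro v hv
      exact hv.2
  let W' : Set V := hh.source ∩ W ∩ {y | ‖Φ y‖ < ε0}
  have hW'o : IsOpen W' :=
    (hh.open_source.inter h.isOpen).inter (isOpen_lt (hΦs.continuous.norm) continuous_const)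
  refine ⟨W', hW'o, ⟨⟨hcs, hc⟩, by simpa [hΦc] using hε0⟩, fun y hy => hy.1.2, Z, hZ, ?_⟩
  intro p hp y hyX hyW' ⟨μ, hμ⟩
  have hΦX : ∀ z ∈ X, z ∈ W' → Φ z = T.starProjection (z - c) := by
    intro z hz hzW
    have : P z = 0 := (h.iff z hzW.1.2).1 hz
    simp [Φ, this]
  -- the point of the normal bundle
  let pt : V → F → V := fun z ν => T.starProjection (z - c) + κ ν
  have hpt1 : ∀ z ν, T.starProjection (pt z ν) = T.starProjection (z - c) := by
    intro z ν
    simp only [pt, map_add, hpκ, add_zero, hidem]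
  have hpt2 : ∀ z ν, L (pt z ν) = ν := by
    intro z ν
    simp only [pt, map_add, hLκ, hLT, zero_add]
  have hS : ∀ z ∈ X, z ∈ W' → ∀ ν : F, (∀ v : V, ⟪p - z, v⟫_ℝ = ⟪ν, fderiv ℝ P z v⟫_ℝ) →
      pt z ν ∈ Ω ∧ S (pt z ν) = p := by
    intro z hz hzW ν hν
    have e1 : hh.symm (T.starProjection (pt z ν)) = z := by
      rw [hpt1, ← hΦX z hz hzW, ← hhcoe]
      exact hh.left_inv hzW.1.1
    refine ⟨?_, ?_⟩
    · change ‖T.starProjection (pt z ν)‖ < ε0
      rw [hpt1, ← hΦX z hz hzW]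
      exact hzW.2
    · change hh.symm (T.starProjection (pt z ν))
        + ∑ i, ⟪fderiv ℝ P (hh.symm (T.starProjection (pt z ν))) (b i), L (pt z ν)⟫_ℝ • b i = p
      rw [e1, hpt2]
      have e2 : p - z = ∑ i, ⟪b i, p - z⟫_ℝ • b i := (b.sum_repr' (p - z)).symm
      have e3 : ∑ i, ⟪fderiv ℝ P z (b i), ν⟫_ℝ • b i = p - z := by
        rw [e2]
        refine Finset.sum_congr rfl fun i _ => ?_
        rw [real_inner_comm ν, ← hν, real_inner_comm]
      rw [e3]; abel
  obtain ⟨hvΩ, hSv⟩ := hS y hyX hyW' μ hμ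
  have hdet : (fderiv ℝ S (pt y μ)).det ≠ 0 := by
    intro h0
    exact hp ⟨pt y μ, ⟨hvΩ, h0⟩, hSv⟩
  have hstr : HasStrictFDerivAt S
      ((ContinuousLinearMap.toContinuousLinearEquivOfDetNeZero (fderiv ℝ S (pt y μ)) hdet : V ≃L[ℝ] V) :
        V →L[ℝ] V) (pt y μ) := by
    rw [ContinuousLinearMap.coe_toContinuousLinearEquivOfDetNeZero]
    exact (hSd _ hvΩ).hasStrictFDerivAt (by norm_num)
  obtain ⟨δ, hδ, hinj⟩ : ∃ δ > 0, ∀ v v' : V, ‖v - pt y μ‖ < δ → ‖v' - pt y μ‖ < δ → S v = S v' → v = v' := by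
    let e := hstr.toOpenPartialHomeomorph S
    have he : pt y μ ∈ e.source := hstr.mem_toOpenPartialHomeomorph_source
    have hec : (e : V → V) = S := hstr.toOpenPartialHomeomorph_coe
    obtain ⟨δ, hδ, hb⟩ := Metric.mem_nhds_iff.1 (e.open_source.mem_nhds he)
    refine ⟨δ, hδ, fun v v' hv hv' hvv => ?_⟩
    refine e.injOn (hb (by simpa [dist_eq_norm] using hv)) (hb (by simpa [dist_eq_norm] using hv')) ?_
    rw [hec]; exact hvv
  -- continuity of the multiplier
  obtain ⟨ρ, hρ, C, hC, hmb⟩ := mult_bound (P := P) (c := y) h.smooth (h.surj y hyW'.1.2)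
  let nu : V → V := fun z => (y - z) - ∑ i, ⟪μ, (fderiv ℝ P z - fderiv ℝ P y) (b i)⟫_ℝ • b i
  have hnuc : Continuous nu := by
    have h2 : Continuous (fderiv ℝ P) := (h.smooth.fderiv_right (m := 0) (by exact_mod_cast le_top)).continuous
    refine (continuous_const.sub continuous_id).sub (continuous_finset_sum _ fun i _ => ?_)
    refine Continuous.smul (Continuous.inner continuous_const ?_) continuous_const
    exact (h2.sub continuous_const).clm_apply continuous_const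
  have hnu0 : nu y = 0 := by simp [nu]
  have hmul : ∀ z ν, (∀ v : V, ⟪p - z, v⟫_ℝ = ⟪ν, fderiv ℝ P z v⟫_ℝ) → ‖z - y‖ < ρ →
      ‖ν - μ‖ ≤ C * ‖nu z‖ := by
    intro z ν hν hz
    refine hmb z hz (ν - μ) (nu z) fun v => ?_
    have e1 : ∀ M : V →L[ℝ] F, ⟪∑ i, ⟪μ, M (b i)⟫_ℝ • b i, v⟫_ℝ = ⟪μ, M v⟫_ℝ := by
      intro M
      have e2 : v = ∑ i, ⟪b i, v⟫_ℝ • b i := (b.sum_repr' v).symm
      rw [sum_inner]
      conv_rhs => rw [e2]
      rw [map_sum, inner_sum]
      refine Finset.sum_congr rfl fun i _ => ?_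
      rw [real_inner_smul_left, map_smul, real_inner_smul_right]
      ring
    simp only [nu]
    rw [inner_sub_left, e1]
    have e3 : ⟪y - z, v⟫_ℝ = ⟪p - z, v⟫_ℝ - ⟪p - y, v⟫_ℝ := by
      rw [← inner_sub_left]; congr 1; abel
    rw [e3, hν, hμ, inner_sub_left]
    simp only [ContinuousLinearMap.sub_apply, inner_sub_right]
    ring
  -- conclusion
  have hcont : ∀ᶠ z in 𝓝 y, ‖z - y‖ + ‖κ‖ * (C * ‖nu z‖) < δ := by
    have hc1 : Continuous fun z => ‖z - y‖ + ‖κ‖ * (C * ‖nu z‖) :=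
      ((continuous_id.sub continuous_const).norm).add
        (continuous_const.mul (continuous_const.mul hnuc.norm))
    have : (fun z => ‖z - y‖ + ‖κ‖ * (C * ‖nu z‖)) y < δ := by simp [hnu0, hδ]
    exact hc1.continuousAt.eventually (gt_mem_nhds this)
  have hW'e : ∀ᶠ z in 𝓝 y, z ∈ W' := hW'o.mem_nhds hyW'
  obtain ⟨ε1, hε1, hb1⟩ := Metric.eventually_nhds_iff.1 (hcont.and hW'e)
  refine ⟨min ε1 ρ, lt_min hε1 hρ, fun z hzX ⟨ν, hν⟩ hz => ?_⟩
  have hz1 := hb1 (y := z) (by simpa [dist_eq_norm] using hz.trans_le (min_le_left _ _))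
  obtain ⟨hz2, hzW'⟩ := hz1
  obtain ⟨_, hSz⟩ := hS z hzX hzW' ν hν
  have hclose : ‖pt z ν - pt y μ‖ < δ := by
    have e1 : pt z ν - pt y μ = T.starProjection (z - y) + κ (ν - μ) := by
      simp only [pt, map_sub]; abel
    rw [e1]
    refine lt_of_le_of_lt (norm_add_le _ _) (lt_of_le_of_lt (add_le_add ?_ ?_) hz2)
    · exact T.norm_starProjection_apply_le _
    · refine (κ.le_opNorm _).trans ?_
      exact mul_le_mul_of_nonneg_left (hmul z ν hν (hz.trans_le (min_le_right _ _))) (norm_nonneg _)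
  have heq := hinj _ _ hclose (by simpa using hδ) (hSz.trans hSv.symm)
  have e2 : Φ z = Φ y := by
    rw [hΦX z hzX hzW', hΦX y hyX hyW', ← hpt1 z ν, ← hpt1 y μ, heq]
  have e3 := congrArg hh.symm e2
  rw [← hhcoe, hh.left_inv hzW'.1.1, hh.left_inv hyW'.1.1] at e3
  exact e3

end AF21
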