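import Pool.Agent.AF21.Defs

/-!
# [AF21-SEGHOM] The loops of a torus form a homomorphism

`seg_add`: the loop of `m + m'` is homotopic to the loop of `m` followed by the loop of `m'`. Proof: in `ℝ^n` (contractible, straight-line
homotopy; simply connected) the straight path from `0` to `m + m'` is homotopic to the straight path from `0` to `m` followed by
the translate `m + t m'` of the straight path from `0` to `m'`; apply `H` (`Path.Homotopic.map`) and periodicity
`H (m + t m') = H (t m')`. `fp (segLoop (m + m')) = fp (segLoop m') * fp (segLoop m)` (`fp_trans`).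
`seg_comm`: hence these classes commute with each other. `seg_zero`, and so `m ↦ fp (segLoop m)` is a homomorphism
`Multiplicative (Fin n → ℤ) → π₁` and `seg_prod` follows from `m = ∑ j, m j • Pi.single j 1` (induction on `n` is not needed:
`List.prod_ofFn`, or induction over `List.finRange`; for commuting elements the order of the product does not matter).
-/

set_option autoImplicit false

open Set Topology

namespace AF21
variable {Y : Type} [TopologicalSpace Y] {n : ℕ}

theorem seg_add (H : C(Fin n → ℝ, Y)) (hH : Per H) (m m' : Fin n → ℤ) :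
    fp (segLoop H hH (m + m')) = fp (segLoop H hH m) * fp (segLoop H hH m') := by
  rw [← fp_trans]
  apply fp_eq
  -- the paths in `ℝ^n`
  let P : Path (0 : Fin n → ℝ) (fun j => ((m j : ℝ) + m' j)) :=
    { toFun := fun t j => (t : ℝ) * (m j + m' j)
      continuous_toFun := by fun_prop
      source' := by funext j; simp
      target' := by funext j; simp }
  let Q : Path (0 : Fin n → ℝ) (fun j => (m' j : ℝ)) :=
    { toFun := fun t j => (t : ℝ) * m' j
      continuous_toFun := by fun_prop
      source' := by funext j; simp
      target' := by funext j; simp }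
  let R : Path (fun j => (m' j : ℝ)) (fun j => ((m j : ℝ) + m' j)) :=
    { toFun := fun t j => (t : ℝ) * m j + m' j
      continuous_toFun := by fun_prop
      source' := by funext j; simp
      target' := by funext j; simp }
  have hh : P.Homotopic (Q.trans R) := SimplyConnectedSpace.paths_homotopic _ _
  have hend : H 0 = H (fun j => ((m j : ℝ) + m' j)) := by
    rw [← hH 0 (m + m')]
    congr 1
    funext j
    simp
  have hm := (hh.map H).pathCast (rfl : H 0 = H 0) hend
  have hA : (P.map H.continuous).cast (rfl : H 0 = H 0) hend = segLoop H hH (m + m') := by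
    ext t
    simp [P, segLoop]
  have hB : ((Q.trans R).map H.continuous).cast (rfl : H 0 = H 0) hend
      = (segLoop H hH m').trans (segLoop H hH m) := by
    ext t
    simp only [Path.cast_coe, Path.map_coe, Function.comp, Path.trans_apply]
    split_ifs with h2
    · rfl
    · exact hH _ m'
  rw [hA, hB] at hm
  exact hm

theorem seg_comm (H : C(Fin n → ℝ, Y)) (hH : Per H) (m m' : Fin n → ℤ) :
    fp (segLoop H hH m) * fp (segLoop H hH m') = fp (segLoop H hH m') * fp (segLoop H hH m) := by
  rw [← seg_add, ← seg_add, add_comm]

theorem seg_zero (H : C(Fin n → ℝ, Y)) (hH : Per H) : fp (segLoop H hH 0) = 1 := by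
  have h := seg_add H hH 0 0
  rw [add_zero] at h
  exact (mul_eq_left.mp h.symm)

/-- the homomorphism `m ↦ [segLoop m]` -/
noncomputable def segHom (H : C(Fin n → ℝ, Y)) (hH : Per H) :
    Multiplicative (Fin n → ℤ) →* FundamentalGroup Y (H 0) where
  toFun m := fp (segLoop H hH (Multiplicative.toAdd m))
  map_one' := seg_zero H hH
  map_mul' _ _ := seg_add H hH _ _

theorem seg_prod (H : C(Fin n → ℝ, Y)) (hH : Per H) (m : Fin n → ℤ) :
    fp (segLoop H hH m) =
      (List.ofFn fun j : Fin n => fp (segLoop H hH (Pi.single j 1)) ^ (m j)).prod := by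
  have h1 : ∀ j : Fin n, fp (segLoop H hH (Pi.single j 1)) ^ (m j)
      = segHom H hH (Multiplicative.ofAdd (m j • Pi.single j 1)) := by
    intro j
    rw [ofAdd_zsmul, map_zpow]
    rfl
  simp only [h1]
  rw [show (List.ofFn fun j : Fin n => segHom H hH (Multiplicative.ofAdd (m j • Pi.single j 1)))
      = (List.ofFn fun j : Fin n => Multiplicative.ofAdd (m j • Pi.single j (1 : ℤ))).map (segHom H hH) from
      List.map_ofFn.symm, ← map_list_prod, List.prod_ofFn, ← ofAdd_sum]
  have h2 : (∑ j : Fin n, m j • (Pi.single j (1 : ℤ) : Fin n → ℤ)) = m := by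
    funext i
    simp [Finset.sum_apply, Pi.single_apply]
  rw [h2]
  rfl

end AF21
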