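import Pool.Agent.AF21.StepEx

/-!
# [AF21-STEPB] Basic properties of proximal steps

Notation `u = x + s (p - x) = (1 - s) x + s p`, `s = t e ∈ [0, 1)`, `a = Ψt t x`, a nearest point of `X` to `u`. For every
`a`: `‖a - u‖² = (1-s) ‖a - x‖² + s ‖a - p‖² - s (1-s) ‖x - p‖²` (identity; expand inner products).
With `‖a - u‖² ≤ ‖x - u‖²` (`x ∈ X`): `(1-s) ‖a - x‖² + s ‖a - p‖² ≤ s ‖x - p‖²` (*).
`step_mem`: for `t > 0` from (*) `‖a - p‖ ≤ ‖x - p‖ ≤ R`; for `t = 0` `a = x`: `step_zero` (`‖x - a‖ ≤ ‖x - x‖ = 0`).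
`step_energy` is (*) for `t = 1`. `step_cont`: from `lip`, `(t, x) ↦ x + (t e)(p - x)` is continuous. `step_lip`: constant 2:
`‖u - u'‖ = (1 - e) ‖x - x'‖`.
-/

set_option autoImplicit false

open Set Topology
open scoped ContDiff InnerProductSpace

namespace AF21
variable {V : Type} [NormedAddCommGroup V] [InnerProductSpace ℝ V] [FiniteDimensional ℝ V]
  {X : Set V} {p : V} {R : ℝ} (D : StepData X p R)

theorem step_id (a x : V) (s : ℝ) :
    ‖(x + s • (p - x)) - a‖ ^ 2 = (1 - s) * ‖a - x‖ ^ 2 + s * ‖a - p‖ ^ 2 - s * (1 - s) * ‖x - p‖ ^ 2 := by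
  have key : ∀ b c : V, ‖s • c - b‖ ^ 2 = (1 - s) * ‖b‖ ^ 2 + s * ‖b - c‖ ^ 2 - s * (1 - s) * ‖c‖ ^ 2 := by
    intro b c
    rw [@norm_sub_sq ℝ, @norm_sub_sq ℝ, norm_smul, inner_smul_left, real_inner_comm b c,
      mul_pow, Real.norm_eq_abs, sq_abs]
    simp only [conj_trivial, RCLike.re_to_real]
    ring
  have e1 : (x + s • (p - x)) - a = s • (p - x) - (a - x) := by abel
  have e2 : a - p = (a - x) - (p - x) := by abel
  have e3 : ‖x - p‖ = ‖p - x‖ := norm_sub_rev _ _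
  rw [e1, e2, e3]
  exact key _ _

theorem step_ineq {x : V} (hx : x ∈ K0 X p R) {t : ℝ} (ht : t ∈ Icc (0 : ℝ) 1) :
    (1 - t * D.e) * ‖D.Ψt t x - x‖ ^ 2 + (t * D.e) * ‖D.Ψt t x - p‖ ^ 2 ≤ (t * D.e) * ‖x - p‖ ^ 2 := by
  have h := (D.near x hx t ht).2 x hx.1
  have h1 := step_id (p := p) (D.Ψt t x) x (t * D.e)
  have h2 := step_id (p := p) x x (t * D.e)
  have h3 : ‖(x + (t * D.e) • (p - x)) - D.Ψt t x‖ ^ 2 ≤ ‖(x + (t * D.e) • (p - x)) - x‖ ^ 2 := by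
    have : ‖(x + (t * D.e) • (p - x)) - D.Ψt t x‖ ≤ ‖(x + (t * D.e) • (p - x)) - x‖ := h
    gcongr
  rw [h1, h2] at h3
  have h4 : ‖x - x‖ = 0 := by simp
  rw [h4] at h3
  nlinarith

theorem step_zero {x : V} (hx : x ∈ K0 X p R) : D.Ψt 0 x = x := by
  have h := step_ineq D hx (t := 0) (by simp)
  simp only [zero_mul, sub_zero, one_mul, add_zero] at h
  have h1 : ‖D.Ψt 0 x - x‖ = 0 := by
    have := norm_nonneg (D.Ψt 0 x - x)
    nlinarith
  exact sub_eq_zero.mp (norm_eq_zero.mp h1)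

theorem step_mem {x : V} (hx : x ∈ K0 X p R) {t : ℝ} (ht : t ∈ Icc (0 : ℝ) 1) : D.Ψt t x ∈ K0 X p R := by
  rcases ht.1.eq_or_lt with h0 | h0
  · rw [← h0, step_zero D hx]
    exact hx
  · have h := step_ineq D hx ht
    have hs : 0 < t * D.e := mul_pos h0 D.e_pos
    have hs1 : 0 ≤ 1 - t * D.e := by
      have := mul_le_mul ht.2 D.e_lt.le D.e_pos.le (by norm_num : (0 : ℝ) ≤ 1)
      linarith
    refine ⟨(D.near x hx t ht).1, ?_⟩
    have h1 : (t * D.e) * ‖D.Ψt t x - p‖ ^ 2 ≤ (t * D.e) * ‖x - p‖ ^ 2 := by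
      have := mul_nonneg hs1 (sq_nonneg ‖D.Ψt t x - x‖)
      linarith
    have h2 : ‖D.Ψt t x - p‖ ^ 2 ≤ ‖x - p‖ ^ 2 := le_of_mul_le_mul_left h1 hs
    have h3 : ‖D.Ψt t x - p‖ ≤ ‖x - p‖ := le_of_sq_le_sq h2 (norm_nonneg _)
    exact h3.trans hx.2

theorem step_maps : MapsTo D.Ψ (K0 X p R) (K0 X p R) := fun _ hx => step_mem D hx (by simp)

theorem step_cont : ContinuousOn (Function.uncurry D.Ψt) (Icc (0 : ℝ) 1 ×ˢ K0 X p R) := by
  have hg : Continuous (fun w : ℝ × V => w.2 + (w.1 * D.e) • (p - w.2)) := by fun_prop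
  intro z hz
  rw [Metric.continuousWithinAt_iff]
  intro ε hε
  obtain ⟨δ, hδ, h⟩ := Metric.continuousAt_iff.mp (hg.continuousAt (x := z)) (ε / 2) (by positivity)
  refine ⟨δ, hδ, fun {w} hw hd => ?_⟩
  have h1 := h hd
  have h2 := D.lip w.2 hw.2 z.2 hz.2 w.1 hw.1 z.1 hz.1
  rw [dist_eq_norm] at h1 ⊢
  exact lt_of_le_of_lt h2 (by linarith)

theorem step_lip : LipschitzOnWith 2 D.Ψ (K0 X p R) := by
  refine LipschitzOnWith.of_dist_le_mul fun x hx y hy => ?_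
  have h := D.lip x hx y hy 1 (by simp) 1 (by simp)
  rw [dist_eq_norm, dist_eq_norm]
  have e1 : (x + (1 * D.e) • (p - x)) - (y + (1 * D.e) • (p - y)) = (1 - D.e) • (x - y) := by
    rw [one_mul, sub_smul, one_smul, smul_sub, smul_sub, smul_sub]
    abel
  rw [e1, norm_smul, Real.norm_eq_abs, abs_of_nonneg (by linarith [D.e_lt])] at h
  refine le_trans h ?_
  have h2 := D.e_pos
  have h3 := norm_nonneg (x - y)
  push_cast
  nlinarith

theorem step_near {x : V} (hx : x ∈ K0 X p R) : IsNear X (x + D.e • (p - x)) (D.Ψ x) := by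
  have h := D.near x hx 1 (by simp)
  rw [one_mul] at h
  simpa [StepData.Ψ, StepData.Ψt] using h

theorem step_energy {x : V} (hx : x ∈ K0 X p R) :
    D.e * ‖D.Ψ x - p‖ ^ 2 + (1 - D.e) * ‖D.Ψ x - x‖ ^ 2 ≤ D.e * ‖x - p‖ ^ 2 := by
  have h := step_ineq D hx (t := 1) (by simp)
  rw [one_mul] at h
  have e : D.Ψ x = D.Ψt 1 x := rfl
  rw [e]
  linarith

end AF21
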