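import Pool.Agent.AF21.Tube

/-!
# [AF21-STEPEX] Existence of proximal steps

Proof. `K = K0 X p R` is compact (closed and bounded, `V` is proper). Take `ρ, q` from `tube`, and
`e = min (1/2) (ρ / (2 (|R| + 1)))`. For `x ∈ K0`, `t ∈ [0,1]` the point `u = x + (t e)(p - x)` has
`‖u - x‖ ≤ e ‖p - x‖ ≤ e |R| < ρ` (note `R ≥ 0` if `K0` is not empty), so `u ∈ thickening ρ K`.
-/

set_option autoImplicit false

open Set Topology
open scoped ContDiff InnerProductSpace

namespace AF21
variable {V F : Type} [NormedAddCommGroup V] [InnerProductSpace ℝ V] [FiniteDimensional ℝ V]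
  [NormedAddCommGroup F] [InnerProductSpace ℝ F] [FiniteDimensional ℝ F]

theorem K0_compact {X : Set V} (hX : IsClosed X) (p : V) (R : ℝ) : IsCompact (K0 X p R) := by
  haveI : ProperSpace V := FiniteDimensional.proper ℝ V
  have h : K0 X p R = X ∩ Metric.closedBall p R := by
    ext x; simp [K0, dist_eq_norm]
  rw [h]
  exact (isCompact_closedBall p R).inter_left hX

theorem step_exists {X : Set V} {l : ℕ} (hX : Nice X F l) (p : V) (R : ℝ) : Nonempty (StepData X p R) := by
  obtain ⟨ρ, hρ, q, hq1, hq2⟩ := tube hX (K0_compact hX.closed p R) (fun x hx => hx.1)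
  have hden : 0 < 2 * (|R| + 1) := by positivity
  have hr : 0 < ρ / (2 * (|R| + 1)) := by positivity
  set e : ℝ := min (1 / 2) (ρ / (2 * (|R| + 1))) with he
  have e_pos : 0 < e := lt_min (by norm_num) hr
  have e_lt : e < 1 := lt_of_le_of_lt (min_le_left _ _) (by norm_num)
  have he2 : e * (|R| + 1) ≤ ρ / 2 := by
    have h1 : e ≤ ρ / (2 * (|R| + 1)) := min_le_right _ _
    rw [le_div_iff₀ hden] at h1
    linarith
  have hmem : ∀ x ∈ K0 X p R, ∀ t ∈ Icc (0 : ℝ) 1,
      x + (t * e) • (p - x) ∈ Metric.thickening ρ (K0 X p R) := by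
    intro x hx t ht
    rw [Metric.mem_thickening_iff]
    refine ⟨x, hx, ?_⟩
    rw [dist_eq_norm, add_sub_cancel_left, norm_smul, Real.norm_eq_abs,
      abs_of_nonneg (mul_nonneg ht.1 e_pos.le), norm_sub_rev]
    have h2 : ‖x - p‖ ≤ |R| := hx.2.trans (le_abs_self R)
    have h3 : t * e ≤ e := by nlinarith [ht.2]
    calc t * e * ‖x - p‖ ≤ e * |R| :=
          mul_le_mul h3 h2 (norm_nonneg _) e_pos.le
      _ ≤ e * (|R| + 1) := by nlinarith
      _ ≤ ρ / 2 := he2
      _ < ρ := by linarith
  exact ⟨{ e := e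
           q := q
           e_pos := e_pos
           e_lt := e_lt
           near := fun x hx t ht => hq1 _ (hmem x hx t ht)
           lip := fun x hx x' hx' t ht t' ht' => hq2 _ (hmem x hx t ht) _ (hmem x' hx' t' ht') }⟩

end AF21
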