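import Pool.Agent.AF21.TorShift

/-!
# [AF21-TCOMB] The path sum of quasi-periodic functions is 1

Proof. (a) For `F j u = ⌊u j / N⌋` (integer division `u j / N`, cast to `R`) the sum is `1`: for `v` in the box and
`π`, the vertices are `v + ` (0 or 1), so `F j (v_{j+1}) - F j (v_j)` is nonzero iff the coordinate `j` goes from
`N-1` to `N` in step `j`, i.e. iff `v j = N-1` and `π j = j`, and then it is `1`. So the product over `j` is `1` if
`v = (N-1, ..., N-1)` and `π = 1`, and `0` otherwise. `sign 1 = 1`.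
(b) `F` satisfies the hypothesis on `G`. For a finset `s ⊆ Fin n` (induction, or for `t ≤ n` and `s = {i | i < t}`) let
`G^s = F` on `s` and `G` outside. `Sg(∏ dG^s)` does not depend on `s`: going from `s` to `insert j s` changes the factor
`j` by `d h (v_j, v_{j+1})` with `h = G j - F j` periodic, `Sg_change` applied to the family `G^s` (which is
quasi-periodic) shows that the difference is `0` (`Finset.mul_prod_erase` to split off the factor `j`, `Sg_sub`).
-/

set_option autoImplicit false

namespace AF21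
open Finset

/-- the floor function family -/
private def flr (R : Type) [CommRing R] (n N : ℕ) (j : Fin n) (u : Fin n → ℤ) : R :=
  ((u j / (N : ℤ) : ℤ) : R)

private lemma flr_quasi {R : Type} [CommRing R] {n N : ℕ} (hN : 0 < N) (j : Fin n) (u m : Fin n → ℤ) :
    flr R n N j (fun a => u a + N * m a) = flr R n N j u + (m j : R) := by
  unfold flr
  have hN0 : (N : ℤ) ≠ 0 := by
    have : (0 : ℤ) < N := by exact_mod_cast hN
    omega
  rw [Int.add_mul_ediv_left _ _ hN0]
  push_cast
  rfl

private lemma flr_diff {R : Type} [CommRing R] {n N : ℕ} (hN : 0 < N) (π : Equiv.Perm (Fin n))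
    (v : Fin n → ℤ) (hv : ∀ a, 0 ≤ v a ∧ v a < N) (j : Fin n) :
    flr R n N j (vtx π v (j + 1)) - flr R n N j (vtx π v j) =
      if π.symm j = j ∧ v j = N - 1 then 1 else 0 := by
  have hNz : (0 : ℤ) < N := by exact_mod_cast hN
  obtain ⟨h0, h1⟩ := hv j
  have hz : v j / (N : ℤ) = 0 := Int.ediv_eq_zero_of_lt h0 h1
  unfold flr vtx
  by_cases hp : π.symm j = j
  · have e1 : ((π.symm j : Fin n) : ℕ) < j + 1 := by rw [hp]; omega
    have e2 : ¬ ((π.symm j : Fin n) : ℕ) < j := by rw [hp]; omega
    rw [if_pos e1, if_neg e2, add_zero, hz]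
    by_cases hvj : v j = N - 1
    · rw [if_pos ⟨hp, hvj⟩, hvj]
      have : ((N : ℤ) - 1 + 1) / N = 1 := by
        rw [sub_add_cancel]
        exact Int.ediv_self (by omega)
      rw [this]
      simp
    · rw [if_neg (show ¬ (π.symm j = j ∧ v j = N - 1) from fun h => hvj h.2)]
      have : (v j + 1) / (N : ℤ) = 0 := Int.ediv_eq_zero_of_lt (by omega) (by omega)
      rw [this]
      simp
  · rw [if_neg (show ¬ (π.symm j = j ∧ v j = N - 1) from fun h => hp h.1)]
    have hne : ((π.symm j : Fin n) : ℕ) ≠ j := fun h => hp (Fin.ext h)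
    have e : (((π.symm j : Fin n) : ℕ) < j + 1) ↔ (((π.symm j : Fin n) : ℕ) < j) := by omega
    simp only [e, sub_self]

private lemma Sg_flr {R : Type} [CommRing R] {n N : ℕ} (hN : 0 < N) :
    Sg n N (fun w => ∏ j : Fin n, (flr R n N j (w (j + 1)) - flr R n N j (w j))) = 1 := by
  have hNz : (0 : ℤ) < N := by exact_mod_cast hN
  unfold Sg
  have hmem : (fun _ : Fin n => (N : ℤ) - 1) ∈
      Fintype.piFinset (fun _ : Fin n => Finset.Ico (0 : ℤ) N) := by
    rw [Fintype.mem_piFinset]
    intro a
    rw [Finset.mem_Ico]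
    omega
  rw [Finset.sum_eq_single (fun _ : Fin n => (N : ℤ) - 1)]
  · rw [Finset.sum_eq_single (1 : Equiv.Perm (Fin n))]
    · have hp : ∏ j : Fin n, (flr R n N j (vtx (1 : Equiv.Perm (Fin n)) (fun _ => (N : ℤ) - 1) (j + 1)) -
          flr R n N j (vtx (1 : Equiv.Perm (Fin n)) (fun _ => (N : ℤ) - 1) j)) = 1 := by
        refine Finset.prod_eq_one fun j _ => ?_
        rw [flr_diff hN _ _ (fun a => ⟨by omega, by omega⟩), if_pos]
        exact ⟨rfl, rfl⟩
      change _ * ∏ j : Fin n, (flr R n N j (vtx (1 : Equiv.Perm (Fin n)) (fun _ => (N : ℤ) - 1) (j + 1)) -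
          flr R n N j (vtx (1 : Equiv.Perm (Fin n)) (fun _ => (N : ℤ) - 1) j)) = 1
      rw [hp]
      simp
    · intro π _ hπ
      have : ∃ j, π.symm j ≠ j := by
        by_contra hcon
        push Not at hcon
        apply hπ
        ext j
        have h1 := hcon j
        rw [Equiv.symm_apply_eq] at h1
        rw [← h1]
        rfl
      obtain ⟨j, hj⟩ := this
      have hz : ∏ j : Fin n, (flr R n N j (vtx π (fun _ => (N : ℤ) - 1) (j + 1)) -
          flr R n N j (vtx π (fun _ => (N : ℤ) - 1) j)) = 0 := by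
        refine Finset.prod_eq_zero (Finset.mem_univ j) ?_
        rw [flr_diff hN _ _ (fun a => ⟨by omega, by omega⟩), if_neg (fun h => hj h.1)]
      change _ * ∏ j : Fin n, (flr R n N j (vtx π (fun _ => (N : ℤ) - 1) (j + 1)) -
          flr R n N j (vtx π (fun _ => (N : ℤ) - 1) j)) = 0
      rw [hz, mul_zero]
    · intro h
      exact absurd (Finset.mem_univ _) h
  · intro v hv hne
    have hv' : ∀ a, 0 ≤ v a ∧ v a < N := by
      intro a
      rw [Fintype.mem_piFinset] at hv
      exact Finset.mem_Ico.1 (hv a)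
    have : ∃ j, v j ≠ N - 1 := by
      by_contra hcon
      push Not at hcon
      exact hne (funext hcon)
    obtain ⟨j, hj⟩ := this
    refine Finset.sum_eq_zero fun π _ => ?_
    have hz : ∏ j : Fin n, (flr R n N j (vtx π v (j + 1)) - flr R n N j (vtx π v j)) = 0 := by
      refine Finset.prod_eq_zero (Finset.mem_univ j) ?_
      rw [flr_diff hN _ _ hv', if_neg (fun h => hj h.2)]
    change _ * ∏ j : Fin n, (flr R n N j (vtx π v (j + 1)) - flr R n N j (vtx π v j)) = 0
    rw [hz, mul_zero]
  · intro h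
    exact absurd hmem h

/-- the mixed family -/
private def mixG {R : Type} [CommRing R] {n : ℕ} (N : ℕ) (G : Fin n → (Fin n → ℤ) → R)
    (s : Finset (Fin n)) (j : Fin n) : (Fin n → ℤ) → R :=
  if j ∈ s then flr R n N j else G j

private lemma mixG_quasi {R : Type} [CommRing R] {n N : ℕ} (hN : 0 < N) (G : Fin n → (Fin n → ℤ) → R)
    (hG : ∀ (j : Fin n) (u m : Fin n → ℤ), G j (fun a => u a + N * m a) = G j u + (m j : R))
    (s : Finset (Fin n)) (j : Fin n) (u m : Fin n → ℤ) :
    mixG N G s j (fun a => u a + N * m a) = mixG N G s j u + (m j : R) := by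
  unfold mixG
  split_ifs with h
  · exact flr_quasi hN j u m
  · exact hG j u m

private lemma mix_step {R : Type} [CommRing R] {n N : ℕ} (hN : 0 < N) (G : Fin n → (Fin n → ℤ) → R)
    (hG : ∀ (j : Fin n) (u m : Fin n → ℤ), G j (fun a => u a + N * m a) = G j u + (m j : R))
    (s : Finset (Fin n)) (j : Fin n) (hj : j ∉ s) :
    Sg n N (fun w => ∏ i : Fin n, (mixG N G (insert j s) i (w (i + 1)) - mixG N G (insert j s) i (w i))) =
    Sg n N (fun w => ∏ i : Fin n, (mixG N G s i (w (i + 1)) - mixG N G s i (w i))) := by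
  have hch := Sg_change hN (mixG N G s) (mixG_quasi hN G hG s)
    (fun u => G j u - flr R n N j u) (by
      intro u m
      rw [hG, flr_quasi hN]
      ring) j
  symm
  rw [← sub_eq_zero, ← Sg_sub, ← hch]
  congr 1
  funext w
  rw [← Finset.mul_prod_erase Finset.univ (fun i => mixG N G s i (w (i + 1)) - mixG N G s i (w i))
      (Finset.mem_univ j),
    ← Finset.mul_prod_erase Finset.univ (fun i => mixG N G (insert j s) i (w (i + 1)) -
      mixG N G (insert j s) i (w i)) (Finset.mem_univ j)]
  have h1 : ∏ i ∈ Finset.univ.erase j, (mixG N G (insert j s) i (w (i + 1)) -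
      mixG N G (insert j s) i (w i)) =
      ∏ i ∈ Finset.univ.erase j, (mixG N G s i (w (i + 1)) - mixG N G s i (w i)) := by
    refine Finset.prod_congr rfl fun i hi => ?_
    have hij : i ≠ j := Finset.ne_of_mem_erase hi
    have : mixG N G (insert j s) i = mixG N G s i := by
      unfold mixG
      simp only [Finset.mem_insert, hij, false_or]
    rw [this]
  have h2 : mixG N G (insert j s) j = flr R n N j := by
    unfold mixG
    simp
  have h3 : mixG N G s j = G j := by
    unfold mixG
    simp [hj]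
  rw [h1]
  simp only [h2, h3]
  ring

theorem Sg_eq_one {R : Type} [CommRing R] {n N : ℕ} (hN : 0 < N) (G : Fin n → (Fin n → ℤ) → R)
    (hG : ∀ (j : Fin n) (u m : Fin n → ℤ), G j (fun a => u a + N * m a) = G j u + (m j : R)) :
    Sg n N (fun w => ∏ j : Fin n, (G j (w (j + 1)) - G j (w j))) = 1 := by
  have key : ∀ s : Finset (Fin n),
      Sg n N (fun w => ∏ i : Fin n, (mixG N G s i (w (i + 1)) - mixG N G s i (w i))) =
      Sg n N (fun w => ∏ j : Fin n, (G j (w (j + 1)) - G j (w j))) := by
    intro s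
    induction s using Finset.induction_on with
    | empty =>
      congr 1
    | insert j s hj ih =>
      rw [mix_step hN G hG s j hj, ih]
  rw [← key Finset.univ, ← Sg_flr (R := R) (n := n) hN]
  congr 1
  funext w
  refine Finset.prod_congr rfl fun i _ => ?_
  unfold mixG
  simp

end AF21
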