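import Pool.Agent.AF21.TorSg

/-!
# [AF21-TCYC] Cyclic rotation of path sums

If `g` depends only on the vertices `w 0, ..., w (n-1)` and is invariant under translations by `N m`, then
`∑ sign π g(v_1, ..., v_n) = (-1)^(n-1) ∑ sign π g(v_0, ..., v_{n-1})`.

Proof. Let `c = finRotate n` (so `c j = j+1` for `j+1 < n`, `c (n-1) = 0`, sign `(-1)^(n-1)`, `sign_finRotate`).
For `(v, π)` put `v' = v_1 = vtx π v 1` (= `v + e_{π 0}`) and `π' = π * c`. For `j < n` we have
`vtx π' v' j = vtx π v (j+1)`: `π'.symm a = c.symm (π.symm a)`; if `π.symm a = 0` then `c.symm` of it is `n-1`,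
which is not `< j`, and the left side is `v' a = v a + 1`, the right side is `v a + 1`. If `π.symm a = x > 0` then
`c.symm x = x - 1`, and `x - 1 < j ↔ x < j + 1`, and `v' a = v a`. So
`g (fun j => vtx π v (j+1)) = g (vtx π' v')` (dependence only on `j < n`) and `sign π' = (-1)^(n-1) sign π`.
So the left side is `(-1)^(n-1) ∑_v ∑_π sign π' g (vtx π' v')`. For a fixed `π` (hence fixed `π'`, and `e_{π 0}`) the
function `v' ↦ g (vtx π' v')` is `N`-periodic in each coordinate, so its sum over the box translated by `e_{π 0}`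
is equal to its sum over the box. [Write `∑_{v ∈ box} F (v + e_a) = ∑_{v ∈ box} F v` for `N`-periodic `F`: use the
bijection of the box which sends `v` to `v + e_a` with the coordinate `a` reduced mod `N`, for instance
`Finset.sum_bij'` with `fun v => Function.update v a (if v a + 1 = N then 0 else v a + 1)` and its inverse; when
`v a + 1 = N` periodicity is used with `m = Pi.single a 1`.] Finally reindex `π ↦ π * c`
(`Equiv.sum_comp (Equiv.mulRight c)`).
-/

set_option autoImplicit false

namespace AF21
open Finset

/-- translation of a periodic function by one unit in one direction -/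
theorem torCyc_shift {R : Type} [CommRing R] {n N : ℕ} (hN : 0 < N) (F : (Fin n → ℤ) → R)
    (hF : ∀ (u m : Fin n → ℤ), F (fun a => u a + N * m a) = F u) (a : Fin n) :
    ∑ v ∈ Fintype.piFinset (fun _ : Fin n => Finset.Ico (0 : ℤ) N),
      F (fun b => v b + if b = a then 1 else 0) =
    ∑ v ∈ Fintype.piFinset (fun _ : Fin n => Finset.Ico (0 : ℤ) N), F v := by
  have hN' : (0 : ℤ) < N := by exact_mod_cast hN
  refine Finset.sum_bij'
    (fun v _ => fun b => if b = a then (if v a + 1 = N then 0 else v a + 1) else v b)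
    (fun v _ => fun b => if b = a then (if v a = 0 then (N : ℤ) - 1 else v a - 1) else v b)
    ?_ ?_ ?_ ?_ ?_
  · intro v hv
    rw [Fintype.mem_piFinset] at hv ⊢
    intro b
    have h1 := Finset.mem_Ico.1 (hv a)
    have h2 := Finset.mem_Ico.1 (hv b)
    rw [Finset.mem_Ico]
    split_ifs <;> omega
  · intro v hv
    rw [Fintype.mem_piFinset] at hv ⊢
    intro b
    have h1 := Finset.mem_Ico.1 (hv a)
    have h2 := Finset.mem_Ico.1 (hv b)
    rw [Finset.mem_Ico]
    split_ifs <;> omega
  · intro v hv
    rw [Fintype.mem_piFinset] at hv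
    have h1 := Finset.mem_Ico.1 (hv a)
    funext b
    simp only [if_true]
    by_cases hb : b = a
    · subst hb
      simp only [if_true]
      split_ifs <;> omega
    · simp only [hb, if_false]
  · intro v hv
    rw [Fintype.mem_piFinset] at hv
    have h1 := Finset.mem_Ico.1 (hv a)
    funext b
    simp only [if_true]
    by_cases hb : b = a
    · subst hb
      simp only [if_true]
      split_ifs <;> omega
    · simp only [hb, if_false]
  · intro v _
    by_cases h : v a + 1 = N
    · have h1 := hF (fun b => if b = a then 0 else v b) (fun b => if b = a then 1 else 0)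
      have h2 : (fun b => (if b = a then (0 : ℤ) else v b) + N * (if b = a then 1 else 0))
          = fun b => v b + if b = a then 1 else 0 := by
        funext b
        by_cases hb : b = a
        · subst hb
          simp only [if_true]
          omega
        · simp only [hb, if_false]
          omega
      rw [h2] at h1
      rw [h1]
      congr 1
      funext b
      simp only [h, if_true]
    · congr 1
      funext b
      simp only [h, if_false]
      by_cases hb : b = a
      · subst hb
        simp only [if_true]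
      · simp only [hb, if_false, add_zero]

theorem torCyc_symm (m : ℕ) (x : Fin (m + 1)) :
    (((finRotate (m + 1)).symm x : Fin (m + 1)) : ℕ) = if (x : ℕ) = 0 then m else (x : ℕ) - 1 := by
  obtain ⟨y, rfl⟩ := (finRotate (m + 1)).surjective x
  rw [Equiv.symm_apply_apply, coe_finRotate]
  have hy := y.isLt
  by_cases h : y = Fin.last m
  · simp [h]
  · have h1 : (y : ℕ) ≠ m := fun h2 => h (Fin.ext h2)
    simp [h]

theorem torCyc_vtx {m : ℕ} (π : Equiv.Perm (Fin (m + 1))) (v : Fin (m + 1) → ℤ) {j : ℕ}
    (hj : j < m + 1) :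
    vtx π v (j + 1) = vtx (π * finRotate (m + 1)) (fun b => v b + if b = π 0 then 1 else 0) j := by
  funext a
  unfold vtx
  have h1 : ((π * finRotate (m + 1)).symm a : Fin (m + 1)) = (finRotate (m + 1)).symm (π.symm a) := rfl
  rw [h1, torCyc_symm]
  have h2 : a = π 0 ↔ ((π.symm a : Fin (m + 1)) : ℕ) = 0 := by
    rw [← Equiv.symm_apply_eq]
    constructor
    · intro h
      rw [h]
      rfl
    · intro h
      exact Fin.ext h
  simp only [h2]
  split_ifs <;> omega

theorem Sg_cyc {R : Type} [CommRing R] {n N : ℕ} (hn : 0 < n) (hN : 0 < N) (g : (ℕ → Fin n → ℤ) → R)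
    (hdep : ∀ w w' : ℕ → Fin n → ℤ, (∀ j < n, w j = w' j) → g w = g w')
    (hper : ∀ (w : ℕ → Fin n → ℤ) (m : Fin n → ℤ), g (fun j a => w j a + N * m a) = g w) :
    Sg n N (fun w => g (fun j => w (j + 1))) = (-1) ^ (n - 1) * Sg n N g := by
  obtain ⟨m, rfl⟩ := Nat.exists_eq_succ_of_ne_zero hn.ne'
  unfold Sg
  rw [Finset.sum_comm, Finset.sum_comm (s := Fintype.piFinset _), Finset.mul_sum]
  refine Eq.trans ?_ (Equiv.sum_comp (Equiv.mulRight (finRotate (m + 1))) _)
  refine Finset.sum_congr rfl fun π _ => ?_
  simp only [Equiv.coe_mulRight]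
  rw [← Finset.mul_sum, ← Finset.mul_sum]
  have h1 : ∑ v ∈ Fintype.piFinset (fun _ : Fin (m + 1) => Finset.Ico (0 : ℤ) N),
      g (fun j => vtx π v (j + 1)) =
      ∑ v ∈ Fintype.piFinset (fun _ : Fin (m + 1) => Finset.Ico (0 : ℤ) N),
        g (vtx (π * finRotate (m + 1)) v) := by
    rw [← torCyc_shift hN (fun v => g (vtx (π * finRotate (m + 1)) v)) ?_ (π 0)]
    · refine Finset.sum_congr rfl fun v _ => ?_
      apply hdep
      intro j hj
      exact torCyc_vtx π v hj
    · intro u k
      rw [← hper (vtx (π * finRotate (m + 1)) u) k]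
      congr 1
      funext j a
      unfold vtx
      ring
  rw [h1, Equiv.Perm.sign_mul, sign_finRotate]
  have h2 : ((-1 : R) ^ m) * (-1) ^ m = 1 := by
    rw [← mul_pow]
    simp
  push_cast
  simp only [Nat.succ_eq_add_one, Nat.add_sub_cancel]
  linear_combination (-(((Equiv.Perm.sign π : ℤ) : R) *
    ∑ v ∈ Fintype.piFinset (fun _ : Fin (m + 1) => Finset.Ico (0 : ℤ) N),
        g (vtx (π * finRotate (m + 1)) v))) * h2

end AF21
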