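import Pool.Agent.AF21.Defs

/-!
# Path sums over the cubes of a torus (definitions)

`[0,N)^n` is the set of base vertices; for `v` in it and a permutation `π` the vertices of the simplex `(v, π)` are
`v_0 = v`, `v_{j+1} = v_j + e_{π j}`, so that `v_n = v + (1,..,1)`.
`Sg n N f` is the alternating sum of `f (v_0, v_1, ...)` over all these simplices.
-/

set_option autoImplicit false

namespace AF21
open Finset

/-- the `j`-th vertex of the simplex of `π` at `v`: the coordinates `π 0, ..., π (j-1)` are raised by one -/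
def vtx {n : ℕ} (π : Equiv.Perm (Fin n)) (v : Fin n → ℤ) (j : ℕ) : Fin n → ℤ :=
  fun a => v a + if ((π.symm a : Fin n) : ℕ) < j then 1 else 0

/-- alternating sum over all simplices of the torus `ℤ^n / N ℤ^n` -/
noncomputable def Sg {R : Type} [CommRing R] (n N : ℕ) (f : (ℕ → Fin n → ℤ) → R) : R :=
  ∑ v ∈ Fintype.piFinset (fun _ : Fin n => Finset.Ico (0 : ℤ) N), ∑ π : Equiv.Perm (Fin n),
    ((Equiv.Perm.sign π : ℤ) : R) * f (vtx π v)

theorem Sg_add {R : Type} [CommRing R] (n N : ℕ) (f g : (ℕ → Fin n → ℤ) → R) :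
    Sg n N (fun w => f w + g w) = Sg n N f + Sg n N g := by
  unfold Sg
  simp only [mul_add, Finset.sum_add_distrib]

theorem Sg_neg {R : Type} [CommRing R] (n N : ℕ) (f : (ℕ → Fin n → ℤ) → R) :
    Sg n N (fun w => - f w) = - Sg n N f := by
  unfold Sg
  simp only [mul_neg, Finset.sum_neg_distrib]

theorem Sg_sub {R : Type} [CommRing R] (n N : ℕ) (f g : (ℕ → Fin n → ℤ) → R) :
    Sg n N (fun w => f w - g w) = Sg n N f - Sg n N g := by
  unfold Sg
  simp only [mul_sub, Finset.sum_sub_distrib]

end AF21
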