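import Pool.Agent.AF21.TorSwap
import Pool.Agent.AF21.TorCyc

/-!
# [AF21-TSHIFT] Changing one factor by a periodic function does not change the path sum

Notation: `dG_i(a,b) = G i b - G i a`, `v_j = w j`. All `dG_i` are invariant under simultaneous translation by
`N m` (from `hG`), and so is `h`.

Claim: `Sg (∏_{i≠j} dG_i(v_i, v_{i+1}) * (h(v_{j+1}) - h(v_j))) = 0`.

Proof. Let `g(w) = ∏_{i<j} dG_i(w_i, w_{i+1}) * h(w_j) * ∏_{i>j} dG_i(w_{i-1}, w_i)`; it depends only on
`w_0, ..., w_{n-1}` and is `N`-periodic.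
(1) `Sg (∏_{i<j} dG_i(v_i,v_{i+1}) * h(v_j) * ∏_{i>j} dG_i(v_i,v_{i+1})) = (-1)^(n-1-j) Sg g`.
  Move the factors `i = j+1, j+2, ..., n-1`, in this order, one step to the left: assume the factors
  `j+1, ..., i-1` are already moved (they use the vertices `v_j, ..., v_{i-1}` only). The only factor which involves
  `v_i` is then `dG_i(v_i, v_{i+1}) = dG_i(v_{i-1}, v_{i+1}) - dG_i(v_{i-1}, v_i)`; the term with
  `dG_i(v_{i-1}, v_{i+1})` does not depend on `v_i` and `0 < i < n`, so it contributes `0` by `Sg_swap`. So moving the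
  factor `i` costs a sign `-1`. After all moves the expression is `g(v_0, ..., v_{n-1})`.
(2) `Sg (∏_{i<j} dG_i(v_i,v_{i+1}) * h(v_{j+1}) * ∏_{i>j} dG_i(v_i,v_{i+1})) = (-1)^j Sg (g(v_1, v_2, ...))`.
  Move the factors `i = j-1, j-2, ..., 0`, in this order, one step to the right: when the factors `i+1, ..., j-1` are
  already moved, the only factor involving `v_{i+1}` is
  `dG_i(v_i, v_{i+1}) = dG_i(v_i, v_{i+2}) - dG_i(v_{i+1}, v_{i+2})`, and `0 < i+1 < n`. The first term contributes `0`.
  After all moves the expression is `g(v_1, ..., v_n)`.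
(3) `Sg_cyc`: `Sg (g(v_1, ...)) = (-1)^(n-1) Sg g`. So the two signs are `(-1)^(n-1-j)` and `(-1)^(j+n-1)`, equal.

A convenient way to organise (1) and (2): for a position function `a : Fin n → ℕ` let
`T a = Sg (fun w => ∏_{i≠j} dG_i (w (a i), w (a i + 1)) * h (w b))` and prove by induction on the number of moved
factors that each single move changes the sign; state one lemma for a single move from `Sg_swap`.
-/

set_option autoImplicit false

namespace AF21
open Finset

/-- the path sum in which the factor `i` sits at the edge `(a i, a i + 1)` and `h` at the vertex `c` -/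
private noncomputable def posT {R : Type} [CommRing R] {n : ℕ} (N : ℕ) (G : Fin n → (Fin n → ℤ) → R)
    (h : (Fin n → ℤ) → R) (j : Fin n) (a : Fin n → ℕ) (c : ℕ) : R :=
  Sg n N (fun w => (∏ i ∈ Finset.univ.erase j, (G i (w (a i + 1)) - G i (w (a i)))) * h (w c))

/-- a single move -/
private lemma posT_move {R : Type} [CommRing R] {n : ℕ} (N : ℕ) (G : Fin n → (Fin n → ℤ) → R)
    (h : (Fin n → ℤ) → R) (j : Fin n) (a : Fin n → ℕ) (c : ℕ) (i₀ : Fin n) (hij : i₀ ≠ j)
    (h0 : 0 < a i₀) (hn : a i₀ < n) (hc : c ≠ a i₀)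
    (ha : ∀ i, i ≠ j → i ≠ i₀ → a i ≠ a i₀ ∧ a i + 1 ≠ a i₀) :
    posT N G h j a c = - posT N G h j (Function.update a i₀ (a i₀ - 1)) c := by
  have hmem : i₀ ∈ Finset.univ.erase j := by simp [hij]
  rw [eq_neg_iff_add_eq_zero]
  unfold posT
  rw [← Sg_add]
  have key : ∀ w : ℕ → Fin n → ℤ,
      (∏ i ∈ Finset.univ.erase j, (G i (w (a i + 1)) - G i (w (a i)))) * h (w c) +
      (∏ i ∈ Finset.univ.erase j, (G i (w (Function.update a i₀ (a i₀ - 1) i + 1)) -
        G i (w (Function.update a i₀ (a i₀ - 1) i)))) * h (w c) =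
      (G i₀ (w (a i₀ + 1)) - G i₀ (w (a i₀ - 1))) *
        (∏ i ∈ (Finset.univ.erase j).erase i₀, (G i (w (a i + 1)) - G i (w (a i)))) * h (w c) := by
    intro w
    rw [← Finset.mul_prod_erase _ _ hmem, ← Finset.mul_prod_erase _
      (fun i => G i (w (Function.update a i₀ (a i₀ - 1) i + 1)) -
        G i (w (Function.update a i₀ (a i₀ - 1) i))) hmem]
    have h1 : ∏ i ∈ (Finset.univ.erase j).erase i₀,
        (G i (w (Function.update a i₀ (a i₀ - 1) i + 1)) -
          G i (w (Function.update a i₀ (a i₀ - 1) i))) =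
        ∏ i ∈ (Finset.univ.erase j).erase i₀, (G i (w (a i + 1)) - G i (w (a i))) := by
      refine Finset.prod_congr rfl fun i hi => ?_
      rw [Function.update_of_ne (Finset.ne_of_mem_erase hi)]
    rw [h1]
    simp only [Function.update_self, Nat.sub_add_cancel h0]
    ring
  simp only [key]
  apply Sg_swap N _ h0 hn
  intro w w' hw
  have e1 : w (a i₀ + 1) = w' (a i₀ + 1) := hw _ (by omega)
  have e2 : w (a i₀ - 1) = w' (a i₀ - 1) := hw _ (by omega)
  rw [e1, e2, hw c hc]
  congr 2
  refine Finset.prod_congr rfl fun i hi => ?_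
  have h2 := ha i (Finset.ne_of_mem_erase (Finset.mem_of_mem_erase hi)) (Finset.ne_of_mem_erase hi)
  rw [hw _ h2.1, hw _ h2.2]

/-- positions after `t` moves to the left -/
private def posL {n : ℕ} (j : Fin n) (t : ℕ) (i : Fin n) : ℕ :=
  if (j : ℕ) < i ∧ (i : ℕ) ≤ j + t then i - 1 else i

/-- positions after `t` moves to the right -/
private def posR {n : ℕ} (j : Fin n) (t : ℕ) (i : Fin n) : ℕ :=
  if (i : ℕ) < j ∧ (j : ℕ) ≤ i + t then i + 1 else i

private lemma posT_left {R : Type} [CommRing R] {n : ℕ} (N : ℕ) (G : Fin n → (Fin n → ℤ) → R)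
    (h : (Fin n → ℤ) → R) (j : Fin n) (t : ℕ) (ht : (j : ℕ) + t < n) :
    posT N G h j (posL j 0) j = (-1) ^ t * posT N G h j (posL j t) j := by
  induction t with
  | zero => simp
  | succ t ih =>
    rw [ih (by omega)]
    set i₀ : Fin n := ⟨j + t + 1, by omega⟩ with hi
    have hv : (i₀ : ℕ) = j + t + 1 := rfl
    have ha : posL j t i₀ = j + t + 1 := by
      unfold posL
      rw [hv, if_neg (by omega)]
    have hm := posT_move N G h j (posL j t) j i₀ (by
        intro hcon
        have := congrArg Fin.val hcon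
        omega) (by omega) (by omega) (by omega) (by
        intro i hij hi0
        have h1 : (i : ℕ) ≠ j := fun hcon => hij (Fin.ext hcon)
        have h2 : (i : ℕ) ≠ i₀ := fun hcon => hi0 (Fin.ext hcon)
        rw [ha]
        unfold posL
        split_ifs with h3 <;> omega)
    have hu : Function.update (posL j t) i₀ (posL j t i₀ - 1) = posL j (t + 1) := by
      funext i
      by_cases hi0 : i = i₀
      · subst hi0
        rw [Function.update_self, ha]
        unfold posL
        rw [hv, if_pos (by omega)]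
      · rw [Function.update_of_ne hi0]
        have h2 : (i : ℕ) ≠ i₀ := fun hcon => hi0 (Fin.ext hcon)
        unfold posL
        split_ifs <;> omega
    rw [hm, hu]
    ring

private lemma posT_right {R : Type} [CommRing R] {n : ℕ} (N : ℕ) (G : Fin n → (Fin n → ℤ) → R)
    (h : (Fin n → ℤ) → R) (j : Fin n) (t : ℕ) (ht : t ≤ (j : ℕ)) :
    posT N G h j (posR j 0) (j + 1) = (-1) ^ t * posT N G h j (posR j t) (j + 1) := by
  induction t with
  | zero => simp
  | succ t ih =>
    rw [ih (by omega)]
    have hjn := j.2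
    set i₀ : Fin n := ⟨j - t - 1, by omega⟩ with hi
    have hv : (i₀ : ℕ) = j - t - 1 := rfl
    have ha : posR j (t + 1) i₀ = j - t := by
      unfold posR
      rw [hv, if_pos (by omega)]
      omega
    have hm := posT_move N G h j (posR j (t + 1)) (j + 1) i₀ (by
        intro hcon
        have := congrArg Fin.val hcon
        omega) (by omega) (by omega) (by omega) (by
        intro i hij hi0
        have h1 : (i : ℕ) ≠ j := fun hcon => hij (Fin.ext hcon)
        have h2 : (i : ℕ) ≠ i₀ := fun hcon => hi0 (Fin.ext hcon)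
        rw [ha]
        unfold posR
        split_ifs with h3 <;> omega)
    have hu : Function.update (posR j (t + 1)) i₀ (posR j (t + 1) i₀ - 1) = posR j t := by
      funext i
      by_cases hi0 : i = i₀
      · subst hi0
        rw [Function.update_self, ha]
        unfold posR
        rw [hv, if_neg (by omega)]
      · rw [Function.update_of_ne hi0]
        have h2 : (i : ℕ) ≠ i₀ := fun hcon => hi0 (Fin.ext hcon)
        unfold posR
        split_ifs <;> omega
    rw [hu] at hm
    rw [hm]
    ring

theorem Sg_change {R : Type} [CommRing R] {n N : ℕ} (hN : 0 < N) (G : Fin n → (Fin n → ℤ) → R)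
    (hG : ∀ (j : Fin n) (u m : Fin n → ℤ), G j (fun a => u a + N * m a) = G j u + (m j : R))
    (h : (Fin n → ℤ) → R) (hh : ∀ u m : Fin n → ℤ, h (fun a => u a + N * m a) = h u) (j : Fin n) :
    Sg n N (fun w => (∏ i ∈ Finset.univ.erase j, (G i (w (i + 1)) - G i (w i))) *
      (h (w (j + 1)) - h (w j))) = 0 := by
  have hjn := j.2
  have e0 : (posL j 0 : Fin n → ℕ) = fun i : Fin n => (i : ℕ) := by
    funext i
    unfold posL
    rw [if_neg (by omega)]
  have e1 : (posR j 0 : Fin n → ℕ) = fun i : Fin n => (i : ℕ) := by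
    funext i
    unfold posR
    rw [if_neg (by omega)]
  have hA := posT_left N G h j (n - 1 - j) (by omega)
  have hB := posT_right N G h j j le_rfl
  -- cyclic rotation
  have hcyc := Sg_cyc (n := n) (by omega) hN
    (fun w => (∏ i ∈ Finset.univ.erase j, (G i (w (posL j (n - 1 - j) i + 1)) -
      G i (w (posL j (n - 1 - j) i)))) * h (w j))
    (by
      intro w w' hw
      rw [hw j hjn]
      congr 1
      refine Finset.prod_congr rfl fun i hi => ?_
      have hi2 := i.2
      have h1 : (i : ℕ) ≠ j := fun hcon => (Finset.ne_of_mem_erase hi) (Fin.ext hcon)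
      have h2 : posL j (n - 1 - j) i + 1 < n := by
        unfold posL
        split_ifs <;> omega
      rw [hw _ h2, hw _ (by omega)])
    (by
      intro w m
      change _ * h (fun a => w j a + N * m a) = _
      rw [hh]
      congr 1
      refine Finset.prod_congr rfl fun i _ => ?_
      rw [hG, hG]
      ring)
  have hBg : posT N G h j (posR j j) (j + 1) =
      Sg n N (fun w => (fun w : ℕ → Fin n → ℤ => (∏ i ∈ Finset.univ.erase j,
        (G i (w (posL j (n - 1 - j) i + 1)) -
        G i (w (posL j (n - 1 - j) i)))) * h (w j)) (fun j => w (j + 1))) := by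
    unfold posT
    congr 1
    funext w
    congr 1
    refine Finset.prod_congr rfl fun i hi => ?_
    have hi2 := i.2
    have h1 : (i : ℕ) ≠ j := fun hcon => (Finset.ne_of_mem_erase hi) (Fin.ext hcon)
    have h2 : posR j j i = posL j (n - 1 - j) i + 1 := by
      unfold posR posL
      split_ifs <;> omega
    rw [h2]
  have hAg : posT N G h j (posL j (n - 1 - j)) j =
      Sg n N (fun w : ℕ → Fin n → ℤ => (∏ i ∈ Finset.univ.erase j,
        (G i (w (posL j (n - 1 - j) i + 1)) -
        G i (w (posL j (n - 1 - j) i)))) * h (w j)) := rfl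
  rw [hBg, hcyc, ← hAg] at hB
  have hsplit : Sg n N (fun w => (∏ i ∈ Finset.univ.erase j, (G i (w (i + 1)) - G i (w i))) *
      (h (w (j + 1)) - h (w j))) = posT N G h j (posR j 0) (j + 1) - posT N G h j (posL j 0) j := by
    rw [e0, e1]
    unfold posT
    rw [← Sg_sub]
    congr 1
    funext w
    ring
  rw [hsplit, hA, hB]
  have hs : (-1 : R) ^ (j : ℕ) * (-1) ^ (n - 1) = (-1) ^ (n - 1 - j) := by
    have h3 : n - 1 = (n - 1 - j) + j := by omega
    have h4 : (-1 : R) ^ (n - 1) = (-1) ^ (n - 1 - j) * (-1) ^ (j : ℕ) := by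
      conv_lhs => rw [h3]
      rw [pow_add]
    rw [h4, mul_comm ((-1 : R) ^ (n - 1 - j)), ← mul_assoc, ← mul_pow]
    norm_num
  rw [← mul_assoc, hs, sub_self]

end AF21
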