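import Pool.Agent.AF21.TorSg

/-!
# [AF21-TSWAP] Path sums of functions that do not depend on an inner vertex vanish

Proof. Let `0 < i < n` and `s = swap (i-1) i` (as elements of `Fin n`). For `π' = π * s` we have
`vtx π' v j = vtx π v j` for all `j ≠ i`: indeed `π'.symm a = s (π.symm a)`, and for `j ≠ i` the condition
`(s x : ℕ) < j` is equivalent to `(x : ℕ) < j` (both `i-1, i` are `< j` or both are `≥ j`). The signs of `π` and
`π'` are opposite and `π ↦ π * s` is a fixed point free involution, so for each fixed `v` the inner sum vanishes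
(`Finset.sum_involution`, with `f (vtx π' v) = f (vtx π v)` and `sign π' = - sign π`).
-/

set_option autoImplicit false

namespace AF21
open Finset

theorem Sg_swap {R : Type} [CommRing R] {n : ℕ} (N : ℕ) (f : (ℕ → Fin n → ℤ) → R) {i : ℕ} (hi : 0 < i)
    (hin : i < n) (hf : ∀ w w' : ℕ → Fin n → ℤ, (∀ j, j ≠ i → w j = w' j) → f w = f w') :
    Sg n N f = 0 := by
  have h0 : i - 1 < n := by omega
  set s : Equiv.Perm (Fin n) := Equiv.swap ⟨i - 1, h0⟩ ⟨i, hin⟩ with hs
  have hne : (⟨i - 1, h0⟩ : Fin n) ≠ ⟨i, hin⟩ := by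
    intro h
    have := congrArg Fin.val h
    simp only at this
    omega
  have hvtx : ∀ (π : Equiv.Perm (Fin n)) (v : Fin n → ℤ) (j : ℕ), j ≠ i →
      vtx (π * s) v j = vtx π v j := by
    intro π v j hj
    funext a
    unfold vtx
    have h1 : (π * s).symm a = s (π.symm a) := by
      rw [Equiv.symm_apply_eq, Equiv.Perm.mul_apply, hs, Equiv.swap_apply_self,
        Equiv.apply_symm_apply]
    rw [h1]
    have h2 : ((s (π.symm a) : Fin n) : ℕ) < j ↔ ((π.symm a : Fin n) : ℕ) < j := by
      rw [hs, Equiv.swap_apply_def]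
      split_ifs with h3 h4
      · rw [h3]
        simp only
        omega
      · rw [h4]
        simp only
        omega
      · rfl
    simp only [h2]
  unfold Sg
  refine Finset.sum_eq_zero fun v _ => ?_
  refine Finset.sum_involution (fun π _ => π * s) (fun π _ => ?_) (fun π _ _ => ?_)
    (fun π _ => Finset.mem_univ _) (fun π _ => ?_)
  · have h1 : f (vtx (π * s) v) = f (vtx π v) := hf _ _ fun j hj => hvtx π v j hj
    rw [h1, Equiv.Perm.sign_mul, hs, Equiv.Perm.sign_swap hne]
    push_cast
    ring
  · intro h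
    have h1 : s = 1 := by
      have h2 : π * s = π * 1 := by rw [h, mul_one]
      exact mul_left_cancel h2
    rw [hs, Equiv.swap_eq_one_iff] at h1
    exact hne h1
  · rw [mul_assoc, hs, Equiv.swap_mul_self, mul_one]

end AF21
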