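import Pool.Agent.AF21.SegHom
import Pool.Agent.AF21.BraidRel
import Pool.Agent.AF21.GrpBasic

/-!
# [AF21-TORUSMAP] The torus of `n` disjoint half twists

Proof. For `y ∈ ℝ^n` (`2 n ≤ k`) let `q(y)` be the configuration with the points `2j, 2j+1` (`j < n`) at
`2j + 1/2 ∓ (1/2) exp(iπ y_j)` and the points `i ≥ 2n` at `i`. It is injective (pairs on disjoint circles) and continuous in `y`.
`H = G.toMap ∘ q : C(ℝ^n, Y)`, `H 0 = G.toMap (std k)` (`q 0 = std k`). `H` is periodic: `q(y + m)` is `q(y)` with the labels `2j`, `2j+1`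
exchanged for odd `m_j` (`exp(iπ(y+m)) = (-1)^m exp(iπ y)`), a relabelling. `segLoop H (Pi.single j 1)` is (up to the equality
`H 0 = G.toMap (std k)`) the loop of `tw k (2j)`: at time `t` the configuration `q (t e_j)` is `tw k (2j) t` (`tw_apply`). `TorusProp` gives
`m`, not divisible by `p`, with `fp (segLoop H m) = 1`, and by `seg_prod` this is the relation.
(To avoid transport along `H 0 = G.toMap (std k)`: prove first `q 0 = std k` and state things for a general base point `x0` with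
`h : H 0 = x0`, `subst`; or use that the map `fp`/`Rel` is compatible with `Path.cast`.)
-/

set_option autoImplicit false

open Set Topology

namespace AF21
variable {k n : ℕ} {Y : Type} [TopologicalSpace Y]

/-- position of the point `j` in the configuration of the torus -/
noncomputable def h32F (n : ℕ) (y : Fin n → ℝ) (j : ℕ) : ℂ :=
  if h : j < 2 * n then
    (((2 * (j / 2) : ℕ) : ℂ) + 1 / 2) + (if j % 2 = 0 then (-1 : ℂ) else 1) * (1 / 2) *
      Complex.exp (Real.pi * y ⟨j / 2, by omega⟩ * Complex.I)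
  else (j : ℂ)

private theorem h32F_re {n : ℕ} (y : Fin n → ℝ) (j : ℕ) (h : j < 2 * n) :
    ((2 * (j / 2) : ℕ) : ℝ) ≤ (h32F n y j).re ∧ (h32F n y j).re ≤ ((2 * (j / 2) : ℕ) : ℝ) + 1 := by
  set E : ℂ := Complex.exp (Real.pi * y ⟨j / 2, by omega⟩ * Complex.I) with hE
  have hn : ‖E‖ = 1 := by
    rw [hE]
    have : (Real.pi * y ⟨j / 2, by omega⟩ * Complex.I : ℂ)
        = ((Real.pi * y ⟨j / 2, by omega⟩ : ℝ) : ℂ) * Complex.I := by push_cast; ring
    rw [this, Complex.norm_exp_ofReal_mul_I]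
  have hre : |E.re| ≤ 1 := by
    rw [← hn]
    exact Complex.abs_re_le_norm E
  have h1 := abs_le.1 hre
  have h2 : (h32F n y j).re = ((2 * (j / 2) : ℕ) : ℝ) + 1 / 2 +
      (if j % 2 = 0 then (-1 : ℝ) else 1) * (1 / 2) * E.re := by
    unfold h32F
    rw [dif_pos h, ← hE]
    split_ifs with h3
    · have e1 : (((2 * (j / 2) : ℕ) : ℂ) + 1 / 2) + (-1) * (1 / 2) * E
          = ((((2 * (j / 2) : ℕ) : ℝ) + 1 / 2 : ℝ) : ℂ) + ((-1 * (1 / 2) : ℝ) : ℂ) * E := by
        push_cast
        ring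
      rw [e1, Complex.add_re, Complex.ofReal_re, Complex.re_ofReal_mul]
    · have e1 : (((2 * (j / 2) : ℕ) : ℂ) + 1 / 2) + 1 * (1 / 2) * E
          = ((((2 * (j / 2) : ℕ) : ℝ) + 1 / 2 : ℝ) : ℂ) + ((1 * (1 / 2) : ℝ) : ℂ) * E := by
        push_cast
        ring
      rw [e1, Complex.add_re, Complex.ofReal_re, Complex.re_ofReal_mul]
  rw [h2]
  split_ifs with h3
  · constructor <;> linarith
  · constructor <;> linarith

private theorem h32F_ge {n : ℕ} (y : Fin n → ℝ) (j : ℕ) (h : ¬ j < 2 * n) : h32F n y j = (j : ℂ) := by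
  unfold h32F
  rw [dif_neg h]

private theorem h32F_inj {n : ℕ} (y : Fin n → ℝ) : Function.Injective (h32F n y) := by
  intro a b hab
  have hre : (h32F n y a).re = (h32F n y b).re := by rw [hab]
  by_cases ha : a < 2 * n
  · by_cases hb : b < 2 * n
    · have h1 := h32F_re y a ha
      have h2 := h32F_re y b hb
      have h3 : a / 2 = b / 2 := by
        by_contra hne
        rcases Nat.lt_or_gt_of_ne hne with h | h
        · have h4 : 2 * (a / 2) + 2 ≤ 2 * (b / 2) := by omega
          have h5 : ((2 * (a / 2) : ℕ) : ℝ) + 2 ≤ ((2 * (b / 2) : ℕ) : ℝ) := by exact_mod_cast h4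
          linarith
        · have h4 : 2 * (b / 2) + 2 ≤ 2 * (a / 2) := by omega
          have h5 : ((2 * (b / 2) : ℕ) : ℝ) + 2 ≤ ((2 * (a / 2) : ℕ) : ℝ) := by exact_mod_cast h4
          linarith
      have h6 : (⟨a / 2, by omega⟩ : Fin n) = ⟨b / 2, by omega⟩ := Fin.ext h3
      unfold h32F at hab
      rw [dif_pos ha, dif_pos hb, h6, h3] at hab
      have h7 := Complex.exp_ne_zero (Real.pi * y ⟨b / 2, by omega⟩ * Complex.I)
      by_cases e1 : a % 2 = 0
      · by_cases e2 : b % 2 = 0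
        · omega
        · exfalso
          rw [if_pos e1, if_neg e2] at hab
          apply h7
          linear_combination -hab
      · by_cases e2 : b % 2 = 0
        · exfalso
          rw [if_neg e1, if_pos e2] at hab
          apply h7
          linear_combination hab
        · omega
    · exfalso
      have h1 := h32F_re y a ha
      rw [h32F_ge y b hb, Complex.natCast_re] at hre
      have h4 : 2 * (a / 2) + 2 ≤ b := by omega
      have h5 : ((2 * (a / 2) : ℕ) : ℝ) + 2 ≤ (b : ℝ) := by exact_mod_cast h4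
      linarith
  · by_cases hb : b < 2 * n
    · exfalso
      have h1 := h32F_re y b hb
      rw [h32F_ge y a ha, Complex.natCast_re] at hre
      have h4 : 2 * (b / 2) + 2 ≤ a := by omega
      have h5 : ((2 * (b / 2) : ℕ) : ℝ) + 2 ≤ (a : ℝ) := by exact_mod_cast h4
      linarith
    · rw [h32F_ge y a ha, h32F_ge y b hb] at hab
      exact_mod_cast hab

private theorem h32F_cont (n j : ℕ) : Continuous fun y : Fin n → ℝ => h32F n y j := by
  unfold h32F
  by_cases h : j < 2 * n
  · simp only [dif_pos h]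
    fun_prop
  · simp only [dif_neg h]
    exact continuous_const

/-- the torus of configurations -/
private noncomputable def h32q (k n : ℕ) : C(Fin n → ℝ, Conf k) where
  toFun y := ⟨fun j => h32F n y j, fun _ _ h => Fin.ext (h32F_inj y h)⟩
  continuous_toFun := Continuous.subtype_mk (f := fun (y : Fin n → ℝ) (j : Fin k) => h32F n y j)
    (continuous_pi fun j => h32F_cont n j) _

private theorem h32F_zero (n : ℕ) (y : Fin n → ℝ) (j : ℕ) (h : ∀ h : j < 2 * n, y ⟨j / 2, by omega⟩ = 0) :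
    h32F n y j = j := by
  unfold h32F
  split_ifs with h1 h2
  · rw [h h1, Complex.ofReal_zero, mul_zero, zero_mul, Complex.exp_zero]
    have h3 : ((2 * (j / 2) : ℕ) : ℂ) = j := by
      congr 1
      omega
    rw [h3]
    ring
  · rw [h h1, Complex.ofReal_zero, mul_zero, zero_mul, Complex.exp_zero]
    have h3 : ((2 * (j / 2) : ℕ) : ℂ) + 1 = j := by
      have h4 : 2 * (j / 2) + 1 = j := by omega
      exact_mod_cast congrArg (Nat.cast : ℕ → ℂ) h4
    rw [← h3]
    push_cast
    ring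
  · rfl

private theorem h32q_zero (k n : ℕ) : h32q k n 0 = std k := by
  apply Subtype.ext
  funext j
  exact h32F_zero n 0 j fun _ => rfl

/-- equal ranges -/
private theorem h32_perm {k : ℕ} (q q' : Conf k) (h : ∀ j, ∃ j', q.1 j = q'.1 j') :
    ∃ π : Equiv.Perm (Fin k), q = q'.perm π := by
  choose f hf using h
  have h1 : Function.Injective f := by
    intro a b hab
    apply q.2
    rw [hf, hf, hab]
  refine ⟨Equiv.ofBijective f (Finite.injective_iff_bijective.1 h1), ?_⟩
  apply Subtype.ext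
  funext j
  exact hf j

private theorem h32_exp (y : ℝ) (m : ℤ) :
    Complex.exp (Real.pi * (y + m : ℝ) * Complex.I) =
      (if Even m then 1 else -1) * Complex.exp (Real.pi * y * Complex.I) := by
  have h1 : (Real.pi * (y + m : ℝ) * Complex.I : ℂ)
      = Real.pi * y * Complex.I + m * (Real.pi * Complex.I) := by
    push_cast
    ring
  rw [h1, Complex.exp_add, Complex.exp_int_mul, Complex.exp_pi_mul_I, mul_comm]
  congr 1
  split_ifs with h2
  · exact Even.neg_one_zpow h2
  · exact Odd.neg_one_zpow (Int.not_even_iff_odd.1 h2)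

private theorem h32q_per (k n : ℕ) (hn : 2 * n ≤ k) (y : Fin n → ℝ) (m : Fin n → ℤ) :
    ∃ π : Equiv.Perm (Fin k), h32q k n (fun j => y j + m j) = (h32q k n y).perm π := by
  apply h32_perm
  intro j
  change ∃ j' : Fin k, h32F n (fun j => y j + m j) j = h32F n y j'
  by_cases h : (j : ℕ) < 2 * n
  · by_cases he : Even (m ⟨(j : ℕ) / 2, by omega⟩)
    · refine ⟨j, ?_⟩
      unfold h32F
      rw [dif_pos h, dif_pos h, h32_exp, if_pos he, one_mul]
    · by_cases h2 : (j : ℕ) % 2 = 0
      · refine ⟨⟨(j : ℕ) + 1, by omega⟩, ?_⟩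
        have h3 : ((j : ℕ) + 1) / 2 = (j : ℕ) / 2 := by omega
        have h4 : (⟨((j : ℕ) + 1) / 2, by omega⟩ : Fin n) = ⟨(j : ℕ) / 2, by omega⟩ := Fin.ext h3
        unfold h32F
        rw [dif_pos h, dif_pos (by change (j : ℕ) + 1 < 2 * n; omega), h32_exp, if_neg he,
          if_pos h2, if_neg (by change ¬ ((j : ℕ) + 1) % 2 = 0; omega)]
        change _ = (((2 * (((j : ℕ) + 1) / 2) : ℕ) : ℂ) + 1 / 2) + 1 * (1 / 2) *
          Complex.exp (Real.pi * y ⟨((j : ℕ) + 1) / 2, by omega⟩ * Complex.I)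
        rw [h4, h3]
        ring
      · refine ⟨⟨(j : ℕ) - 1, by omega⟩, ?_⟩
        have h3 : ((j : ℕ) - 1) / 2 = (j : ℕ) / 2 := by omega
        have h4 : (⟨((j : ℕ) - 1) / 2, by omega⟩ : Fin n) = ⟨(j : ℕ) / 2, by omega⟩ := Fin.ext h3
        unfold h32F
        rw [dif_pos h, dif_pos (by change (j : ℕ) - 1 < 2 * n; omega), h32_exp, if_neg he,
          if_neg h2, if_pos (by change ((j : ℕ) - 1) % 2 = 0; omega)]
        change _ = (((2 * (((j : ℕ) - 1) / 2) : ℕ) : ℂ) + 1 / 2) + (-1) * (1 / 2) *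
          Complex.exp (Real.pi * y ⟨((j : ℕ) - 1) / 2, by omega⟩ * Complex.I)
        rw [h4, h3]
        ring
  · refine ⟨j, ?_⟩
    rw [h32F_ge _ _ h, h32F_ge _ _ h]

private theorem h32F_tw (n : ℕ) (j : Fin n) (t : ℝ) (i : ℕ) :
    h32F n (fun i => t * ((Pi.single j (1 : ℤ) : Fin n → ℤ) i : ℤ)) i = twF (2 * (j : ℕ)) i t := by
  have hj := j.2
  by_cases h1 : i / 2 = j
  · have h2 : i < 2 * n := by omega
    have h3 : (⟨i / 2, by omega⟩ : Fin n) = j := Fin.ext h1
    unfold h32F twF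
    rw [dif_pos h2, h3]
    beta_reduce
    rw [Pi.single_eq_same, h1, Int.cast_one, mul_one]
    by_cases h4 : i % 2 = 0
    · rw [if_pos h4, if_pos (by omega)]
      push_cast
      ring
    · rw [if_neg h4, if_neg (by omega), if_pos (by omega)]
      push_cast
      ring
  · rw [h32F_zero]
    · unfold twF
      rw [if_neg (by omega), if_neg (by omega)]
    · intro h2
      have h3 : (⟨i / 2, by omega⟩ : Fin n) ≠ j := fun e => h1 (congrArg Fin.val e)
      rw [Pi.single_eq_of_ne h3, Int.cast_zero, mul_zero]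

private theorem h32q_apply (k n : ℕ) (y : Fin n → ℝ) (i : Fin k) : (h32q k n y).1 i = h32F n y i := rfl

private theorem h32q_tw (k n : ℕ) (j : Fin n) (h : 2 * (j : ℕ) + 1 < k) (t : unitInterval) :
    h32q k n (fun i => (t : ℝ) * ((Pi.single j (1 : ℤ) : Fin n → ℤ) i : ℤ)) = tw k (2 * (j : ℕ)) h t := by
  apply Subtype.ext
  apply funext
  intro i
  exact (h32q_apply k n _ i).trans ((h32F_tw n j t i).trans (tw_apply k (2 * (j : ℕ)) h t i).symm)

private theorem h32_rel (H : C(Fin n → ℝ, Y)) (hH : Per H) {x0 : Y} (h : x0 = H 0)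
    (s : ℕ → FundamentalGroup Y x0) (m : Fin n → ℤ)
    (hm : (segLoop H hH m).Homotopic (Path.refl _))
    (hs : ∀ j : Fin n, s (2 * (j : ℕ)) = fp ((segLoop H hH (Pi.single j 1)).cast h h)) : Rel n s m := by
  subst h
  unfold Rel
  simp only [hs]
  have h1 : ∀ j : Fin n, (segLoop H hH (Pi.single j 1)).cast rfl rfl = segLoop H hH (Pi.single j 1) :=
    fun j => rfl
  simp only [h1]
  rw [← seg_prod, fp_eq hm, fp_refl]

theorem torus_rel (hT : TorusProp Y n) (hn : 2 * n ≤ k) (G : SymMap k Y) (p : ℕ) (hp : p.Prime) :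
    ∃ m : Fin n → ℤ, (¬ ∀ j, (p : ℤ) ∣ m j) ∧ Rel n (gen G) m := by
  let H : C(Fin n → ℝ, Y) := G.toMap.comp (h32q k n)
  have hH : Per H := by
    intro y m
    obtain ⟨π, hπ⟩ := h32q_per k n hn y m
    change G.toMap (h32q k n (fun j => y j + m j)) = G.toMap (h32q k n y)
    rw [hπ, G.symm]
  obtain ⟨m, hm1, hm2⟩ := hT H hH p hp
  refine ⟨m, hm1, ?_⟩
  have h0 : G.toMap (std k) = H 0 := by
    change _ = G.toMap (h32q k n 0)
    rw [h32q_zero]
  refine h32_rel H hH h0 (gen G) m hm2 fun j => ?_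
  have hj := j.2
  have hj' : 2 * (j : ℕ) + 1 < k := by omega
  rw [gen_eq G (2 * (j : ℕ)) hj']
  unfold cl
  congr 1
  ext t
  change G.toMap (tw k (2 * (j : ℕ)) hj' t) =
    G.toMap (h32q k n (fun i => (t : ℝ) * ((Pi.single j (1 : ℤ) : Fin n → ℤ) i : ℤ)))
  rw [h32q_tw k n j hj' t]

end AF21
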