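import Pool.Agent.AF21.Lagr
import Pool.Agent.AF21.MultB

/-!
# [AF21-TUBE] Nearest point projection near a compact subset

`near_loc`. `c ∈ W`. Take `ρ` so small that the ball is inside `W` and `mult_bound`, `taylor_two` apply. For `y, z ∈ X` in
the ball, `P y = P z = 0`, and `u - y` is represented by `μ` (`lagr`), `‖μ‖ ≤ C1 ‖u - y‖`:
`⟪u - y, z - y⟫ = ⟪μ, fderiv P y (z - y)⟫ ≤ ‖μ‖ ‖P z - P y - fderiv P y (z - y)‖ ≤ C1 C2 ‖u - y‖ ‖z - y‖²`.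

`near_compact`. `K ⊆ X` compact. For `c ∈ K` let `ρ_c, C_c` be as in `near_loc`; cover `K` by finitely many balls
`B(c, ρ_c / 2)`; let `ρ` be the smallest `ρ_c / 2`, `C` the largest `C_c`, and `C' = max C (1/ρ)`. Let `y ∈ K`, `z ∈ X`; `y` is
in some `B(c, ρ_c/2)`. If `‖z - y‖ < ρ` then `z ∈ B(c, ρ_c)` and `near_loc` applies. Otherwise
`⟪u - y, z - y⟫ ≤ ‖u - y‖ ‖z - y‖ ≤ ‖u - y‖ ‖z - y‖² / ρ`.

`tube`. If `K` is empty nothing is to be shown (`q = id`, thickening of `∅` is `∅`). `X` is closed and nonempty; choose a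
nearest point `q u` for every `u` (`IsClosed.exists_infDist_eq_dist`, `V` is proper). Let `K' = X ∩ cthickening 1 K`, compact,
`C` from `near_compact` for `K'`, `ρ = min (1/4) (1/(8 C))`. For `u ∈ thickening ρ K` there is `k ∈ K ⊆ X` with
`‖u - k‖ < ρ`, so `‖u - q u‖ ≤ ‖u - k‖ < ρ` and `dist (q u, k) < 2ρ ≤ 1`, so `q u ∈ K'`. For `u, u'` with nearest points
`y, y' ∈ K'`: `⟪u - y, y' - y⟫ ≤ C ρ ‖y - y'‖²` and `⟪u' - y', y - y'⟫ ≤ C ρ ‖y - y'‖²`; the sum of the left sides is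
`⟪(u - u') - (y - y'), y' - y⟫ = ⟪u - u', y' - y⟫ + ‖y - y'‖²`. So
`‖y - y'‖² (1 - 2 C ρ) ≤ ‖u - u'‖ ‖y - y'‖` and `2 C ρ ≤ 1/4`.
-/

set_option autoImplicit false

open Set Topology
open scoped ContDiff InnerProductSpace

namespace AF21
variable {V F : Type} [NormedAddCommGroup V] [InnerProductSpace ℝ V] [FiniteDimensional ℝ V]
  [NormedAddCommGroup F] [InnerProductSpace ℝ F] [FiniteDimensional ℝ F]

theorem near_loc {X : Set V} {P : V → F} {W : Set V} (h : LocEq X P W) {c : V} (hc : c ∈ W) :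
    ∃ ρ > 0, ∃ C > 0, ∀ y ∈ X, ∀ z ∈ X, ‖y - c‖ < ρ → ‖z - c‖ < ρ → ∀ u, IsNear X u y →
      ⟪u - y, z - y⟫_ℝ ≤ C * ‖u - y‖ * ‖z - y‖ ^ 2 := by
  obtain ⟨ρ0, hρ0, hb⟩ := Metric.isOpen_iff.1 h.isOpen c hc
  obtain ⟨ρ1, hρ1, C1, hC1, h1⟩ := mult_bound h.smooth (h.surj c hc)
  obtain ⟨ρ2, hρ2, C2, hC2, h2⟩ := taylor_two c h.smooth
  refine ⟨min ρ0 (min ρ1 ρ2), by positivity, C1 * C2, by positivity,
    fun y hy z hz hyc hzc u hu => ?_⟩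
  have hyW : y ∈ W := hb (by
    rw [Metric.mem_ball, dist_eq_norm]; exact hyc.trans_le (min_le_left _ _))
  have hzW : z ∈ W := hb (by
    rw [Metric.mem_ball, dist_eq_norm]; exact hzc.trans_le (min_le_left _ _))
  have hy1 : ‖y - c‖ < ρ1 := hyc.trans_le ((min_le_right _ _).trans (min_le_left _ _))
  have hy2 : ‖y - c‖ < ρ2 := hyc.trans_le ((min_le_right _ _).trans (min_le_right _ _))
  have hz2 : ‖z - c‖ < ρ2 := hzc.trans_le ((min_le_right _ _).trans (min_le_right _ _))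
  obtain ⟨μ, hμ⟩ := lagr h hyW hu
  have h3 : ‖μ‖ ≤ C1 * ‖u - y‖ := h1 y hy1 μ (u - y) hμ
  have h4 := h2 y z hy2 hz2
  rw [(h.iff z hzW).1 hz, (h.iff y hyW).1 hy, sub_zero, zero_sub, norm_neg] at h4
  rw [hμ (z - y)]
  calc ⟪μ, fderiv ℝ P y (z - y)⟫_ℝ ≤ ‖μ‖ * ‖fderiv ℝ P y (z - y)‖ := real_inner_le_norm _ _
    _ ≤ (C1 * ‖u - y‖) * (C2 * ‖z - y‖ ^ 2) :=
        mul_le_mul h3 h4 (norm_nonneg _) (by positivity)
    _ = C1 * C2 * ‖u - y‖ * ‖z - y‖ ^ 2 := by ring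

theorem near_compact {X : Set V} {l : ℕ} (hX : Nice X F l) {K : Set V} (hK : IsCompact K) (hKX : K ⊆ X) :
    ∃ C > 0, ∀ y ∈ K, ∀ z ∈ X, ∀ u, IsNear X u y → ⟪u - y, z - y⟫_ℝ ≤ C * ‖u - y‖ * ‖z - y‖ ^ 2 := by
  have key : ∀ c ∈ K, ∃ ρ > 0, ∃ C > 0, ∀ y ∈ X, ∀ z ∈ X, ‖y - c‖ < ρ → ‖z - c‖ < ρ → ∀ u,
      IsNear X u y → ⟪u - y, z - y⟫_ℝ ≤ C * ‖u - y‖ * ‖z - y‖ ^ 2 := by
    intro c hc
    obtain ⟨P, W, hcW, hL, _⟩ := hX.loc c (hKX hc)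
    exact near_loc hL hcW
  -- local statement, with all `z`
  have key2 : ∀ c ∈ K, ∃ ρ > 0, ∃ C > 0, ∀ y ∈ X, ∀ z ∈ X, ‖y - c‖ < ρ → ∀ u,
      IsNear X u y → ⟪u - y, z - y⟫_ℝ ≤ C * ‖u - y‖ * ‖z - y‖ ^ 2 := by
    intro c hc
    obtain ⟨ρ, hρ, C, hC, h⟩ := key c hc
    refine ⟨ρ / 2, by positivity, max C (2 / ρ), by positivity, fun y hy z hz hyc u hu => ?_⟩
    by_cases hzy : ‖z - y‖ < ρ / 2
    · have hzc : ‖z - c‖ < ρ := by
        calc ‖z - c‖ = ‖(z - y) + (y - c)‖ := by congr 1; abel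
          _ ≤ ‖z - y‖ + ‖y - c‖ := norm_add_le _ _
          _ < ρ := by linarith
      refine (h y hy z hz (by linarith) hzc u hu).trans ?_
      have := le_max_left C (2 / ρ)
      gcongr
    · push Not at hzy
      have h1 : 1 ≤ 2 / ρ * ‖z - y‖ := by
        rw [div_mul_eq_mul_div, le_div_iff₀ hρ]
        linarith
      have h2 : 2 / ρ ≤ max C (2 / ρ) := le_max_right _ _
      have h3 : 1 ≤ max C (2 / ρ) * ‖z - y‖ :=
        h1.trans (mul_le_mul_of_nonneg_right h2 (norm_nonneg _))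
      calc ⟪u - y, z - y⟫_ℝ ≤ ‖u - y‖ * ‖z - y‖ := real_inner_le_norm _ _
        _ = (‖u - y‖ * ‖z - y‖) * 1 := (mul_one _).symm
        _ ≤ (‖u - y‖ * ‖z - y‖) * (max C (2 / ρ) * ‖z - y‖) :=
            mul_le_mul_of_nonneg_left h3 (by positivity)
        _ = max C (2 / ρ) * ‖u - y‖ * ‖z - y‖ ^ 2 := by ring
  -- compactness
  refine hK.induction_on (p := fun S => ∃ C > 0, ∀ y ∈ S, y ∈ X → ∀ z ∈ X, ∀ u, IsNear X u y →
      ⟪u - y, z - y⟫_ℝ ≤ C * ‖u - y‖ * ‖z - y‖ ^ 2) ?_ ?_ ?_ ?_ |>.imp ?_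
  · exact ⟨1, one_pos, fun y hy => absurd hy (Set.notMem_empty y)⟩
  · rintro s t hst ⟨C, hC, h⟩
    exact ⟨C, hC, fun y hy => h y (hst hy)⟩
  · rintro s t ⟨C, hC, h⟩ ⟨C', hC', h'⟩
    refine ⟨max C C', by positivity, fun y hy hyX z hz u hu => ?_⟩
    rcases hy with hy | hy
    · refine (h y hy hyX z hz u hu).trans ?_
      have := le_max_left C C'
      gcongr
    · refine (h' y hy hyX z hz u hu).trans ?_
      have := le_max_right C C'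
      gcongr
  · intro c hc
    obtain ⟨ρ, hρ, C, hC, h⟩ := key2 c hc
    refine ⟨Metric.ball c ρ, mem_nhdsWithin_of_mem_nhds (Metric.ball_mem_nhds c hρ), C, hC,
      fun y hy hyX z hz u hu => h y hyX z hz ?_ u hu⟩
    rw [Metric.mem_ball, dist_eq_norm] at hy
    exact hy
  · rintro C ⟨hC, h⟩
    exact ⟨hC, fun y hy => h y hy (hKX hy)⟩

theorem tube {X : Set V} {l : ℕ} (hX : Nice X F l) {K : Set V} (hK : IsCompact K) (hKX : K ⊆ X) :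
    ∃ ρ > 0, ∃ q : V → V, (∀ u ∈ Metric.thickening ρ K, IsNear X u (q u)) ∧
      ∀ u ∈ Metric.thickening ρ K, ∀ u' ∈ Metric.thickening ρ K, ‖q u - q u'‖ ≤ 2 * ‖u - u'‖ := by
  rcases K.eq_empty_or_nonempty with rfl | ⟨k0, hk0⟩
  · refine ⟨1, one_pos, id, fun u hu => ?_, fun u hu => ?_⟩
    · simp [Metric.thickening_empty] at hu
    · simp [Metric.thickening_empty] at hu
  have hXne : X.Nonempty := ⟨k0, hKX hk0⟩
  have hnear : ∀ u, ∃ y, IsNear X u y := by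
    intro u
    obtain ⟨y, hy, hyu⟩ := hX.closed.exists_infDist_eq_dist hXne u
    refine ⟨y, hy, fun z hz => ?_⟩
    rw [← dist_eq_norm, ← dist_eq_norm, ← hyu]
    exact Metric.infDist_le_dist_of_mem hz
  choose q hq using hnear
  have hK' : IsCompact (X ∩ Metric.cthickening 1 K) :=
    (hK.cthickening).inter_left hX.closed
  obtain ⟨C, hC, hCn⟩ := near_compact hX hK' Set.inter_subset_left
  set ρ : ℝ := min (1 / 4) (1 / (8 * C)) with hρdef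
  have hρ : 0 < ρ := by rw [hρdef]; positivity
  have hρ1 : ρ ≤ 1 / 4 := min_le_left _ _
  have hρ2 : C * ρ ≤ 1 / 8 := by
    calc C * ρ ≤ C * (1 / (8 * C)) := mul_le_mul_of_nonneg_left (min_le_right _ _) hC.le
      _ = 1 / 8 := by field_simp
  have hclose : ∀ u ∈ Metric.thickening ρ K, ‖u - q u‖ ≤ ρ ∧ q u ∈ X ∩ Metric.cthickening 1 K := by
    intro u hu
    obtain ⟨k, hk, huk⟩ := Metric.mem_thickening_iff.1 hu
    rw [dist_eq_norm] at huk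
    have h1 : ‖u - q u‖ ≤ ‖u - k‖ := (hq u).2 k (hKX hk)
    refine ⟨h1.trans huk.le, (hq u).1, ?_⟩
    refine Metric.mem_cthickening_of_dist_le (q u) k 1 K hk ?_
    rw [dist_eq_norm]
    calc ‖q u - k‖ = ‖(u - k) - (u - q u)‖ := by congr 1; abel
      _ ≤ ‖u - k‖ + ‖u - q u‖ := norm_sub_le _ _
      _ ≤ 1 := by linarith
  refine ⟨ρ, hρ, q, fun u _ => hq u, fun u hu u' hu' => ?_⟩
  obtain ⟨h1, h2⟩ := hclose u hu
  obtain ⟨h3, h4⟩ := hclose u' hu'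
  have h5 := hCn (q u) h2 (q u') (hq u').1 u (hq u)
  have h6 := hCn (q u') h4 (q u) (hq u).1 u' (hq u')
  have e0 : ‖q u' - q u‖ = ‖q u - q u'‖ := norm_sub_rev _ _
  rw [e0] at h5
  have e1 : ⟪u - q u, q u' - q u⟫_ℝ + ⟪u' - q u', q u - q u'⟫_ℝ =
      ⟪u - u', q u' - q u⟫_ℝ + ‖q u - q u'‖ ^ 2 := by
    rw [← e0, ← real_inner_self_eq_norm_sq, ← neg_sub (q u') (q u), inner_neg_right,
      ← sub_eq_add_neg, ← inner_sub_left, ← inner_add_left]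
    congr 1
    abel
  have h7 : C * ‖u - q u‖ * ‖q u - q u'‖ ^ 2 ≤ 1 / 8 * ‖q u - q u'‖ ^ 2 := by
    refine mul_le_mul_of_nonneg_right ?_ (by positivity)
    exact (mul_le_mul_of_nonneg_left h1 hC.le).trans hρ2
  have h8 : C * ‖u' - q u'‖ * ‖q u - q u'‖ ^ 2 ≤ 1 / 8 * ‖q u - q u'‖ ^ 2 := by
    refine mul_le_mul_of_nonneg_right ?_ (by positivity)
    exact (mul_le_mul_of_nonneg_left h3 hC.le).trans hρ2
  have h9 : -⟪u - u', q u' - q u⟫_ℝ ≤ ‖u - u'‖ * ‖q u - q u'‖ := by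
    rw [← inner_neg_right, neg_sub]
    exact real_inner_le_norm _ _
  have h10 : 3 / 4 * ‖q u - q u'‖ ^ 2 ≤ ‖u - u'‖ * ‖q u - q u'‖ := by linarith
  rcases (norm_nonneg (q u - q u')).eq_or_lt with h11 | h11
  · rw [← h11]
    positivity
  · have h12 : (3 / 4 * ‖q u - q u'‖) * ‖q u - q u'‖ ≤ ‖u - u'‖ * ‖q u - q u'‖ := by
      calc _ = 3 / 4 * ‖q u - q u'‖ ^ 2 := by ring
        _ ≤ _ := h10
    have h13 := le_of_mul_le_mul_right h12 h11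
    have h14 := norm_nonneg (u - u')
    linarith

end AF21
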