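import Pool.Agent.AF21.Defs

/-!
# [AF21-TW] The half twists

Proof of `exists_tw`. For each `t ∈ [0,1]` the function `j ↦ twF i j t` is injective on `Fin k`: the points `i`, `i+1` are the
opposite points `i + 1/2 ∓ (1/2) exp(iπt)` of the circle with centre `i + 1/2` and radius `1/2`, the other points are
the integers `j ≠ i, i+1`, at distance `≥ 3/2` from the centre (`|j - (i + 1/2)| ≥ 3/2`). Continuity in `t` is clear
(`Continuous.subtype_mk`, `continuous_pi`). `t = 0`: `exp 0 = 1`, positions `i`, `i + 1`. `t = 1`: `exp(iπ) = -1`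
(`Complex.exp_pi_mul_I`), positions `i + 1`, `i`: this is `std ∘ swap i (i+1)`.
-/

set_option autoImplicit false

open Set Topology

namespace AF21

private theorem twF_dist (i : ℕ) (t : ℝ) (s : ℂ) (hs : ‖s‖ = 1 / 2) (j : ℕ) (h1 : j ≠ i) (h2 : j ≠ i + 1) :
    (i + 1 / 2 : ℂ) + s * Complex.exp (Real.pi * t * Complex.I) ≠ (j : ℂ) := by
  intro h
  have h3 : s * Complex.exp (Real.pi * t * Complex.I) = (((j : ℝ) - i - 1 / 2 : ℝ) : ℂ) := by
    push_cast
    linear_combination h
  have h4 : ‖s * Complex.exp (Real.pi * t * Complex.I)‖ = 1 / 2 := by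
    rw [norm_mul, hs]
    have : (Real.pi * t * Complex.I : ℂ) = ((Real.pi * t : ℝ) : ℂ) * Complex.I := by push_cast; ring
    rw [this, Complex.norm_exp_ofReal_mul_I, mul_one]
  rw [h3, Complex.norm_real, Real.norm_eq_abs] at h4
  rcases Nat.lt_or_ge j i with h | h
  · have h5 : (j : ℝ) + 1 ≤ i := by exact_mod_cast h
    rw [abs_of_neg (by linarith)] at h4
    linarith
  · have h6 : i + 2 ≤ j := by omega
    have h5 : (i : ℝ) + 2 ≤ j := by exact_mod_cast h6
    rw [abs_of_pos (by linarith)] at h4
    linarith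

private theorem twF_inj (i : ℕ) (t : ℝ) : Function.Injective fun j : ℕ => twF i j t := by
  have key : ∀ j, j ≠ i → j ≠ i + 1 → twF i j t = j := by
    intro j h1 h2
    unfold twF
    rw [if_neg h1, if_neg h2]
  have ki : twF i i t = (i + 1 / 2 : ℂ) + (-(1 / 2)) * Complex.exp (Real.pi * t * Complex.I) := by
    unfold twF
    rw [if_pos rfl]
    ring
  have ki1 : twF i (i + 1) t = (i + 1 / 2 : ℂ) + (1 / 2) * Complex.exp (Real.pi * t * Complex.I) := by
    unfold twF
    rw [if_neg (by omega), if_pos rfl]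
  have n1 : ‖(-(1 / 2) : ℂ)‖ = 1 / 2 := by rw [norm_neg]; norm_num
  have n2 : ‖(1 / 2 : ℂ)‖ = 1 / 2 := by norm_num
  have d1 : ∀ j, j ≠ i → j ≠ i + 1 → twF i i t ≠ twF i j t := by
    intro j h1 h2
    rw [ki, key j h1 h2]
    exact twF_dist i t _ n1 j h1 h2
  have d2 : ∀ j, j ≠ i → j ≠ i + 1 → twF i (i + 1) t ≠ twF i j t := by
    intro j h1 h2
    rw [ki1, key j h1 h2]
    exact twF_dist i t _ n2 j h1 h2
  have d3 : twF i i t ≠ twF i (i + 1) t := by
    rw [ki, ki1]
    intro h
    have h0 : Complex.exp (Real.pi * t * Complex.I) = 0 := by linear_combination -h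
    exact Complex.exp_ne_zero _ h0
  intro a b hab
  simp only at hab
  by_contra hne
  by_cases ha : a = i
  · subst ha
    by_cases hb : b = a + 1
    · subst hb
      exact d3 hab
    · exact d1 b (fun h => hne h.symm) hb hab
  · by_cases ha' : a = i + 1
    · subst ha'
      by_cases hb : b = i
      · subst hb
        exact d3 hab.symm
      · exact d2 b hb (fun h => hne h.symm) hab
    · by_cases hb : b = i
      · subst hb
        exact d1 a ha ha' hab.symm
      · by_cases hb' : b = i + 1
        · subst hb'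
          exact d2 a ha ha' hab.symm
        · rw [key a ha ha', key b hb hb'] at hab
          exact hne (by exact_mod_cast hab)

private theorem twF_cont (i j : ℕ) : Continuous fun t : unitInterval => twF i j t := by
  unfold twF
  split_ifs <;> fun_prop

theorem exists_tw (k i : ℕ) (hi : i + 1 < k) :
    ∃ γ : Path (std k) ((std k).perm (Equiv.swap ⟨i, by omega⟩ ⟨i + 1, hi⟩)),
      ∀ (t : unitInterval) (j : Fin k), (γ t).1 j = twF i j t := by
  refine ⟨⟨⟨fun t => ⟨fun j => twF i j t, fun a b h => Fin.ext (twF_inj i t h)⟩,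
    Continuous.subtype_mk (f := fun (t : unitInterval) (j : Fin k) => twF i j t)
      (continuous_pi fun j => twF_cont i j) _⟩, ?_, ?_⟩, fun t j => rfl⟩
  · apply Subtype.ext
    funext j
    show twF i j ((0 : unitInterval) : ℝ) = ((j : ℕ) : ℂ)
    unfold twF
    rw [Set.Icc.coe_zero, Complex.ofReal_zero, mul_zero, zero_mul, Complex.exp_zero]
    split_ifs with h1 h2
    · rw [h1]; ring
    · rw [h2]; push_cast; ring
    · rfl
  · apply Subtype.ext
    funext j
    show twF i j ((1 : unitInterval) : ℝ)
      = (((Equiv.swap (⟨i, by omega⟩ : Fin k) ⟨i + 1, hi⟩ j : Fin k) : ℕ) : ℂ)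
    unfold twF
    rw [Set.Icc.coe_one, Complex.ofReal_one, mul_one, Complex.exp_pi_mul_I]
    split_ifs with h1 h2
    · have hj : j = ⟨i, by omega⟩ := Fin.ext h1
      rw [hj, Equiv.swap_apply_left]
      push_cast
      ring
    · have hj : j = ⟨i + 1, hi⟩ := Fin.ext h2
      rw [hj, Equiv.swap_apply_right]
      ring
    · rw [Equiv.swap_apply_of_ne_of_ne]
      · intro h
        exact h1 (by rw [h])
      · intro h
        exact h2 (by rw [h])

/-- the half twist of the points `i`, `i + 1` -/
noncomputable def tw (k i : ℕ) (hi : i + 1 < k) :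
    Path (std k) ((std k).perm (Equiv.swap ⟨i, by omega⟩ ⟨i + 1, hi⟩)) := (exists_tw k i hi).choose

theorem tw_apply (k i : ℕ) (hi : i + 1 < k) (t : unitInterval) (j : Fin k) :
    (tw k i hi t).1 j = twF i j t := (exists_tw k i hi).choose_spec t j

/-- the element of the fundamental group given by the half twist -/
noncomputable def gen {k : ℕ} {Y : Type} [TopologicalSpace Y] (G : SymMap k Y) (i : ℕ) :
    FundamentalGroup Y (G.toMap (std k)) :=
  if h : i + 1 < k then cl G (tw k i h) else 1

theorem gen_eq {k : ℕ} {Y : Type} [TopologicalSpace Y] (G : SymMap k Y) (i : ℕ) (h : i + 1 < k) :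
    gen G i = cl G (tw k i h) := dif_pos h

/-- the subgroup generated by the half twists -/
noncomputable def SClos {k : ℕ} {Y : Type} [TopologicalSpace Y] (G : SymMap k Y) :
    Subgroup (FundamentalGroup Y (G.toMap (std k))) :=
  Subgroup.closure {x | ∃ i, i + 1 < k ∧ x = gen G i}

/-- a path of configurations is good if all its closed up loops are in `SClos` -/
def GoodP {k : ℕ} {Y : Type} [TopologicalSpace Y] (G : SymMap k Y) {a b : Conf k} (γ : Path a b) : Prop :=
  ∀ (π ρ : Equiv.Perm (Fin k)) (α : Path (std k) (a.perm π)) (β : Path (std k) (b.perm ρ)),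
    (∀ t, α t ∈ Inc k) → (∀ t, β t ∈ Inc k) → fp (vlp G γ α β) ∈ SClos G

/-- a configuration with different real parts -/
def Reg {k : ℕ} (q : Conf k) : Prop := Function.Injective fun j => (q.1 j).re

end AF21
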